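import Pool.Agent.Lib_MP_f1937f_tb.SpikeAsym

/-!
# Choice of the parameters for large primes
-/

set_option autoImplicit false

namespace Pool.Agent.JB

open Finset Pool.Agent.TB

/-- eventually in the reals -/
private theorem ev_log (D s : ℝ) (hD : 0 ≤ D) (hs : 0 < s) :
    ∀ᶠ x : ℝ in Filter.atTop, D * (1 + Real.log x) ≤ x ^ s := by
  have h1 : ∀ᶠ x : ℝ in Filter.atTop, (1 : ℝ) ≤ x := Filter.eventually_ge_atTop 1
  have hl : (fun x : ℝ => 1 + Real.log x) =o[Filter.atTop] fun x : ℝ => x ^ s := by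
    refine Asymptotics.IsLittleO.add ?_ (isLittleO_log_rpow_atTop hs)
    rw [Asymptotics.isLittleO_const_left]
    right
    exact tendsto_norm_atTop_atTop.comp (tendsto_rpow_atTop hs)
  have := hl.def (c := 1 / (D + 1)) (by positivity)
  filter_upwards [this, h1] with x hx hx1
  have hlog : 0 ≤ Real.log x := Real.log_nonneg hx1
  rw [Real.norm_of_nonneg (by positivity), Real.norm_of_nonneg (by positivity)] at hx
  rw [div_mul_eq_mul_div, one_mul, le_div_iff₀ (by positivity)] at hx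
  nlinarith

/-- PIECE [JB-E4] (both theorems, about 150 lines). PROOF. `τ(n) ≤ K n ^ ε ≤ K p ^ ε` (`Pool.Agent.MP_db34dc_nt.divisor_bound`), so the left side of the
last claim is at most `96 M K p ^ (- ε) / √p`, and `96 M K log p ≤ c p ^ ε` for large `p`. -/
theorem asym_spike (M : ℕ) (hM : 0 < M) (c : ℝ) (hc : 0 < c) (a₀ : ℤ) (ε : ℝ) (hε : 0 < ε) (hε' : ε ≤ 1 / 8) :
    ∃ p₀ : ℕ, 2 ≤ p₀ ∧ ∀ p : ℕ, p₀ ≤ p → 1 ≤ (p : ℝ) ^ (1 / 4 - ε) ∧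
      64 * ((p : ℝ) ^ (1 / 4 - ε)) ^ 2 * (1 + Real.log ((p : ℝ) ^ (1 / 4 - ε))) ≤ √(p : ℝ) / (4 * M) ∧
      |(a₀ : ℝ)| ≤ √(p : ℝ) / 4 ∧
      ∀ n : ℕ, n ≠ 0 → (n : ℝ) ≤ √(p : ℝ) →
        96 * M * ((p : ℝ) ^ (1 / 4 - ε)) ^ 2 * (n.divisors.card : ℝ) / p ≤ c / Real.log p / √(p : ℝ) := by
  obtain ⟨K, hK1, hK⟩ := Pool.Agent.MP_db34dc_nt.divisor_bound ε hε
  have hM' : (0 : ℝ) < M := by exact_mod_cast hM
  obtain ⟨p₁, hp₁⟩ := spike_asym M hM a₀ ε hε hε' 1 1 (by norm_num) (by norm_num)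
  have hK0 : 0 ≤ K := by linarith
  have hev := (tendsto_natCast_atTop_atTop (R := ℝ)).eventually
    (ev_log (96 * M * K / c) ε (by positivity) hε)
  rw [Filter.eventually_atTop] at hev
  obtain ⟨p₂, hp₂⟩ := hev
  refine ⟨max 2 (max p₁ p₂), le_max_left _ _, fun p hp => ?_⟩
  have hp2 : 2 ≤ p := (le_max_left _ _).trans hp
  obtain ⟨h1, h2, h3, _⟩ := hp₁ p ((le_max_left _ _).trans ((le_max_right _ _).trans hp))
  have h4 := hp₂ p ((le_max_right _ _).trans ((le_max_right _ _).trans hp))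
  refine ⟨h1, h2, h3, ?_⟩
  intro n hn hnx
  have hx2 : (2 : ℝ) ≤ (p : ℝ) := by exact_mod_cast hp2
  set x : ℝ := (p : ℝ) with hx
  have hx1 : 1 ≤ x := by linarith
  have hx0 : 0 < x := lt_of_lt_of_le one_pos hx1
  have hlog : 0 < Real.log x := Real.log_pos (by linarith)
  have hsq : √x = x ^ (1 / 2 : ℝ) := Real.sqrt_eq_rpow x
  have hR2 : (x ^ (1 / 4 - ε)) ^ 2 = x ^ (1 / 2 - 2 * ε) := by
    rw [← Real.rpow_natCast, ← Real.rpow_mul hx0.le]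
    congr 1
    push_cast
    ring
  have hn1 : (n : ℝ) ^ ε ≤ x ^ ε := by
    refine Real.rpow_le_rpow (by positivity) ?_ hε.le
    refine hnx.trans ?_
    rw [Real.sqrt_le_left hx0.le]
    nlinarith
  have hd : (n.divisors.card : ℝ) ≤ K * x ^ ε :=
    (hK n hn).trans (mul_le_mul_of_nonneg_left hn1 hK0)
  have h5 : 96 * M * K * Real.log x ≤ c * x ^ ε := by
    have h6 : 96 * M * K / c * Real.log x ≤ x ^ ε := by
      refine le_trans ?_ h4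
      gcongr
      linarith
    calc 96 * M * K * Real.log x = c * (96 * M * K / c * Real.log x) := by field_simp
      _ ≤ c * x ^ ε := mul_le_mul_of_nonneg_left h6 hc.le
  rw [hR2, hsq, div_div, div_le_div_iff₀ hx0 (by positivity)]
  have e1 : x ^ (1 / 2 - 2 * ε) * x ^ ε * x ^ (1 / 2 : ℝ) * x ^ ε = x := by
    rw [← Real.rpow_add hx0, ← Real.rpow_add hx0, ← Real.rpow_add hx0]
    conv_rhs => rw [← Real.rpow_one x]
    congr 1
    ring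
  have hpos : 0 < x ^ (1 / 2 - 2 * ε) * x ^ ε * x ^ (1 / 2 : ℝ) := by positivity
  calc 96 * M * x ^ (1 / 2 - 2 * ε) * (n.divisors.card : ℝ) * (Real.log x * x ^ (1 / 2 : ℝ))
      ≤ 96 * M * x ^ (1 / 2 - 2 * ε) * (K * x ^ ε) * (Real.log x * x ^ (1 / 2 : ℝ)) := by gcongr
    _ = (96 * M * K * Real.log x) * (x ^ (1 / 2 - 2 * ε) * x ^ ε * x ^ (1 / 2 : ℝ)) := by ring
    _ ≤ (c * x ^ ε) * (x ^ (1 / 2 - 2 * ε) * x ^ ε * x ^ (1 / 2 : ℝ)) :=
        mul_le_mul_of_nonneg_right h5 hpos.le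
    _ = c * (x ^ (1 / 2 - 2 * ε) * x ^ ε * x ^ (1 / 2 : ℝ) * x ^ ε) := by ring
    _ = c * x := by rw [e1]

/-- PROOF. `R = p ^ (1/5)`. Divisor bound `τ(n) ≤ K n ^ (1/20)` (`Pool.Agent.MP_db34dc_nt.divisor_bound`). -/
theorem asym_empty (M : ℕ) (hM : 0 < M) (A c : ℝ) (hA : 0 ≤ A) (hc : 0 < c) :
    ∃ p₀ : ℕ, 2 ≤ p₀ ∧ ∀ p : ℕ, p₀ ≤ p → 1 ≤ (p : ℝ) ^ (1 / 5 : ℝ) ∧
      64 * ((p : ℝ) ^ (1 / 5 : ℝ)) ^ 2 * (1 + Real.log ((p : ℝ) ^ (1 / 5 : ℝ))) ≤ √(p : ℝ) / (4 * M) ∧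
      4 * Real.log p ≤ √(p : ℝ) ∧
      (2 * Real.log p + 1) * (A * (p : ℝ) ^ (-(1 / 3) : ℝ)) / (p : ℝ) ^ (1 / 5 : ℝ) ≤ 1 / √(p : ℝ) ∧
      ∀ n : ℕ, n ≠ 0 → (n : ℝ) ≤ √(p : ℝ) →
        (2 * Real.log p + 1) * (A * (p : ℝ) ^ (-(1 / 3) : ℝ)) * ((p : ℝ) ^ (1 / 5 : ℝ) / √(p : ℝ)) * (n.divisors.card : ℝ) ≤
          c / Real.log p / √(p : ℝ) / (2 * Real.log p + 1) := by
  obtain ⟨K, hK1, hK⟩ := Pool.Agent.MP_db34dc_nt.divisor_bound (1 / 20) (by norm_num)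
  have hM' : (0 : ℝ) < M := by exact_mod_cast hM
  have hK0 : 0 ≤ K := by linarith
  have hev := (tendsto_natCast_atTop_atTop (R := ℝ)).eventually
    ((ev_log (256 * M) (1 / 10) (by positivity) (by norm_num)).and
      ((ev_log 4 (1 / 2) (by norm_num) (by norm_num)).and
        ((ev_log (2 * A) (1 / 30) (by positivity) (by norm_num)).and
          (ev_log (4 * (A * K) / c + 1) (1 / 36) (by positivity) (by norm_num)))))
  rw [Filter.eventually_atTop] at hev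
  obtain ⟨p₂, hp₂⟩ := hev
  refine ⟨max 2 p₂, le_max_left _ _, fun p hp => ?_⟩
  have hp2 : 2 ≤ p := (le_max_left _ _).trans hp
  obtain ⟨h1, h2, h3, h4⟩ := hp₂ p ((le_max_right _ _).trans hp)
  have hx2 : (2 : ℝ) ≤ (p : ℝ) := by exact_mod_cast hp2
  set x : ℝ := (p : ℝ) with hx
  have hx1 : 1 ≤ x := by linarith
  have hx0 : 0 < x := lt_of_lt_of_le one_pos hx1
  have hlog : 0 < Real.log x := Real.log_pos (by linarith)
  have hsq : √x = x ^ (1 / 2 : ℝ) := Real.sqrt_eq_rpow x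
  have hR2 : (x ^ (1 / 5 : ℝ)) ^ 2 = x ^ (2 / 5 : ℝ) := by
    rw [← Real.rpow_natCast, ← Real.rpow_mul hx0.le]
    norm_num
  refine ⟨Real.one_le_rpow hx1 (by norm_num), ?_, ?_, ?_, ?_⟩
  · rw [hR2, Real.log_rpow hx0]
    have e1 : x ^ (1 / 2 : ℝ) = x ^ (2 / 5 : ℝ) * x ^ (1 / 10 : ℝ) := by
      rw [← Real.rpow_add hx0]
      norm_num
    rw [hsq, e1, le_div_iff₀ (by positivity)]
    have hpos : 0 < x ^ (2 / 5 : ℝ) := Real.rpow_pos_of_pos hx0 _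
    have h5 : 64 * (1 + 1 / 5 * Real.log x) * (4 * M) ≤ x ^ (1 / 10 : ℝ) := by
      refine le_trans ?_ h1
      nlinarith
    calc 64 * x ^ (2 / 5 : ℝ) * (1 + 1 / 5 * Real.log x) * (4 * M)
        = x ^ (2 / 5 : ℝ) * (64 * (1 + 1 / 5 * Real.log x) * (4 * M)) := by ring
      _ ≤ x ^ (2 / 5 : ℝ) * x ^ (1 / 10 : ℝ) := mul_le_mul_of_nonneg_left h5 hpos.le
  · rw [hsq]
    linarith
  · have h6 : (2 * Real.log x + 1) * A ≤ x ^ (1 / 30 : ℝ) := by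
      refine le_trans ?_ h3
      nlinarith
    have e1 : x ^ (1 / 30 : ℝ) * x ^ (-(1 / 3) : ℝ) * x ^ (1 / 2 : ℝ) = x ^ (1 / 5 : ℝ) := by
      rw [← Real.rpow_add hx0, ← Real.rpow_add hx0]
      norm_num
    rw [hsq, div_le_div_iff₀ (by positivity) (by positivity), one_mul]
    calc (2 * Real.log x + 1) * (A * x ^ (-(1 / 3) : ℝ)) * x ^ (1 / 2 : ℝ)
        = ((2 * Real.log x + 1) * A) * (x ^ (-(1 / 3) : ℝ) * x ^ (1 / 2 : ℝ)) := by ring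
      _ ≤ x ^ (1 / 30 : ℝ) * (x ^ (-(1 / 3) : ℝ) * x ^ (1 / 2 : ℝ)) := by gcongr
      _ = x ^ (1 / 5 : ℝ) := by rw [← mul_assoc, e1]
  · intro n hn hnx
    have hn1 : (n : ℝ) ^ (1 / 20 : ℝ) ≤ x ^ (1 / 20 : ℝ) := by
      refine Real.rpow_le_rpow (by positivity) ?_ (by norm_num)
      refine hnx.trans ?_
      rw [Real.sqrt_le_left hx0.le]
      nlinarith
    have hd : (n.divisors.card : ℝ) ≤ K * x ^ (1 / 20 : ℝ) :=
      (hK n hn).trans (mul_le_mul_of_nonneg_left hn1 hK0)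
    set L : ℝ := 1 + Real.log x with hL
    have hL1 : 1 ≤ L := by linarith
    have hcube : (4 * (A * K) / c + 1) * L ^ 3 ≤ x ^ (1 / 12 : ℝ) := by
      have h7 : ((4 * (A * K) / c + 1) * L) ^ 3 ≤ (x ^ (1 / 36 : ℝ)) ^ 3 :=
        pow_le_pow_left₀ (by positivity) h4 3
      have e2 : (x ^ (1 / 36 : ℝ)) ^ 3 = x ^ (1 / 12 : ℝ) := by
        rw [← Real.rpow_natCast, ← Real.rpow_mul hx0.le]
        norm_num
      rw [e2, mul_pow] at h7
      refine le_trans ?_ h7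
      have h8 : (1 : ℝ) ≤ 4 * (A * K) / c + 1 := by
        have : 0 ≤ 4 * (A * K) / c := by positivity
        linarith
      have h9 : 4 * (A * K) / c + 1 ≤ (4 * (A * K) / c + 1) ^ 3 := by
        calc 4 * (A * K) / c + 1 = (4 * (A * K) / c + 1) ^ 1 := (pow_one _).symm
          _ ≤ (4 * (A * K) / c + 1) ^ 3 := pow_le_pow_right₀ h8 (by norm_num)
      exact mul_le_mul_of_nonneg_right h9 (by positivity)
    have h10 : A * K * (4 * L ^ 3) ≤ c * x ^ (1 / 12 : ℝ) := by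
      calc A * K * (4 * L ^ 3) = c * (4 * (A * K) / c * L ^ 3) := by field_simp
        _ ≤ c * ((4 * (A * K) / c + 1) * L ^ 3) := by
            refine mul_le_mul_of_nonneg_left ?_ hc.le
            refine mul_le_mul_of_nonneg_right ?_ (by positivity)
            linarith
        _ ≤ c * x ^ (1 / 12 : ℝ) := mul_le_mul_of_nonneg_left hcube hc.le
    have h11 : (2 * Real.log x + 1) * (2 * Real.log x + 1) * Real.log x ≤ 4 * L ^ 3 := by
      have a1 : 2 * Real.log x + 1 ≤ 2 * L := by linarith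
      have a2 : Real.log x ≤ L := by linarith
      calc (2 * Real.log x + 1) * (2 * Real.log x + 1) * Real.log x
          ≤ (2 * L) * (2 * L) * L := by gcongr
        _ = 4 * L ^ 3 := by ring
    rw [hsq, div_div, div_div, le_div_iff₀ (by positivity)]
    have e1 : x ^ (1 / 12 : ℝ) * x ^ (-(1 / 3) : ℝ) * x ^ (1 / 5 : ℝ) * x ^ (1 / 20 : ℝ) = 1 := by
      rw [← Real.rpow_add hx0, ← Real.rpow_add hx0, ← Real.rpow_add hx0]
      norm_num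
    have hpos : 0 < x ^ (-(1 / 3) : ℝ) * x ^ (1 / 5 : ℝ) * x ^ (1 / 20 : ℝ) := by positivity
    calc (2 * Real.log x + 1) * (A * x ^ (-(1 / 3) : ℝ)) * (x ^ (1 / 5 : ℝ) / x ^ (1 / 2 : ℝ)) *
          (n.divisors.card : ℝ) * (Real.log x * (x ^ (1 / 2 : ℝ) * (2 * Real.log x + 1)))
        ≤ (2 * Real.log x + 1) * (A * x ^ (-(1 / 3) : ℝ)) * (x ^ (1 / 5 : ℝ) / x ^ (1 / 2 : ℝ)) *
          (K * x ^ (1 / 20 : ℝ)) * (Real.log x * (x ^ (1 / 2 : ℝ) * (2 * Real.log x + 1))) := by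
          gcongr
      _ = (A * K * ((2 * Real.log x + 1) * (2 * Real.log x + 1) * Real.log x)) *
          (x ^ (-(1 / 3) : ℝ) * x ^ (1 / 5 : ℝ) * x ^ (1 / 20 : ℝ)) := by
          have : x ^ (1 / 2 : ℝ) ≠ 0 := by positivity
          field_simp
      _ ≤ (A * K * (4 * L ^ 3)) * (x ^ (-(1 / 3) : ℝ) * x ^ (1 / 5 : ℝ) * x ^ (1 / 20 : ℝ)) := by
          gcongr
      _ ≤ (c * x ^ (1 / 12 : ℝ)) * (x ^ (-(1 / 3) : ℝ) * x ^ (1 / 5 : ℝ) * x ^ (1 / 20 : ℝ)) :=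
          mul_le_mul_of_nonneg_right h10 hpos.le
      _ = c * (x ^ (1 / 12 : ℝ) * x ^ (-(1 / 3) : ℝ) * x ^ (1 / 5 : ℝ) * x ^ (1 / 20 : ℝ)) := by ring
      _ = c := by rw [e1, mul_one]

end Pool.Agent.JB
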