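import Pool.Agent.Lib_MP_f1937f_jb.AvgP

/-!
# The average of `CC`
-/

set_option autoImplicit false

namespace Pool.Agent.JB

open Finset Pool.Agent.TB

/-- periodicity of the summand -/
theorem ite_per (d t : ℤ) (h m N : ℕ) (hN1 : h ∣ N) (hN2 : m ∣ N) (b : ℕ) :
    (if (m : ℤ) ∣ ((b % N : ℕ) : ℤ) - t then CC d ((b % N : ℕ) : ℤ) h else 0) = if (m : ℤ) ∣ (b : ℤ) - t then CC d b h else 0 := by
  have h1 : (N : ℤ) ∣ ((b % N : ℕ) : ℤ) - (b : ℤ) := by
    rw [Int.natCast_mod]
    exact ⟨-((b : ℤ) / N), by have := Int.emod_add_mul_ediv (b : ℤ) N; linear_combination this⟩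
  have h2 : (m : ℤ) ∣ ((b % N : ℕ) : ℤ) - (b : ℤ) := (Int.natCast_dvd_natCast.mpr hN2).trans h1
  have h3 : (h : ℤ) ∣ ((b % N : ℕ) : ℤ) - (b : ℤ) := (Int.natCast_dvd_natCast.mpr hN1).trans h1
  refine if_congr ?_ (CC_congr (by simp) h3) rfl
  constructor
  · intro h; have := dvd_sub h h2; simpa using this
  · intro h; have := dvd_add h h2; simpa using this

/-- PIECE [JB-A4] (all theorems of this file, about 150 lines). PROOF. Strong induction on `h`. `h = 1`: one `b < m` with `m ∣ b - t`.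
`h > 1`: let `l` be a prime factor, `h = l ^ J * h'`, `m = l ^ j * m'`, `l ∤ h'`, `l ∤ m'` (`Nat.exists_eq_pow_mul_and_not_dvd`). Then
`h * m = l ^ (J + j) * (h' * m')` with coprime factors, `CC d b h = CC d b (l ^ J) * CC d b h'` and `m ∣ b - t` iff `l ^ j ∣ b - t` and
`m' ∣ b - t`; `crt_sum`, `avg_pow` and the induction hypothesis give
`l ^ J * CC d t (l ^ min J j) * (h' * CC d t (gcd h' m')) = h * CC d t (gcd h m)`. -/
theorem avg (d : ℤ) (h m : ℕ) (hh : 0 < h) (hm : 0 < m) (hd : IsCoprime d (h : ℤ)) (t : ℤ) :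
    ∑ b ∈ (range (h * m)).filter (fun b : ℕ => (m : ℤ) ∣ (b : ℤ) - t), CC d b h = h * CC d t (Nat.gcd h m) := by
  induction h using Nat.strong_induction_on generalizing m with
  | _ h ih =>
    rcases Nat.lt_or_ge 1 h with h1 | h1
    · obtain ⟨l, hl, hlh⟩ := Nat.exists_prime_and_dvd (show h ≠ 1 by omega)
      obtain ⟨J, h', hh', rfl⟩ := Nat.exists_eq_pow_mul_and_not_dvd hh.ne' l hl.ne_one
      obtain ⟨j, m', hm', rfl⟩ := Nat.exists_eq_pow_mul_and_not_dvd hm.ne' l hl.ne_one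
      have hJ : 1 ≤ J := by
        rcases Nat.eq_zero_or_pos J with h0 | h0
        · subst h0; exact absurd (by simpa using hlh) hh'
        · exact h0
      have hh0 : 0 < h' := Nat.pos_of_ne_zero (fun h0 => hh' (h0 ▸ dvd_zero l))
      have hm0 : 0 < m' := Nat.pos_of_ne_zero (fun h0 => hm' (h0 ▸ dvd_zero l))
      have hch : ∀ i, Nat.Coprime (l ^ i) h' := fun i => Nat.Coprime.pow_left i ((Nat.Prime.coprime_iff_not_dvd hl).mpr hh')
      have hcm : ∀ i, Nat.Coprime (l ^ i) m' := fun i => Nat.Coprime.pow_left i ((Nat.Prime.coprime_iff_not_dvd hl).mpr hm')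
      have hld : ¬ (l : ℤ) ∣ d := by
        intro h0
        have h2 : (l : ℤ) ∣ ((l ^ J * h' : ℕ) : ℤ) := Int.natCast_dvd_natCast.mpr hlh
        have h3 := hd.isUnit_of_dvd' h0 h2
        exact (Nat.prime_iff_prime_int.mp hl).not_isUnit h3
      have hdh' : IsCoprime d (h' : ℤ) := by
        refine hd.of_isCoprime_of_dvd_right ?_
        exact Int.natCast_dvd_natCast.mpr (dvd_mul_left h' (l ^ J))
      have hlt : h' < l ^ J * h' := by
        have h2 : 1 < l ^ J := Nat.one_lt_pow (by omega) hl.one_lt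
        nlinarith
      have hih := ih h' hlt m' hh0 hm0 hdh'
      have hpow := avg_pow l hl d hld J j t
      rw [Finset.sum_filter] at hih hpow ⊢
      have hsplit : ∀ b ∈ range (l ^ J * h' * (l ^ j * m')),
          (if ((l ^ j * m' : ℕ) : ℤ) ∣ (b : ℤ) - t then CC d b (l ^ J * h') else 0) =
          (fun b : ℕ => if ((l ^ j : ℕ) : ℤ) ∣ (b : ℤ) - t then CC d b (l ^ J) else 0) b *
          (fun b : ℕ => if (m' : ℤ) ∣ (b : ℤ) - t then CC d b h' else 0) b := by
        intro b _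
        have hiff : ((l ^ j * m' : ℕ) : ℤ) ∣ (b : ℤ) - t ↔ ((l ^ j : ℕ) : ℤ) ∣ (b : ℤ) - t ∧ (m' : ℤ) ∣ (b : ℤ) - t := by
          constructor
          · intro h2
            exact ⟨(Int.natCast_dvd_natCast.mpr (dvd_mul_right _ _)).trans h2, (Int.natCast_dvd_natCast.mpr (dvd_mul_left _ _)).trans h2⟩
          · rintro ⟨h2, h3⟩
            push_cast
            exact IsCoprime.mul_dvd (by exact_mod_cast (Nat.isCoprime_iff_coprime.mpr (hcm j))) (by exact_mod_cast h2) h3
        by_cases h2 : ((l ^ j : ℕ) : ℤ) ∣ (b : ℤ) - t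
        · by_cases h3 : (m' : ℤ) ∣ (b : ℤ) - t
          · simp only [if_pos (hiff.mpr ⟨h2, h3⟩), if_pos h2, if_pos h3, CC_mul d b (hch J)]
          · simp only [if_neg (fun h4 => h3 (hiff.mp h4).2), if_neg h3, mul_zero]
        · simp only [if_neg (fun h4 => h2 (hiff.mp h4).1), if_neg h2, zero_mul]
      rw [Finset.sum_congr rfl hsplit, show l ^ J * h' * (l ^ j * m') = l ^ (J + j) * (h' * m') by rw [pow_add]; ring,
        crt_sum (l ^ (J + j)) (h' * m') (pow_pos hl.pos _) (Nat.mul_pos hh0 hm0) (Nat.Coprime.mul_right (hch _) (hcm _)) _ _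
          (fun b => ite_per d t (l ^ J) (l ^ j) (l ^ (J + j)) (pow_dvd_pow l (by omega)) (pow_dvd_pow l (by omega)) b)
          (fun b => ite_per d t h' m' (h' * m') (dvd_mul_right _ _) (dvd_mul_left _ _) b)]
      rw [hpow, hih]
      have hgcd : Nat.gcd (l ^ J * h') (l ^ j * m') = l ^ min J j * Nat.gcd h' m' := by
        rw [Nat.Coprime.gcd_mul _ (hcm j), Nat.Coprime.gcd_mul_right_cancel _ (hch j).symm, Nat.Coprime.gcd_mul_left_cancel _ (hcm J)]
        congr 1
        rcases le_total J j with h5 | h5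
        · rw [min_eq_left h5, Nat.gcd_eq_left (pow_dvd_pow l h5)]
        · rw [min_eq_right h5, Nat.gcd_eq_right (pow_dvd_pow l h5)]
      rw [hgcd, CC_mul d t (Nat.Coprime.coprime_dvd_right (Nat.gcd_dvd_left h' m') (hch _))]
      push_cast
      ring
    · have h2 : h = 1 := by omega
      subst h2
      have h3 : ∀ b ∈ (range (1 * m)).filter (fun b : ℕ => (m : ℤ) ∣ (b : ℤ) - t), CC d b 1 = 1 := fun b _ => CC_one d b
      rw [Finset.sum_congr rfl h3, ← Finset.sum_filter_add_sum_filter_not _ (fun _ => True)]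
      simp only [Finset.filter_true, not_true_eq_false, Finset.filter_false, Finset.sum_empty, add_zero]
      have h4 := count_one m hm t
      rw [← Finset.sum_filter] at h4
      rw [one_mul, h4, Nat.gcd_one_left, CC_one]
      norm_num

/-- `h * m` consists of `gcd h m` periods of length `h / gcd h m * m`. -/
theorem avg_lcm (d : ℤ) (h m : ℕ) (hh : 0 < h) (hm : 0 < m) (hd : IsCoprime d (h : ℤ)) (t : ℤ) :
    ∑ b ∈ (range (h / Nat.gcd h m * m)).filter (fun b : ℕ => (m : ℤ) ∣ (b : ℤ) - t), CC d b h =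
      ((h / Nat.gcd h m : ℕ) : ℝ) * CC d t (Nat.gcd h m) := by
  have hg : 0 < Nat.gcd h m := Nat.gcd_pos_of_pos_left m hh
  have h1 := avg d h m hh hm hd t
  obtain ⟨h1', hh1'⟩ := Nat.gcd_dvd_left h m
  obtain ⟨m1, hm1⟩ := Nat.gcd_dvd_right h m
  set g := Nat.gcd h m with hgdef
  have hdiv : h / g = h1' := by
    rw [hh1']; exact Nat.mul_div_cancel_left _ hg
  have hpos : 0 < h1' := Nat.pos_of_ne_zero (fun h0 => by rw [h0, mul_zero] at hh1'; omega)
  rw [hdiv]
  rw [Finset.sum_filter] at h1 ⊢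
  have hN : h * m = g * (h1' * m) := by rw [← mul_assoc, ← hh1']
  rw [hN, per_sum (h1' * m) g (Nat.mul_pos hpos hm) (fun b : ℕ => if (m : ℤ) ∣ (b : ℤ) - t then CC d b h else 0)
    (fun b => ite_per d t h m (h1' * m) ⟨m1, by
      calc h1' * m = h1' * (g * m1) := by rw [← hm1]
        _ = (g * h1') * m1 := by ring
        _ = h * m1 := by rw [← hh1']⟩ (dvd_mul_left _ _) b)] at h1
  have hgR : (g : ℝ) ≠ 0 := by exact_mod_cast hg.ne'
  have hhR : (h : ℝ) = (g : ℝ) * h1' := by exact_mod_cast hh1'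
  rw [hhR, mul_assoc] at h1
  exact mul_left_cancel₀ hgR h1

/-- `avg` with `m = 1` and `CC ≥ 0`. -/
theorem CC_le (d t : ℤ) (h : ℕ) (hh : 0 < h) (hd : IsCoprime d (h : ℤ)) : CC d t h ≤ h := by
  have h1 := avg d h 1 hh one_pos hd t
  rw [Nat.gcd_one_right, CC_one, mul_one, mul_one] at h1
  have hh' : (0 : ℤ) < (h : ℤ) := by exact_mod_cast hh
  have h0 : 0 ≤ t % (h : ℤ) := Int.emod_nonneg _ hh'.ne'
  have h2 : t % (h : ℤ) < h := Int.emod_lt_of_pos _ hh'
  have h3 : CC d t h = CC d (((t % (h : ℤ)).toNat : ℕ) : ℤ) h := by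
    refine CC_congr (by simp) ?_
    rw [Int.toNat_of_nonneg h0]
    exact ⟨t / h, by have := Int.emod_add_mul_ediv t (h : ℤ); linear_combination -this⟩
  rw [h3, ← h1]
  refine Finset.single_le_sum (f := fun b : ℕ => CC d (b : ℤ) h) (fun b _ => CC_nonneg d b h) ?_
  rw [Finset.mem_filter, Finset.mem_range]
  refine ⟨by omega, ?_⟩
  simp


end Pool.Agent.JB
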