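import Pool.Agent.Lib_MP_f1937f_jb.Defs

/-!
# Sums of products of periodic functions
-/

set_option autoImplicit false

namespace Pool.Agent.JB

open Finset Pool.Agent.TB


/-- PIECE [JB-A2] (about 60 lines). PROOF. Chinese remainder theorem: `b ↦ (b % A, b % B)` is a bijection from `range (A * B)` to
`range A ×ˢ range B`. -/
theorem crt_sum (A B : ℕ) (hA : 0 < A) (hB : 0 < B) (hAB : A.Coprime B) (f g : ℕ → ℝ) (hf : ∀ b, f (b % A) = f b)
    (hg : ∀ b, g (b % B) = g b) :
    ∑ b ∈ range (A * B), f b * g b = (∑ b ∈ range A, f b) * ∑ b ∈ range B, g b := by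
  rw [Finset.sum_mul_sum, ← Finset.sum_product']
  refine Finset.sum_bij (fun b _ => (b % A, b % B)) ?_ ?_ ?_ ?_
  · intro b _
    exact Finset.mem_product.mpr ⟨Finset.mem_range.mpr (Nat.mod_lt _ hA), Finset.mem_range.mpr (Nat.mod_lt _ hB)⟩
  · intro b hb c hc h
    have h2 : b % A = c % A ∧ b % B = c % B := Prod.mk.inj h
    have h1 : b ≡ c [MOD A * B] := (Nat.modEq_and_modEq_iff_modEq_mul hAB).mp ⟨h2.1, h2.2⟩
    exact Nat.ModEq.eq_of_lt_of_lt h1 (Finset.mem_range.mp hb) (Finset.mem_range.mp hc)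
  · rintro ⟨x, y⟩ hxy
    have hx : x < A := Finset.mem_range.mp (Finset.mem_product.mp hxy).1
    have hy : y < B := Finset.mem_range.mp (Finset.mem_product.mp hxy).2
    refine ⟨(Nat.chineseRemainder hAB x y : ℕ),
      Finset.mem_range.mpr (Nat.chineseRemainder_lt_mul hAB x y hA.ne' hB.ne'), ?_⟩
    have h1 : (Nat.chineseRemainder hAB x y : ℕ) % A = x % A := (Nat.chineseRemainder hAB x y).2.1
    have h2 : (Nat.chineseRemainder hAB x y : ℕ) % B = y % B := (Nat.chineseRemainder hAB x y).2.2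
    show ((Nat.chineseRemainder hAB x y : ℕ) % A, (Nat.chineseRemainder hAB x y : ℕ) % B) = (x, y)
    rw [h1, h2, Nat.mod_eq_of_lt hx, Nat.mod_eq_of_lt hy]
  · intro b _
    show f b * g b = f (b % A) * g (b % B)
    rw [hf, hg]

/-- PIECE [JB-A2], same piece: a periodic function over several periods. -/
theorem per_sum (A n : ℕ) (hA : 0 < A) (f : ℕ → ℝ) (hf : ∀ b, f (b % A) = f b) :
    ∑ b ∈ range (n * A), f b = n * ∑ b ∈ range A, f b := by
  have _ := hA
  induction n with
  | zero => simp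
  | succ n ih =>
    have h1 : ∑ b ∈ range A, f (n * A + b) = ∑ b ∈ range A, f b := by
      refine Finset.sum_congr rfl fun b _ => ?_
      rw [← hf (n * A + b), ← hf b, Nat.mul_add_mod_self_right]
    rw [Nat.succ_mul, Finset.sum_range_add, ih, h1]
    push_cast
    ring


end Pool.Agent.JB
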