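import Pool.Agent.Lib_MP_f1937f_jb.RhoSum
import Pool.Agent.Lib_MP_f1937f_jb.Crt

/-!
# The average of `CC`, prime powers
-/

set_option autoImplicit false

namespace Pool.Agent.JB

open Finset Pool.Agent.TB

/-- one full period contains one point of the class -/
theorem count_one (A : ℕ) (hA : 0 < A) (t : ℤ) : ∑ b ∈ range A, (if (A : ℤ) ∣ (b : ℤ) - t then (1 : ℝ) else 0) = 1 := by
  have hA' : (0 : ℤ) < (A : ℤ) := by exact_mod_cast hA
  have h0 : 0 ≤ t % (A : ℤ) := Int.emod_nonneg _ hA'.ne'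
  have h1 : t % (A : ℤ) < A := Int.emod_lt_of_pos _ hA'
  have h2 : ∀ b ∈ range A, (if (A : ℤ) ∣ (b : ℤ) - t then (1 : ℝ) else 0) = if (t % (A : ℤ)).toNat = b then (1 : ℝ) else 0 := by
    intro b hb
    have hb' : b < A := Finset.mem_range.mp hb
    refine if_congr ?_ rfl rfl
    constructor
    · intro h
      have h3 : (b : ℤ) % A = t % A := Int.emod_eq_emod_iff_emod_sub_eq_zero.mpr (Int.emod_eq_zero_of_dvd h)
      rw [Int.emod_eq_of_lt (by positivity) (by exact_mod_cast hb')] at h3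
      omega
    · intro h
      have h3 : (b : ℤ) = t % A := by omega
      rw [h3]
      exact ⟨-(t / A), by have := Int.emod_add_mul_ediv t (A : ℤ); linear_combination this⟩
  rw [Finset.sum_congr rfl h2, Finset.sum_ite_eq, if_pos]
  rw [Finset.mem_range]
  omega

/-- number of the points of the class in `n` periods -/
theorem count_per (A n : ℕ) (hA : 0 < A) (t : ℤ) :
    ∑ b ∈ range (n * A), (if (A : ℤ) ∣ (b : ℤ) - t then (1 : ℝ) else 0) = n := by
  rw [per_sum A n hA (fun b => if (A : ℤ) ∣ (b : ℤ) - t then (1 : ℝ) else 0), count_one A hA t, mul_one]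
  intro b
  refine if_congr ?_ rfl rfl
  have h1 : (A : ℤ) ∣ ((b % A : ℕ) : ℤ) - (b : ℤ) := by
    rw [Int.natCast_mod]
    exact ⟨-((b : ℤ) / A), by have := Int.emod_add_mul_ediv (b : ℤ) A; linear_combination this⟩
  constructor
  · intro h; have := dvd_sub h h1; simpa using this
  · intro h; have := dvd_add h h1; simpa using this

/-- PIECE [JB-A3b] (about 120 lines). PROOF. `J = 0`: `CC = 1`, and there are `1 = l ^ 0` numbers `b < l ^ j` with `l ^ j ∣ b - t`.
`1 ≤ J ≤ j`: for `l ^ j ∣ b - t` one has `CC d b (l ^ J) = CC d t (l ^ J)` (`CC_congr`), and there are `l ^ J` such `b < l ^ (J + j)`.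
`J > j`: `b ↦ CC d b (l ^ J)` and the condition have period `l ^ J`, so the sum is `l ^ j` times the sum over `b < l ^ J` (`per_sum`), there are
`l ^ (J - j)` such `b`, and by `CC_pow`, `rho_sum` the sum over `b < l ^ J` is `kap l * l ^ (J - j) * rho d t (l ^ j) + l ^ (J - j) / (l + 1)`
`= l ^ (J - j) * CC d t (l ^ j)` for `j ≥ 1`, and `kap l * φ (l ^ J) + l ^ J / (l + 1) = l ^ J` for `j = 0`
(`φ (l ^ J) = l ^ J (1 - 1 / l)`, `kap l (1 - 1 / l) = l / (l + 1)`). -/
theorem avg_pow (l : ℕ) (hl : l.Prime) (d : ℤ) (hd : ¬ (l : ℤ) ∣ d) (J j : ℕ) (t : ℤ) :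
    ∑ b ∈ (range (l ^ (J + j))).filter (fun b : ℕ => ((l ^ j : ℕ) : ℤ) ∣ (b : ℤ) - t), CC d b (l ^ J) =
      (l : ℝ) ^ J * CC d t (l ^ min J j) := by
  have hlj : 0 < l ^ j := pow_pos hl.pos j
  have hlJ : 0 < l ^ J := pow_pos hl.pos J
  rcases le_or_gt J j with hJj | hJj
  · rw [min_eq_left hJj]
    have h1 : ∀ b ∈ (range (l ^ (J + j))).filter (fun b : ℕ => ((l ^ j : ℕ) : ℤ) ∣ (b : ℤ) - t), CC d b (l ^ J) = CC d t (l ^ J) := by
      intro b hb
      have h2 := (Finset.mem_filter.mp hb).2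
      refine CC_congr (by simp) ((Int.natCast_dvd_natCast.mpr (pow_dvd_pow l hJj)).trans h2)
    rw [Finset.sum_congr rfl h1, Finset.sum_const, nsmul_eq_mul]
    congr 1
    have h2 := count_per (l ^ j) (l ^ J) hlj t
    rw [Finset.sum_boole, ← pow_add] at h2
    rw [h2]; push_cast; rfl
  · rw [min_eq_right hJj.le, Finset.sum_filter]
    have hJ1 : 1 ≤ J := by omega
    have hper : ∀ b : ℕ, (fun b : ℕ => if ((l ^ j : ℕ) : ℤ) ∣ (b : ℤ) - t then CC d b (l ^ J) else 0) (b % (l ^ J)) =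
        (fun b : ℕ => if ((l ^ j : ℕ) : ℤ) ∣ (b : ℤ) - t then CC d b (l ^ J) else 0) b := by
      intro b
      have h1 : ((l ^ J : ℕ) : ℤ) ∣ ((b % (l ^ J) : ℕ) : ℤ) - (b : ℤ) := by
        rw [Int.natCast_mod]
        exact ⟨-((b : ℤ) / (l ^ J : ℕ)), by have := Int.emod_add_mul_ediv (b : ℤ) (l ^ J : ℕ); linear_combination this⟩
      have h1' : ((l ^ j : ℕ) : ℤ) ∣ ((b % (l ^ J) : ℕ) : ℤ) - (b : ℤ) := (Int.natCast_dvd_natCast.mpr (pow_dvd_pow l hJj.le)).trans h1
      refine if_congr ?_ (CC_congr (by simp) h1) rfl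
      constructor
      · intro h; have := dvd_sub h h1'; simpa using this
      · intro h; have := dvd_add h h1'; simpa using this
    rw [show l ^ (J + j) = l ^ j * l ^ J by rw [pow_add, mul_comm], per_sum (l ^ J) (l ^ j) hlJ _ hper]
    have hJeq : J = (J - j) + j := by omega
    have hcount : (((range (l ^ J)).filter (fun b : ℕ => ((l ^ j : ℕ) : ℤ) ∣ (b : ℤ) - t)).card : ℝ) = (l : ℝ) ^ (J - j) := by
      have h2 := count_per (l ^ j) (l ^ (J - j)) hlj t
      rw [Finset.sum_boole, ← pow_add, ← hJeq] at h2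
      rw [h2]; push_cast; rfl
    have hsum : ∑ b ∈ range (l ^ J), (if ((l ^ j : ℕ) : ℤ) ∣ (b : ℤ) - t then CC d b (l ^ J) else 0) =
        kap l * (if j = 0 then (((l ^ J).totient : ℕ) : ℝ) else (l : ℝ) ^ (J - j) * rho d t (l ^ j)) +
          (l : ℝ) ^ (J - j) * (1 / ((l : ℝ) + 1)) := by
      rw [← Finset.sum_filter, Finset.sum_congr rfl (fun (b : ℕ) _ => CC_pow d (b : ℤ) hl hJ1), Finset.sum_add_distrib, ← Finset.mul_sum,
        rho_sum l hl d hd J j hJ1 hJj.le t, Finset.sum_const, nsmul_eq_mul, hcount]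
    rw [hsum]
    have hl2 : (2 : ℝ) ≤ l := by exact_mod_cast hl.two_le
    have hl1 : (l : ℝ) ^ 2 - 1 ≠ 0 := by nlinarith
    have hl3 : (l : ℝ) + 1 ≠ 0 := by linarith
    have hl4 : (l : ℝ) - 1 ≠ 0 := by linarith
    split_ifs with hj0
    · subst hj0
      obtain ⟨n, rfl⟩ : ∃ n, J = n + 1 := ⟨J - 1, by omega⟩
      rw [Nat.totient_prime_pow_succ hl, pow_zero, CC_one, mul_one, Nat.cast_one, one_mul, Nat.sub_zero]
      push_cast [Nat.cast_sub hl.one_le]
      unfold kap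
      rw [show (l : ℝ) ^ 2 - 1 = ((l : ℝ) - 1) * (l + 1) by ring]
      field_simp
      ring
    · rw [CC_pow d t hl (Nat.one_le_iff_ne_zero.mpr hj0)]
      push_cast
      rw [show (l : ℝ) ^ J = (l : ℝ) ^ j * (l : ℝ) ^ (J - j) by rw [← pow_add]; congr 1; omega]
      ring


end Pool.Agent.JB
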