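import Pool.Agent.Lib_MP_f1937f_jb.Avg

/-!
# The main term
-/

set_option autoImplicit false

namespace Pool.Agent.JB

open Finset Pool.Agent.TB

/-- Moebius inverse of `CC` -/
private noncomputable def mG (d t : ℤ) (q : ℕ) : ℝ :=
  ∑ x ∈ q.divisorsAntidiagonal, ((ArithmeticFunction.moebius x.1 : ℤ) : ℝ) * CC d t x.2

private theorem mG_sum (d t : ℤ) (g : ℕ) (hg : 0 < g) : ∑ q ∈ g.divisors, mG d t q = CC d t g :=
  (ArithmeticFunction.sum_eq_iff_sum_mul_moebius_eq (f := mG d t) (g := CC d t)).2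
    (fun _ _ => rfl) g hg

private theorem mG_le (d t : ℤ) (n q : ℕ) (hd : IsCoprime d (n : ℤ)) (hqn : q ∣ n) :
    |mG d t q| ≤ ∑ f ∈ q.divisors, (f : ℝ) := by
  unfold mG
  refine (Finset.abs_sum_le_sum_abs _ _).trans ?_
  have h1 : ∑ f ∈ q.divisors, (f : ℝ) = ∑ x ∈ q.divisorsAntidiagonal, (x.2 : ℝ) := by
    rw [Nat.sum_divisorsAntidiagonal' (fun _ j => (j : ℝ))]
  rw [h1]
  refine Finset.sum_le_sum fun x hx => ?_
  have hx' := Nat.mem_divisorsAntidiagonal.1 hx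
  have hx2 : x.2 ∣ q := ⟨x.1, by rw [← hx'.1]; ring⟩
  have hx20 : 0 < x.2 := Nat.pos_of_ne_zero (by
    rintro h0
    apply hx'.2
    rw [← hx'.1, h0, mul_zero])
  have hc : IsCoprime d (x.2 : ℤ) :=
    IsCoprime.of_isCoprime_of_dvd_right hd (Int.natCast_dvd_natCast.2 (hx2.trans hqn))
  have h2 := CC_le d t x.2 hx20 hc
  have h3 := CC_nonneg d t x.2
  rw [abs_mul, abs_of_nonneg h3]
  have h4 : |((ArithmeticFunction.moebius x.1 : ℤ) : ℝ)| ≤ 1 := by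
    have := ArithmeticFunction.abs_moebius_le_one (n := x.1)
    exact_mod_cast this
  calc |((ArithmeticFunction.moebius x.1 : ℤ) : ℝ)| * CC d t x.2 ≤ 1 * (x.2 : ℝ) :=
        mul_le_mul h4 h2 h3 zero_le_one
    _ = x.2 := one_mul _

/-- `∑_{q ∣ g ∣ n} φ (n / g) = n / q` -/
private theorem mD_tot (n q : ℕ) (hn : 0 < n) (hq : q ∣ n) :
    ∑ g ∈ n.divisors.filter (q ∣ ·), ((n / g).totient : ℝ) = (n : ℝ) / q := by
  obtain ⟨r, rfl⟩ := hq
  have hq0 : 0 < q := Nat.pos_of_ne_zero (by rintro rfl; simp at hn)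
  have hr0 : 0 < r := Nat.pos_of_ne_zero (by rintro rfl; simp at hn)
  have h1 : (q * r).divisors.filter (q ∣ ·) = r.divisors.image (fun g => q * g) := by
    ext g
    simp only [mem_filter, Nat.mem_divisors, mem_image]
    constructor
    · rintro ⟨⟨h2, h3⟩, ⟨k, rfl⟩⟩
      exact ⟨k, ⟨Nat.dvd_of_mul_dvd_mul_left hq0 h2, hr0.ne'⟩, rfl⟩
    · rintro ⟨k, ⟨h2, h3⟩, rfl⟩
      exact ⟨⟨Nat.mul_dvd_mul_left q h2, hn.ne'⟩, Dvd.intro k rfl⟩
  rw [h1, Finset.sum_image (fun a _ b _ h => Nat.eq_of_mul_eq_mul_left hq0 h)]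
  have h2 : ∀ g ∈ r.divisors, ((q * r / (q * g)).totient : ℝ) = ((r / g).totient : ℝ) := by
    intro g _
    rw [Nat.mul_div_mul_left _ _ hq0]
  rw [Finset.sum_congr rfl h2, Nat.sum_div_divisors r (fun k => ((k.totient : ℕ) : ℝ))]
  have h3 := Nat.sum_totient r
  have h4 : ∑ k ∈ r.divisors, ((k.totient : ℕ) : ℝ) = (r : ℝ) := by exact_mod_cast h3
  rw [h4]
  have : (q : ℝ) ≠ 0 := by positivity
  push_cast
  field_simp

/-- PIECE [JB-A7] (about 120 lines). PROOF. Let `G q = ∑_{f ∣ q} μ (q / f) CC d t f` (Moebius, `ArithmeticFunction.sum_eq_iff_sum_mul_moebius_eq`), so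
`CC d t g = ∑_{q ∣ g} G q` for `g ≥ 1` and `|G q| ≤ ∑_{f ∣ q} f` for `q ∣ n` (`CC_le`, `|μ| ≤ 1`). Then
`∑ h, w h CC d t (gcd h n) = ∑_{q ∣ n} G q ∑_{q ∣ h} w h` and `DD d t n = ∑_{g ∣ n} φ (n / g) / n ∑_{q ∣ g} G q = ∑_{q ∣ n} G q / q`
(`∑_{q ∣ g ∣ n} φ (n / g) = n / q`, `Nat.sum_totient` for `n / q`). The difference is `∑_{q ∣ n} (G q / q) (q ∑_{q ∣ h} w h - 1)`. -/
theorem main_diff (d t : ℤ) (n : ℕ) (hn : 0 < n) (hd : IsCoprime d (n : ℤ)) (X : ℕ) (w : ℕ → ℝ) :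
    |∑ h ∈ Icc 1 X, w h * CC d t (Nat.gcd h n) - DD d t n| ≤
      ∑ q ∈ n.divisors, (∑ f ∈ q.divisors, (f : ℝ)) / q * |(q : ℝ) * ∑ h ∈ (Icc 1 X).filter (q ∣ ·), w h - 1| := by
  have hn' : (n : ℝ) ≠ 0 := by positivity
  have h1 : ∑ h ∈ Icc 1 X, w h * CC d t (Nat.gcd h n) =
      ∑ q ∈ n.divisors, mG d t q * ∑ h ∈ (Icc 1 X).filter (q ∣ ·), w h := by
    have h2 : ∀ h ∈ Icc 1 X, w h * CC d t (Nat.gcd h n) =
        ∑ q ∈ n.divisors, if q ∣ h then mG d t q * w h else 0 := by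
      intro h hh
      have hh0 : 0 < h := (mem_Icc.1 hh).1
      rw [← mG_sum d t (Nat.gcd h n) (Nat.gcd_pos_of_pos_left n hh0), Finset.mul_sum, ← Finset.sum_filter]
      refine Finset.sum_congr ?_ (fun q _ => mul_comm _ _)
      ext q
      simp only [Nat.mem_divisors, mem_filter, Nat.dvd_gcd_iff]
      constructor
      · rintro ⟨⟨a, b⟩, -⟩
        exact ⟨⟨b, hn.ne'⟩, a⟩
      · rintro ⟨⟨b, -⟩, a⟩
        exact ⟨⟨a, b⟩, (Nat.gcd_pos_of_pos_left n hh0).ne'⟩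
    rw [Finset.sum_congr rfl h2, Finset.sum_comm]
    refine Finset.sum_congr rfl fun q _ => ?_
    rw [← Finset.sum_filter, Finset.mul_sum]
  have h3 : DD d t n = ∑ q ∈ n.divisors, mG d t q / q := by
    unfold DD
    have h4 : ∀ g ∈ n.divisors, ((n / g).totient : ℝ) / n * CC d t g =
        ∑ q ∈ n.divisors, if q ∣ g then ((n / g).totient : ℝ) / n * mG d t q else 0 := by
      intro g hg
      have hg0 : 0 < g := Nat.pos_of_mem_divisors hg
      have hgn : g ∣ n := Nat.dvd_of_mem_divisors hg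
      rw [← mG_sum d t g hg0, Finset.mul_sum, ← Finset.sum_filter]
      refine Finset.sum_congr ?_ (fun q _ => rfl)
      ext q
      simp only [Nat.mem_divisors, mem_filter]
      constructor
      · rintro ⟨a, -⟩
        exact ⟨⟨a.trans hgn, hn.ne'⟩, a⟩
      · rintro ⟨-, a⟩
        exact ⟨a, hg0.ne'⟩
    rw [Finset.sum_congr rfl h4, Finset.sum_comm]
    refine Finset.sum_congr rfl fun q hq => ?_
    have hq0 : (q : ℝ) ≠ 0 := by
      have := Nat.pos_of_mem_divisors hq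
      positivity
    rw [← Finset.sum_filter, ← Finset.sum_mul, ← Finset.sum_div,
      mD_tot n q hn (Nat.dvd_of_mem_divisors hq)]
    field_simp
  rw [h1, h3, ← Finset.sum_sub_distrib]
  refine (Finset.abs_sum_le_sum_abs _ _).trans (Finset.sum_le_sum fun q hq => ?_)
  have hq0 : (0 : ℝ) < q := by
    have := Nat.pos_of_mem_divisors hq
    exact_mod_cast this
  have h5 : mG d t q * ∑ h ∈ (Icc 1 X).filter (q ∣ ·), w h - mG d t q / q =
      mG d t q / q * ((q : ℝ) * ∑ h ∈ (Icc 1 X).filter (q ∣ ·), w h - 1) := by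
    field_simp
  rw [h5, abs_mul, abs_div, abs_of_pos hq0]
  refine mul_le_mul_of_nonneg_right ?_ (abs_nonneg _)
  exact div_le_div_of_nonneg_right (mG_le d t n q hd (Nat.dvd_of_mem_divisors hq)) hq0.le

end Pool.Agent.JB
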