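import Pool.Agent.Lib_MP_f1937f_jb.Defs

/-!
# A divisor sum
-/

set_option autoImplicit false

namespace Pool.Agent.JB

open Finset Pool.Agent.TB

private theorem sig_sum_one (n q : ℕ) (hq0 : 0 < q) (hqn : q ≤ n) :
    (∑ f ∈ q.divisors, (f : ℝ)) / q ≤ 1 + Real.log n := by
  have hq : (0 : ℝ) < q := by exact_mod_cast hq0
  have e1 : (∑ f ∈ q.divisors, (f : ℝ)) / q = ∑ f ∈ q.divisors, ((f : ℝ))⁻¹ := by
    rw [← Nat.sum_div_divisors q (fun f => (f : ℝ)), Finset.sum_div]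
    refine Finset.sum_congr rfl fun f hf => ?_
    have hfq := Nat.dvd_of_mem_divisors hf
    have hf0 : (f : ℝ) ≠ 0 := by
      have := Nat.pos_of_mem_divisors hf
      positivity
    rw [Nat.cast_div hfq hf0]
    field_simp
  rw [e1]
  calc ∑ f ∈ q.divisors, ((f : ℝ))⁻¹ ≤ ∑ f ∈ Icc 1 q, ((f : ℝ))⁻¹ := by
        refine Finset.sum_le_sum_of_subset_of_nonneg ?_ (fun _ _ _ => by positivity)
        intro f hf
        exact mem_Icc.2 ⟨Nat.pos_of_mem_divisors hf, Nat.divisor_le hf⟩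
    _ = ((harmonic q : ℚ) : ℝ) := by
        rw [harmonic_eq_sum_Icc]
        push_cast
        rfl
    _ ≤ 1 + Real.log q := harmonic_le_one_add_log q
    _ ≤ 1 + Real.log n := by
        have : (q : ℝ) ≤ n := by exact_mod_cast hqn
        have := Real.log_le_log hq this
        linarith

private theorem sig_sum_cube (n : ℕ) (hn : 1 ≤ n) :
    ∑ e ∈ Icc 1 n, (((e : ℝ)) ^ 3)⁻¹ ≤ 2 - 1 / n := by
  induction n, hn using Nat.le_induction with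
  | base => norm_num
  | succ n hn ih =>
    rw [Finset.sum_Icc_succ_top (by omega)]
    have h0 : (0 : ℝ) < n := by exact_mod_cast hn
    have h1 : (((n + 1 : ℕ) : ℝ) ^ 3)⁻¹ ≤ 1 / (n : ℝ) - 1 / ((n + 1 : ℕ) : ℝ) := by
      push_cast
      rw [div_sub_div _ _ (by positivity) (by positivity), inv_eq_one_div,
        div_le_div_iff₀ (by positivity) (by positivity)]
      nlinarith [sq_nonneg (n : ℝ), mul_pos h0 h0]
    linarith

/-- PIECE [JB-A8] (about 70 lines). PROOF. `(∑_{f ∣ q} f) / q = ∑_{f ∣ q} 1 / f ≤ ∑_{f ≤ q} 1 / f ≤ 1 + log q ≤ 1 + log n` (harmonic sum,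
`harmonic_le_one_add_log`), and `∑_{q ∣ n} q ^ 3 = n ^ 3 ∑_{e ∣ n} 1 / e ^ 3 ≤ 2 n ^ 3`
(`∑_{e ≤ n} 1 / e ^ 3 ≤ 1 + ∑_{2 ≤ e ≤ n} (1 / (e - 1) - 1 / e) ≤ 2`). -/
theorem sig_sum (n : ℕ) (hn : 1 ≤ n) :
    ∑ q ∈ n.divisors, (∑ f ∈ q.divisors, (f : ℝ)) / q * (q : ℝ) ^ 3 ≤ 2 * (1 + Real.log n) * (n : ℝ) ^ 3 := by
  have hn' : (1 : ℝ) ≤ n := by exact_mod_cast hn
  have hlog : 0 ≤ Real.log n := Real.log_nonneg hn'
  have h1 : ∑ q ∈ n.divisors, (∑ f ∈ q.divisors, (f : ℝ)) / q * (q : ℝ) ^ 3 ≤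
      ∑ q ∈ n.divisors, (1 + Real.log n) * (q : ℝ) ^ 3 := by
    refine Finset.sum_le_sum fun q hq => ?_
    exact mul_le_mul_of_nonneg_right
      (sig_sum_one n q (Nat.pos_of_mem_divisors hq) (Nat.divisor_le hq)) (by positivity)
  have h2 : ∑ q ∈ n.divisors, (q : ℝ) ^ 3 ≤ 2 * (n : ℝ) ^ 3 := by
    rw [← Nat.sum_div_divisors n (fun q => (q : ℝ) ^ 3)]
    have h3 : ∑ q ∈ n.divisors, ((n / q : ℕ) : ℝ) ^ 3 = (n : ℝ) ^ 3 * ∑ q ∈ n.divisors, (((q : ℝ)) ^ 3)⁻¹ := by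
      rw [Finset.mul_sum]
      refine Finset.sum_congr rfl fun q hq => ?_
      have hq0 : (q : ℝ) ≠ 0 := by
        have := Nat.pos_of_mem_divisors hq
        positivity
      rw [Nat.cast_div (Nat.dvd_of_mem_divisors hq) hq0]
      field_simp
    rw [h3]
    have h4 : ∑ q ∈ n.divisors, (((q : ℝ)) ^ 3)⁻¹ ≤ ∑ q ∈ Icc 1 n, (((q : ℝ)) ^ 3)⁻¹ := by
      refine Finset.sum_le_sum_of_subset_of_nonneg ?_ (fun _ _ _ => by positivity)
      intro f hf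
      exact mem_Icc.2 ⟨Nat.pos_of_mem_divisors hf, Nat.divisor_le hf⟩
    have h5 := sig_sum_cube n hn
    have h6 : 0 < 1 / (n : ℝ) := by positivity
    have h7 : (0 : ℝ) < (n : ℝ) ^ 3 := by positivity
    nlinarith
  calc ∑ q ∈ n.divisors, (∑ f ∈ q.divisors, (f : ℝ)) / q * (q : ℝ) ^ 3
      ≤ ∑ q ∈ n.divisors, (1 + Real.log n) * (q : ℝ) ^ 3 := h1
    _ = (1 + Real.log n) * ∑ q ∈ n.divisors, (q : ℝ) ^ 3 := by rw [Finset.mul_sum]
    _ ≤ (1 + Real.log n) * (2 * (n : ℝ) ^ 3) := mul_le_mul_of_nonneg_left h2 (by linarith)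
    _ = 2 * (1 + Real.log n) * (n : ℝ) ^ 3 := by ring

end Pool.Agent.JB
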