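import Pool.Agent.Lib_MP_f1937f_jb.Avg

/-!
# One level
-/

set_option autoImplicit false

namespace Pool.Agent.JB

open Finset Pool.Agent.TB


/-- PIECE [JB-D1] (about 100 lines). PROOF. Let `L = h / gcd h m * m`, a multiple of `h` and of `m`. Partition the `a` by their class `b < L`; `CC d a h = CC d b h` (`CC_congr`), and
`m ∣ a - t` iff `m ∣ b - t`. So the sum is `∑_{b < L, m ∣ b - t} CC d b h * ∑_{a ∈ S, L ∣ a - b} F a`, and by `avg_lcm`
`∑_{b < L, m ∣ b - t} CC d b h * (κ / L) = (h / gcd h m) * CC d t (gcd h m) * κ / L = CC d t (gcd h m) / m * κ`. Take for `c` a `b < L` for which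
`|∑_{a ∈ S, L ∣ a - b} F a - κ / L|` is maximal. -/
theorem term_h (d : ℤ) (h m : ℕ) (hh : 0 < h) (hm : 0 < m) (hd : IsCoprime d (h : ℤ)) (t : ℤ) (S : Finset ℤ) (F : ℤ → ℝ) (κ : ℝ) :
    ∃ c : ℤ, |∑ a ∈ S.filter (fun a => (m : ℤ) ∣ a - t), CC d a h * F a - CC d t (Nat.gcd h m) / m * κ| ≤
      ((h / Nat.gcd h m : ℕ) : ℝ) * CC d t (Nat.gcd h m) *
        |∑ a ∈ S.filter (fun a => ((h / Nat.gcd h m * m : ℕ) : ℤ) ∣ a - c), F a - κ / ((h / Nat.gcd h m * m : ℕ) : ℝ)| := by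
  classical
  obtain ⟨g, hg⟩ : ∃ g, g = Nat.gcd h m := ⟨_, rfl⟩
  rw [← hg]
  have hg0 : 0 < g := hg ▸ Nat.gcd_pos_of_pos_left m hh
  have hgh : g ∣ h := hg ▸ Nat.gcd_dvd_left h m
  have hgm : g ∣ m := hg ▸ Nat.gcd_dvd_right h m
  obtain ⟨q, hq⟩ : ∃ q, q = h / g := ⟨_, rfl⟩
  rw [← hq]
  have hhq : h = q * g := by rw [hq, Nat.div_mul_cancel hgh]
  have hq0 : 0 < q := Nat.pos_of_ne_zero (by rintro rfl; omega)
  obtain ⟨L, hL⟩ : ∃ L, L = q * m := ⟨_, rfl⟩
  rw [← hL]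
  have hL0 : 0 < L := hL ▸ Nat.mul_pos hq0 hm
  have hmL : (m : ℤ) ∣ (L : ℤ) := by
    rw [hL]
    push_cast
    exact dvd_mul_left _ _
  have hhL : (h : ℤ) ∣ (L : ℤ) := by
    obtain ⟨m', hm'⟩ := hgm
    have : L = h * m' := by rw [hL, hhq, hm']; ring
    rw [this]
    push_cast
    exact dvd_mul_right _ _
  have hLz : (0 : ℤ) < L := by exact_mod_cast hL0
  have hLr : (0 : ℝ) < L := by exact_mod_cast hL0
  have hmr : (0 : ℝ) < m := by exact_mod_cast hm
  obtain ⟨X, hX⟩ : ∃ X : ℕ → ℝ, X = fun b : ℕ => ∑ a ∈ S.filter (fun a => (L : ℤ) ∣ a - (b : ℤ)), F a := ⟨_, rfl⟩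
  obtain ⟨R, hR⟩ : ∃ R, R = (range L).filter (fun b : ℕ => (m : ℤ) ∣ (b : ℤ) - t) := ⟨_, rfl⟩
  have havg := avg_lcm d h m hh hm hd t
  rw [← hg, ← hq, ← hL, ← hR] at havg
  have hfib : ∀ (a : ℤ) (b : ℕ), b < L → ((a % (L : ℤ)).toNat = b ↔ (L : ℤ) ∣ a - (b : ℤ)) := by
    intro a b hb
    have h0 : 0 ≤ a % (L : ℤ) := Int.emod_nonneg _ hLz.ne'
    have hbz : (b : ℤ) < L := by exact_mod_cast hb
    constructor
    · intro h1
      have h2 : a % (L : ℤ) = b := by omega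
      rw [← h2]
      exact Int.dvd_self_sub_emod
    · intro h1
      have h3 : a % (L : ℤ) = (b : ℤ) % (L : ℤ) :=
        Int.emod_eq_emod_iff_emod_sub_eq_zero.2 (Int.emod_eq_zero_of_dvd h1)
      rw [h3, Int.emod_eq_of_lt (by positivity) hbz]
      simp
  have hsum : ∑ a ∈ S.filter (fun a => (m : ℤ) ∣ a - t), CC d a h * F a = ∑ b ∈ R, CC d b h * X b := by
    rw [← Finset.sum_fiberwise_of_maps_to (g := fun a : ℤ => (a % (L : ℤ)).toNat) (t := R)]
    · refine Finset.sum_congr rfl fun b hb => ?_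
      rw [hR, mem_filter, mem_range] at hb
      obtain ⟨hbL, hbt⟩ := hb
      rw [hX]
      dsimp only
      rw [mul_sum, filter_filter]
      refine Finset.sum_congr ?_ fun a ha => ?_
      · ext a
        rw [mem_filter, mem_filter, hfib a b hbL]
        constructor
        · rintro ⟨h1, h2, h3⟩
          exact ⟨h1, h3⟩
        · rintro ⟨h1, h3⟩
          refine ⟨h1, ?_, h3⟩
          have e : a - t = (a - b) + (b - t) := by ring
          rw [e]
          exact dvd_add (hmL.trans h3) hbt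
      · rw [mem_filter] at ha
        have h1 : (L : ℤ) ∣ a - b := ha.2
        rw [CC_congr (d := d) (d' := d) (a := a) (a' := b) (h := h) (by simp) (hhL.trans h1)]
    · intro a ha
      rw [mem_filter] at ha
      have h0 : 0 ≤ a % (L : ℤ) := Int.emod_nonneg _ hLz.ne'
      have h1 : a % (L : ℤ) < L := Int.emod_lt_of_pos _ hLz
      rw [hR, mem_filter, mem_range]
      refine ⟨by omega, ?_⟩
      rw [Int.toNat_of_nonneg h0]
      have e : a % (L : ℤ) - t = (a - t) - (a - a % (L : ℤ)) := by ring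
      rw [e]
      exact dvd_sub ha.2 (hmL.trans Int.dvd_self_sub_emod)
  have hmain : CC d t g / m * κ = ∑ b ∈ R, CC d b h * (κ / L) := by
    rw [← sum_mul, havg, hL]
    have hqr : (0 : ℝ) < q := by exact_mod_cast hq0
    push_cast
    field_simp
  obtain ⟨b₀, hb₀, hmax⟩ := Finset.exists_max_image (range L) (fun b => |X b - κ / L|) ⟨0, mem_range.2 hL0⟩
  refine ⟨(b₀ : ℤ), ?_⟩
  have hXb : ∑ a ∈ S.filter (fun a => (L : ℤ) ∣ a - (b₀ : ℤ)), F a = X b₀ := by rw [hX]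
  rw [hXb, hsum, hmain, ← sum_sub_distrib, ← havg, sum_mul]
  refine (Finset.abs_sum_le_sum_abs _ _).trans (sum_le_sum fun b hb => ?_)
  rw [← mul_sub, abs_mul, abs_of_nonneg (CC_nonneg d b h)]
  refine mul_le_mul_of_nonneg_left (hmax b ?_) (CC_nonneg d b h)
  rw [hR, mem_filter] at hb
  exact hb.1


end Pool.Agent.JB
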