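import Pool.Agent.Lib_MP_f1937f_jb.Defs

/-!
# Primes in a window
-/

set_option autoImplicit false

namespace Pool.Agent.JB

open Finset Pool.Agent.TB

private theorem prw_main (H : ℕ) (hH : 1000000000 ≤ H) :
    (H : ℝ) / 2 ≤ Chebyshev.theta ((2 * H : ℕ) : ℝ) - Chebyshev.theta ((H : ℝ) / 2) := by
  obtain ⟨y, hy⟩ : ∃ y : ℝ, y = ((2 * H : ℕ) : ℝ) := ⟨_, rfl⟩
  have hyH : y = 2 * (H : ℝ) := by rw [hy]; push_cast; ring
  have hHr : (1000000000 : ℝ) ≤ H := by exact_mod_cast hH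
  obtain ⟨s, hs⟩ : ∃ s : ℝ, s = √(√y) := ⟨_, rfl⟩
  have hy0 : 0 ≤ y := by rw [hyH]; linarith
  have hs2 : s ^ 2 = √y := by rw [hs, Real.sq_sqrt (Real.sqrt_nonneg _)]
  have hs4 : s ^ 4 = y := by
    calc s ^ 4 = (s ^ 2) ^ 2 := by ring
      _ = y := by rw [hs2, Real.sq_sqrt hy0]
  have hs0 : 0 ≤ s := by rw [hs]; exact Real.sqrt_nonneg _
  have hs150 : 150 ≤ s := by
    by_contra hcon
    push Not at hcon
    have h1 : s ^ 4 ≤ 150 ^ 4 := pow_le_pow_left₀ hs0 hcon.le 4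
    rw [hs4, hyH] at h1
    linarith
  have hspos : 0 < s := by linarith
  have hlog : Real.log y ≤ 4 * s := by
    have h1 : Real.log y = 4 * Real.log s := by
      rw [← hs4, Real.log_pow]
      norm_num
    have h2 := Real.log_le_sub_one_of_pos hspos
    rw [h1]
    linarith
  have hlog1 : Real.log (y + 1) ≤ 4 * s + 1 := by
    have h1 : y + 1 ≤ 2 * y := by rw [hyH]; linarith
    have h2 : Real.log (y + 1) ≤ Real.log (2 * y) := Real.log_le_log (by linarith) h1
    rw [Real.log_mul (by norm_num) (by rw [hyH]; linarith)] at h2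
    have h3 : Real.log 2 ≤ 1 := by
      have := Real.log_two_lt_d9
      linarith
    linarith
  have h1 := Chebyshev.theta_ge (2 * H)
  rw [← hy] at h1
  have h2 := Chebyshev.theta_le_log4_mul_x (x := (H : ℝ) / 2) (by positivity)
  have h4 : Real.log 4 = 2 * Real.log 2 := by
    rw [show (4 : ℝ) = 2 ^ 2 by norm_num, Real.log_pow]
    norm_num
  rw [h4] at h2
  have h5 : 2 * √y * Real.log y ≤ 8 * s ^ 3 := by
    rw [← hs2]
    calc 2 * s ^ 2 * Real.log y ≤ 2 * s ^ 2 * (4 * s) :=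
          mul_le_mul_of_nonneg_left hlog (by positivity)
      _ = 8 * s ^ 3 := by ring
  have h6 : 4 * s + 1 ≤ s ^ 3 := by nlinarith [mul_pos hspos hspos]
  have hl2 := Real.log_two_gt_d9
  have h7 : 9 * s ^ 3 ≤ (1 / 16) * y := by
    rw [← hs4]
    have h8 : 0 ≤ s ^ 3 := by positivity
    have h9 : s ^ 4 = s * s ^ 3 := by ring
    rw [h9]
    nlinarith
  have e1 : y * Real.log 2 = 2 * ((H : ℝ) * Real.log 2) := by rw [hyH]; ring
  have e2 : 2 * Real.log 2 * ((H : ℝ) / 2) = (H : ℝ) * Real.log 2 := by ring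
  have e3 : (0.69 : ℝ) * H ≤ (H : ℝ) * Real.log 2 := by
    rw [mul_comm]
    exact mul_le_mul_of_nonneg_left (by linarith) (by linarith)
  rw [e1] at h1
  rw [e2] at h2
  rw [← hy]
  linarith

/-- PIECE [JB-B3] (about 60 lines). PROOF. `θ(2 H) - θ(H / 2) ≥ 2 H log 2 - log (2 H + 1) - 2 √(2 H) log (2 H) - (H / 2) log 4 ≥ H / 2` for large `H`
(`Chebyshev.theta_ge`, `Chebyshev.theta_le_log4_mul_x`), and every prime in `(H / 2, 2 H]` contributes at most `log (2 H) ≤ 2 log H`. -/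
theorem primes_window : ∃ c : ℝ, 0 < c ∧ ∃ H₀ : ℕ, 2 ≤ H₀ ∧ ∀ H : ℕ, H₀ ≤ H →
    c * H / Real.log H ≤ ((((Icc 1 (2 * H)).filter (fun p => p.Prime ∧ H < 2 * p)).card : ℕ) : ℝ) := by
  refine ⟨1 / 4, by norm_num, 1000000000, by norm_num, fun H hH => ?_⟩
  have hHr : (1000000000 : ℝ) ≤ H := by exact_mod_cast hH
  have hmain := prw_main H hH
  obtain ⟨S, hS⟩ : ∃ S : Finset ℕ, S = (Icc 1 (2 * H)).filter (fun p => p.Prime ∧ H < 2 * p) :=
    ⟨_, rfl⟩
  rw [← hS]
  have hlogH : 0 < Real.log H := Real.log_pos (by linarith)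
  have hle : Chebyshev.theta ((2 * H : ℕ) : ℝ) - Chebyshev.theta ((H : ℝ) / 2)
      ≤ ∑ p ∈ S, Real.log p := by
    unfold Chebyshev.theta
    rw [Nat.floor_natCast]
    have e1 : ⌊(H : ℝ) / 2⌋₊ = H / 2 := by
      have := Nat.floor_div_natCast (H : ℝ) 2
      simpa using this
    rw [e1, sub_le_iff_le_add, ← sum_union]
    · refine sum_le_sum_of_subset_of_nonneg ?_ fun p hp _ => ?_
      · intro p hp
        rw [mem_filter, mem_Ioc] at hp
        rw [mem_union, hS, mem_filter, mem_filter, mem_Icc, mem_Ioc]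
        rcases lt_or_ge H (2 * p) with h | h
        · exact Or.inl ⟨⟨hp.1.1, hp.1.2⟩, hp.2, h⟩
        · exact Or.inr ⟨⟨hp.1.1, by omega⟩, hp.2⟩
      · exact Real.log_natCast_nonneg p
    · rw [disjoint_left]
      intro p hp hp2
      rw [hS, mem_filter] at hp
      rw [mem_filter, mem_Ioc] at hp2
      omega
  have hup : ∑ p ∈ S, Real.log p ≤ (S.card : ℝ) * (2 * Real.log H) := by
    have h1 : ∀ p ∈ S, Real.log p ≤ 2 * Real.log H := by
      intro p hp
      rw [hS, mem_filter, mem_Icc] at hp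
      have h2 : (p : ℝ) ≤ 2 * H := by exact_mod_cast hp.1.2
      have h3 : (0 : ℝ) < p := by exact_mod_cast hp.2.1.pos
      have h4 : Real.log p ≤ Real.log (2 * H) := Real.log_le_log h3 h2
      rw [Real.log_mul (by norm_num) (by linarith)] at h4
      have h5 : Real.log 2 ≤ Real.log H := Real.log_le_log (by norm_num) (by linarith)
      linarith
    refine (sum_le_sum h1).trans (le_of_eq ?_)
    rw [sum_const, nsmul_eq_mul]
  rw [div_le_iff₀ hlogH]
  linarith


end Pool.Agent.JB
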