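import Pool.Agent.Lib_MP_f1937f_jb.Defs

/-!
# Number of representations as a sum of three
-/

set_option autoImplicit false

namespace Pool.Agent.JB

open Finset Pool.Agent.TB


/-- PIECE [JB-B2] (all theorems of this file, about 120 lines). -/
theorem R3_le (H h : ℕ) : R3 H h ≤ H ^ 2 := by
  unfold R3
  have h1 : ((Icc 1 H ×ˢ Icc 1 H ×ˢ Icc 1 H).filter (fun x => x.1 + x.2.1 + x.2.2 = h)).card
      ≤ (Icc 1 H ×ˢ Icc 1 H).card := by
    refine card_le_card_of_injOn (fun x => (x.1, x.2.1)) ?_ ?_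
    · intro x hx
      rw [mem_coe, mem_filter, mem_product, mem_product] at hx
      rw [mem_coe, mem_product]
      exact ⟨hx.1.1, hx.1.2.1⟩
    · intro x hx y hy hxy
      rw [mem_coe, mem_filter] at hx hy
      rw [Prod.mk.injEq] at hxy
      obtain ⟨x1, x2, x3⟩ := x
      obtain ⟨y1, y2, y3⟩ := y
      simp only at hx hy hxy ⊢
      obtain ⟨h1, h2⟩ := hxy
      have h3 : x3 = y3 := by omega
      rw [h1, h2, h3]
  refine h1.trans (le_of_eq ?_)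
  rw [card_product, Nat.card_Icc, pow_two]
  simp

theorem R3_supp (H h : ℕ) (hr : R3 H h ≠ 0) : 3 ≤ h ∧ h ≤ 3 * H := by
  unfold R3 at hr
  obtain ⟨x, hx⟩ := card_pos.1 (Nat.pos_of_ne_zero hr)
  rw [mem_filter, mem_product, mem_product, mem_Icc, mem_Icc, mem_Icc] at hx
  omega

private theorem R3_box (H h a₁ b₁ a₂ b₂ : ℕ) (h1 : 1 ≤ a₁) (h2 : 1 ≤ a₂) (h3 : b₁ ≤ H) (h4 : b₂ ≤ H)
    (h5 : b₁ + b₂ + 1 ≤ h) (h6 : h ≤ H + a₁ + a₂) (h7 : H ≤ 10 * (b₁ + 1 - a₁))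
    (h8 : H ≤ 10 * (b₂ + 1 - a₂)) : H ^ 2 ≤ 100 * R3 H h := by
  have hc : (Icc a₁ b₁ ×ˢ Icc a₂ b₂).card ≤ R3 H h := by
    unfold R3
    refine card_le_card_of_injOn (fun x => (x.1, x.2, h - x.1 - x.2)) ?_ ?_
    · intro x hx
      rw [mem_coe, mem_product, mem_Icc, mem_Icc] at hx
      rw [mem_coe, mem_filter, mem_product, mem_product, mem_Icc, mem_Icc, mem_Icc]
      simp only
      omega
    · intro x _ y _ hxy
      simp only [Prod.mk.injEq] at hxy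
      exact Prod.ext hxy.1 hxy.2.1
  rw [card_product, Nat.card_Icc, Nat.card_Icc] at hc
  calc H ^ 2 = H * H := pow_two H
    _ ≤ (10 * (b₁ + 1 - a₁)) * (10 * (b₂ + 1 - a₂)) := Nat.mul_le_mul h7 h8
    _ = 100 * ((b₁ + 1 - a₁) * (b₂ + 1 - a₂)) := by ring
    _ ≤ 100 * R3 H h := Nat.mul_le_mul_left _ hc

/-- `H / 2 < h ≤ 2 H`. If `h ≤ H`: the pairs `(u, v)` with `u, v ≥ 1`, `u + v ≤ h - 1`, e.g. all `1 ≤ u, v ≤ (h - 1) / 2`, at least `(H / 8) ^ 2` of them.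
If `H < h ≤ 3 H / 2`: the pairs with `H / 2 ≤ u ≤ 3 H / 4`, `1 ≤ v ≤ H / 4` (`h - H ≤ u + v ≤ h - 1`). If `3 H / 2 < h ≤ 2 H`: the pairs with
`H / 2 ≤ u, v ≤ 3 H / 4`. -/
theorem R3_ge : ∃ H₀ : ℕ, ∀ H : ℕ, H₀ ≤ H → ∀ h : ℕ, H < 2 * h → h ≤ 2 * H → H ^ 2 ≤ 100 * R3 H h := by
  refine ⟨40, fun H hH h h1 h2 => ?_⟩
  rcases le_or_gt h H with h3 | h3
  · exact R3_box H h 1 ((h - 1) / 2) 1 ((h - 1) / 2) le_rfl le_rfl (by omega) (by omega)
      (by omega) (by omega) (by omega) (by omega)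
  · rcases le_or_gt (2 * h) (3 * H) with h4 | h4
    · exact R3_box H h ((H + 1) / 2) (3 * H / 4) 1 (H / 4) (by omega) le_rfl (by omega) (by omega)
        (by omega) (by omega) (by omega) (by omega)
    · exact R3_box H h ((H + 1) / 2) (3 * H / 4) ((H + 1) / 2) (3 * H / 4) (by omega) (by omega)
        (by omega) (by omega) (by omega) (by omega) (by omega) (by omega)

theorem R3_sum (H q : ℕ) : ∑ h ∈ (Icc 1 (3 * H)).filter (q ∣ ·), R3 H h =
    ((Icc 1 H ×ˢ Icc 1 H ×ˢ Icc 1 H).filter (fun x => q ∣ x.1 + x.2.1 + x.2.2)).card := by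
  rw [card_eq_sum_card_fiberwise (f := fun x : ℕ × ℕ × ℕ => x.1 + x.2.1 + x.2.2)
    (t := (Icc 1 (3 * H)).filter (q ∣ ·))]
  · refine sum_congr rfl fun h hh => ?_
    unfold R3
    congr 1
    ext x
    rw [mem_filter] at hh
    simp only [mem_filter]
    constructor
    · rintro ⟨h1, h2⟩
      exact ⟨⟨h1, by rw [h2]; exact hh.2⟩, h2⟩
    · rintro ⟨⟨h1, _⟩, h2⟩
      exact ⟨h1, h2⟩
  · intro x hx
    rw [mem_coe, mem_filter, mem_product, mem_product, mem_Icc, mem_Icc, mem_Icc] at hx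
    rw [mem_coe, mem_filter, mem_Icc]
    simp only
    exact ⟨by omega, hx.2⟩


end Pool.Agent.JB
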