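import Pool.Agent.Lib_MP_f1937f_jb.Triple
import Pool.Agent.Lib_MP_f1937f_jb.Rep
import Pool.Agent.Lib_MP_f1937f_jb.PrW

/-!
# The weights of the levels
-/

set_option autoImplicit false

namespace Pool.Agent.JB

open Finset Pool.Agent.TB

private lemma wts_ind (b r : ℕ) (hr : r ≠ 0) :
    (∑ d ∈ r.divisors, if d ∣ b then ArithmeticFunction.moebius d else 0) =
      if b.Coprime r then 1 else 0 := by
  rw [← Finset.sum_filter]
  have h1 : r.divisors.filter (fun d => d ∣ b) = (Nat.gcd b r).divisors := by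
    ext d
    simp only [Finset.mem_filter, Nat.mem_divisors]
    constructor
    · rintro ⟨⟨h1, _⟩, h3⟩
      exact ⟨Nat.dvd_gcd h3 h1, Nat.gcd_ne_zero_right hr⟩
    · rintro ⟨h1, _⟩
      exact ⟨⟨h1.trans (Nat.gcd_dvd_right b r), hr⟩, h1.trans (Nat.gcd_dvd_left b r)⟩
  rw [h1, ← ArithmeticFunction.coe_mul_zeta_apply, ArithmeticFunction.moebius_mul_coe_zeta,
    ArithmeticFunction.one_apply]

private lemma wts_tot (M : ℕ) (hM : 0 < M) :
    ∑ f ∈ M.divisors, ((ArithmeticFunction.moebius f : ℤ) : ℝ) / f = (M.totient : ℝ) / M := by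
  have h1 := (ArithmeticFunction.sum_eq_iff_sum_mul_moebius_eq (R := ℤ)
    (f := fun n => (n.totient : ℤ)) (g := fun n => (n : ℤ))).1 (fun n _ => by
      have := Nat.sum_totient n
      exact_mod_cast this) M hM
  have h2 : ∑ x ∈ M.divisorsAntidiagonal, (ArithmeticFunction.moebius x.1) * ((x.2 : ℕ) : ℤ)
      = ∑ f ∈ M.divisors, ArithmeticFunction.moebius f * ((M / f : ℕ) : ℤ) :=
    Nat.sum_divisorsAntidiagonal (fun i j => ArithmeticFunction.moebius i * ((j : ℕ) : ℤ))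
  have h3 : (∑ f ∈ M.divisors, ArithmeticFunction.moebius f * ((M / f : ℕ) : ℤ) : ℤ)
      = (M.totient : ℤ) := by
    rw [← h2]
    simpa using h1
  have hMr : (M : ℝ) ≠ 0 := Nat.cast_ne_zero.2 hM.ne'
  have h4 : (∑ f ∈ M.divisors, ((ArithmeticFunction.moebius f : ℤ) : ℝ) * ((M / f : ℕ) : ℝ))
      = (M.totient : ℝ) := by
    have h5 : (∑ f ∈ M.divisors, ((ArithmeticFunction.moebius f : ℤ) : ℝ) * ((M / f : ℕ) : ℝ))
        = ((∑ f ∈ M.divisors, ArithmeticFunction.moebius f * ((M / f : ℕ) : ℤ) : ℤ) : ℝ) := by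
      rw [Int.cast_sum]
      refine sum_congr rfl fun f _ => ?_
      rw [Int.cast_mul, Int.cast_natCast]
    rw [h5, h3, Int.cast_natCast]
  rw [← h4, sum_div]
  refine sum_congr rfl fun f hf => ?_
  have hfM := Nat.dvd_of_mem_divisors hf
  have hf0 : (f : ℝ) ≠ 0 := Nat.cast_ne_zero.2 (Nat.pos_of_mem_divisors hf).ne'
  rw [Nat.cast_div hfM hf0]
  field_simp

private lemma wts_A (M H q : ℕ) (hM : 0 < M) (hH : 0 < H) (hq : 0 < q) (hqM : q.Coprime M) :
    |(q : ℝ) * ∑ h ∈ (Icc 1 (3 * H)).filter (q ∣ ·), ((M : ℝ) / M.totient) *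
      (if h.Coprime M then (R3 H h : ℝ) / (H : ℝ) ^ 3 else 0) - 1|
      ≤ ((M : ℝ) / M.totient) * (M : ℝ) ^ 3 * ((q : ℝ) / H) ^ 3 := by
  have hMr : (0 : ℝ) < M := Nat.cast_pos.2 hM
  have hHr : (0 : ℝ) < H := Nat.cast_pos.2 hH
  have hqr : (0 : ℝ) < q := Nat.cast_pos.2 hq
  have hφ : (0 : ℝ) < M.totient := Nat.cast_pos.2 (Nat.totient_pos.2 hM)
  obtain ⟨κ, hκ⟩ : ∃ κ : ℝ, κ = (M : ℝ) / M.totient := ⟨_, rfl⟩
  have hκ0 : 0 < κ := by rw [hκ]; positivity
  rw [← hκ]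
  obtain ⟨Tr, hTr⟩ : ∃ Tr : ℕ → ℝ, Tr = fun Q => ((((Icc 1 H ×ˢ Icc 1 H ×ˢ Icc 1 H).filter
    (fun x => Q ∣ x.1 + x.2.1 + x.2.2)).card : ℕ) : ℝ) := ⟨_, rfl⟩
  -- the sum over the multiples of `f q`
  have h1 : ∀ f ∈ M.divisors, ∑ h ∈ (Icc 1 (3 * H)).filter (q ∣ ·),
      (if f ∣ h then (R3 H h : ℝ) else 0) = Tr (f * q) := by
    intro f hf
    have hfM := Nat.dvd_of_mem_divisors hf
    have hcop : q.Coprime f := hqM.coprime_dvd_right hfM
    rw [← sum_filter, filter_filter]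
    have e1 : (Icc 1 (3 * H)).filter (fun h => q ∣ h ∧ f ∣ h)
        = (Icc 1 (3 * H)).filter (f * q ∣ ·) := by
      refine filter_congr fun h _ => ?_
      constructor
      · rintro ⟨h1, h2⟩
        exact hcop.symm.mul_dvd_of_dvd_of_dvd h2 h1
      · intro h1
        exact ⟨(Dvd.intro_left f rfl).trans h1, (Dvd.intro q rfl).trans h1⟩
    rw [e1, hTr]
    have h2 := R3_sum H (f * q)
    change _ = ((((Icc 1 H ×ˢ Icc 1 H ×ˢ Icc 1 H).filter
      (fun x => f * q ∣ x.1 + x.2.1 + x.2.2)).card : ℕ) : ℝ)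
    rw [← h2]
    push_cast
    rfl
  have h2 : ∑ h ∈ (Icc 1 (3 * H)).filter (q ∣ ·), κ *
      (if h.Coprime M then (R3 H h : ℝ) / (H : ℝ) ^ 3 else 0)
      = κ / (H : ℝ) ^ 3 * ∑ f ∈ M.divisors, ((ArithmeticFunction.moebius f : ℤ) : ℝ) * Tr (f * q) := by
    have e1 : ∀ h : ℕ, κ * (if h.Coprime M then (R3 H h : ℝ) / (H : ℝ) ^ 3 else 0)
        = κ / (H : ℝ) ^ 3 * ∑ f ∈ M.divisors, ((ArithmeticFunction.moebius f : ℤ) : ℝ) *
          (if f ∣ h then (R3 H h : ℝ) else 0) := by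
      intro h
      have e2 := wts_ind h M hM.ne'
      have e3 : ((∑ d ∈ M.divisors, if d ∣ h then ArithmeticFunction.moebius d else 0 : ℤ) : ℝ)
          = (if h.Coprime M then 1 else 0 : ℝ) := by
        rw [e2]
        split_ifs <;> simp
      have e4 : ∑ f ∈ M.divisors, ((ArithmeticFunction.moebius f : ℤ) : ℝ) *
          (if f ∣ h then (R3 H h : ℝ) else 0)
          = (if h.Coprime M then 1 else 0 : ℝ) * (R3 H h : ℝ) := by
        rw [← e3]
        push_cast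
        rw [sum_mul]
        refine sum_congr rfl fun f _ => ?_
        split_ifs <;> simp
      rw [e4]
      split_ifs
      · ring
      · ring
    rw [sum_congr rfl fun h _ => e1 h, ← mul_sum, sum_comm]
    congr 1
    refine sum_congr rfl fun f hf => ?_
    rw [← mul_sum, h1 f hf]
  rw [h2]
  have h3 : (q : ℝ) * (κ / (H : ℝ) ^ 3 *
      ∑ f ∈ M.divisors, ((ArithmeticFunction.moebius f : ℤ) : ℝ) * Tr (f * q)) - 1
      = q * (κ / (H : ℝ) ^ 3) * ∑ f ∈ M.divisors, ((ArithmeticFunction.moebius f : ℤ) : ℝ) *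
        (Tr (f * q) - (H : ℝ) ^ 3 / ((f * q : ℕ) : ℝ)) := by
    have e1 : ∑ f ∈ M.divisors, ((ArithmeticFunction.moebius f : ℤ) : ℝ) *
        (Tr (f * q) - (H : ℝ) ^ 3 / ((f * q : ℕ) : ℝ))
        = ∑ f ∈ M.divisors, ((ArithmeticFunction.moebius f : ℤ) : ℝ) * Tr (f * q)
          - (H : ℝ) ^ 3 / q * ∑ f ∈ M.divisors, ((ArithmeticFunction.moebius f : ℤ) : ℝ) / f := by
      rw [mul_sum, ← sum_sub_distrib]
      refine sum_congr rfl fun f hf => ?_
      have hf0 : (f : ℝ) ≠ 0 := Nat.cast_ne_zero.2 (Nat.pos_of_mem_divisors hf).ne'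
      push_cast
      field_simp
    rw [e1, wts_tot M hM, hκ]
    field_simp
  rw [h3, abs_mul, abs_of_pos (by positivity)]
  have h4 : |∑ f ∈ M.divisors, ((ArithmeticFunction.moebius f : ℤ) : ℝ) *
        (Tr (f * q) - (H : ℝ) ^ 3 / ((f * q : ℕ) : ℝ))| ≤ (M : ℝ) ^ 3 * (q : ℝ) ^ 2 := by
    refine (abs_sum_le_sum_abs _ _).trans ?_
    have h5 : ∀ f ∈ M.divisors, |((ArithmeticFunction.moebius f : ℤ) : ℝ) *
        (Tr (f * q) - (H : ℝ) ^ 3 / ((f * q : ℕ) : ℝ))| ≤ (M : ℝ) ^ 2 * (q : ℝ) ^ 2 := by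
      intro f hf
      have hf0 : 0 < f := Nat.pos_of_mem_divisors hf
      have hfM : f ≤ M := Nat.le_of_dvd hM (Nat.dvd_of_mem_divisors hf)
      rw [abs_mul]
      have h6 : |((ArithmeticFunction.moebius f : ℤ) : ℝ)| ≤ 1 := by
        exact_mod_cast ArithmeticFunction.abs_moebius_le_one
      have h7 := triple H (f * q) (Nat.mul_pos hf0 hq)
      have h8 : |Tr (f * q) - (H : ℝ) ^ 3 / ((f * q : ℕ) : ℝ)| ≤ ((f * q : ℕ) : ℝ) ^ 2 := by
        rw [hTr]
        exact h7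
      have h9 : ((f * q : ℕ) : ℝ) ^ 2 ≤ (M : ℝ) ^ 2 * (q : ℝ) ^ 2 := by
        push_cast
        rw [mul_pow]
        refine mul_le_mul_of_nonneg_right ?_ (by positivity)
        have : (f : ℝ) ≤ M := by exact_mod_cast hfM
        exact pow_le_pow_left₀ (Nat.cast_nonneg _) this 2
      calc |((ArithmeticFunction.moebius f : ℤ) : ℝ)| *
            |Tr (f * q) - (H : ℝ) ^ 3 / ((f * q : ℕ) : ℝ)|
          ≤ 1 * ((f * q : ℕ) : ℝ) ^ 2 := mul_le_mul h6 h8 (abs_nonneg _) zero_le_one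
        _ ≤ (M : ℝ) ^ 2 * (q : ℝ) ^ 2 := by rw [one_mul]; exact h9
    refine (sum_le_sum h5).trans ?_
    rw [sum_const, nsmul_eq_mul]
    have h6 : (M.divisors.card : ℝ) ≤ M := by exact_mod_cast Nat.card_divisors_le_self M
    calc (M.divisors.card : ℝ) * ((M : ℝ) ^ 2 * (q : ℝ) ^ 2)
        ≤ M * ((M : ℝ) ^ 2 * (q : ℝ) ^ 2) := mul_le_mul_of_nonneg_right h6 (by positivity)
      _ = (M : ℝ) ^ 3 * (q : ℝ) ^ 2 := by ring
  calc (q : ℝ) * (κ / (H : ℝ) ^ 3) * |∑ f ∈ M.divisors, ((ArithmeticFunction.moebius f : ℤ) : ℝ) *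
        (Tr (f * q) - (H : ℝ) ^ 3 / ((f * q : ℕ) : ℝ))|
      ≤ (q : ℝ) * (κ / (H : ℝ) ^ 3) * ((M : ℝ) ^ 3 * (q : ℝ) ^ 2) :=
        mul_le_mul_of_nonneg_left h4 (by positivity)
    _ = κ * (M : ℝ) ^ 3 * ((q : ℝ) / H) ^ 3 := by
        rw [div_pow]
        ring

/-- PIECE [JB-B4] (about 200 lines). PROOF. Let `S` be the set of the primes `p` with `H / 2 < p ≤ 2 H`, `N = #S`, `M < H / 2`,
`w h = (M / φ M) [h coprime to M] R3 H h / H ^ 3 - [h ∈ S] / (100 H)` for `h ≠ 1`, `w 1 = N / (100 H)` (note `R3 H 1 = 0`).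
`w ≥ 0`: for `h ∈ S`, `h > M` is coprime to `M`, `M / φ M ≥ 1` and `R3 H h / H ^ 3 ≥ 1 / (100 H)` (`R3_ge`). `w h ≤ M / H` (`R3_le`).
`w 1 ≤ 1`, `w 1 ≥ c / log H` (`primes_window`). `lam`: for `q` coprime to `M`, Moebius over the divisors `f` of `M`
(`∑_{f ∣ gcd h M} μ f = [h coprime to M]`): `∑_{q ∣ h, (h, M) = 1} R3 H h / H ^ 3 = ∑_{f ∣ M} μ f (1 / (f q) + O((f q) ^ 2 / H ^ 3))` by `R3_sum`, `triple`
(`q ∣ h` and `f ∣ h` iff `f q ∣ h`), and `∑_{f ∣ M} μ f / f = φ M / M`; so `q` times this times `M / φ M` is `1 + O_M(q ^ 3 / H ^ 3)`. The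
correction by `S` changes `q ∑_{q ∣ h} w h` by `0` if `q = 1` (`N / (100 H) - N / (100 H)`), by `- q / (100 H)`, of size at most `(q / H) ^ 3 ` times a constant as
`q > H / 2`, if `q ∈ S`, and by `0` for the other `q > 1`. -/
theorem wt_exists (M : ℕ) (hM : 0 < M) : ∃ C c : ℝ, 0 < C ∧ 0 < c ∧ ∃ H₀ : ℕ, 2 ≤ H₀ ∧ ∀ H : ℕ, H₀ ≤ H →
    ∃ w : ℕ → ℝ, Wt M H C c w := by
  obtain ⟨c, hc, H1, hH1, hwin⟩ := primes_window
  obtain ⟨H2, hge⟩ := R3_ge
  have hMr : (0 : ℝ) < M := Nat.cast_pos.2 hM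
  have hφ : (0 : ℝ) < M.totient := Nat.cast_pos.2 (Nat.totient_pos.2 hM)
  obtain ⟨κ, hκ⟩ : ∃ κ : ℝ, κ = (M : ℝ) / M.totient := ⟨_, rfl⟩
  have hκ1 : 1 ≤ κ := by
    rw [hκ, le_div_iff₀ hφ, one_mul]
    exact_mod_cast Nat.totient_le M
  have hM1 : (1 : ℝ) ≤ (M : ℝ) ^ 3 := one_le_pow₀ (by exact_mod_cast hM)
  obtain ⟨C, hC⟩ : ∃ C : ℝ, C = κ * (M : ℝ) ^ 3 + 1 := ⟨_, rfl⟩
  have hκC : κ ≤ C := by rw [hC]; nlinarith
  refine ⟨C, c / 100, by linarith, by positivity, max (max H1 H2) (2 * M + 2), by omega,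
    fun H hH => ?_⟩
  have hHH1 : H1 ≤ H := by omega
  have hHH2 : H2 ≤ H := by omega
  have hHM : 2 * M + 2 ≤ H := by omega
  have hH0 : 0 < H := by omega
  have hHr : (0 : ℝ) < H := Nat.cast_pos.2 hH0
  obtain ⟨S, hS⟩ : ∃ S : Finset ℕ, S = (Icc 1 (2 * H)).filter (fun p => p.Prime ∧ H < 2 * p) :=
    ⟨_, rfl⟩
  have hN := hwin H hHH1
  rw [← hS] at hN
  have hmemS : ∀ h, h ∈ S ↔ (1 ≤ h ∧ h ≤ 2 * H) ∧ h.Prime ∧ H < 2 * h := by
    intro h
    rw [hS, mem_filter, mem_Icc]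
  have h1S : 1 ∉ S := fun h => Nat.not_prime_one ((hmemS 1).1 h).2.1
  have hScop : ∀ h ∈ S, h.Coprime M := by
    intro h hh
    obtain ⟨_, hp, h2⟩ := (hmemS h).1 hh
    rw [Nat.Prime.coprime_iff_not_dvd hp]
    intro hd
    have := Nat.le_of_dvd hM hd
    omega
  have hR1 : R3 H 1 = 0 := by
    by_contra h
    have := (R3_supp H 1 h).1
    omega
  obtain ⟨Af, hAf⟩ : ∃ Af : ℕ → ℝ, Af = fun h => κ *
      (if h.Coprime M then (R3 H h : ℝ) / (H : ℝ) ^ 3 else 0) := ⟨_, rfl⟩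
  obtain ⟨Bf, hBf⟩ : ∃ Bf : ℕ → ℝ, Bf = fun h => if h ∈ S then 1 / (100 * (H : ℝ)) else 0 :=
    ⟨_, rfl⟩
  obtain ⟨Df, hDf⟩ : ∃ Df : ℕ → ℝ, Df = fun h => if h = 1 then (S.card : ℝ) / (100 * H) else 0 :=
    ⟨_, rfl⟩
  have hA0 : ∀ h, 0 ≤ Af h := by
    intro h
    rw [hAf]
    refine mul_nonneg (by linarith) ?_
    split_ifs <;> positivity
  have hD0 : ∀ h, 0 ≤ Df h := by
    intro h
    rw [hDf]
    change 0 ≤ (if h = 1 then (S.card : ℝ) / (100 * H) else 0)
    split_ifs <;> positivity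
  have hB0 : ∀ h, 0 ≤ Bf h := by
    intro h
    rw [hBf]
    change 0 ≤ (if h ∈ S then 1 / (100 * (H : ℝ)) else 0)
    split_ifs <;> positivity
  have hBA : ∀ h, Bf h ≤ Af h := by
    intro h
    by_cases hh : h ∈ S
    · have hb : Bf h = 1 / (100 * (H : ℝ)) := by rw [hBf]; exact if_pos hh
      obtain ⟨⟨h1, h2⟩, hp, h3⟩ := (hmemS h).1 hh
      have hr := hge H hHH2 h h3 h2
      have hr' : (H : ℝ) ^ 2 ≤ 100 * (R3 H h : ℝ) := by exact_mod_cast hr
      have ha : Af h = κ * ((R3 H h : ℝ) / (H : ℝ) ^ 3) := by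
        rw [hAf]
        change κ * (if h.Coprime M then (R3 H h : ℝ) / (H : ℝ) ^ 3 else 0) = _
        rw [if_pos (hScop h hh)]
      have h4 : 1 / (100 * (H : ℝ)) ≤ (R3 H h : ℝ) / (H : ℝ) ^ 3 := by
        rw [div_le_div_iff₀ (by positivity) (by positivity)]
        nlinarith
      rw [hb, ha]
      have h5 : 0 ≤ (R3 H h : ℝ) / (H : ℝ) ^ 3 := by positivity
      nlinarith
    · have hb : Bf h = 0 := by rw [hBf]; exact if_neg hh
      rw [hb]
      exact hA0 h
  have hw1 : Af 1 - Bf 1 + Df 1 = (S.card : ℝ) / (100 * H) := by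
    have e1 : Af 1 = 0 := by
      rw [hAf]
      change κ * (if (1 : ℕ).Coprime M then (R3 H 1 : ℝ) / (H : ℝ) ^ 3 else 0) = 0
      rw [hR1]
      simp
    have e2 : Bf 1 = 0 := by rw [hBf]; exact if_neg h1S
    have e3 : Df 1 = (S.card : ℝ) / (100 * H) := by rw [hDf]; exact if_pos rfl
    rw [e1, e2, e3]
    ring
  have hScard : (S.card : ℝ) ≤ 2 * H := by
    have h1 : S.card ≤ (Icc 1 (2 * H)).card := by rw [hS]; exact card_filter_le _ _
    rw [Nat.card_Icc] at h1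
    have h2 : S.card ≤ 2 * H := by omega
    exact_mod_cast h2
  refine ⟨fun h => Af h - Bf h + Df h, ?_⟩
  refine ⟨fun h => ?_, fun h hh => ?_, fun h hh => ?_, ?_, ?_, fun q hq hqM => ?_⟩
  · have h1 := hBA h
    have h2 := hD0 h
    change 0 ≤ Af h - Bf h + Df h
    linarith
  · change Af h - Bf h + Df h ≠ 0 at hh
    by_cases h1 : h = 1
    · rw [h1]
      exact ⟨le_rfl, by omega, Nat.coprime_one_left M⟩
    · have hD : Df h = 0 := by rw [hDf]; exact if_neg h1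
      have hA : Af h ≠ 0 := by
        intro h0
        have h2 := hBA h
        rw [h0] at h2
        have h3 := hB0 h
        apply hh
        rw [h0, hD, le_antisymm h2 h3]
        ring
      rw [hAf] at hA
      change κ * (if h.Coprime M then (R3 H h : ℝ) / (H : ℝ) ^ 3 else 0) ≠ 0 at hA
      have hcop : h.Coprime M := by
        by_contra h2
        rw [if_neg h2, mul_zero] at hA
        exact hA rfl
      rw [if_pos hcop] at hA
      have hR : R3 H h ≠ 0 := by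
        intro h2
        rw [h2] at hA
        simp at hA
      have h3 := R3_supp H h hR
      exact ⟨by omega, h3.2, hcop⟩
  · have hD : Df h = 0 := by rw [hDf]; exact if_neg hh
    change Af h - Bf h + Df h ≤ C / H
    have h1 : Af h ≤ κ / H := by
      rw [hAf]
      change κ * (if h.Coprime M then (R3 H h : ℝ) / (H : ℝ) ^ 3 else 0) ≤ κ / H
      have h2 : (if h.Coprime M then (R3 H h : ℝ) / (H : ℝ) ^ 3 else 0) ≤ 1 / H := by
        split_ifs
        · rw [div_le_div_iff₀ (by positivity) hHr]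
          have h3 : (R3 H h : ℝ) ≤ (H : ℝ) ^ 2 := by exact_mod_cast R3_le H h
          nlinarith
        · positivity
      calc κ * (if h.Coprime M then (R3 H h : ℝ) / (H : ℝ) ^ 3 else 0) ≤ κ * (1 / H) :=
            mul_le_mul_of_nonneg_left h2 (by linarith)
        _ = κ / H := by ring
    have h2 : κ / H ≤ C / H := div_le_div_of_nonneg_right hκC hHr.le
    have h3 := hB0 h
    rw [hD]
    linarith
  · rw [hw1]
    have h1 : (S.card : ℝ) / (100 * H) ≤ 1 := by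
      rw [div_le_one (by positivity)]
      linarith
    linarith
  · rw [hw1, le_div_iff₀ (by positivity)]
    have e1 : c / 100 / Real.log H * (100 * H) = c * H / Real.log H := by ring
    rw [e1]
    exact hN
  · change |(q : ℝ) * ∑ h ∈ (Icc 1 (3 * H)).filter (q ∣ ·), (Af h - Bf h + Df h) - 1|
      ≤ C * ((q : ℝ) / H) ^ 3
    have hqr : (0 : ℝ) < q := Nat.cast_pos.2 hq
    have hA := wts_A M H q hM hH0 hq hqM
    rw [← hκ] at hA
    have hBs : |(q : ℝ) * ∑ h ∈ (Icc 1 (3 * H)).filter (q ∣ ·), (Df h - Bf h)|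
        ≤ ((q : ℝ) / H) ^ 3 := by
      rcases eq_or_ne q 1 with h1 | h1
      · subst h1
        have e0 : (Icc 1 (3 * H)).filter ((1 : ℕ) ∣ ·) = Icc 1 (3 * H) := by
          refine filter_true_of_mem fun _ _ => one_dvd _
        have e1 : ∑ h ∈ Icc 1 (3 * H), Df h = (S.card : ℝ) / (100 * H) := by
          rw [hDf]
          rw [sum_ite_eq' (Icc 1 (3 * H)) 1 (fun _ => (S.card : ℝ) / (100 * H)),
            if_pos (mem_Icc.2 ⟨le_rfl, by omega⟩)]
        have e2 : ∑ h ∈ Icc 1 (3 * H), Bf h = (S.card : ℝ) / (100 * H) := by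
          rw [hBf, ← sum_filter, sum_const, nsmul_eq_mul]
          have e3 : (Icc 1 (3 * H)).filter (fun h => h ∈ S) = S := by
            ext h
            rw [mem_filter, mem_Icc]
            constructor
            · exact fun h => h.2
            · intro hh
              have := (hmemS h).1 hh
              exact ⟨⟨this.1.1, by omega⟩, hh⟩
          rw [e3]
          ring
        rw [e0, sum_sub_distrib, e1, e2, sub_self, mul_zero, abs_zero]
        positivity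
      · have e1 : ∑ h ∈ (Icc 1 (3 * H)).filter (q ∣ ·), Df h = 0 := by
          refine sum_eq_zero fun h hh => ?_
          rw [mem_filter] at hh
          rw [hDf]
          refine if_neg fun h2 => ?_
          rw [h2] at hh
          exact h1 (Nat.dvd_one.1 hh.2)
        rw [sum_sub_distrib, e1, zero_sub, mul_neg, abs_neg]
        by_cases hqS : q ∈ S
        · have e2 : ∑ h ∈ (Icc 1 (3 * H)).filter (q ∣ ·), Bf h ≤ 1 / (100 * (H : ℝ)) := by
            rw [hBf, ← sum_filter, sum_const, nsmul_eq_mul]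
            have h3 : (((Icc 1 (3 * H)).filter (q ∣ ·)).filter (fun h => h ∈ S)).card ≤ 1 := by
              rw [card_le_one]
              intro a ha b hb
              rw [mem_filter, mem_filter] at ha hb
              have h4 := (Nat.dvd_prime ((hmemS a).1 ha.2).2.1).1 ha.1.2
              have h5 := (Nat.dvd_prime ((hmemS b).1 hb.2).2.1).1 hb.1.2
              rcases h4 with h4 | h4
              · exact absurd h4 h1
              · rcases h5 with h5 | h5
                · exact absurd h5 h1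
                · rw [← h4, ← h5]
            have h4 : ((((Icc 1 (3 * H)).filter (q ∣ ·)).filter (fun h => h ∈ S)).card : ℝ) ≤ 1 := by
              exact_mod_cast h3
            have h5 : 0 ≤ 1 / (100 * (H : ℝ)) := by positivity
            nlinarith
          have e3 : 0 ≤ ∑ h ∈ (Icc 1 (3 * H)).filter (q ∣ ·), Bf h := sum_nonneg fun h _ => hB0 h
          rw [abs_of_nonneg (by positivity)]
          have h6 : H < 2 * q := ((hmemS q).1 hqS).2.2
          have h7 : (H : ℝ) < 2 * q := by exact_mod_cast h6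
          have h8 : (1 : ℝ) / 2 ≤ (q : ℝ) / H := by
            rw [div_le_div_iff₀ (by norm_num) hHr]
            linarith
          obtain ⟨y, hy⟩ : ∃ y : ℝ, y = (q : ℝ) / H := ⟨_, rfl⟩
          have h9 : (q : ℝ) * ∑ h ∈ (Icc 1 (3 * H)).filter (q ∣ ·), Bf h ≤ y / 100 := by
            calc (q : ℝ) * ∑ h ∈ (Icc 1 (3 * H)).filter (q ∣ ·), Bf h
                ≤ q * (1 / (100 * (H : ℝ))) := mul_le_mul_of_nonneg_left e2 hqr.le
              _ = y / 100 := by rw [hy]; field_simp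
          rw [← hy] at h8 ⊢
          have h10 : y ^ 2 ≥ 1 / 4 := by nlinarith
          have h11 : y ^ 3 = y * y ^ 2 := by ring
          nlinarith
        · have e2 : ∑ h ∈ (Icc 1 (3 * H)).filter (q ∣ ·), Bf h = 0 := by
            refine sum_eq_zero fun h hh => ?_
            rw [mem_filter] at hh
            rw [hBf]
            refine if_neg fun h2 => ?_
            rcases (Nat.dvd_prime ((hmemS h).1 h2).2.1).1 hh.2 with h4 | h4
            · exact h1 h4
            · rw [h4] at hqS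
              exact hqS h2
          rw [e2, mul_zero, abs_zero]
          positivity
    have e1 : (q : ℝ) * ∑ h ∈ (Icc 1 (3 * H)).filter (q ∣ ·), (Af h - Bf h + Df h) - 1
        = ((q : ℝ) * ∑ h ∈ (Icc 1 (3 * H)).filter (q ∣ ·), Af h - 1)
          + (q : ℝ) * ∑ h ∈ (Icc 1 (3 * H)).filter (q ∣ ·), (Df h - Bf h) := by
      have e2 : ∑ h ∈ (Icc 1 (3 * H)).filter (q ∣ ·), (Af h - Bf h + Df h)
          = ∑ h ∈ (Icc 1 (3 * H)).filter (q ∣ ·), Af h
            + ∑ h ∈ (Icc 1 (3 * H)).filter (q ∣ ·), (Df h - Bf h) := by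
        rw [← sum_add_distrib]
        refine sum_congr rfl fun h _ => ?_
        ring
      rw [e2]
      ring
    rw [e1]
    refine (abs_add_le _ _).trans ?_
    rw [hC, add_mul, one_mul]
    refine add_le_add ?_ hBs
    rw [hAf]
    exact hA


end Pool.Agent.JB
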