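import Pool.Agent.Lib_MP_f1937f_jb.GroupH
import Pool.Agent.Lib_MP_f1937f_jb.TermH
import Pool.Agent.Lib_MP_f1937f_jb.MainD
import Pool.Agent.Lib_MP_f1937f_jb.SigS
import Pool.Agent.Lib_MP_f1937f_jb.Wts

/-!
# The base law
-/

set_option autoImplicit false

namespace Pool.Agent.JB

open Finset Pool.Agent.TB


private theorem bj_gcd {M m₁ n h : ℕ} (hL : Lev M m₁ n) (hh : h.Coprime M) :
    Nat.gcd h (m₁ * n) = Nat.gcd h n := by
  have hc : h.Coprime m₁ := by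
    by_contra hc
    obtain ⟨l, hl, hl1, hl2⟩ := Nat.Prime.not_coprime_iff_dvd.1 hc
    exact Nat.not_coprime_of_dvd_of_dvd hl.one_lt hl1 (hL.pr l hl hl2) hh
  exact Nat.Coprime.gcd_mul_left_cancel_right n hc.symm

/-- the choice of `H` -/
private theorem bj_H (H₀ p : ℕ) (hp : (3 * H₀ + 6) ^ 6 ≤ p) : ∃ H : ℕ, H₀ ≤ H ∧ 2 ≤ H ∧
    ((3 * H : ℕ) : ℝ) ^ 3 ≤ √(p : ℝ) ∧ ((3 * H : ℕ) : ℝ) ≤ (p : ℝ) ^ (1 / 6 : ℝ) ∧ 3 * H < p ∧
    √(p : ℝ) ≤ 216 * (H : ℝ) ^ 3 := by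
  obtain ⟨r, hr⟩ : ∃ r : ℝ, r = (p : ℝ) ^ (1 / 6 : ℝ) := ⟨_, rfl⟩
  have hp0 : (0 : ℝ) ≤ (p : ℝ) := Nat.cast_nonneg p
  have hr0 : 0 ≤ r := hr ▸ Real.rpow_nonneg hp0 _
  have hr6 : r ^ 6 = p := by
    rw [hr, ← Real.rpow_natCast, ← Real.rpow_mul hp0]
    norm_num
  have hr3 : r ^ 3 = √(p : ℝ) := by
    rw [hr, ← Real.rpow_natCast, ← Real.rpow_mul hp0, Real.sqrt_eq_rpow]
    norm_num
  have hrge : (3 * (H₀ : ℝ) + 6) ≤ r := by
    have h1 : (3 * (H₀ : ℝ) + 6) ^ 6 ≤ r ^ 6 := by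
      rw [hr6]
      exact_mod_cast hp
    exact le_of_pow_le_pow_left₀ (by norm_num) hr0 h1
  have hH0r : (0 : ℝ) ≤ (H₀ : ℝ) := Nat.cast_nonneg _
  have hf1 : ((⌊r⌋₊ : ℕ) : ℝ) ≤ r := Nat.floor_le hr0
  have hf2 : r < (⌊r⌋₊ : ℕ) + 1 := Nat.lt_floor_add_one r
  have hf3 : 3 * H₀ + 6 ≤ ⌊r⌋₊ := Nat.le_floor (by push_cast; exact hrge)
  refine ⟨⌊r⌋₊ / 3, by omega, by omega, ?_, ?_, ?_, ?_⟩
  · have h1 : 3 * (⌊r⌋₊ / 3) ≤ ⌊r⌋₊ := Nat.mul_div_le _ _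
    have h2 : ((3 * (⌊r⌋₊ / 3) : ℕ) : ℝ) ≤ r := le_trans (by exact_mod_cast h1) hf1
    rw [← hr3]
    exact pow_le_pow_left₀ (Nat.cast_nonneg _) h2 3
  · have h1 : 3 * (⌊r⌋₊ / 3) ≤ ⌊r⌋₊ := Nat.mul_div_le _ _
    rw [← hr]
    exact le_trans (by exact_mod_cast h1) hf1
  · have h1 : 3 * (⌊r⌋₊ / 3) ≤ ⌊r⌋₊ := Nat.mul_div_le _ _
    have h2 : ((3 * (⌊r⌋₊ / 3) : ℕ) : ℝ) ≤ r := le_trans (by exact_mod_cast h1) hf1
    have h3 : r < r ^ 6 := by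
      have hr6' : 6 ≤ r := by linarith
      calc r < r * 2 := by linarith
        _ ≤ r * r ^ 5 := by
          have : (6 : ℝ) ^ 5 ≤ r ^ 5 := pow_le_pow_left₀ (by norm_num) hr6' 5
          have h5 : (2 : ℝ) ≤ r ^ 5 := by linarith
          exact mul_le_mul_of_nonneg_left h5 hr0
        _ = r ^ 6 := by ring
    rw [hr6] at h3
    exact_mod_cast h2.trans_lt h3
  · rw [← hr3]
    have h1 : ⌊r⌋₊ ≤ 3 * (⌊r⌋₊ / 3) + 2 := by omega
    have h2 : ((⌊r⌋₊ : ℕ) : ℝ) ≤ 3 * ((⌊r⌋₊ / 3 : ℕ) : ℝ) + 2 := by exact_mod_cast h1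
    have h3 : r ≤ 6 * ((⌊r⌋₊ / 3 : ℕ) : ℝ) := by
      have : 6 ≤ r := by linarith
      linarith
    calc r ^ 3 ≤ (6 * ((⌊r⌋₊ / 3 : ℕ) : ℝ)) ^ 3 := pow_le_pow_left₀ hr0 h3 3
      _ = 216 * ((⌊r⌋₊ / 3 : ℕ) : ℝ) ^ 3 := by ring

/-- PIECE [JB-D3] (about 200 lines). PROOF. `H = ⌊p ^ (1/6)⌋ / 3`, so `(3 H) ^ 3 ≤ √p` and `H ^ 3 ≥ √p / 1000` for large `p`; `w` from `wt_exists`, `W a = ∑ h ∈ Icc 1 (3 H), w h * CC p a h`.
All `h ≤ 3 H < p` are coprime to `p`. `W a ≥ w 1 * CC p a 1 = w 1 ≥ c / log H ≥ c / log p`; `W a ≤ ∑ w h * h ≤ 3 H ∑ w h ≤ 3 H (1 + C (1 / H) ^ 3)` (`lam` with `q = 1`).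
Equidistribution, `m = m₁ n`: `u a = u t` for `m ∣ a - t`. By `term_h` (with `F a = sw p a * Uk k (xx p a)`, `κ = [k = 0]`) and `group_h` the sum
is `u t * [k = 0] / m * ∑ h, w h CC p t (gcd h m)` up to `u t * C' n (k + 1) √m / √p`, and `gcd h m = gcd h n` for `w h ≠ 0`. By `main_diff`, `lam`, `sig_sum` the
inner sum differs from `DD p t n` by at most `C H ^ (-3) 2 (1 + log n) n ^ 3 ≤ 2000 C (1 + log n) n ^ 3 / √p`; `1 + log n ≤ 3 log p` as `n ≤ p`. -/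
theorem base_J (M : ℕ) (hM : 0 < M) : ∃ (E c : ℝ) (p₀ : ℕ), 0 ≤ E ∧ 0 < c ∧ 2 ≤ p₀ ∧ ∀ p : ℕ, p.Prime → p₀ ≤ p →
    ∃ W : ℤ → ℝ, (∀ a, c / Real.log p ≤ W a ∧ W a ≤ E * (p : ℝ) ^ (1 / 6 : ℝ)) ∧
      ∀ u : ℤ → ℝ, (∀ t t' : ℤ, (M : ℤ) ∣ t - t' → u t = u t') → (∀ t, 0 ≤ u t ∧ u t ≤ M) →
      ∀ m₁ n : ℕ, Lev M m₁ n → n ≤ p → ¬ p ∣ n → ∀ (t : ℤ) (k : ℕ),
        |∑ a ∈ (V p).filter (fun a => ((m₁ * n : ℕ) : ℤ) ∣ a - t), u a * W a * sw p a * Uk k (xx p a) -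
            (if k = 0 then u t / ((m₁ * n : ℕ) : ℝ) * DD p t n else 0)| ≤
          E * (m₁ * √(m₁ : ℝ)) * (n : ℝ) ^ 2 * (k + 1) * (Real.log p / √(p : ℝ)) := by
  classical
  obtain ⟨C, c, hC, hc, H₀, hH₀, hw⟩ := wt_exists M hM
  obtain ⟨C', hC', hgr⟩ := group_h M hM C c hC.le
  have hMr : (0 : ℝ) < M := by exact_mod_cast hM
  refine ⟨2 * M * C' + 1296 * C * M + (1 + C), c, (3 * H₀ + 6) ^ 6, by positivity, hc, ?_, ?_⟩
  · calc 2 ≤ 6 := by norm_num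
      _ ≤ 3 * H₀ + 6 := by omega
      _ ≤ (3 * H₀ + 6) ^ 6 := Nat.le_self_pow (by norm_num) _
  intro p hpp hp
  obtain ⟨H, hHH, hH2, hH3, hH6, hHp, hHs⟩ := bj_H H₀ p hp
  obtain ⟨w, hW⟩ := hw H hHH
  have hp2 : 2 ≤ p := hpp.two_le
  have hp1 : 1 ≤ p := by omega
  have hpr : (2 : ℝ) ≤ p := by exact_mod_cast hp2
  have hs0 : 0 < √(p : ℝ) := Real.sqrt_pos.2 (by linarith)
  have hHr : (2 : ℝ) ≤ H := by exact_mod_cast hH2
  have hlogH : 0 < Real.log H := Real.log_pos (by linarith)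
  have hlogp : 1 / 2 ≤ Real.log p := by
    have h3 : Real.log 2 ≤ Real.log p := Real.log_le_log (by norm_num) hpr
    have := Real.log_two_gt_d9
    linarith
  have hcop : ∀ h ∈ Icc 1 (3 * H), IsCoprime (p : ℤ) (h : ℤ) := by
    intro h hh
    rw [mem_Icc] at hh
    rw [Nat.isCoprime_iff_coprime]
    exact (Nat.Prime.coprime_iff_not_dvd hpp).2 fun hd => by
      have := Nat.le_of_dvd (by omega) hd
      omega
  have hW0 : ∀ a : ℤ, ∀ h ∈ Icc 1 (3 * H), 0 ≤ w h * CC p a h := fun a h _ => mul_nonneg (hW.nonneg h) (CC_nonneg _ _ _)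
  refine ⟨fun a => ∑ h ∈ Icc 1 (3 * H), w h * CC p a h, fun a => ⟨?_, ?_⟩, ?_⟩
  · have h1 : w 1 * CC p a 1 ≤ ∑ h ∈ Icc 1 (3 * H), w h * CC p a h :=
      single_le_sum (f := fun h => w h * CC p a h) (hW0 a) (mem_Icc.2 ⟨le_rfl, by omega⟩)
    rw [CC_one, mul_one] at h1
    refine le_trans ?_ (hW.one_ge.trans h1)
    refine div_le_div_of_nonneg_left hc.le hlogH ?_
    exact Real.log_le_log (by linarith) (by exact_mod_cast (by omega : H ≤ p))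
  · have h1 : ∑ h ∈ Icc 1 (3 * H), w h * CC p a h ≤ (∑ h ∈ Icc 1 (3 * H), w h) * ((3 * H : ℕ) : ℝ) := by
      rw [sum_mul]
      refine sum_le_sum fun h hh => mul_le_mul_of_nonneg_left ?_ (hW.nonneg h)
      have hh' := mem_Icc.1 hh
      exact (CC_le p a h (by omega) (hcop h hh)).trans (by exact_mod_cast hh'.2)
    have h2 := hW.lam 1 one_pos (Nat.coprime_one_left M)
    have h3 : (Icc 1 (3 * H)).filter (1 ∣ ·) = Icc 1 (3 * H) := filter_true_of_mem fun h _ => one_dvd h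
    rw [h3, Nat.cast_one, one_mul] at h2
    have h4 : C * ((1 : ℝ) / H) ^ 3 ≤ C := by
      have : (1 : ℝ) / H ≤ 1 := by
        rw [div_le_one (by linarith)]
        linarith
      have h5 : ((1 : ℝ) / H) ^ 3 ≤ 1 := pow_le_one₀ (by positivity) this
      nlinarith
    have h5 : ∑ h ∈ Icc 1 (3 * H), w h ≤ 1 + C := by
      have := (abs_le.1 (h2.trans h4)).2
      linarith
    have h6 : (0 : ℝ) ≤ (p : ℝ) ^ (1 / 6 : ℝ) := Real.rpow_nonneg (by linarith) _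
    calc _ ≤ (∑ h ∈ Icc 1 (3 * H), w h) * ((3 * H : ℕ) : ℝ) := h1
      _ ≤ (1 + C) * (p : ℝ) ^ (1 / 6 : ℝ) := mul_le_mul h5 hH6 (Nat.cast_nonneg _) (by linarith)
      _ ≤ _ := by
        refine mul_le_mul_of_nonneg_right ?_ h6
        have : 0 ≤ 2 * M * C' + 1296 * C * M := by positivity
        linarith
  intro u hper hu m₁ n hL hnp hpn t k
  obtain ⟨m, hm⟩ : ∃ m, m = m₁ * n := ⟨_, rfl⟩
  rw [← hm]
  have hm₁ : (1 : ℝ) ≤ m₁ := by exact_mod_cast hL.pos₁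
  have hn1 : (1 : ℝ) ≤ n := by exact_mod_cast hL.pos
  have hm0 : 0 < m := hm ▸ Nat.mul_pos hL.pos₁ hL.pos
  have hmr : (0 : ℝ) < m := by exact_mod_cast hm0
  have hmeq : (m : ℝ) = m₁ * n := by rw [hm]; push_cast; ring
  have hMm : (M : ℤ) ∣ (m : ℤ) := by
    rw [hm]
    exact_mod_cast hL.dvd.mul_right n
  have hpcn : IsCoprime (p : ℤ) (n : ℤ) := by
    rw [Nat.isCoprime_iff_coprime]
    exact (Nat.Prime.coprime_iff_not_dvd hpp).2 hpn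
  obtain ⟨F, hF⟩ : ∃ F : ℤ → ℝ, F = fun a => sw p a * Uk k (xx p a) := ⟨_, rfl⟩
  obtain ⟨κ, hκ⟩ : ∃ κ : ℝ, κ = if k = 0 then 1 else 0 := ⟨_, rfl⟩
  have hκ0 : 0 ≤ κ ∧ κ ≤ 1 := by
    rw [hκ]
    split_ifs <;> norm_num
  have hEE : ∀ (L : ℕ) (b : ℤ), ∑ a ∈ (V p).filter (fun a => (L : ℤ) ∣ a - b), F a - κ / (L : ℝ) = EE p k L b := by
    intro L b
    unfold EE
    rw [hF, hκ]
    congr 1
    split_ifs
    · rfl
    · rw [zero_div]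
  have hterm : ∀ h : ℕ, ∃ b : ℤ, h ∈ Icc 1 (3 * H) →
      |∑ a ∈ (V p).filter (fun a => (m : ℤ) ∣ a - t), CC p a h * F a - CC p t (Nat.gcd h m) / m * κ| ≤
      ((h / Nat.gcd h m : ℕ) : ℝ) * CC p t (Nat.gcd h m) * |EE p k (h / Nat.gcd h m * m) b| := by
    intro h
    by_cases hh : h ∈ Icc 1 (3 * H)
    · have hh' := mem_Icc.1 hh
      obtain ⟨b, hb⟩ := term_h p h m (by omega) hm0 (hcop h hh) t (V p) F κ
      rw [hEE] at hb
      exact ⟨b, fun _ => hb⟩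
    · exact ⟨0, fun h' => absurd h' hh⟩
  choose cf hcf using hterm
  have hgroup := hgr H p k m₁ n w (by omega) hW hp1 hH3 hL hpcn t cf
  rw [← hm] at hgroup
  -- the sum
  have hsum : ∑ a ∈ (V p).filter (fun a => (m : ℤ) ∣ a - t),
      u a * (∑ h ∈ Icc 1 (3 * H), w h * CC p a h) * sw p a * Uk k (xx p a) =
      u t * ∑ h ∈ Icc 1 (3 * H), w h * ∑ a ∈ (V p).filter (fun a => (m : ℤ) ∣ a - t), CC p a h * F a := by
    have e1 : ∀ a ∈ (V p).filter (fun a => (m : ℤ) ∣ a - t),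
        u a * (∑ h ∈ Icc 1 (3 * H), w h * CC p a h) * sw p a * Uk k (xx p a) =
        u t * ∑ h ∈ Icc 1 (3 * H), w h * (CC p a h * F a) := by
      intro a ha
      rw [mem_filter] at ha
      rw [hper a t (hMm.trans ha.2), hF, mul_assoc, mul_assoc, sum_mul]
      congr 1
      refine sum_congr rfl fun h _ => ?_
      ring
    rw [sum_congr rfl e1, ← mul_sum, sum_comm]
    congr 1
    refine sum_congr rfl fun h _ => ?_
    rw [mul_sum]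
  have hA : |∑ h ∈ Icc 1 (3 * H), w h * ∑ a ∈ (V p).filter (fun a => (m : ℤ) ∣ a - t), CC p a h * F a -
      ∑ h ∈ Icc 1 (3 * H), w h * (CC p t (Nat.gcd h m) / m * κ)| ≤
      C' * n * (k + 1) * √(m : ℝ) / √(p : ℝ) := by
    refine le_trans ?_ hgroup
    rw [← sum_sub_distrib]
    refine (abs_sum_le_sum_abs _ _).trans (sum_le_sum fun h hh => ?_)
    rw [← mul_sub, abs_mul, abs_of_nonneg (hW.nonneg h), mul_assoc]
    exact mul_le_mul_of_nonneg_left (hcf h hh) (hW.nonneg h)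
  have hB : ∑ h ∈ Icc 1 (3 * H), w h * (CC p t (Nat.gcd h m) / m * κ) =
      κ / m * ∑ h ∈ Icc 1 (3 * H), w h * CC p t (Nat.gcd h n) := by
    rw [mul_sum]
    refine sum_congr rfl fun h _ => ?_
    by_cases hwh : w h = 0
    · rw [hwh]; ring
    · rw [hm, bj_gcd hL (hW.supp h hwh).2.2]
      ring
  have hD : |∑ h ∈ Icc 1 (3 * H), w h * CC p t (Nat.gcd h n) - DD p t n| ≤
      432 * C * (1 + Real.log n) * (n : ℝ) ^ 3 / √(p : ℝ) := by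
    refine (main_diff p t n hL.pos hpcn (3 * H) w).trans ?_
    have h1 : ∀ q ∈ n.divisors, (∑ f ∈ q.divisors, (f : ℝ)) / q *
        |(q : ℝ) * ∑ h ∈ (Icc 1 (3 * H)).filter (q ∣ ·), w h - 1| ≤
        C / (H : ℝ) ^ 3 * ((∑ f ∈ q.divisors, (f : ℝ)) / q * (q : ℝ) ^ 3) := by
      intro q hq
      have hqn : q ∣ n := (Nat.mem_divisors.1 hq).1
      have hq0 : 0 < q := Nat.pos_of_dvd_of_pos hqn hL.pos
      have h2 := hW.lam q hq0 (Nat.Coprime.coprime_dvd_left hqn hL.cop)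
      have h3 : 0 ≤ (∑ f ∈ q.divisors, (f : ℝ)) / q := by positivity
      calc _ ≤ (∑ f ∈ q.divisors, (f : ℝ)) / q * (C * ((q : ℝ) / H) ^ 3) := mul_le_mul_of_nonneg_left h2 h3
        _ = _ := by
          rw [div_pow]
          ring
    refine (sum_le_sum h1).trans ?_
    rw [← mul_sum]
    have h4 := sig_sum n hL.pos
    have hH30 : (0 : ℝ) < (H : ℝ) ^ 3 := by positivity
    have h5 : C / (H : ℝ) ^ 3 ≤ 216 * C / √(p : ℝ) := by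
      rw [div_le_div_iff₀ hH30 hs0]
      nlinarith
    have hlogn : 0 ≤ Real.log n := Real.log_nonneg hn1
    calc _ ≤ 216 * C / √(p : ℝ) * (2 * (1 + Real.log n) * (n : ℝ) ^ 3) :=
          mul_le_mul h5 h4 (sum_nonneg fun q _ => by positivity) (by positivity)
      _ = _ := by ring
  -- conclusion
  have htarget : (if k = 0 then u t / (m : ℝ) * DD p t n else 0) = u t * (κ / m * DD p t n) := by
    rw [hκ]
    split_ifs
    · ring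
    · ring
  have hsum' := hsum
  rw [hsum', htarget, ← mul_sub, abs_mul, abs_of_nonneg (hu t).1]
  rw [hB] at hA
  have hlogn : Real.log n ≤ Real.log p := Real.log_le_log (by linarith) (by exact_mod_cast hnp)
  have hlogn0 : 0 ≤ Real.log n := Real.log_nonneg hn1
  have hk0 : (0 : ℝ) ≤ k := Nat.cast_nonneg k
  obtain ⟨T, hT⟩ : ∃ T : ℝ, T = (m₁ * √(m₁ : ℝ)) * (n : ℝ) ^ 2 * (k + 1) := ⟨_, rfl⟩
  have hsm : 1 ≤ √(m₁ : ℝ) := Real.one_le_sqrt.2 hm₁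
  have hsn : √(n : ℝ) ≤ n := by
    rw [Real.sqrt_le_left (by linarith)]
    nlinarith
  have hT1 : n * (k + 1) * √(m : ℝ) ≤ T := by
    rw [hmeq, Real.sqrt_mul (by linarith), hT]
    have e1 : √(m₁ : ℝ) ≤ m₁ * √(m₁ : ℝ) := le_mul_of_one_le_left (by positivity) hm₁
    calc (n : ℝ) * (k + 1) * (√(m₁ : ℝ) * √(n : ℝ)) = √(m₁ : ℝ) * (n * √(n : ℝ)) * (k + 1) := by ring
      _ ≤ (m₁ * √(m₁ : ℝ)) * (n * n) * (k + 1) := by gcongr
      _ = _ := by ring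
  have hT2 : (n : ℝ) ^ 3 / m ≤ T := by
    rw [hT, hmeq, div_le_iff₀ (by positivity)]
    have e2 : (1 : ℝ) ≤ (m₁ * √(m₁ : ℝ)) * (k + 1) * m₁ := by
      have a1 : (1 : ℝ) ≤ m₁ * √(m₁ : ℝ) := by nlinarith
      have a2 : (1 : ℝ) ≤ (k : ℝ) + 1 := by linarith
      exact one_le_mul_of_one_le_of_one_le (one_le_mul_of_one_le_of_one_le a1 a2) hm₁
    calc (n : ℝ) ^ 3 = n ^ 3 * 1 := by ring
      _ ≤ n ^ 3 * ((m₁ * √(m₁ : ℝ)) * (k + 1) * m₁) := by gcongr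
      _ = _ := by ring
  have hT0 : 0 ≤ T := by rw [hT]; positivity
  have hD' : |κ / m * ∑ h ∈ Icc 1 (3 * H), w h * CC p t (Nat.gcd h n) - κ / m * DD p t n| ≤
      1296 * C * T * (Real.log p / √(p : ℝ)) := by
    rw [← mul_sub, abs_mul, abs_of_nonneg (div_nonneg hκ0.1 hmr.le)]
    calc κ / m * |∑ h ∈ Icc 1 (3 * H), w h * CC p t (Nat.gcd h n) - DD p t n| ≤
        1 / m * (432 * C * (1 + Real.log n) * (n : ℝ) ^ 3 / √(p : ℝ)) := by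
          gcongr
          exact hκ0.2
      _ = 432 * C * (1 + Real.log n) * ((n : ℝ) ^ 3 / m) / √(p : ℝ) := by ring
      _ ≤ 432 * C * (3 * Real.log p) * T / √(p : ℝ) := by
          have e3 : 1 + Real.log n ≤ 3 * Real.log p := by linarith
          gcongr
      _ = _ := by ring
  have hA' : |∑ h ∈ Icc 1 (3 * H), w h * ∑ a ∈ (V p).filter (fun a => (m : ℤ) ∣ a - t), CC p a h * F a -
      κ / m * ∑ h ∈ Icc 1 (3 * H), w h * CC p t (Nat.gcd h n)| ≤ 2 * C' * T * (Real.log p / √(p : ℝ)) := by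
    refine hA.trans ?_
    calc C' * n * (k + 1) * √(m : ℝ) / √(p : ℝ) = C' * (n * (k + 1) * √(m : ℝ)) * 1 / √(p : ℝ) := by ring
      _ ≤ C' * T * (2 * Real.log p) / √(p : ℝ) := by
          have e4 : 1 ≤ 2 * Real.log p := by linarith
          gcongr
      _ = _ := by ring
  have hfin : |∑ h ∈ Icc 1 (3 * H), w h * ∑ a ∈ (V p).filter (fun a => (m : ℤ) ∣ a - t), CC p a h * F a -
      κ / m * DD p t n| ≤ (2 * C' + 1296 * C) * T * (Real.log p / √(p : ℝ)) := by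
    have e5 := abs_sub_le (∑ h ∈ Icc 1 (3 * H), w h * ∑ a ∈ (V p).filter (fun a => (m : ℤ) ∣ a - t), CC p a h * F a)
      (κ / m * ∑ h ∈ Icc 1 (3 * H), w h * CC p t (Nat.gcd h n)) (κ / m * DD p t n)
    calc _ ≤ _ := e5
      _ ≤ 2 * C' * T * (Real.log p / √(p : ℝ)) + 1296 * C * T * (Real.log p / √(p : ℝ)) := add_le_add hA' hD'
      _ = _ := by ring
  have hlp : 0 ≤ Real.log p / √(p : ℝ) := div_nonneg (by linarith) hs0.le
  calc u t * |_| ≤ M * ((2 * C' + 1296 * C) * T * (Real.log p / √(p : ℝ))) :=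
        mul_le_mul (hu t).2 hfin (abs_nonneg _) hMr.le
    _ = (2 * M * C' + 1296 * C * M) * T * (Real.log p / √(p : ℝ)) := by ring
    _ ≤ (2 * M * C' + 1296 * C * M + (1 + C)) * T * (Real.log p / √(p : ℝ)) := by
        have e6 : 2 * M * C' + 1296 * C * M ≤ 2 * M * C' + 1296 * C * M + (1 + C) := by linarith
        gcongr
    _ = _ := by
        rw [hT]
        ring


end Pool.Agent.JB
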