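import Pool.Agent.Lib_MP_f1937f_jb.BesG

/-!
# Bounds for the Bessel integral
-/

set_option autoImplicit false

namespace Pool.Agent.JB

open Finset Pool.Agent.TB


private theorem JI_triv (n : ℕ) (z : ℝ) : ‖JI n z‖ ≤ Real.pi := by
  unfold JI
  have h := intervalIntegral.norm_integral_le_of_norm_le_const (a := 0) (b := Real.pi) (C := 1)
    (f := fun θ : ℝ => (Real.cos (n * θ) : ℂ) * Complex.exp (((z * Real.cos θ : ℝ) : ℂ) * Complex.I)) (fun x _ => by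
      rw [norm_mul, Complex.norm_exp_ofReal_mul_I, mul_one, Complex.norm_real, Real.norm_eq_abs]
      exact Real.abs_cos_le_one _)
  rwa [sub_zero, abs_of_pos Real.pi_pos, one_mul] at h

/-- PIECE [JB-C2b] (both theorems, about 120 lines). PROOF. `z ≥ 1`: `JI_gen` with `r = z ^ (-1 / 3) ≤ 1`. `z < 1`: trivial bound `π`. -/
theorem JI_one : ∃ C : ℝ, 0 ≤ C ∧ ∀ (n : ℕ) (z : ℝ), 0 < z → ‖JI n z‖ ≤ C * z ^ (-(1 / 3) : ℝ) := by
  have hpi := Real.pi_pos
  have hpi3 := Real.pi_gt_three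
  have ha : 0 < √(2 / Real.pi) := Real.sqrt_pos.mpr (by positivity)
  refine ⟨20 / √(2 / Real.pi) + 2 + Real.pi, by positivity, fun n z hz => ?_⟩
  have hp : 0 < z ^ (-(1 / 3) : ℝ) := Real.rpow_pos_of_pos hz _
  have hq : 0 < z ^ ((1 / 3) : ℝ) := Real.rpow_pos_of_pos hz _
  rcases le_or_gt 1 z with h1 | h1
  · have hr1 : z ^ (-(1 / 3) : ℝ) ≤ 1 := Real.rpow_le_one_of_one_le_of_nonpos h1 (by norm_num)
    have h2 := (JI_gen n z (z ^ (-(1 / 3) : ℝ)) hz hp (by linarith)).1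
    have h3 : √(2 * z * z ^ (-(1 / 3) : ℝ) / Real.pi) = √(2 / Real.pi) * z ^ ((1 / 3) : ℝ) := by
      have h4 : z * z ^ (-(1 / 3) : ℝ) = (z ^ ((1 / 3) : ℝ)) ^ 2 := by
        nth_rewrite 1 [← Real.rpow_one z]
        rw [← Real.rpow_add hz, ← Real.rpow_natCast, ← Real.rpow_mul hz.le]
        norm_num
      rw [show 2 * z * z ^ (-(1 / 3) : ℝ) / Real.pi = (2 / Real.pi) * (z * z ^ (-(1 / 3) : ℝ)) by ring, h4,
        Real.sqrt_mul (by positivity), Real.sqrt_sq hq.le]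
    have h5 : 20 / (√(2 / Real.pi) * z ^ ((1 / 3) : ℝ)) = 20 / √(2 / Real.pi) * z ^ (-(1 / 3) : ℝ) := by
      rw [Real.rpow_neg hz.le]
      field_simp
    rw [h3, h5] at h2
    have h6 : 0 < Real.pi * z ^ (-(1 / 3) : ℝ) := mul_pos hpi hp
    calc ‖JI n z‖ ≤ 20 / √(2 / Real.pi) * z ^ (-(1 / 3) : ℝ) + 2 * z ^ (-(1 / 3) : ℝ) := h2
      _ ≤ (20 / √(2 / Real.pi) + 2 + Real.pi) * z ^ (-(1 / 3) : ℝ) := by linarith [h6]
  · have hr1 : 1 ≤ z ^ (-(1 / 3) : ℝ) := Real.one_le_rpow_of_pos_of_le_one_of_nonpos hz h1.le (by norm_num)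
    have h7 : 0 < 20 / √(2 / Real.pi) := by positivity
    calc ‖JI n z‖ ≤ Real.pi := JI_triv n z
      _ ≤ (20 / √(2 / Real.pi) + 2 + Real.pi) * 1 := by linarith
      _ ≤ (20 / √(2 / Real.pi) + 2 + Real.pi) * z ^ (-(1 / 3) : ℝ) :=
          mul_le_mul_of_nonneg_left hr1 (by positivity)

/-- PROOF. Let `y = |n - z| > 0`. If `y ≤ z ^ (1 / 3)`: `z ^ (-1 / 3) ≤ (z y) ^ (-1 / 4)`, `JI_one`. If `y > z ^ (1 / 3)` and `r = (y / z) ^ (1 / 2) ≤ π / 2`:
`JI_gen`, second part: `z r ^ 2 / 2 = y / 2`, `16 / y ≤ 16 (z y) ^ (-1 / 4)` (as `y ^ 3 ≥ z`), `z r = (z y) ^ (1 / 2)`. If `(y / z) ^ (1 / 2) > π / 2`: then `y > z`, so `n > z` and `n - z = y`: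
`JI_far`, `8 / y ≤ 8 (z y) ^ (-1 / 4)`. -/
theorem JI_two : ∃ C : ℝ, 0 ≤ C ∧ ∀ (n : ℕ) (z : ℝ), 1 ≤ z → (n : ℝ) ≠ z → ‖JI n z‖ ≤ C * (z * |(n : ℝ) - z|) ^ (-(1 / 4) : ℝ) := by
  obtain ⟨C, hC, h⟩ := JI_one
  have hpi := Real.pi_pos
  have hpi3 := Real.pi_gt_three
  have ha : 0 < √(2 / Real.pi) := Real.sqrt_pos.mpr (by positivity)
  refine ⟨C + 20 / √(2 / Real.pi) + 16, by positivity, fun n z hz hn => ?_⟩
  have hz0 : 0 < z := by linarith
  have ha' : 0 < 20 / √(2 / Real.pi) := by positivity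
  obtain ⟨y, hy⟩ : ∃ y, y = |(n : ℝ) - z| := ⟨_, rfl⟩
  have hy0 : 0 < y := by rw [hy]; exact abs_pos.mpr (sub_ne_zero.mpr hn)
  rw [← hy]
  have hw : 0 < z * y := mul_pos hz0 hy0
  have hw4 : 0 < (z * y) ^ (-(1 / 4) : ℝ) := Real.rpow_pos_of_pos hw _
  have hCw : 0 ≤ C * (z * y) ^ (-(1 / 4) : ℝ) := mul_nonneg hC hw4.le
  have haw : 0 < 20 / √(2 / Real.pi) * (z * y) ^ (-(1 / 4) : ℝ) := mul_pos ha' hw4
  rcases le_or_gt (y ^ 3) z with h1 | h1
  · -- `y` small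
    have h2 : z ^ (-(1 / 3) : ℝ) ≤ (z * y) ^ (-(1 / 4) : ℝ) := by
      have h3 : y ≤ z ^ ((1 / 3) : ℝ) := by
        have h4 : y = (y ^ 3) ^ ((1 / 3) : ℝ) := by
          rw [← Real.rpow_natCast, ← Real.rpow_mul hy0.le]
          norm_num
        rw [h4]
        exact Real.rpow_le_rpow (by positivity) h1 (by norm_num)
      have h5 : z * y ≤ z ^ ((4 / 3) : ℝ) := by
        calc z * y ≤ z * z ^ ((1 / 3) : ℝ) := mul_le_mul_of_nonneg_left h3 hz0.le
          _ = z ^ ((4 / 3) : ℝ) := by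
            nth_rewrite 1 [← Real.rpow_one z]
            rw [← Real.rpow_add hz0]
            norm_num
      calc z ^ (-(1 / 3) : ℝ) = (z ^ ((4 / 3) : ℝ)) ^ (-(1 / 4) : ℝ) := by
            rw [← Real.rpow_mul hz0.le]
            norm_num
        _ ≤ (z * y) ^ (-(1 / 4) : ℝ) := Real.rpow_le_rpow_of_nonpos hw h5 (by norm_num)
    calc ‖JI n z‖ ≤ C * z ^ (-(1 / 3) : ℝ) := h n z hz0
      _ ≤ C * (z * y) ^ (-(1 / 4) : ℝ) := mul_le_mul_of_nonneg_left h2 hC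
      _ ≤ _ := by linarith
  · have h16 : 1 / y ≤ (z * y) ^ (-(1 / 4) : ℝ) := by
      have h3 : z * y ≤ y ^ 4 := by nlinarith
      have h4 : 1 / y = (y ^ 4) ^ (-(1 / 4) : ℝ) := by
        rw [← Real.rpow_natCast, ← Real.rpow_mul hy0.le, one_div, ← Real.rpow_neg_one]
        norm_num
      rw [h4]
      exact Real.rpow_le_rpow_of_nonpos hw h3 (by norm_num)
    have hyz : 0 < y / z := div_pos hy0 hz0
    rcases le_or_gt (√(y / z)) (Real.pi / 2) with h5 | h5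
    · have hr : 0 < √(y / z) := Real.sqrt_pos.mpr hyz
      have h6 : z * √(y / z) ^ 2 / 2 = y / 2 := by
        rw [Real.sq_sqrt hyz.le]
        field_simp
      have h7 := (JI_gen n z (√(y / z)) hz0 hr h5).2
      rw [h6, ← hy] at h7
      have h8 := h7 (by linarith)
      have h9 : √(2 * z * √(y / z) / Real.pi) = √(2 / Real.pi) * (z * y) ^ ((1 / 4) : ℝ) := by
        have h10 : z * √(y / z) = √(z * y) := by
          rw [show z * y = z ^ 2 * (y / z) by field_simp, Real.sqrt_mul (by positivity), Real.sqrt_sq hz0.le]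
        have h11 : √(z * √(y / z)) = (z * y) ^ ((1 / 4) : ℝ) := by
          rw [h10, Real.sqrt_eq_rpow, Real.sqrt_eq_rpow, ← Real.rpow_mul hw.le]
          norm_num
        rw [show 2 * z * √(y / z) / Real.pi = (2 / Real.pi) * (z * √(y / z)) by ring, Real.sqrt_mul (by positivity), h11]
      have h12 : 20 / (√(2 / Real.pi) * (z * y) ^ ((1 / 4) : ℝ)) = 20 / √(2 / Real.pi) * (z * y) ^ (-(1 / 4) : ℝ) := by
        have h13 : 0 < (z * y) ^ ((1 / 4) : ℝ) := Real.rpow_pos_of_pos hw _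
        rw [Real.rpow_neg hw.le]
        field_simp
      have h14 : 8 / (y - y / 2) = 16 * (1 / y) := by
        field_simp
        norm_num
      rw [h9, h12, h14] at h8
      calc ‖JI n z‖ ≤ 20 / √(2 / Real.pi) * (z * y) ^ (-(1 / 4) : ℝ) + 16 * (1 / y) := h8
        _ ≤ 20 / √(2 / Real.pi) * (z * y) ^ (-(1 / 4) : ℝ) + 16 * (z * y) ^ (-(1 / 4) : ℝ) := by linarith
        _ ≤ _ := by linarith
    · have h6 : z < y := by
        have h7 : 1 < √(y / z) := by linarith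
        have h8 : 1 < y / z := by
          have := (Real.lt_sqrt (by norm_num : (0 : ℝ) ≤ 1)).mp h7
          linarith
        rwa [one_lt_div hz0] at h8
      have h7 : z < (n : ℝ) := by
        by_contra hcon
        have h8 : |(n : ℝ) - z| = z - n := by
          rw [abs_of_nonpos (by linarith [not_lt.mp hcon])]
          ring
        have h9 : (0 : ℝ) ≤ n := Nat.cast_nonneg n
        rw [hy, h8] at h6
        linarith
      have h8 : y = (n : ℝ) - z := by rw [hy, abs_of_pos (by linarith)]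
      have h9 := JI_far n z hz0.le h7
      rw [← h8] at h9
      calc ‖JI n z‖ ≤ 8 / y := h9
        _ = 8 * (1 / y) := by ring
        _ ≤ 8 * (z * y) ^ (-(1 / 4) : ℝ) := by linarith
        _ ≤ _ := by linarith


end Pool.Agent.JB
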