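import Pool.Agent.Lib_MP_f1937f_jb.VdC

/-!
# The general bound for the Bessel integral
-/

set_option autoImplicit false

namespace Pool.Agent.JB

open Finset Pool.Agent.TB

/-- the phase -/
private noncomputable def ph (s : ℝ) (n : ℕ) (z θ : ℝ) : ℝ := s * n * θ + z * Real.cos θ

private lemma ph_d1 (s : ℝ) (n : ℕ) (z x : ℝ) : HasDerivAt (ph s n z) (s * n - z * Real.sin x) x := by
  have := ((hasDerivAt_id x).const_mul (s * n)).add ((Real.hasDerivAt_cos x).const_mul z)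
  refine (this.congr_deriv ?_)
  ring

private lemma ph_d2 (s : ℝ) (n : ℕ) (z x : ℝ) :
    HasDerivAt (fun y => s * n - z * Real.sin y) (-(z * Real.cos x)) x := by
  have := ((Real.hasDerivAt_sin x).const_mul z).const_sub (s * n)
  exact this

private lemma ph_c (z : ℝ) (S : Set ℝ) : ContinuousOn (fun x => -(z * Real.cos x)) S := by
  refine Continuous.continuousOn ?_
  fun_prop

private lemma ph_int (s : ℝ) (n : ℕ) (z a b : ℝ) :
    IntervalIntegrable (fun x => Complex.exp ((ph s n z x : ℂ) * Complex.I)) MeasureTheory.volume a b := by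
  refine Continuous.intervalIntegrable ?_ _ _
  unfold ph
  fun_prop

private lemma JI_eq (n : ℕ) (z : ℝ) : JI n z =
    (1 / 2 : ℂ) * ((∫ θ in (0 : ℝ)..Real.pi, Complex.exp ((ph 1 n z θ : ℂ) * Complex.I)) +
      ∫ θ in (0 : ℝ)..Real.pi, Complex.exp ((ph (-1) n z θ : ℂ) * Complex.I)) := by
  rw [← intervalIntegral.integral_add (ph_int 1 n z 0 Real.pi) (ph_int (-1) n z 0 Real.pi),
    ← intervalIntegral.integral_const_mul]
  unfold JI ph
  refine intervalIntegral.integral_congr fun θ _ => ?_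
  have e1 : (((1 : ℝ) * n * θ + z * Real.cos θ : ℝ) : ℂ) * Complex.I =
      ((n * θ : ℝ) : ℂ) * Complex.I + ((z * Real.cos θ : ℝ) : ℂ) * Complex.I := by
    push_cast
    ring
  have e2 : (((-1 : ℝ) * n * θ + z * Real.cos θ : ℝ) : ℂ) * Complex.I =
      -((n * θ : ℝ) : ℂ) * Complex.I + ((z * Real.cos θ : ℝ) : ℂ) * Complex.I := by
    push_cast
    ring
  rw [e1, e2, Complex.exp_add, Complex.exp_add, ← add_mul, ← mul_assoc, Complex.ofReal_cos, Complex.cos]
  ring

private lemma JI_le {n : ℕ} {z B : ℝ}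
    (h : ∀ s : ℝ, s = 1 ∨ s = -1 → ‖∫ θ in (0 : ℝ)..Real.pi, Complex.exp ((ph s n z θ : ℂ) * Complex.I)‖ ≤ B) :
    ‖JI n z‖ ≤ B := by
  rw [JI_eq, norm_mul]
  have h1 := h 1 (Or.inl rfl)
  have h2 := h (-1) (Or.inr rfl)
  have h3 : ‖(1 / 2 : ℂ)‖ = 1 / 2 := by norm_num
  rw [h3]
  have := norm_add_le (∫ θ in (0 : ℝ)..Real.pi, Complex.exp ((ph 1 n z θ : ℂ) * Complex.I))
    (∫ θ in (0 : ℝ)..Real.pi, Complex.exp ((ph (-1) n z θ : ℂ) * Complex.I))
  linarith

private lemma cos_lo {r x : ℝ} (hr : 0 < r) (_ : r ≤ Real.pi / 2) (h0 : 0 ≤ x) (h1 : x ≤ Real.pi / 2 - r) :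
    2 / Real.pi * r ≤ Real.cos x := by
  have e : Real.cos x = Real.sin (Real.pi / 2 - x) := (Real.sin_pi_div_two_sub x).symm
  rw [e]
  have k1 : 2 / Real.pi * (Real.pi / 2 - x) ≤ Real.sin (Real.pi / 2 - x) :=
    Real.mul_le_sin (by linarith) (by linarith)
  refine le_trans ?_ k1
  exact mul_le_mul_of_nonneg_left (by linarith) (by positivity)

private lemma cos_hi {r x : ℝ} (hr : 0 < r) (hr' : r ≤ Real.pi / 2) (h0 : Real.pi / 2 + r ≤ x) (h1 : x ≤ Real.pi) :
    Real.cos x ≤ -(2 / Real.pi * r) := by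
  have := cos_lo hr hr' (x := Real.pi - x) (by linarith) (by linarith)
  rw [Real.cos_pi_sub] at this
  linarith

private lemma abs_ge {s : ℝ} (hs : s = 1 ∨ s = -1) (n : ℕ) (z x : ℝ) (hz : 0 ≤ z) (h0 : 0 ≤ Real.sin x) :
    |(n : ℝ) - z| - z * (1 - Real.sin x) ≤ |s * n - z * Real.sin x| := by
  have hn : (0 : ℝ) ≤ n := Nat.cast_nonneg n
  have hs1 := Real.sin_le_one x
  have k : |(n : ℝ) - z| - z * (1 - Real.sin x) ≤ |(n : ℝ) - z * Real.sin x| := by
    have := abs_sub_abs_le_abs_sub ((n : ℝ) - z) ((n : ℝ) - z * Real.sin x)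
    have e : (n : ℝ) - z - ((n : ℝ) - z * Real.sin x) = -(z * (1 - Real.sin x)) := by ring
    rw [e, abs_neg, abs_of_nonneg (mul_nonneg hz (by linarith))] at this
    linarith
  rcases hs with rfl | rfl
  · rw [one_mul]
    exact k
  · refine k.trans ?_
    have e : |(-1) * (n : ℝ) - z * Real.sin x| = n + z * Real.sin x := by
      rw [show (-1) * (n : ℝ) - z * Real.sin x = -(n + z * Real.sin x) by ring, abs_neg, abs_of_nonneg (by positivity)]
    rw [e, abs_le]
    have : 0 ≤ z * Real.sin x := mul_nonneg hz h0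
    constructor <;> linarith

private lemma ends {s : ℝ} (n : ℕ) (z r : ℝ) (hz : 0 < z) (hr : 0 < r) (hr' : r ≤ Real.pi / 2) :
    ‖∫ θ in (0 : ℝ)..(Real.pi / 2 - r), Complex.exp ((ph s n z θ : ℂ) * Complex.I)‖ ≤ 10 / √(2 * z * r / Real.pi) ∧
    ‖∫ θ in (Real.pi / 2 + r)..Real.pi, Complex.exp ((ph s n z θ : ℂ) * Complex.I)‖ ≤ 10 / √(2 * z * r / Real.pi) := by
  have hpi := Real.pi_pos
  have hmu : 0 < 2 * z * r / Real.pi := by positivity
  have e : z * (2 / Real.pi * r) = 2 * z * r / Real.pi := by ring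
  constructor
  · refine vdc_second (ph s n z) _ _ 0 (Real.pi / 2 - r) _ (by linarith) (fun x _ => ph_d1 s n z x)
      (fun x _ => ph_d2 s n z x) (ph_c z _) hmu (Or.inr fun x hx => ?_)
    have := mul_le_mul_of_nonneg_left (cos_lo hr hr' hx.1 hx.2) hz.le
    linarith
  · refine vdc_second (ph s n z) _ _ (Real.pi / 2 + r) Real.pi _ (by linarith) (fun x _ => ph_d1 s n z x)
      (fun x _ => ph_d2 s n z x) (ph_c z _) hmu (Or.inl fun x hx => ?_)
    have := mul_le_mul_of_nonneg_left (cos_hi hr hr' hx.1 hx.2) hz.le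
    linarith

private lemma split3 {s : ℝ} (n : ℕ) (z a b B1 B2 B3 : ℝ)
    (h1 : ‖∫ θ in (0 : ℝ)..a, Complex.exp ((ph s n z θ : ℂ) * Complex.I)‖ ≤ B1)
    (h2 : ‖∫ θ in a..b, Complex.exp ((ph s n z θ : ℂ) * Complex.I)‖ ≤ B2)
    (h3 : ‖∫ θ in b..Real.pi, Complex.exp ((ph s n z θ : ℂ) * Complex.I)‖ ≤ B3) :
    ‖∫ θ in (0 : ℝ)..Real.pi, Complex.exp ((ph s n z θ : ℂ) * Complex.I)‖ ≤ B1 + B2 + B3 := by
  have e := intervalIntegral.integral_add_adjacent_intervals (ph_int s n z 0 a) (ph_int s n z a b)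
  have e' := intervalIntegral.integral_add_adjacent_intervals (ph_int s n z 0 b) (ph_int s n z b Real.pi)
  rw [← e', ← e]
  exact (norm_add_le _ _).trans (add_le_add ((norm_add_le _ _).trans (add_le_add h1 h2)) h3)

/-- PIECE [JB-C2a] (both theorems, about 150 lines). PROOF. `2 cos (n θ) exp (i z cos θ)` is the sum of `exp (i φ)` for `φ = ± n θ + z cos θ`; `φ' = ± n - z sin θ`,
`φ'' = - z cos θ`. On `[0, π / 2 - r]` and `[π / 2 + r, π]`: `|φ''| ≥ z sin r ≥ (2 / π) z r`, by `vdc_second` at most `10 / √(2 z r / π)` each. On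
`[π / 2 - r, π / 2]` and `[π / 2, π / 2 + r]` either the trivial bound `r` each, or `|φ'| ≥ |n - z| - z (1 - sin θ) ≥ |n - z| - z r ^ 2 / 2`
(`|± n - z sin θ| ≥ |n - z sin θ|`, `1 - sin θ = 1 - cos (θ - π / 2) ≤ r ^ 2 / 2`) and `vdc_first`. -/
theorem JI_gen (n : ℕ) (z r : ℝ) (hz : 0 < z) (hr : 0 < r) (hr' : r ≤ Real.pi / 2) :
    ‖JI n z‖ ≤ 20 / √(2 * z * r / Real.pi) + 2 * r ∧
    (z * r ^ 2 / 2 < |(n : ℝ) - z| → ‖JI n z‖ ≤ 20 / √(2 * z * r / Real.pi) + 8 / (|(n : ℝ) - z| - z * r ^ 2 / 2)) := by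
  have hpi := Real.pi_pos
  constructor
  · refine JI_le fun s hs => ?_
    obtain ⟨h1, h3⟩ := ends (s := s) n z r hz hr hr'
    have h2 : ‖∫ θ in (Real.pi / 2 - r)..(Real.pi / 2 + r), Complex.exp ((ph s n z θ : ℂ) * Complex.I)‖ ≤ 2 * r := by
      have := intervalIntegral.norm_integral_le_of_norm_le_const (a := Real.pi / 2 - r) (b := Real.pi / 2 + r) (C := 1)
        (f := fun x => Complex.exp ((ph s n z x : ℂ) * Complex.I))
        (fun x _ => (Complex.norm_exp_ofReal_mul_I _).le)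
      refine this.trans ?_
      rw [one_mul, abs_of_nonneg (by linarith)]
      linarith
    refine (split3 n z _ _ _ _ _ h1 h2 h3).trans (le_of_eq ?_)
    ring
  · intro hlt
    refine JI_le fun s hs => ?_
    obtain ⟨h1, h3⟩ := ends (s := s) n z r hz hr hr'
    set lam : ℝ := |(n : ℝ) - z| - z * r ^ 2 / 2 with hlam
    have hl0 : 0 < lam := by rw [hlam]; linarith
    have hlow : ∀ x : ℝ, Real.pi / 2 - r ≤ x → x ≤ Real.pi / 2 + r → lam ≤ |s * n - z * Real.sin x| := by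
      intro x hx1 hx2
      have k0 : 0 ≤ Real.sin x := Real.sin_nonneg_of_nonneg_of_le_pi (by linarith) (by linarith)
      refine le_trans ?_ (abs_ge hs n z x hz.le k0)
      have k1 : 1 - Real.sin x ≤ r ^ 2 / 2 := by
        have k2 := Real.one_sub_sq_div_two_le_cos (x := x - Real.pi / 2)
        rw [Real.cos_sub_pi_div_two] at k2
        have k3 : (x - Real.pi / 2) ^ 2 ≤ r ^ 2 := sq_le_sq' (by linarith) (by linarith)
        linarith
      have := mul_le_mul_of_nonneg_left k1 hz.le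
      rw [hlam]
      linarith
    have ha : ‖∫ θ in (Real.pi / 2 - r)..(Real.pi / 2), Complex.exp ((ph s n z θ : ℂ) * Complex.I)‖ ≤ 4 / lam := by
      refine vdc_first (ph s n z) _ _ _ _ lam (by linarith) (fun x _ => ph_d1 s n z x)
        (fun x _ => ph_d2 s n z x) (ph_c z _) (Or.inr fun x hx => ?_) hl0 fun x hx => hlow x hx.1 (by linarith [hx.2])
      have := mul_nonneg hz.le (Real.cos_nonneg_of_neg_pi_div_two_le_of_le (x := x) (by linarith [hx.1]) hx.2)
      linarith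
    have hb : ‖∫ θ in (Real.pi / 2)..(Real.pi / 2 + r), Complex.exp ((ph s n z θ : ℂ) * Complex.I)‖ ≤ 4 / lam := by
      refine vdc_first (ph s n z) _ _ _ _ lam (by linarith) (fun x _ => ph_d1 s n z x)
        (fun x _ => ph_d2 s n z x) (ph_c z _) (Or.inl fun x hx => ?_) hl0 fun x hx => hlow x (by linarith [hx.1]) hx.2
      have := mul_nonneg hz.le (neg_nonneg.2 (Real.cos_nonpos_of_pi_div_two_le_of_le (x := x) hx.1 (by linarith [hx.2])))
      linarith
    have h2 : ‖∫ θ in (Real.pi / 2 - r)..(Real.pi / 2 + r), Complex.exp ((ph s n z θ : ℂ) * Complex.I)‖ ≤ 8 / lam := by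
      rw [← intervalIntegral.integral_add_adjacent_intervals (ph_int s n z (Real.pi / 2 - r) (Real.pi / 2))
        (ph_int s n z (Real.pi / 2) (Real.pi / 2 + r))]
      refine ((norm_add_le _ _).trans (add_le_add ha hb)).trans (le_of_eq ?_)
      ring
    refine (split3 n z _ _ _ _ _ h1 h2 h3).trans (le_of_eq ?_)
    ring

/-- PROOF. `|φ'| ≥ n - z` on `[0, π / 2]` and `[π / 2, π]`, `vdc_first`. -/
theorem JI_far (n : ℕ) (z : ℝ) (hz : 0 ≤ z) (hn : z < n) : ‖JI n z‖ ≤ 8 / ((n : ℝ) - z) := by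
  have hpi := Real.pi_pos
  refine JI_le fun s hs => ?_
  have hl0 : 0 < (n : ℝ) - z := by linarith
  have hlow : ∀ x : ℝ, 0 ≤ x → x ≤ Real.pi → (n : ℝ) - z ≤ |s * n - z * Real.sin x| := by
    intro x hx1 hx2
    have k0 : 0 ≤ Real.sin x := Real.sin_nonneg_of_nonneg_of_le_pi hx1 hx2
    have k1 := Real.sin_le_one x
    have k2 : z * Real.sin x ≤ z := mul_le_of_le_one_right hz k1
    have k3 : 0 ≤ z * Real.sin x := mul_nonneg hz k0
    rcases hs with rfl | rfl
    · exact le_trans (by linarith) (le_abs_self _)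
    · exact le_trans (by linarith) (neg_le_abs _)
  have ha : ‖∫ θ in (0 : ℝ)..(Real.pi / 2), Complex.exp ((ph s n z θ : ℂ) * Complex.I)‖ ≤ 4 / ((n : ℝ) - z) := by
    refine vdc_first (ph s n z) _ _ _ _ _ (by linarith) (fun x _ => ph_d1 s n z x)
      (fun x _ => ph_d2 s n z x) (ph_c z _) (Or.inr fun x hx => ?_) hl0 fun x hx => hlow x hx.1 (by linarith [hx.2])
    have := mul_nonneg hz (Real.cos_nonneg_of_neg_pi_div_two_le_of_le (x := x) (by linarith [hx.1]) hx.2)
    linarith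
  have hb : ‖∫ θ in (Real.pi / 2)..Real.pi, Complex.exp ((ph s n z θ : ℂ) * Complex.I)‖ ≤ 4 / ((n : ℝ) - z) := by
    refine vdc_first (ph s n z) _ _ _ _ _ (by linarith) (fun x _ => ph_d1 s n z x)
      (fun x _ => ph_d2 s n z x) (ph_c z _) (Or.inl fun x hx => ?_) hl0 fun x hx => hlow x (by linarith [hx.1]) hx.2
    have := mul_nonneg hz (neg_nonneg.2 (Real.cos_nonpos_of_pi_div_two_le_of_le (x := x) hx.1 (by linarith [hx.2])))
    linarith
  rw [← intervalIntegral.integral_add_adjacent_intervals (ph_int s n z 0 (Real.pi / 2))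
    (ph_int s n z (Real.pi / 2) Real.pi)]
  refine ((norm_add_le _ _).trans (add_le_add ha hb)).trans (le_of_eq ?_)
  ring


end Pool.Agent.JB
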