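import Pool.Agent.Lib_MP_f1937f_jb.Avg

/-!
# Properties of `DD`
-/

set_option autoImplicit false

namespace Pool.Agent.JB

open Finset Pool.Agent.TB


/-- PIECE [JB-A5] (all theorems of this file, about 100 lines). `DD_sum`: for `g ∣ n`, `∑ t ∈ range n, CC d t g = (n / g) * g = n` (`per_sum`, `avg` with
`m = 1`), so the sum is `∑ g ∣ n, φ (n / g) = n`. `DD_le`: `CC d t g ≤ g`, `φ (n / g) * g / n ≤ 1`, so `DD d t n ≤ #divisors ≤ n`. -/
theorem DD_nonneg (d t : ℤ) (n : ℕ) : 0 ≤ DD d t n := by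
  unfold DD
  exact Finset.sum_nonneg fun g _ => mul_nonneg (div_nonneg (Nat.cast_nonneg _) (Nat.cast_nonneg _)) (CC_nonneg d t g)

theorem DD_one (d t : ℤ) : DD d t 1 = 1 := by
  simp [DD, CC_one]

theorem DD_le (d t : ℤ) (n : ℕ) (hn : 0 < n) (hd : IsCoprime d (n : ℤ)) : DD d t n ≤ n := by
  have hn' : (0 : ℝ) < n := Nat.cast_pos.mpr hn
  have h1 : ∀ g ∈ n.divisors, ((n / g).totient : ℝ) / n * CC d t g ≤ 1 := by
    intro g hg
    have hgn : g ∣ n := Nat.dvd_of_mem_divisors hg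
    have hg0 : 0 < g := Nat.pos_of_dvd_of_pos hgn hn
    have h2 : CC d t g ≤ g := CC_le d t g hg0 (hd.of_isCoprime_of_dvd_right (Int.natCast_dvd_natCast.mpr hgn))
    have h3 : ((n / g).totient : ℝ) ≤ ((n / g : ℕ) : ℝ) := Nat.cast_le.mpr (Nat.totient_le _)
    have h4 : ((n / g : ℕ) : ℝ) * g = n := by
      rw [← Nat.cast_mul, Nat.div_mul_cancel hgn]
    rw [div_mul_eq_mul_div, div_le_one hn']
    calc ((n / g).totient : ℝ) * CC d t g ≤ ((n / g : ℕ) : ℝ) * g :=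
          mul_le_mul h3 h2 (CC_nonneg d t g) (Nat.cast_nonneg _)
      _ = n := h4
  unfold DD
  refine (Finset.sum_le_sum h1).trans ?_
  rw [Finset.sum_const, nsmul_eq_mul, mul_one]
  exact Nat.cast_le.mpr (Nat.card_divisors_le_self n)

theorem DD_sum (d : ℤ) (n : ℕ) (hn : 0 < n) (hd : IsCoprime d (n : ℤ)) : ∑ t ∈ range n, DD d t n = n := by
  have hn' : (n : ℝ) ≠ 0 := (Nat.cast_pos.mpr hn).ne'
  have h1 : ∀ g ∈ n.divisors, ∑ t ∈ range n, ((n / g).totient : ℝ) / n * CC d (t : ℤ) g = ((n / g).totient : ℝ) := by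
    intro g hg
    have hgn : g ∣ n := Nat.dvd_of_mem_divisors hg
    have hg0 : 0 < g := Nat.pos_of_dvd_of_pos hgn hn
    have h2 := avg d g 1 hg0 one_pos (hd.of_isCoprime_of_dvd_right (Int.natCast_dvd_natCast.mpr hgn)) 0
    rw [Nat.gcd_one_right, CC_one, mul_one, mul_one, Finset.filter_true_of_mem (fun b _ => by simp)] at h2
    have h3 := per_sum g (n / g) hg0 (fun b => CC d (b : ℤ) g) (fun b => by
      refine CC_congr (by simp) ?_
      rw [Int.natCast_mod]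
      exact (Int.modEq_iff_dvd.mp (Int.mod_modEq (b : ℤ) (g : ℤ)).symm))
    rw [Nat.div_mul_cancel hgn] at h3
    rw [← Finset.mul_sum, h3, h2, ← Nat.cast_mul, Nat.div_mul_cancel hgn, div_mul_cancel₀ _ hn']
  unfold DD
  rw [Finset.sum_comm, Finset.sum_congr rfl h1, Nat.sum_div_divisors n (fun k => ((k.totient : ℕ) : ℝ)), ← Nat.cast_sum,
    Nat.sum_totient]

theorem DD_congr {d d' t t' : ℤ} {n : ℕ} (hd : (n : ℤ) ∣ d - d') (ht : (n : ℤ) ∣ t - t') : DD d t n = DD d' t' n := by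
  unfold DD
  refine Finset.sum_congr rfl fun g hg => ?_
  have hgn : (g : ℤ) ∣ (n : ℤ) := Int.natCast_dvd_natCast.mpr (Nat.dvd_of_mem_divisors hg)
  rw [CC_congr (hgn.trans hd) (hgn.trans ht)]


end Pool.Agent.JB
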