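import Pool.Agent.Lib_MP_f1937f_tb.Defs
import Pool.Agent.Lib_MP_f1937f_tb.Sw

/-!
# Joint barrier for the Lang-Trotter conjecture: definitions

Library for `MP_f1937f_nt/JointBarrier`. `rho d a e` is the number of the roots of `c² - a c + d` modulo `e`, `CC d a h` and `DD d a n` are the
local weights, `EE p k L c` is the error of the semicircle sum in the class of `c` modulo `L`.
-/

set_option autoImplicit false

namespace Pool.Agent.JB

open Finset Pool.Agent.TB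

/-- number of the roots of `c² - a c + d` modulo `e` -/
noncomputable def rho (d a : ℤ) (e : ℕ) : ℕ := Nat.card {c : ZMod e // c ^ 2 - (a : ZMod e) * c + (d : ZMod e) = 0}

/-- `κ(l) = l² / (l² - 1)` -/
noncomputable def kap (l : ℕ) : ℝ := (l : ℝ) ^ 2 / ((l : ℝ) ^ 2 - 1)

/-- the weight of level `h` -/
noncomputable def CC (d a : ℤ) (h : ℕ) : ℝ :=
  ∏ l ∈ h.primeFactors, (kap l * (rho d a (l ^ h.factorization l) : ℝ) + 1 / ((l : ℝ) + 1))

/-- the density weight of modulus `n` -/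
noncomputable def DD (d a : ℤ) (n : ℕ) : ℝ := ∑ g ∈ n.divisors, ((n / g).totient : ℝ) / n * CC d a g

/-- the moduli `m = m₁ n` -/
structure Lev (M m₁ n : ℕ) : Prop where
  pos₁ : 0 < m₁
  dvd : M ∣ m₁
  pr : ∀ l : ℕ, l.Prime → l ∣ m₁ → l ∣ M
  pos : 0 < n
  cop : n.Coprime M

/-- error of the semicircle sum in the class of `c` modulo `L` -/
noncomputable def EE (p k L : ℕ) (c : ℤ) : ℝ :=
  ∑ a ∈ (V p).filter (fun a => (L : ℤ) ∣ a - c), sw p a * Uk k (xx p a) - (if k = 0 then 1 / (L : ℝ) else 0)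

/-- the integral of the Bessel functions -/
noncomputable def JI (n : ℕ) (z : ℝ) : ℂ :=
  ∫ θ in (0 : ℝ)..Real.pi, (Real.cos (n * θ) : ℂ) * Complex.exp (((z * Real.cos θ : ℝ) : ℂ) * Complex.I)

/-- number of the triples of `{1, ..., H}` of sum `h` -/
def R3 (H h : ℕ) : ℕ := ((Icc 1 H ×ˢ Icc 1 H ×ˢ Icc 1 H).filter (fun x => x.1 + x.2.1 + x.2.2 = h)).card

/-- the weights of the levels -/
structure Wt (M H : ℕ) (C c : ℝ) (w : ℕ → ℝ) : Prop where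
  nonneg : ∀ h, 0 ≤ w h
  supp : ∀ h, w h ≠ 0 → 1 ≤ h ∧ h ≤ 3 * H ∧ h.Coprime M
  le : ∀ h, h ≠ 1 → w h ≤ C / H
  one_le : w 1 ≤ C
  one_ge : c / Real.log H ≤ w 1
  lam : ∀ q : ℕ, 0 < q → q.Coprime M → |(q : ℝ) * ∑ h ∈ (Icc 1 (3 * H)).filter (q ∣ ·), w h - 1| ≤ C * ((q : ℝ) / H) ^ 3

/-- a law for the prime `p` with the joint densities and the Sato-Tate distribution at the strength of GRH -/
structure GoodLawJ (M : ℕ) (u : ℤ → ℝ) (C : ℝ) (p : ℕ) (ρ : ℤ → ℝ) : Prop where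
  nonneg : ∀ a, 0 ≤ ρ a
  supp : ∀ a, ρ a ≠ 0 → a ∈ V p
  total : ∑ a ∈ V p, ρ a = 1
  equi : ∀ m₁ n : ℕ, Lev M m₁ n → n ≤ p → ¬ p ∣ n → ∀ (t : ℤ) (k : ℕ),
    |∑ a ∈ (V p).filter (fun a => ((m₁ * n : ℕ) : ℤ) ∣ a - t), ρ a * Uk k (xx p a) -
        (if k = 0 then u t / ((m₁ * n : ℕ) : ℝ) * DD p t n else 0)| ≤
      C * (m₁ * √(m₁ : ℝ)) * (n : ℝ) ^ 2 * (k + 1) * (Real.log p / √(p : ℝ))

/-- properties of the densities modulo `M` for one determinant -/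
structure UV (M : ℕ) (c : ℝ) (u : ℤ → ℝ) : Prop where
  per : ∀ t t' : ℤ, (M : ℤ) ∣ t - t' → u t = u t'
  nonneg : ∀ t, 0 ≤ u t
  le : ∀ t, u t ≤ M
  low : ∀ t, 0 < u t → c ≤ u t
  sum : ∑ t ∈ range M, u (t : ℤ) = M

/-- The joint information at the strength of GRH, for an integer sequence indexed by the primes. -/
def InfoJ (M : ℕ) (u : ℕ → ℤ → ℝ) (a : ℕ → ℤ) (s : ℝ) : Prop :=
  ∃ C : ℝ, ∀ m₁ n : ℕ, Lev M m₁ n → ∀ (t : ℤ) (d : ℕ), d.Coprime (M * n) → ∀ k x : ℕ, 2 ≤ x →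
    |∑ p ∈ ((range (x + 1)).filter Nat.Prime).filter (fun p => p ≡ d [MOD M * n] ∧ ((m₁ * n : ℕ) : ℤ) ∣ a p - t),
          Uk k (xx p (a p)) -
        (if k = 0 then u d t / ((m₁ * n : ℕ) : ℝ) * DD d t n else 0) *
          ((((range (x + 1)).filter Nat.Prime).filter (fun p => p ≡ d [MOD M * n])).card : ℝ)| ≤
      C * (m₁ * √(m₁ : ℝ)) * n * (k + 1) * √(x : ℝ) * Real.log (((m₁ * n : ℕ) : ℝ) * (k + 2) * x) ^ s

/-- the density of the trace `t` among the elements of determinant `d` in `G`, times `M` -/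
noncomputable def uJ (M : ℕ) (G : Subgroup (GL (Fin 2) (ZMod M))) (d : ℕ) (t : ℤ) : ℝ :=
  (M : ℝ) * (Nat.card {g : GL (Fin 2) (ZMod M) // g ∈ G ∧ g.val.det = (d : ZMod M) ∧ g.val.trace = (t : ZMod M)} : ℝ) /
    (Nat.card {g : GL (Fin 2) (ZMod M) // g ∈ G ∧ g.val.det = (d : ZMod M)} : ℝ)

/-- the 2-adic valuation of the rank of `p` among the primes of its class modulo `M` -/
noncomputable def rkJ (M p : ℕ) : ℕ :=
  padicValNat 2 (((range (p + 1)).filter Nat.Prime).filter (fun q => q ≡ p [MOD M])).card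

end Pool.Agent.JB
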