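import Pool.Agent.Lib_MP_f1937f_jb.Rho

/-!
# The identity between the two forms of the density
-/

set_option autoImplicit false

namespace Pool.Agent.JB

open Finset Pool.Agent.TB


/-- the arithmetic function of `F`, with the value `0` at `0` -/
private noncomputable def idAF (F : ℕ → ℝ) : ArithmeticFunction ℝ := ⟨fun n => if n = 0 then 0 else F n, by simp⟩

private theorem idAF_apply (F : ℕ → ℝ) {n : ℕ} (hn : n ≠ 0) : idAF F n = F n := if_neg hn

private theorem idAF_mult {F : ℕ → ℝ} (h1 : F 1 = 1)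
    (h : ∀ m n : ℕ, 0 < m → 0 < n → m.Coprime n → F (m * n) = F m * F n) : (idAF F).IsMultiplicative := by
  rw [ArithmeticFunction.IsMultiplicative.iff_ne_zero]
  refine ⟨by rw [idAF_apply F one_ne_zero, h1], fun {m n} hm hn hmn => ?_⟩
  rw [idAF_apply F hm, idAF_apply F hn, idAF_apply F (mul_ne_zero hm hn)]
  exact h m n (Nat.pos_of_ne_zero hm) (Nat.pos_of_ne_zero hn) hmn

private theorem idAF_conv (F : ℕ → ℝ) {n : ℕ} (hn : n ≠ 0) :
    (idAF (fun k => (k.totient : ℝ)) * idAF F) n = ∑ e ∈ n.divisors, ((n / e).totient : ℝ) * F e := by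
  rw [ArithmeticFunction.mul_apply,
    Nat.sum_divisorsAntidiagonal' (fun x y => idAF (fun k => (k.totient : ℝ)) x * idAF F y)]
  refine Finset.sum_congr rfl fun e he => ?_
  have h1 : e ∣ n := Nat.dvd_of_mem_divisors he
  have h2 : e ≠ 0 := fun h => hn (by rw [h] at h1; exact Nat.eq_zero_of_zero_dvd h1)
  have h3 : n / e ≠ 0 := (Nat.div_pos (Nat.le_of_dvd (Nat.pos_of_ne_zero hn) h1) (Nat.pos_of_ne_zero h2)).ne'
  rw [idAF_apply _ h3, idAF_apply _ h2]

private theorem idTotSum (l J : ℕ) (hl : l.Prime) : ∑ i ∈ range (J + 1), ((l ^ (J - i)).totient : ℝ) = (l : ℝ) ^ J := by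
  have h1 := Nat.sum_div_divisors (l ^ J) (fun k => ((k.totient : ℕ) : ℝ))
  rw [← Nat.cast_sum (s := (l ^ J).divisors) (f := fun k => k.totient), Nat.sum_totient,
    Nat.sum_divisors_prime_pow hl] at h1
  rw [← Nat.cast_pow, ← h1]
  refine Finset.sum_congr rfl fun i hi => ?_
  rw [Nat.pow_div (by have := Finset.mem_range.mp hi; omega) hl.pos]

private theorem idSumPow (F : ℕ → ℝ) (h1 : F 1 = 1) (l J : ℕ) (hl : l.Prime) :
    ∑ e ∈ (l ^ (J + 1)).divisors, ((l ^ (J + 1) / e).totient : ℝ) * F e =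
      ∑ i ∈ range (J + 1), ((l ^ (J - i)).totient : ℝ) * F (l ^ (i + 1)) + ((l ^ (J + 1)).totient : ℝ) := by
  rw [Nat.sum_divisors_prime_pow hl, Finset.sum_range_succ', pow_zero, Nat.div_one, h1, mul_one]
  congr 1
  refine Finset.sum_congr rfl fun i hi => ?_
  rw [Nat.pow_div (by have := Finset.mem_range.mp hi; omega) hl.pos, Nat.add_sub_add_right]

/-- PIECE [JB-A6] (about 120 lines). PROOF. Both sides are multiplicative in `n` (for instance as arithmetic functions:
`n ↦ ∏ l ∈ n.primeFactors, kap l` is multiplicative, `φ * ρ` and `φ * CC` are Dirichlet products of multiplicative functions;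
`ArithmeticFunction.IsMultiplicative.eq_iff_eq_on_prime_powers`; or `Nat.recOnPosPrimePosCoprime` with
`Nat.Coprime.sum_divisors_mul`-type lemmas). For `n = l ^ j`, `j ≥ 1`: right side
`= φ (l ^ j) + ∑_{1 ≤ i ≤ j} φ (l ^ (j - i)) (kap l ρ (l ^ i) + 1 / (l + 1))`, left side `= kap l (φ (l ^ j) + ∑_{1 ≤ i ≤ j} φ (l ^ (j - i)) ρ (l ^ i))`;
`∑_{1 ≤ i ≤ j} φ (l ^ (j - i)) = l ^ (j - 1)`, `(kap l - 1) φ (l ^ j) = l ^ (j - 1) (l - 1) / (l ^ 2 - 1) = l ^ (j - 1) / (l + 1)`. -/
theorem ident (d a : ℤ) (n : ℕ) (hn : 0 < n) :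
    (∏ l ∈ n.primeFactors, kap l) * ∑ e ∈ n.divisors, ((n / e).totient : ℝ) * (rho d a e : ℝ) =
      ∑ g ∈ n.divisors, ((n / g).totient : ℝ) * CC d a g := by
  have hφ : (idAF (fun k => (k.totient : ℝ))).IsMultiplicative :=
    idAF_mult (by simp) (fun m n _ _ h => by simp only [Nat.totient_mul h, Nat.cast_mul])
  have hK : (idAF (fun k => ∏ l ∈ k.primeFactors, kap l)).IsMultiplicative :=
    idAF_mult (by simp) (fun m n _ _ h => by simp only [h.primeFactors_mul, Finset.prod_union h.disjoint_primeFactors])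
  have hR : (idAF (fun k => (rho d a k : ℝ))).IsMultiplicative :=
    idAF_mult (by simp only [rho_one, Nat.cast_one]) (fun m n hm hn h => by simp only [rho_mul d a hm hn h, Nat.cast_mul])
  have hC : (idAF (fun k => CC d a k)).IsMultiplicative :=
    idAF_mult (CC_one d a) (fun m n _ _ h => CC_mul d a h)
  have key : (idAF (fun k => ∏ l ∈ k.primeFactors, kap l)).pmul
      (idAF (fun k => (k.totient : ℝ)) * idAF (fun k => (rho d a k : ℝ))) =
      idAF (fun k => (k.totient : ℝ)) * idAF (fun k => CC d a k) := by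
    rw [ArithmeticFunction.IsMultiplicative.eq_iff_eq_on_prime_powers _ (hK.pmul (hφ.mul hR)) _ (hφ.mul hC)]
    intro l j hl
    have hlj : l ^ j ≠ 0 := (pow_pos hl.pos j).ne'
    rw [ArithmeticFunction.pmul_apply, idAF_conv _ hlj, idAF_conv _ hlj, idAF_apply _ hlj]
    rcases j with _ | J
    · simp [CC_one, rho_one]
    rw [idSumPow _ (by rw [rho_one, Nat.cast_one]) l J hl, idSumPow _ (CC_one d a) l J hl,
      Nat.primeFactors_prime_pow (Nat.succ_ne_zero J) hl, Finset.prod_singleton]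
    have hS := idTotSum l J hl
    have h1 : ∀ i ∈ range (J + 1), ((l ^ (J - i)).totient : ℝ) * CC d a (l ^ (i + 1)) =
        kap l * (((l ^ (J - i)).totient : ℝ) * (rho d a (l ^ (i + 1)) : ℝ)) +
          ((l ^ (J - i)).totient : ℝ) * (1 / ((l : ℝ) + 1)) := by
      intro i _
      rw [CC_pow d a hl (Nat.succ_le_succ (Nat.zero_le i))]
      ring
    rw [Finset.sum_congr rfl h1, Finset.sum_add_distrib, ← Finset.mul_sum, ← Finset.sum_mul, hS,
      Nat.totient_prime_pow_succ hl J]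
    have h2 : (2 : ℝ) ≤ (l : ℝ) := by exact_mod_cast hl.two_le
    have h3 : (((l ^ J * (l - 1) : ℕ)) : ℝ) = (l : ℝ) ^ J * ((l : ℝ) - 1) := by
      rw [Nat.cast_mul, Nat.cast_pow, Nat.cast_sub hl.one_le, Nat.cast_one]
    have h4 : (kap l - 1) * ((l : ℝ) ^ J * ((l : ℝ) - 1)) = (l : ℝ) ^ J * (1 / ((l : ℝ) + 1)) := by
      have h5 : (l : ℝ) ^ 2 - 1 ≠ 0 := by nlinarith
      have h6 : (l : ℝ) + 1 ≠ 0 := by linarith
      unfold kap
      field_simp
      ring
    rw [h3]
    linear_combination h4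
  have h := congrArg (fun f => f n) key
  simp only [ArithmeticFunction.pmul_apply] at h
  rw [idAF_conv _ hn.ne', idAF_conv _ hn.ne', idAF_apply _ hn.ne'] at h
  exact h


end Pool.Agent.JB
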