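import Pool.Agent.Lib_MP_f1937f_jb.Yz

/-!
# Number of matrices of given trace and determinant
-/

set_option autoImplicit false

namespace Pool.Agent.JB

open Finset Pool.Agent.TB

/-- the preimage of a set under a surjective homomorphism -/
private theorem card_preim {A B : Type} [AddCommGroup A] [AddCommGroup B] [Finite A] [Finite B]
    (φ : A →+ B) (hφ : Function.Surjective φ) (P : B → Prop) :
    Nat.card {a : A // P (φ a)} * Nat.card B = Nat.card {b : B // P b} * Nat.card A := by
  classical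
  have key : ∀ P : B → Prop, Nat.card {a : A // P (φ a)} =
      Nat.card {b : B // P b} * Nat.card φ.ker := by
    intro P
    rw [← Nat.card_prod]
    refine Nat.card_congr
      { toFun := fun a => (⟨φ a.1, a.2⟩, ⟨a.1 - Function.surjInv hφ (φ a.1), ?_⟩)
        invFun := fun b => ⟨Function.surjInv hφ b.1.1 + b.2.1, ?_⟩
        left_inv := ?_
        right_inv := ?_ }
    · rw [AddMonoidHom.mem_ker, map_sub, Function.surjInv_eq hφ, sub_self]
    · rw [map_add, Function.surjInv_eq hφ, (AddMonoidHom.mem_ker).1 b.2.2, add_zero]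
      exact b.1.2
    · rintro ⟨a, ha⟩
      simp
    · rintro ⟨⟨b, hb⟩, ⟨k, hk⟩⟩
      have hk' : φ k = 0 := (AddMonoidHom.mem_ker).1 hk
      have h1 : φ (Function.surjInv hφ b + k) = b := by
        rw [map_add, Function.surjInv_eq hφ, hk', add_zero]
      ext
      · simp [h1]
      · simp [h1]
  have h1 := key P
  have h2 := key (fun _ => True)
  have h3 : Nat.card {a : A // True} = Nat.card A := Nat.card_congr (Equiv.subtypeUnivEquiv fun _ => trivial)
  have h4 : Nat.card {b : B // True} = Nat.card B := Nat.card_congr (Equiv.subtypeUnivEquiv fun _ => trivial)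
  rw [h3, h4] at h2
  rw [h1, h2]
  ring

/-- the number of the classes modulo `n` of roots modulo `e` -/
private theorem card_root (n : ℕ) (hn : 0 < n) (t d : ℤ) (e : ℕ) (he : e ∣ n) :
    e * Nat.card {x : ZMod n // (e : ℤ) ∣ (x.val : ℤ) * (t - x.val) - d} = n * rho d t e := by
  have : NeZero n := ⟨hn.ne'⟩
  have : NeZero e := ⟨(Nat.pos_of_dvd_of_pos he hn).ne'⟩
  have h := card_preim (ZMod.castHom he (ZMod e)).toAddMonoidHom (ZMod.castHom_surjective he)
    (fun c => c ^ 2 - (t : ZMod e) * c + (d : ZMod e) = 0)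
  rw [Nat.card_zmod, Nat.card_zmod] at h
  unfold rho
  rw [mul_comm n, ← h, mul_comm e]
  congr 1
  refine Nat.card_congr (Equiv.subtypeEquivRight fun x => ?_)
  change (e : ℤ) ∣ (x.val : ℤ) * (t - x.val) - d ↔
    (ZMod.castHom he (ZMod e) x) ^ 2 - (t : ZMod e) * (ZMod.castHom he (ZMod e) x) + (d : ZMod e) = 0
  have h1 : ZMod.castHom he (ZMod e) x = (((x.val : ℕ) : ℤ) : ZMod e) := by
    conv_lhs => rw [← ZMod.natCast_zmod_val x]
    rw [map_natCast, Int.cast_natCast]
  rw [h1]
  have h2 : ((((x.val : ℕ) : ℤ) : ZMod e)) ^ 2 - (t : ZMod e) * (((x.val : ℕ) : ℤ) : ZMod e) + (d : ZMod e) =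
      ((-((x.val : ℤ) * (t - x.val) - d) : ℤ) : ZMod e) := by
    push_cast; ring
  rw [h2, ZMod.intCast_zmod_eq_zero_iff_dvd, dvd_neg]

/-- PIECE [JB-G2] (about 100 lines). PROOF. Sum `card_yz` with `c = x (t - x) - d` over `x`: `∑_{e ∣ n} e φ (n / e) #{x mod n : e ∣ x ^ 2 - t x + d}`, and
`#{x mod n : ...} = (n / e) rho d t e`. -/
theorem card_trdet (n : ℕ) (hn : 0 < n) (t d : ℤ) :
    Nat.card {x : ZMod n × ZMod n × ZMod n // x.1 * ((t : ZMod n) - x.1) - x.2.1 * x.2.2 = (d : ZMod n)} =
      n * ∑ e ∈ n.divisors, (n / e).totient * rho d t e := by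
  classical
  have : NeZero n := ⟨hn.ne'⟩
  rw [Nat.card_congr (Equiv.subtypeProdEquivSigmaSubtype
    (fun (x : ZMod n) (y : ZMod n × ZMod n) => x * ((t : ZMod n) - x) - y.1 * y.2 = (d : ZMod n))),
    Nat.card_sigma]
  have h1 : ∀ x : ZMod n, Nat.card {y : ZMod n × ZMod n // x * ((t : ZMod n) - x) - y.1 * y.2 = (d : ZMod n)} =
      ∑ e ∈ n.divisors, (if (e : ℤ) ∣ (x.val : ℤ) * (t - x.val) - d then e * (n / e).totient else 0) := by
    intro x
    rw [← card_yz n hn]
    refine Nat.card_congr (Equiv.subtypeEquivRight fun y => ?_)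
    push_cast
    rw [ZMod.natCast_zmod_val]
    constructor
    · intro h
      rw [← h]; ring
    · intro h
      rw [h]; ring
  rw [Finset.sum_congr rfl fun x _ => h1 x, Finset.sum_comm, Finset.mul_sum]
  refine Finset.sum_congr rfl fun e he => ?_
  have h2 := card_root n hn t d e (Nat.dvd_of_mem_divisors he)
  rw [Nat.card_eq_fintype_card, Fintype.card_subtype] at h2
  rw [← Finset.sum_filter, Finset.sum_const, smul_eq_mul]
  calc _ = (n / e).totient * (e * #{x : ZMod n | (e : ℤ) ∣ (x.val : ℤ) * (t - x.val) - d}) := by ring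
    _ = _ := by rw [h2]; ring

end Pool.Agent.JB
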