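import Pool.Agent.Lib_MP_f1937f_jb.Defs

/-!
# Properties of `uJ`
-/

set_option autoImplicit false

namespace Pool.Agent.JB

open Finset Pool.Agent.TB

/-- PIECE [JB-G4] (all theorems of this file, about 130 lines; cf. `Lib_MP_f1937f_tb/UG.lean`). `c = 1 / #GL₂(ZMod M)` (`M ≥ 1`; the numerator is at least `M` if it is not `0`). -/
theorem uJ_facts (M : ℕ) (hM : 0 < M) (G : Subgroup (GL (Fin 2) (ZMod M)))
    (hG : ∀ d : (ZMod M)ˣ, ∃ g ∈ G, g.val.det = (d : ZMod M)) :
    ∃ c : ℝ, 0 < c ∧ ∀ d : ℕ, d.Coprime M → UV M c (uJ M G d) := by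
  classical
  have : NeZero M := ⟨hM.ne'⟩
  have : Finite (GL (Fin 2) (ZMod M)) := inferInstance
  have : Fintype (GL (Fin 2) (ZMod M)) := Fintype.ofFinite _
  have hM' : (0 : ℝ) < (M : ℝ) := by exact_mod_cast hM
  have hGL : (0 : ℝ) < (Nat.card (GL (Fin 2) (ZMod M)) : ℝ) := by
    exact_mod_cast Nat.card_pos
  refine ⟨(M : ℝ) / (Nat.card (GL (Fin 2) (ZMod M)) : ℝ), by positivity, fun d hd => ?_⟩
  have hN : 0 < Nat.card {g : GL (Fin 2) (ZMod M) // g ∈ G ∧ g.val.det = (d : ZMod M)} := by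
    obtain ⟨g, hg, hgd⟩ := hG (ZMod.unitOfCoprime d hd)
    rw [ZMod.coe_unitOfCoprime] at hgd
    have : Nonempty {g : GL (Fin 2) (ZMod M) // g ∈ G ∧ g.val.det = (d : ZMod M)} := ⟨⟨g, hg, hgd⟩⟩
    exact Nat.card_pos
  have hN' : (0 : ℝ) < (Nat.card {g : GL (Fin 2) (ZMod M) // g ∈ G ∧ g.val.det = (d : ZMod M)} : ℝ) := by
    exact_mod_cast hN
  refine ⟨?_, ?_, ?_, ?_, ?_⟩
  · intro t t' h
    have h1 : (t : ZMod M) = (t' : ZMod M) := by
      rw [← sub_eq_zero, ← Int.cast_sub]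
      exact (ZMod.intCast_zmod_eq_zero_iff_dvd _ _).2 h
    unfold uJ
    rw [h1]
  · intro t
    unfold uJ
    positivity
  · intro t
    unfold uJ
    rw [div_le_iff₀ hN']
    refine mul_le_mul_of_nonneg_left ?_ hM'.le
    have h2 : Nat.card {g : GL (Fin 2) (ZMod M) // g ∈ G ∧ g.val.det = (d : ZMod M) ∧ g.val.trace = (t : ZMod M)} ≤
        Nat.card {g : GL (Fin 2) (ZMod M) // g ∈ G ∧ g.val.det = (d : ZMod M)} := by
      refine Nat.card_le_card_of_injective (fun g => ⟨g.1, g.2.1, g.2.2.1⟩) ?_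
      intro a b hab
      exact Subtype.ext (Subtype.mk.inj hab)
    exact_mod_cast h2
  · intro t ht
    unfold uJ at ht ⊢
    have h3 : Nat.card {g : GL (Fin 2) (ZMod M) // g ∈ G ∧ g.val.det = (d : ZMod M) ∧ g.val.trace = (t : ZMod M)} ≠ 0 := by
      intro h0
      rw [h0] at ht
      simp at ht
    have h4 : (1 : ℝ) ≤ (Nat.card {g : GL (Fin 2) (ZMod M) // g ∈ G ∧ g.val.det = (d : ZMod M) ∧
        g.val.trace = (t : ZMod M)} : ℝ) := by
      exact_mod_cast Nat.one_le_iff_ne_zero.2 h3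
    have h5 : (Nat.card {g : GL (Fin 2) (ZMod M) // g ∈ G ∧ g.val.det = (d : ZMod M)} : ℝ) ≤
        (Nat.card (GL (Fin 2) (ZMod M)) : ℝ) := by
      have : Nat.card {g : GL (Fin 2) (ZMod M) // g ∈ G ∧ g.val.det = (d : ZMod M)} ≤
          Nat.card (GL (Fin 2) (ZMod M)) :=
        Nat.card_le_card_of_injective (fun g => g.1) Subtype.val_injective
      exact_mod_cast this
    refine div_le_div₀ (by positivity) ?_ hN' h5
    nlinarith
  · have h3 : ∑ r ∈ range M,
        Nat.card {g : GL (Fin 2) (ZMod M) // g ∈ G ∧ g.val.det = (d : ZMod M) ∧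
          g.val.trace = (((r : ℕ) : ℤ) : ZMod M)} =
        Nat.card {g : GL (Fin 2) (ZMod M) // g ∈ G ∧ g.val.det = (d : ZMod M)} := by
      have h4 : Nat.card {g : GL (Fin 2) (ZMod M) // g ∈ G ∧ g.val.det = (d : ZMod M)} =
          (univ.filter (fun g : GL (Fin 2) (ZMod M) => g ∈ G ∧ g.val.det = (d : ZMod M))).card := by
        rw [Nat.card_eq_fintype_card, Fintype.card_subtype]
      rw [h4, card_eq_sum_card_fiberwise (f := fun g : GL (Fin 2) (ZMod M) => (g.val.trace).val)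
        (t := range M) (by
          intro g _
          simp only [coe_range, Set.mem_Iio]
          exact ZMod.val_lt _)]
      refine sum_congr rfl ?_
      intro r hr
      rw [Nat.card_eq_fintype_card, Fintype.card_subtype]
      congr 1
      ext g
      simp only [mem_filter, mem_univ, true_and, and_assoc]
      refine and_congr_right (fun _ => and_congr_right (fun _ => ?_))
      have hr' : r < M := mem_range.1 hr
      constructor
      · intro h
        rw [h]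
        push_cast
        exact ZMod.val_cast_of_lt hr'
      · intro h
        rw [← h]
        push_cast
        exact (ZMod.natCast_zmod_val _).symm
    unfold uJ
    rw [← sum_div, ← mul_sum, ← Nat.cast_sum, h3, mul_div_assoc, div_self hN'.ne', mul_one]

theorem uJ_per (M : ℕ) (G : Subgroup (GL (Fin 2) (ZMod M))) (d d' : ℕ) (t : ℤ) (h : d ≡ d' [MOD M]) :
    uJ M G d t = uJ M G d' t := by
  have h1 : (d : ZMod M) = (d' : ZMod M) := (ZMod.natCast_eq_natCast_iff d d' M).2 h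
  unfold uJ
  rw [h1]

theorem uJ_pos (M : ℕ) (hM : 0 < M) (G : Subgroup (GL (Fin 2) (ZMod M))) (a : ℤ) (ha : ∃ g ∈ G, g.val.trace = (a : ZMod M)) :
    ∃ d : ℕ, d.Coprime M ∧ 0 < uJ M G d a := by
  have : NeZero M := ⟨hM.ne'⟩
  obtain ⟨g, hg, hga⟩ := ha
  have hu : IsUnit g.val.det := (Matrix.isUnit_iff_isUnit_det _).1 g.isUnit
  have hd : ((g.val.det.val : ℕ) : ZMod M) = g.val.det := ZMod.natCast_zmod_val _
  refine ⟨g.val.det.val, ?_, ?_⟩
  · rw [← ZMod.isUnit_iff_coprime, hd]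
    exact hu
  · have hM' : (0 : ℝ) < (M : ℝ) := by exact_mod_cast hM
    unfold uJ
    rw [hd]
    have h1 : 0 < Nat.card {g' : GL (Fin 2) (ZMod M) // g' ∈ G ∧ g'.val.det = g.val.det ∧ g'.val.trace = (a : ZMod M)} := by
      have : Nonempty {g' : GL (Fin 2) (ZMod M) // g' ∈ G ∧ g'.val.det = g.val.det ∧ g'.val.trace = (a : ZMod M)} :=
        ⟨⟨g, hg, rfl, hga⟩⟩
      exact Nat.card_pos
    have h2 : 0 < Nat.card {g' : GL (Fin 2) (ZMod M) // g' ∈ G ∧ g'.val.det = g.val.det} := by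
      have : Nonempty {g' : GL (Fin 2) (ZMod M) // g' ∈ G ∧ g'.val.det = g.val.det} := ⟨⟨g, hg, rfl⟩⟩
      exact Nat.card_pos
    have h1' : (0 : ℝ) < (Nat.card {g' : GL (Fin 2) (ZMod M) // g' ∈ G ∧ g'.val.det = g.val.det ∧
        g'.val.trace = (a : ZMod M)} : ℝ) := by exact_mod_cast h1
    have h2' : (0 : ℝ) < (Nat.card {g' : GL (Fin 2) (ZMod M) // g' ∈ G ∧ g'.val.det = g.val.det} : ℝ) := by
      exact_mod_cast h2
    positivity

end Pool.Agent.JB
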