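import Pool.Agent.Lib_MP_f1937f_jb.FibJ
import Pool.Agent.Lib_MP_f1937f_jb.TrDet
import Pool.Agent.Lib_MP_f1937f_jb.Ident
import Pool.Agent.Lib_MP_f1937f_jb.DDf
import Pool.Agent.Lib_MP_f1937f_jb.UJf
import Pool.Agent.Lib_MP_f1937f_jb.Crt

/-!
# The densities
-/

set_option autoImplicit false

namespace Pool.Agent.JB

open Finset Pool.Agent.TB

private theorem tr_map {M m : ℕ} (h : M ∣ m) (g : GL (Fin 2) (ZMod m)) :
    (Matrix.GeneralLinearGroup.map (ZMod.castHom h (ZMod M)) g).val.trace =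
      ZMod.castHom h (ZMod M) g.val.trace := by
  rw [Matrix.trace_fin_two, Matrix.trace_fin_two, map_add]
  rfl

private theorem det_map' {M m : ℕ} (h : M ∣ m) (g : GL (Fin 2) (ZMod m)) :
    (Matrix.GeneralLinearGroup.map (ZMod.castHom h (ZMod M)) g).val.det =
      ZMod.castHom h (ZMod M) g.val.det := by
  rw [Matrix.det_fin_two, Matrix.det_fin_two, map_sub, map_mul, map_mul]
  rfl

private theorem det_cond {M n m : ℕ} (hm : 0 < m) (hM : M ∣ m) (hn : n ∣ m) (h12 : M * n ∣ m)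
    (hc : M.Coprime n) (d : ℕ) (x : ZMod m) :
    ZMod.castHom h12 (ZMod (M * n)) x = (d : ZMod (M * n)) ↔
      ZMod.castHom hM (ZMod M) x = (d : ZMod M) ∧ ZMod.castHom hn (ZMod n) x = (d : ZMod n) := by
  have : NeZero m := ⟨hm.ne'⟩
  rw [← ZMod.natCast_zmod_val x, map_natCast, map_natCast, map_natCast, ZMod.natCast_eq_natCast_iff,
    ZMod.natCast_eq_natCast_iff, ZMod.natCast_eq_natCast_iff]
  exact (Nat.modEq_and_modEq_iff_modEq_mul hc).symm

/-- counting by fibres -/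
private theorem num_card (M m₁ n : ℕ) (hM : 0 < M) (h : Lev M m₁ n) (hMm : M ∣ m₁ * n) (hnm : n ∣ m₁ * n)
    (h12 : M * n ∣ m₁ * n) (G : Subgroup (GL (Fin 2) (ZMod M))) (d : ℕ) (hd : IsCoprime (d : ℤ) (n : ℤ)) (t : ℤ) :
    Nat.card {g : GL (Fin 2) (ZMod (m₁ * n)) // Matrix.GeneralLinearGroup.map (ZMod.castHom hMm (ZMod M)) g ∈ G ∧
        ZMod.castHom h12 (ZMod (M * n)) g.val.det = (d : ZMod (M * n)) ∧ g.val.trace = (t : ZMod (m₁ * n))} =
      Nat.card {g : GL (Fin 2) (ZMod M) // g ∈ G ∧ g.val.det = (d : ZMod M) ∧ g.val.trace = (t : ZMod M)} *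
        ((m₁ / M) ^ 3 * Nat.card {x : ZMod n × ZMod n × ZMod n //
          x.1 * ((t : ZMod n) - x.1) - x.2.1 * x.2.2 = (((d : ℕ) : ℤ) : ZMod n)}) := by
  classical
  have hm : 0 < m₁ * n := Nat.mul_pos h.pos₁ h.pos
  have : NeZero M := ⟨hM.ne'⟩
  have : NeZero (m₁ * n) := ⟨hm.ne'⟩
  have key : ∀ g : GL (Fin 2) (ZMod (m₁ * n)), (Matrix.GeneralLinearGroup.map (ZMod.castHom hMm (ZMod M)) g ∈ G ∧
        ZMod.castHom h12 (ZMod (M * n)) g.val.det = (d : ZMod (M * n)) ∧ g.val.trace = (t : ZMod (m₁ * n))) →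
      Matrix.GeneralLinearGroup.map (ZMod.castHom hMm (ZMod M)) g ∈ G ∧
        (Matrix.GeneralLinearGroup.map (ZMod.castHom hMm (ZMod M)) g).val.det = (d : ZMod M) ∧
        (Matrix.GeneralLinearGroup.map (ZMod.castHom hMm (ZMod M)) g).val.trace = (t : ZMod M) := by
    intro g hg
    refine ⟨hg.1, ?_, ?_⟩
    · rw [det_map']
      exact ((det_cond hm hMm hnm h12 h.cop.symm d _).1 hg.2.1).1
    · rw [tr_map, hg.2.2, map_intCast]
  let f : {g : GL (Fin 2) (ZMod (m₁ * n)) // Matrix.GeneralLinearGroup.map (ZMod.castHom hMm (ZMod M)) g ∈ G ∧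
        ZMod.castHom h12 (ZMod (M * n)) g.val.det = (d : ZMod (M * n)) ∧ g.val.trace = (t : ZMod (m₁ * n))} →
      {g : GL (Fin 2) (ZMod M) // g ∈ G ∧ g.val.det = (d : ZMod M) ∧ g.val.trace = (t : ZMod M)} :=
    fun g => ⟨Matrix.GeneralLinearGroup.map (ZMod.castHom hMm (ZMod M)) g.1, key g.1 g.2⟩
  have : Fintype {g : GL (Fin 2) (ZMod M) // g ∈ G ∧ g.val.det = (d : ZMod M) ∧ g.val.trace = (t : ZMod M)} :=
    Fintype.ofFinite _
  have h1 : Nat.card {g : GL (Fin 2) (ZMod (m₁ * n)) // Matrix.GeneralLinearGroup.map (ZMod.castHom hMm (ZMod M)) g ∈ G ∧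
        ZMod.castHom h12 (ZMod (M * n)) g.val.det = (d : ZMod (M * n)) ∧ g.val.trace = (t : ZMod (m₁ * n))} =
      ∑ y : {g : GL (Fin 2) (ZMod M) // g ∈ G ∧ g.val.det = (d : ZMod M) ∧ g.val.trace = (t : ZMod M)},
        Nat.card {x // f x = y} := by
    rw [← Nat.card_sigma]
    exact (Nat.card_congr (Equiv.sigmaFiberEquiv f)).symm
  have h2 : ∀ y : {g : GL (Fin 2) (ZMod M) // g ∈ G ∧ g.val.det = (d : ZMod M) ∧ g.val.trace = (t : ZMod M)},
      Nat.card {x // f x = y} = (m₁ / M) ^ 3 * Nat.card {x : ZMod n × ZMod n × ZMod n //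
          x.1 * ((t : ZMod n) - x.1) - x.2.1 * x.2.2 = (((d : ℕ) : ℤ) : ZMod n)} := by
    intro y
    rw [← card_fib M m₁ n hM h hMm hnm t (d : ℤ) hd y.1 y.2.2.2]
    refine Nat.card_congr ⟨fun x => ⟨x.1.1, congrArg Subtype.val x.2, ?_, x.1.2.2.2⟩,
      fun x => ⟨⟨x.1, ?_, ?_, x.2.2.2⟩, Subtype.ext x.2.1⟩, fun x => rfl, fun x => rfl⟩
    · rw [((det_cond hm hMm hnm h12 h.cop.symm d _).1 x.1.2.2.1).2, Int.cast_natCast]
    · rw [x.2.1]
      exact y.2.1
    · refine (det_cond hm hMm hnm h12 h.cop.symm d _).2 ⟨?_, ?_⟩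
      · rw [← det_map', x.2.1]
        exact y.2.2.1
      · rw [x.2.2.1, Int.cast_natCast]
  rw [h1, Finset.sum_congr rfl fun y _ => h2 y, Finset.sum_const, smul_eq_mul,
    Finset.card_univ, ← Nat.card_eq_fintype_card]

/-- the total number -/
private theorem tot_card (m : ℕ) (hm : 0 < m) (P : GL (Fin 2) (ZMod m) → Prop) :
    (Nat.card {g : GL (Fin 2) (ZMod m) // P g} : ℝ) =
      ∑ t ∈ range m, (Nat.card {g : GL (Fin 2) (ZMod m) // P g ∧
        g.val.trace = (((t : ℕ) : ℤ) : ZMod m)} : ℝ) := by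
  classical
  have : NeZero m := ⟨hm.ne'⟩
  let f : {g : GL (Fin 2) (ZMod m) // P g} → ZMod m := fun g => g.1.val.trace
  have h1 : Nat.card {g : GL (Fin 2) (ZMod m) // P g} =
      ∑ y : ZMod m, Nat.card {x // f x = y} := by
    rw [← Nat.card_sigma]
    exact (Nat.card_congr (Equiv.sigmaFiberEquiv f)).symm
  have h2 : ∀ y : ZMod m, Nat.card {x // f x = y} =
      Nat.card {g : GL (Fin 2) (ZMod m) // P g ∧ g.val.trace = y} := by
    intro y
    exact Nat.card_congr ⟨fun x => ⟨x.1.1, x.1.2, x.2⟩, fun x => ⟨⟨x.1, x.2.1⟩, x.2.2⟩,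
      fun x => rfl, fun x => rfl⟩
  rw [h1, Nat.cast_sum]
  refine Finset.sum_nbij' (fun s => s.val) (fun t => ((t : ℕ) : ZMod m)) ?_ ?_ ?_ ?_ ?_
  · intro s _
    exact Finset.mem_range.2 (ZMod.val_lt s)
  · intro t _
    exact Finset.mem_univ _
  · intro s _
    exact ZMod.natCast_zmod_val s
  · intro t ht
    exact ZMod.val_natCast_of_lt (Finset.mem_range.1 ht)
  · intro s _
    rw [h2]
    have h3 : (((s.val : ℕ) : ℤ) : ZMod m) = s := by
      rw [Int.cast_natCast, ZMod.natCast_zmod_val]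
    rw [h3]

/-- PIECE [JB-G5] (about 200 lines; cf. `Lib_MP_f1937f_tb/GlDens.lean`). PROOF. `h12` says `det g ≡ d` modulo `M n`, equivalently modulo `M` and modulo `n`. By fibres over `G`, `card_fib`, `card_trdet` and `ident` (`d` is coprime to `n`):
the numerator for the trace `t` is `#{g ∈ G : det = d, tr = t} (m₁ / M) ^ 3 * n * (n / K) * DD d t n`, `K = ∏ l ∈ n.primeFactors, kap l`. The denominator is the sum of the numerators over `t < m₁ n`; the factor in `G` depends on `t` modulo `M`,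
`DD d t n` on `t` modulo `n` (`DD_congr`), so by the Chinese remainder theorem (`crt_sum`, `per_sum` in `Crt.lean`, with `t < m₁ n = (m₁ / M) (M n)`) it is
`(m₁ / M) ^ 4 #{g ∈ G : det = d} * n * (n / K) * n` (`DD_sum`). -/
theorem dens_J (M m₁ n : ℕ) (hM : 0 < M) (h : Lev M m₁ n) (hMm : M ∣ m₁ * n) (h12 : M * n ∣ m₁ * n) (G : Subgroup (GL (Fin 2) (ZMod M)))
    (hG : ∀ d : (ZMod M)ˣ, ∃ g ∈ G, g.val.det = (d : ZMod M)) (d : ℕ) (hd : d.Coprime (M * n)) (t : ℤ) :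
    (Nat.card {g : GL (Fin 2) (ZMod (m₁ * n)) // Matrix.GeneralLinearGroup.map (ZMod.castHom hMm (ZMod M)) g ∈ G ∧
        ZMod.castHom h12 (ZMod (M * n)) g.val.det = (d : ZMod (M * n)) ∧ g.val.trace = (t : ZMod (m₁ * n))} : ℝ) /
      (Nat.card {g : GL (Fin 2) (ZMod (m₁ * n)) // Matrix.GeneralLinearGroup.map (ZMod.castHom hMm (ZMod M)) g ∈ G ∧
        ZMod.castHom h12 (ZMod (M * n)) g.val.det = (d : ZMod (M * n))} : ℝ) =
      uJ M G d t / ((m₁ * n : ℕ) : ℝ) * DD d t n := by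
  classical
  have hm : 0 < m₁ * n := Nat.mul_pos h.pos₁ h.pos
  have hnm : n ∣ m₁ * n := dvd_mul_left n m₁
  have hdM : d.Coprime M := Nat.Coprime.coprime_mul_right_right hd
  have hdn : d.Coprime n := Nat.Coprime.coprime_mul_left_right hd
  have hdn' : IsCoprime (d : ℤ) (n : ℤ) := Nat.isCoprime_iff_coprime.2 hdn
  obtain ⟨c0, _, hUV⟩ := uJ_facts M hM G hG
  have hU := hUV d hdM
  have hM' : (0 : ℝ) < M := by exact_mod_cast hM
  have hn' : (0 : ℝ) < n := by exact_mod_cast h.pos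
  have : NeZero M := ⟨hM.ne'⟩
  set D0 : ℝ := (Nat.card {g : GL (Fin 2) (ZMod M) // g ∈ G ∧ g.val.det = (d : ZMod M)} : ℝ) with hD0
  have hD : 0 < D0 := by
    obtain ⟨g, hg, hgd⟩ := hG (ZMod.unitOfCoprime d hdM)
    rw [ZMod.coe_unitOfCoprime] at hgd
    have : Nonempty {g : GL (Fin 2) (ZMod M) // g ∈ G ∧ g.val.det = (d : ZMod M)} := ⟨⟨g, hg, hgd⟩⟩
    rw [hD0]
    exact_mod_cast Nat.card_pos
  set K : ℝ := ∏ l ∈ n.primeFactors, kap l with hK
  have hKpos : 0 < K := by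
    refine Finset.prod_pos fun l hl => ?_
    have h2 : (2 : ℝ) ≤ l := by exact_mod_cast (Nat.prime_of_mem_primeFactors hl).two_le
    have h3 : (0 : ℝ) < (l : ℝ) ^ 2 - 1 := by nlinarith
    unfold kap
    positivity
  obtain ⟨k, hk⟩ := h.dvd
  have hk0 : 0 < k := by
    rcases Nat.eq_zero_or_pos k with h0 | h0
    · rw [h0, mul_zero] at hk
      exact absurd hk h.pos₁.ne'
    · exact h0
  have hk' : (0 : ℝ) < k := by exact_mod_cast hk0
  have hdiv : m₁ / M = k := by rw [hk, Nat.mul_div_cancel_left k hM]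
  have hnum : ∀ t : ℤ, (Nat.card {g : GL (Fin 2) (ZMod (m₁ * n)) //
        Matrix.GeneralLinearGroup.map (ZMod.castHom hMm (ZMod M)) g ∈ G ∧
        ZMod.castHom h12 (ZMod (M * n)) g.val.det = (d : ZMod (M * n)) ∧ g.val.trace = (t : ZMod (m₁ * n))} : ℝ) =
      (D0 / M * ((k : ℝ) ^ 3 * (n : ℝ) ^ 2 / K)) * (uJ M G d t * DD d t n) := by
    intro t
    rw [num_card M m₁ n hM h hMm hnm h12 G d hdn' t, card_trdet n h.pos t d, hdiv]
    have h1 := ident (d : ℤ) t n h.pos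
    rw [← hK] at h1
    have h2 : ((n * ∑ e ∈ n.divisors, (n / e).totient * rho d t e : ℕ) : ℝ) = (n : ℝ) ^ 2 / K * DD d t n := by
      push_cast
      have h3 : ∑ e ∈ n.divisors, ((n / e).totient : ℝ) * (rho d t e : ℝ) =
          (∑ g ∈ n.divisors, ((n / g).totient : ℝ) * CC d t g) / K := by
        rw [← h1, mul_div_cancel_left₀ _ hKpos.ne']
      rw [h3]
      have h4 : ∑ g ∈ n.divisors, ((n / g).totient : ℝ) * CC d t g = n * DD d t n := by
        unfold DD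
        rw [Finset.mul_sum]
        refine Finset.sum_congr rfl fun g _ => ?_
        field_simp
      rw [h4]
      ring
    have h5 : (Nat.card {g : GL (Fin 2) (ZMod M) // g ∈ G ∧ g.val.det = (d : ZMod M) ∧
        g.val.trace = (t : ZMod M)} : ℝ) = D0 / M * uJ M G d t := by
      unfold uJ
      rw [← hD0]
      field_simp
    rw [Nat.cast_mul, Nat.cast_mul, h5, h2]
    push_cast
    ring
  have hsum : ∑ t ∈ range (m₁ * n), uJ M G d (t : ℤ) * DD d (t : ℤ) n = m₁ * n := by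
    have hper1 : ∀ b : ℕ, uJ M G d (((b % M : ℕ) : ℕ) : ℤ) = uJ M G d (b : ℤ) := by
      intro b
      refine hU.per _ _ ?_
      rw [Int.natCast_mod]
      exact (Int.modEq_iff_dvd.mp (Int.mod_modEq (b : ℤ) (M : ℤ)).symm)
    have hper2 : ∀ b : ℕ, DD d (((b % n : ℕ) : ℕ) : ℤ) n = DD d (b : ℤ) n := by
      intro b
      refine DD_congr (by simp) ?_
      rw [Int.natCast_mod]
      exact (Int.modEq_iff_dvd.mp (Int.mod_modEq (b : ℤ) (n : ℤ)).symm)
    have h1 := crt_sum M n hM h.pos h.cop.symm (fun b => uJ M G d (b : ℤ)) (fun b => DD d (b : ℤ) n) hper1 hper2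
    have h2 := per_sum (M * n) k (Nat.mul_pos hM h.pos) (fun b => uJ M G d (b : ℤ) * DD d (b : ℤ) n) (fun b => by
      have e1 : uJ M G d (((b % (M * n) : ℕ) : ℕ) : ℤ) = uJ M G d (b : ℤ) := by
        rw [← hper1 (b % (M * n)), Nat.mod_mul_right_mod, hper1]
      have e2 : DD d (((b % (M * n) : ℕ) : ℕ) : ℤ) n = DD d (b : ℤ) n := by
        rw [← hper2 (b % (M * n)), Nat.mod_mul_left_mod, hper2]
      simp only [e1, e2])
    have e3 : k * (M * n) = m₁ * n := by rw [hk]; ring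
    rw [e3, h1, hU.sum, DD_sum (d : ℤ) n h.pos hdn'] at h2
    rw [h2, hk]
    push_cast
    ring
  have htot : (Nat.card {g : GL (Fin 2) (ZMod (m₁ * n)) // Matrix.GeneralLinearGroup.map (ZMod.castHom hMm (ZMod M)) g ∈ G ∧
        ZMod.castHom h12 (ZMod (M * n)) g.val.det = (d : ZMod (M * n))} : ℝ) =
      (D0 / M * ((k : ℝ) ^ 3 * (n : ℝ) ^ 2 / K)) * (m₁ * n) := by
    rw [tot_card (m₁ * n) hm, ← hsum, Finset.mul_sum]
    refine Finset.sum_congr rfl fun t _ => ?_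
    rw [← hnum (t : ℤ)]
    simp only [and_assoc]
  rw [hnum t, htot]
  have hC : 0 < D0 / M * ((k : ℝ) ^ 3 * (n : ℝ) ^ 2 / K) := by positivity
  have hm' : (0 : ℝ) < m₁ := by exact_mod_cast h.pos₁
  rw [mul_div_mul_left _ _ hC.ne']
  push_cast
  ring

end Pool.Agent.JB
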