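import Pool.Agent.Lib_MP_f1937f_jb.DDf
import Pool.Agent.Lib_MP_f1937f_tb.LawNorm

/-!
# Normalisation
-/

set_option autoImplicit false

namespace Pool.Agent.JB

open Finset Pool.Agent.TB


private theorem norm_classesJ (M : ℕ) (hM : 0 < M) (S : Finset ℤ) (μ : ℤ → ℝ) :
    ∑ t ∈ range M, ∑ a ∈ S.filter (fun a => (M : ℤ) ∣ a - (t : ℤ)), μ a = ∑ a ∈ S, μ a := by
  have hM' : (0 : ℤ) < M := by exact_mod_cast hM
  simp_rw [sum_filter]
  rw [sum_comm]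
  refine sum_congr rfl fun a _ => ?_
  have h0 : 0 ≤ a % M := Int.emod_nonneg _ hM'.ne'
  have h1 : a % M < M := Int.emod_lt_of_pos _ hM'
  have h2 : ((a % M).toNat : ℤ) = a % M := Int.toNat_of_nonneg h0
  rw [sum_eq_single (a % M).toNat]
  · rw [if_pos]
    rw [h2]
    exact Int.dvd_self_sub_emod
  · intro t ht hne
    rw [if_neg]
    intro hd
    apply hne
    have ht' : (t : ℤ) < M := by exact_mod_cast mem_range.1 ht
    have h3 : a % M = (t : ℤ) % M := (Int.modEq_iff_dvd.2 hd).symm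
    have h4 : (t : ℤ) % M = t := Int.emod_eq_of_lt (by positivity) ht'
    have h5 : (t : ℤ) = ((a % M).toNat : ℤ) := by rw [h2, h3, h4]
    exact_mod_cast h5
  · intro hn
    exfalso
    apply hn
    rw [mem_range]
    have : ((a % M).toNat : ℤ) < M := by rw [h2]; exact h1
    exact_mod_cast this

/-- PIECE [JB-E1] (about 130 lines; adapt `Lib_MP_f1937f_tb/LawNorm.lean`). PROOF. `Z = ∑ a ∈ V p, μ a`; `hμ` with `m₁ = M`, `n = 1`, `k = 0`, summed over `t < M`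
(`DD_one`, `hu.sum`): `|Z - 1| ≤ E M ^ 2 √M (log p / √p) ≤ 1 / 2`. `ρ = μ / Z` on `V p`. The target `T` satisfies `|T| ≤ M / (m₁ n) * n ≤ 1` (`DD_le`, `M ≤ m₁`). -/
theorem norm_J (M : ℕ) (hM : 0 < M) (c : ℝ) (u : ℤ → ℝ) (hu : UV M c u) (E : ℝ) (hE : 0 ≤ E) (p : ℕ) (hp : p.Prime)
    (hsmall : E * (M : ℝ) ^ 2 * √(M : ℝ) * (Real.log p / √(p : ℝ)) ≤ 1 / 2) (μ : ℤ → ℝ) (hμ0 : ∀ a, 0 ≤ μ a)
    (hμ : ∀ m₁ n : ℕ, Lev M m₁ n → n ≤ p → ¬ p ∣ n → ∀ (t : ℤ) (k : ℕ),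
      |∑ a ∈ (V p).filter (fun a => ((m₁ * n : ℕ) : ℤ) ∣ a - t), μ a * Uk k (xx p a) -
          (if k = 0 then u t / ((m₁ * n : ℕ) : ℝ) * DD p t n else 0)| ≤
        E * (m₁ * √(m₁ : ℝ)) * (n : ℝ) ^ 2 * (k + 1) * (Real.log p / √(p : ℝ))) :
    ∃ ρ : ℤ → ℝ, GoodLawJ M u (2 * E + 2 * E * (M : ℝ) ^ 3 * √(M : ℝ)) p ρ ∧ (∀ a ∈ V p, μ a / 2 ≤ ρ a) ∧
      (∀ a, μ a = 0 → ρ a = 0) := by
  set L : ℝ := Real.log p / √(p : ℝ) with hL
  have hL0 : 0 ≤ L := by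
    have : 0 ≤ Real.log p := Real.log_nonneg (by exact_mod_cast hp.one_lt.le)
    positivity
  set Z : ℝ := ∑ a ∈ V p, μ a with hZ
  have hU0 : ∀ y, Uk 0 y = 1 := by
    intro y
    simp [Uk]
  have hM1 : (1 : ℝ) ≤ M := by exact_mod_cast hM
  have hM0 : (M : ℝ) ≠ 0 := by linarith
  have hLev : Lev M M 1 := ⟨hM, dvd_refl M, fun l _ h => h, one_pos, Nat.coprime_one_left M⟩
  -- the total mass
  have hcl : ∀ t : ℕ, |∑ a ∈ (V p).filter (fun a => (M : ℤ) ∣ a - (t : ℤ)), μ a - u (t : ℤ) / M| ≤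
      E * (M * √(M : ℝ)) * L := by
    intro t
    have h := hμ M 1 hLev hp.one_lt.le (fun h => hp.one_lt.ne' (Nat.dvd_one.mp h)) (t : ℤ) 0
    simp only [hU0, mul_one, if_true, Nat.cast_zero, zero_add, DD_one, Nat.cast_one, one_pow] at h
    exact h
  have hsumu : ∑ t ∈ range M, u (t : ℤ) / (M : ℝ) = 1 := by
    rw [← Finset.sum_div, hu.sum, div_self hM0]
  have hZ1 : |Z - 1| ≤ E * (M : ℝ) ^ 2 * √(M : ℝ) * L := by
    have h1 : Z - 1 = ∑ t ∈ range M,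
        (∑ a ∈ (V p).filter (fun a => (M : ℤ) ∣ a - (t : ℤ)), μ a - u (t : ℤ) / M) := by
      rw [sum_sub_distrib, norm_classesJ M hM, hsumu]
    rw [h1]
    calc _ ≤ ∑ t ∈ range M, |∑ a ∈ (V p).filter (fun a => (M : ℤ) ∣ a - (t : ℤ)), μ a - u (t : ℤ) / M| :=
          abs_sum_le_sum_abs _ _
      _ ≤ ∑ _t ∈ range M, E * (M * √(M : ℝ)) * L := sum_le_sum fun t _ => hcl t
      _ = E * (M : ℝ) ^ 2 * √(M : ℝ) * L := by
          rw [sum_const, card_range, nsmul_eq_mul]; ring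
  have hZh : |Z - 1| ≤ 1 / 2 := hZ1.trans hsmall
  have hZl : 1 / 2 ≤ Z := by
    have := (abs_le.1 hZh).1
    linarith
  have hZu : Z ≤ 2 := by
    have := (abs_le.1 hZh).2
    linarith
  have hZp : 0 < Z := by linarith
  have hZi : Z⁻¹ ≤ 2 := by
    rw [inv_le_comm₀ hZp (by norm_num)]
    linarith
  refine ⟨fun a => if a ∈ V p then μ a / Z else 0, ⟨?_, ?_, ?_, ?_⟩, ?_, ?_⟩
  · intro a
    split_ifs
    · exact div_nonneg (hμ0 a) hZp.le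
    · exact le_refl _
  · intro a ha
    by_contra hn
    exact ha (if_neg hn)
  · have : ∑ a ∈ V p, (if a ∈ V p then μ a / Z else 0) = ∑ a ∈ V p, μ a / Z :=
      sum_congr rfl fun a ha => if_pos ha
    rw [this, ← sum_div, ← hZ, div_self hZp.ne']
  · intro m₁ n hLv hnp hpn t k
    set A : ℝ := ∑ a ∈ (V p).filter (fun a => ((m₁ * n : ℕ) : ℤ) ∣ a - t), μ a * Uk k (xx p a) with hA
    set T : ℝ := if k = 0 then u t / ((m₁ * n : ℕ) : ℝ) * DD p t n else 0 with hT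
    have h1 : ∑ a ∈ (V p).filter (fun a => ((m₁ * n : ℕ) : ℤ) ∣ a - t),
        (if a ∈ V p then μ a / Z else 0) * Uk k (xx p a) = A * Z⁻¹ := by
      rw [hA, sum_mul]
      refine sum_congr rfl fun a ha => ?_
      rw [if_pos (mem_filter.1 ha).1]
      ring
    have h2 : |A - T| ≤ E * (m₁ * √(m₁ : ℝ)) * (n : ℝ) ^ 2 * (k + 1) * L := hμ m₁ n hLv hnp hpn t k
    have hm1 : (1 : ℝ) ≤ m₁ := by exact_mod_cast hLv.pos₁
    have hn1 : (1 : ℝ) ≤ n := by exact_mod_cast hLv.pos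
    have h3 : |T| ≤ 1 := by
      rw [hT]
      split_ifs
      · have hMm : (M : ℝ) ≤ m₁ := by exact_mod_cast Nat.le_of_dvd hLv.pos₁ hLv.dvd
        have hcop : IsCoprime (p : ℤ) (n : ℤ) := Nat.isCoprime_iff_coprime.mpr ((Nat.Prime.coprime_iff_not_dvd hp).mpr hpn)
        have hD := DD_le p t n hLv.pos hcop
        have hD0 := DD_nonneg p t n
        have hu1 := hu.le t
        have hu0 := hu.nonneg t
        have hmn : (0 : ℝ) < ((m₁ * n : ℕ) : ℝ) := by exact_mod_cast Nat.mul_pos hLv.pos₁ hLv.pos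
        rw [abs_of_nonneg (mul_nonneg (div_nonneg hu0 hmn.le) hD0), div_mul_eq_mul_div, div_le_one hmn]
        calc u t * DD p t n ≤ M * n := mul_le_mul hu1 hD hD0 (by linarith)
          _ ≤ m₁ * n := mul_le_mul_of_nonneg_right hMm (by linarith)
          _ = ((m₁ * n : ℕ) : ℝ) := by push_cast; ring
      · rw [abs_zero]; norm_num
    have h4 : A * Z⁻¹ - T = (A - T) * Z⁻¹ + T * (1 - Z) * Z⁻¹ := by
      field_simp
      ring
    have hsm : 1 ≤ √(m₁ : ℝ) := Real.one_le_sqrt.2 hm1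
    have hk1 : (1 : ℝ) ≤ k + 1 := by
      have : (0 : ℝ) ≤ k := Nat.cast_nonneg k
      linarith
    have hW : 1 ≤ (m₁ * √(m₁ : ℝ)) * (n : ℝ) ^ 2 * (k + 1) := by
      have h5 := one_le_mul_of_one_le_of_one_le hm1 hsm
      have h6 := one_le_mul_of_one_le_of_one_le h5 (one_le_pow₀ hn1 (n := 2))
      exact one_le_mul_of_one_le_of_one_le h6 hk1
    have h5 : |1 - Z| ≤ E * (M : ℝ) ^ 2 * √(M : ℝ) * L := by rw [abs_sub_comm]; exact hZ1
    have h5' : E * (M : ℝ) ^ 2 * √(M : ℝ) * L ≤ E * (M : ℝ) ^ 3 * √(M : ℝ) * L := by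
      have : (M : ℝ) ^ 2 ≤ (M : ℝ) ^ 3 := pow_le_pow_right₀ hM1 (by norm_num)
      gcongr
    have hZi0 : 0 ≤ Z⁻¹ := by positivity
    rw [h1, h4]
    calc |(A - T) * Z⁻¹ + T * (1 - Z) * Z⁻¹|
        ≤ |A - T| * Z⁻¹ + |T| * |1 - Z| * Z⁻¹ := by
          refine (abs_add_le _ _).trans (le_of_eq ?_)
          rw [abs_mul, abs_mul, abs_mul, abs_of_nonneg hZi0]
      _ ≤ (E * (m₁ * √(m₁ : ℝ)) * (n : ℝ) ^ 2 * (k + 1) * L) * 2 +
          1 * (E * (M : ℝ) ^ 3 * √(M : ℝ) * L) * 2 := by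
          have h6 := h5.trans h5'
          gcongr
      _ = 2 * E * ((m₁ * √(m₁ : ℝ)) * (n : ℝ) ^ 2 * (k + 1)) * L + 2 * E * (M : ℝ) ^ 3 * √(M : ℝ) * L * 1 := by ring
      _ ≤ 2 * E * ((m₁ * √(m₁ : ℝ)) * (n : ℝ) ^ 2 * (k + 1)) * L +
          2 * E * (M : ℝ) ^ 3 * √(M : ℝ) * L * ((m₁ * √(m₁ : ℝ)) * (n : ℝ) ^ 2 * (k + 1)) := by
          gcongr
      _ = (2 * E + 2 * E * (M : ℝ) ^ 3 * √(M : ℝ)) * (m₁ * √(m₁ : ℝ)) * (n : ℝ) ^ 2 * (k + 1) * L := by ring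
  · intro a ha
    dsimp only
    rw [if_pos ha]
    exact div_le_div_of_nonneg_left (hμ0 a) hZp hZu
  · intro a ha
    dsimp only
    rw [ha, zero_div, ite_self]


end Pool.Agent.JB
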