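import Pool.Agent.Lib_MP_f1937f_jb.BaseJ
import Pool.Agent.Lib_MP_f1937f_jb.NormJ
import Pool.Agent.Lib_MP_f1937f_jb.AsymJ
import Pool.Agent.Lib_MP_f1937f_tb.Spike
import Pool.Agent.Lib_MP_f1937f_tb.SpikeEqui
import Pool.Agent.Lib_MP_f1937f_tb.LawSpike

/-!
# The law without small traces
-/

set_option autoImplicit false

namespace Pool.Agent.JB

open Finset Pool.Agent.TB

/-- the number of the integers `a` with `|a| ≤ x` -/
private theorem ej_card (s : Finset ℤ) {x : ℝ} (hx : 0 ≤ x) (hs : ∀ a ∈ s, |(a : ℝ)| ≤ x) :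
    (s.card : ℝ) ≤ 2 * x + 1 := by
  have h1 : s ⊆ Finset.Icc (-⌊x⌋) ⌊x⌋ := by
    intro a ha
    have h := abs_le.1 (hs a ha)
    rw [Finset.mem_Icc]
    constructor
    · have : -a ≤ ⌊x⌋ := by
        rw [Int.le_floor]
        push_cast
        linarith [h.1]
      omega
    · rw [Int.le_floor]
      exact h.2
  have h2 : s.card ≤ (Finset.Icc (-⌊x⌋) ⌊x⌋).card := Finset.card_le_card h1
  rw [Int.card_Icc] at h2
  have h3 : 0 ≤ ⌊x⌋ := Int.floor_nonneg.2 hx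
  have h4 : ((⌊x⌋ + 1 - -⌊x⌋).toNat : ℤ) = 2 * ⌊x⌋ + 1 := by
    rw [Int.toNat_of_nonneg (by omega)]
    ring
  have h5 : (s.card : ℤ) ≤ 2 * ⌊x⌋ + 1 := by
    rw [← h4]
    exact_mod_cast h2
  have h6 : (s.card : ℝ) ≤ 2 * (⌊x⌋ : ℝ) + 1 := by exact_mod_cast h5
  have h7 := Int.floor_le x
  linarith

private noncomputable def ejg (M : ℕ) (ν : ℤ → ℝ) (a₀ a : ℤ) : ℝ :=
  (if a = a₀ then 1 else 0) - (if (M : ℤ) ∣ a - a₀ then ν ((a - a₀) / M) else 0)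

private theorem ejg_self (M : ℕ) (ν : ℤ → ℝ) (a : ℤ) : ejg M ν a a = 1 - ν 0 := by
  unfold ejg
  rw [if_pos rfl, sub_self, if_pos (dvd_zero _), Int.zero_ediv]

private theorem ejg_ne (M : ℕ) (hM : 0 < M) (ν : ℤ → ℝ) {a₀ a : ℤ} (ha : a ≠ a₀) :
    ejg M ν a₀ a = 0 ∨ ∃ x : ℤ, x ≠ 0 ∧ a - a₀ = M * x ∧ ejg M ν a₀ a = -ν x := by
  have hMz : (M : ℤ) ≠ 0 := by exact_mod_cast hM.ne'
  unfold ejg
  rw [if_neg ha]
  by_cases h : (M : ℤ) ∣ a - a₀
  · obtain ⟨x, hx⟩ := h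
    refine Or.inr ⟨x, ?_, hx, ?_⟩
    · rintro rfl
      rw [mul_zero] at hx
      exact ha (by linarith)
    · rw [if_pos ⟨x, hx⟩, hx, Int.mul_ediv_cancel_left x hMz, zero_sub]
  · exact Or.inl (by rw [if_neg h, sub_zero])

/-- one term of the correction -/
private theorem ej_term (M : ℕ) (hM : 0 < M) (p : ℕ) (hp : 1 ≤ p) (R : ℝ) (hR : 0 ≤ R) (ν : ℤ → ℝ)
    (hsupp : ∀ x : ℤ, √(p : ℝ) / (4 * M) < |(x : ℝ)| → ν x = 0)
    (hsize : ∀ x : ℤ, x ≠ 0 → |ν x| ≤ 24 * (R / (√(p : ℝ) / (4 * M))) * (x.natAbs.divisors.card : ℝ))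
    (hzero : |ν 0| ≤ 1 / 2) (B Q : ℝ) (hQ0 : 0 ≤ Q)
    (hQ : ∀ n : ℕ, n ≠ 0 → (n : ℝ) ≤ √(p : ℝ) →
      48 * (B * (R / (√(p : ℝ) / (4 * M)))) * (n.divisors.card : ℝ) ≤ Q)
    (b₀ : ℝ) (hb0 : 0 ≤ b₀) (hbB : b₀ ≤ B) {a₀ a : ℤ} (ha : a ≠ a₀) :
    |b₀ * (ejg M ν a₀ a / (1 - ν 0))| ≤ Q := by
  have hM' : (0 : ℝ) < (M : ℝ) := by exact_mod_cast hM
  have hM1 : (1 : ℝ) ≤ (M : ℝ) := by exact_mod_cast hM
  have hs0 : 0 < √(p : ℝ) := Real.sqrt_pos.2 (by exact_mod_cast hp)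
  rcases ejg_ne M hM ν ha with h | ⟨x, hx0, hx, h⟩
  · rw [h, zero_div, mul_zero, abs_zero]
    exact hQ0
  · rw [h]
    by_cases hY : √(p : ℝ) / (4 * M) < |(x : ℝ)|
    · rw [hsupp x hY, neg_zero, zero_div, mul_zero, abs_zero]
      exact hQ0
    · rw [not_lt] at hY
      have hz := (abs_le.1 hzero).2
      have h1 : (1 : ℝ) / 2 ≤ 1 - ν 0 := by linarith
      have hxn : ((x.natAbs : ℕ) : ℝ) = |(x : ℝ)| := by
        rw [Nat.cast_natAbs, Int.cast_abs]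
      have hxs : ((x.natAbs : ℕ) : ℝ) ≤ √(p : ℝ) := by
        rw [hxn]
        refine hY.trans ?_
        rw [div_le_iff₀ (by positivity)]
        nlinarith
      have h2 := hQ x.natAbs (Int.natAbs_ne_zero.2 hx0) hxs
      have h3 := hsize x hx0
      rw [abs_mul, abs_div, abs_neg, abs_of_nonneg hb0, abs_of_pos (by linarith : 0 < 1 - ν 0)]
      have h4 : |ν x| / (1 - ν 0) ≤
          2 * (24 * (R / (√(p : ℝ) / (4 * M))) * (x.natAbs.divisors.card : ℝ)) := by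
        rw [div_le_iff₀ (by linarith)]
        have h5 : 0 ≤ 24 * (R / (√(p : ℝ) / (4 * M))) * (x.natAbs.divisors.card : ℝ) := by positivity
        nlinarith
      have h6 : 0 ≤ 2 * (24 * (R / (√(p : ℝ) / (4 * M))) * (x.natAbs.divisors.card : ℝ)) := by
        positivity
      calc b₀ * (|ν x| / (1 - ν 0))
          ≤ B * (2 * (24 * (R / (√(p : ℝ) / (4 * M))) * (x.natAbs.divisors.card : ℝ))) :=
            mul_le_mul hbB h4 (by positivity) (hb0.trans hbB)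
        _ = 48 * (B * (R / (√(p : ℝ) / (4 * M)))) * (x.natAbs.divisors.card : ℝ) := by ring
        _ ≤ Q := h2

/-- a class mod `m` of the corrected law: the three parts of the sum -/
private theorem ej_split (M : ℕ) (ν : ℤ → ℝ) (hν : 1 - ν 0 ≠ 0) (b : ℤ → ℝ) (A F : Finset ℤ)
    (U : ℤ → ℝ) :
    ∑ a ∈ F, (if a ∈ A then 0 else b a - ∑ a₀ ∈ A.erase a, b a₀ * (ejg M ν a₀ a / (1 - ν 0))) * U a =
      ∑ a ∈ F, b a * U a - ∑ a₀ ∈ A, (b a₀ / (1 - ν 0)) * ∑ a ∈ F, ejg M ν a₀ a * U a +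
        ∑ a ∈ F.filter (· ∈ A), (∑ a₀ ∈ A.erase a, b a₀ * (ejg M ν a₀ a / (1 - ν 0))) * U a := by
  have h1 : ∑ a₀ ∈ A, (b a₀ / (1 - ν 0)) * ∑ a ∈ F, ejg M ν a₀ a * U a =
      ∑ a ∈ F, (∑ a₀ ∈ A, b a₀ * (ejg M ν a₀ a / (1 - ν 0))) * U a := by
    simp_rw [mul_sum, sum_mul]
    rw [sum_comm]
    refine sum_congr rfl fun a _ => sum_congr rfl fun a₀ _ => ?_
    ring
  rw [h1, sum_filter, ← sum_sub_distrib, ← sum_add_distrib]
  refine sum_congr rfl fun a _ => ?_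
  by_cases ha : a ∈ A
  · rw [if_pos ha, if_pos ha, ← Finset.add_sum_erase A _ ha, ejg_self, div_self hν]
    ring
  · rw [if_neg ha, if_neg ha, Finset.erase_eq_of_notMem ha]
    ring

/-- PIECE [JB-E3] (about 250 lines). PROOF. `R = p ^ (1/5)`, `ν` from `spike` with `Y = √p / (4 M)`, `W` from `base_J`, `b a = u a * W a * sw p a`, `A = {a : |a| ≤ log p}`,
`ψ a₀ a = ([a = a₀] - [M ∣ a - a₀] ν ((a - a₀) / M)) / (1 - ν 0)` (`ψ a₀ a₀ = 1`, `1 - ν 0 ≥ 1 / 2`). `μ a = 0` for `a ∈ A`, `μ a = b a - ∑ a₀ ∈ A, b a₀ * ψ a₀ a` for `a ∉ A`.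
`0 ≤ b a₀ ≤ M E p ^ (1/6) / √p = M E p ^ (-1/3)` (`base_J`, `sw_bounds`), `#A ≤ 2 log p + 1`.
`μ ≥ 0`, `a ∉ A`: a term with `ν ((a - a₀) / M) ≠ 0`, `M ∣ a - a₀`, `b a₀ ≠ 0` has `|a| ≤ √p / 2`, `u a = u a₀ ≥ cu`, and
`b a₀ |ψ a₀ a| ≤ 2 M E p ^ (-1/3) * 24 * (R / Y) * τ(|x|)`; `asym_empty` (all terms together at most `b a`, as `b a ≥ cu (c / log p) (3/10) / √p`).
Equidistribution: `∑ μ U = ∑ b U - ∑ a₀ ∈ A, b a₀ ∑ a, ψ a₀ a U - ∑ a ∈ A, r a U`, `r a = b a - ∑ a₀ ∈ A, b a₀ ψ a₀ a = - ∑ a₀ ≠ a, b a₀ ψ a₀ a`. The second term is by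
`spike_equi` at most `#A * M E p ^ (-1/3) * 2 * 7 (m √m) (k + 1) / R`; `|r a| ≤` (as above) `1 / (√p (2 log p + 1))`, `|U| ≤ 2` (`Uk_le_two`, `|xx p a| ≤ 1/2`). Normalise by
`norm_J`. -/
theorem empty_J (M : ℕ) (hM : 0 < M) (cu : ℝ) (hcu : 0 < cu) : ∃ (C : ℝ) (p₀ : ℕ), 0 ≤ C ∧ ∀ p : ℕ, p.Prime → p₀ ≤ p →
    ∀ u : ℤ → ℝ, UV M cu u → ∃ ρ : ℤ → ℝ, GoodLawJ M u C p ρ ∧ ∀ a : ℤ, |(a : ℝ)| ≤ Real.log p → ρ a = 0 := by
  classical
  obtain ⟨E, c, p₁, hE0, hc, hp₁2, hbase⟩ := base_J M hM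
  have hM' : (0 : ℝ) < (M : ℝ) := by exact_mod_cast hM
  have hM1 : (1 : ℝ) ≤ (M : ℝ) := by exact_mod_cast hM
  obtain ⟨c', hc'⟩ : ∃ c', c' = cu * c * (3 / 10) := ⟨_, rfl⟩
  have hc'0 : 0 < c' := by rw [hc']; positivity
  obtain ⟨Ac, hAc⟩ : ∃ Ac, Ac = 192 * (M : ℝ) ^ 2 * E := ⟨_, rfl⟩
  have hAc0 : 0 ≤ Ac := by rw [hAc]; positivity
  obtain ⟨p₂, hp₂2, hasym⟩ := asym_empty M hM Ac c' hAc0 hc'0
  obtain ⟨E', hE'⟩ : ∃ E', E' = E + 28 + 8 * c' := ⟨_, rfl⟩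
  have hE'0 : 0 ≤ E' := by rw [hE']; positivity
  obtain ⟨p₃, hp₃⟩ := LawSpike_log (E' * (M : ℝ) ^ 2 * √(M : ℝ))
  refine ⟨2 * E' + 2 * E' * (M : ℝ) ^ 3 * √(M : ℝ), max p₁ (max p₂ p₃), by positivity,
    fun p hpr hp u hu => ?_⟩
  have hpp₁ : p₁ ≤ p := le_trans (le_max_left _ _) hp
  have hpp₂ : p₂ ≤ p := le_trans (le_trans (le_max_left _ _) (le_max_right _ _)) hp
  have hpp₃ : p₃ ≤ p := le_trans (le_trans (le_max_right _ _) (le_max_right _ _)) hp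
  have hp2 : 2 ≤ p := hpr.two_le
  have hp1 : 1 ≤ p := by omega
  have hp0 : (0 : ℝ) < (p : ℝ) := by exact_mod_cast hp1
  have hs0 : 0 < √(p : ℝ) := Real.sqrt_pos.2 hp0
  obtain ⟨hR1, hRY, hlog4, hasy1, hasy2⟩ := hasym p hpp₂
  obtain ⟨W, hW, hWe⟩ := hbase p hpr hpp₁
  have hlog : 1 / 2 ≤ Real.log p := by
    have h3 : Real.log 2 ≤ Real.log p := Real.log_le_log (by norm_num) (by exact_mod_cast hp2)
    have := Real.log_two_gt_d9
    linarith
  have hlog0 : 0 < Real.log p := by linarith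
  obtain ⟨R, hR⟩ : ∃ R, R = (p : ℝ) ^ (1 / 5 : ℝ) := ⟨_, rfl⟩
  rw [← hR] at hR1 hRY hasy1 hasy2
  have hR0 : 0 < R := by linarith
  obtain ⟨ν, hsupp, hsize, hzero, hmain⟩ := spike (√(p : ℝ) / (4 * M)) R hR1 hRY
  have hν1 : (1 : ℝ) / 2 ≤ 1 - ν 0 := by
    have := (abs_le.1 hzero).2
    linarith
  have hν0 : 0 < 1 - ν 0 := by linarith
  -- the base law
  obtain ⟨b, hb⟩ : ∃ b : ℤ → ℝ, ∀ a, b a = u a * W a * sw p a := ⟨_, fun _ => rfl⟩
  have hW0 : ∀ a, 0 < W a := fun a => lt_of_lt_of_le (by positivity) (hW a).1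
  have hsw : ∀ a, 0 ≤ sw p a ∧ sw p a ≤ 1 / √(p : ℝ) := fun a =>
    ⟨(sw_bounds p hp1 a).1, (sw_bounds p hp1 a).2.1⟩
  have hb0 : ∀ a, 0 ≤ b a := by
    intro a
    rw [hb]
    exact mul_nonneg (mul_nonneg (hu.nonneg a) (hW0 a).le) (hsw a).1
  obtain ⟨P3, hP3⟩ : ∃ P3, P3 = (p : ℝ) ^ (-(1 / 3) : ℝ) := ⟨_, rfl⟩
  rw [← hP3] at hasy1 hasy2
  have hP30 : 0 < P3 := by rw [hP3]; positivity
  have hP6 : (p : ℝ) ^ (1 / 6 : ℝ) * (1 / √(p : ℝ)) = P3 := by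
    have e1 : 1 / √(p : ℝ) = (p : ℝ) ^ (-(1 / 2) : ℝ) := by
      rw [Real.sqrt_eq_rpow, Real.rpow_neg hp0.le]
      exact one_div _
    rw [hP3, e1, ← Real.rpow_add hp0]
    congr 1
    norm_num
  obtain ⟨B, hB⟩ : ∃ B, B = M * E * P3 := ⟨_, rfl⟩
  have hB0 : 0 ≤ B := by rw [hB]; positivity
  have hbB : ∀ a, b a ≤ B := by
    intro a
    rw [hb, hB, ← hP6]
    calc u a * W a * sw p a ≤ M * (E * (p : ℝ) ^ (1 / 6 : ℝ)) * (1 / √(p : ℝ)) :=
          mul_le_mul (mul_le_mul (hu.le a) (hW a).2 (hW0 a).le hM'.le) (hsw a).2 (hsw a).1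
            (by positivity)
      _ = M * E * ((p : ℝ) ^ (1 / 6 : ℝ) * (1 / √(p : ℝ))) := by ring
  -- the small traces
  obtain ⟨A, hA⟩ : ∃ A : Finset ℤ, A = (V p).filter (fun a : ℤ => |(a : ℝ)| ≤ Real.log p) := ⟨_, rfl⟩
  have hmemV : ∀ a : ℤ, |(a : ℝ)| ≤ Real.log p → a ∈ V p := by
    intro a ha
    have h1 : (a : ℝ) ^ 2 ≤ 4 * p := by
      rw [← sq_abs]
      have h2 : |(a : ℝ)| ≤ √(p : ℝ) / 4 := by linarith
      have h3 := pow_le_pow_left₀ (abs_nonneg _) h2 2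
      have h4 : (√(p : ℝ) / 4) ^ 2 = p / 16 := by
        rw [div_pow, Real.sq_sqrt hp0.le]
        norm_num
      linarith
    have h2 : a ^ 2 ≤ 4 * (p : ℤ) := by exact_mod_cast h1
    have h3 : a.natAbs ≤ Nat.sqrt (4 * p) := by
      rw [Nat.le_sqrt]
      have h4 : ((a.natAbs * a.natAbs : ℕ) : ℤ) ≤ ((4 * p : ℕ) : ℤ) := by
        rw [Int.natAbs_mul_self]
        push_cast
        nlinarith
      exact_mod_cast h4
    unfold V
    rw [mem_Icc]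
    omega
  have hmemA : ∀ a : ℤ, a ∈ A ↔ |(a : ℝ)| ≤ Real.log p := by
    intro a
    rw [hA, mem_filter]
    exact ⟨fun h => h.2, fun h => ⟨hmemV a h, h⟩⟩
  have hcA : (A.card : ℝ) ≤ 2 * Real.log p + 1 :=
    ej_card A hlog0.le fun a ha => (hmemA a).1 ha
  obtain ⟨ℓ, hℓ⟩ : ∃ ℓ, ℓ = 2 * Real.log p + 1 := ⟨_, rfl⟩
  rw [← hℓ] at hasy1 hasy2 hcA
  have hℓ1 : 1 ≤ ℓ := by rw [hℓ]; linarith
  obtain ⟨θ, hθ⟩ : ∃ θ, θ = c' / Real.log p / √(p : ℝ) / ℓ := ⟨_, rfl⟩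
  have hθ0 : 0 < θ := by rw [hθ]; positivity
  -- the corrections
  obtain ⟨S, hS⟩ : ∃ S : ℤ → ℝ, ∀ a, S a = ∑ a₀ ∈ A.erase a, b a₀ * (ejg M ν a₀ a / (1 - ν 0)) :=
    ⟨_, fun _ => rfl⟩
  have hterm : ∀ a₀ a : ℤ, a ≠ a₀ → |b a₀ * (ejg M ν a₀ a / (1 - ν 0))| ≤ θ / ℓ := by
    intro a₀ a ha
    refine ej_term M hM p hp1 R hR0.le ν hsupp hsize hzero B (θ / ℓ) (by positivity) ?_ (b a₀)
      (hb0 a₀) (hbB a₀) ha
    intro n hn hns
    have h1 := hasy2 n hn hns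
    rw [le_div_iff₀ (by positivity), hθ]
    refine le_trans (le_of_eq ?_) h1
    rw [hB, hAc]
    field_simp
    ring
  have hSle : ∀ a, |S a| ≤ θ := by
    intro a
    rw [hS]
    calc |∑ a₀ ∈ A.erase a, b a₀ * (ejg M ν a₀ a / (1 - ν 0))|
        ≤ ∑ a₀ ∈ A.erase a, |b a₀ * (ejg M ν a₀ a / (1 - ν 0))| := abs_sum_le_sum_abs _ _
      _ ≤ ∑ _a₀ ∈ A.erase a, θ / ℓ :=
          sum_le_sum fun a₀ ha₀ => hterm a₀ a (Ne.symm (Finset.ne_of_mem_erase ha₀))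
      _ = ((A.erase a).card : ℝ) * (θ / ℓ) := by rw [sum_const, nsmul_eq_mul]
      _ ≤ ℓ * (θ / ℓ) := by
          refine mul_le_mul_of_nonneg_right ?_ (by positivity)
          refine le_trans ?_ hcA
          exact_mod_cast Finset.card_le_card (Finset.erase_subset a A)
      _ = θ := by field_simp
  -- the law before the normalisation
  obtain ⟨μ, hμd⟩ : ∃ μ : ℤ → ℝ, ∀ a, μ a = if a ∈ A then 0 else b a - S a := ⟨_, fun _ => rfl⟩
  have hμ0 : ∀ a, 0 ≤ μ a := by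
    intro a
    rw [hμd]
    split_ifs with ha
    · exact le_rfl
    · by_cases hex : ∃ a₀ ∈ A.erase a, b a₀ * (ejg M ν a₀ a / (1 - ν 0)) ≠ 0
      · obtain ⟨a₀, ha₀, hne⟩ := hex
        have hne1 : b a₀ ≠ 0 := left_ne_zero_of_mul hne
        have hne2 : ejg M ν a₀ a ≠ 0 := fun h => by
          rw [h, zero_div, mul_zero] at hne
          exact hne rfl
        have haa : a ≠ a₀ := Ne.symm (Finset.ne_of_mem_erase ha₀)
        have hua₀ : 0 < u a₀ := by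
          refine lt_of_le_of_ne (hu.nonneg a₀) fun h => ?_
          rw [hb, ← h, zero_mul, zero_mul] at hne1
          exact hne1 rfl
        rcases ejg_ne M hM ν haa with h | ⟨x, hx0, hx, h⟩
        · exact absurd h hne2
        · have hxY : |(x : ℝ)| ≤ √(p : ℝ) / (4 * M) := by
            by_contra hcon
            rw [not_le] at hcon
            rw [h, hsupp x hcon, neg_zero] at hne2
            exact hne2 rfl
          have ha₀l : |(a₀ : ℝ)| ≤ Real.log p := (hmemA a₀).1 (Finset.mem_of_mem_erase ha₀)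
          have hax : (a : ℝ) = a₀ + M * x := by
            have : (a : ℤ) = a₀ + M * x := by linarith
            exact_mod_cast this
          have hMx : (M : ℝ) * |(x : ℝ)| ≤ √(p : ℝ) / 4 := by
            have h1 := mul_le_mul_of_nonneg_left hxY hM'.le
            have h2 : (M : ℝ) * (√(p : ℝ) / (4 * M)) = √(p : ℝ) / 4 := by
              field_simp
            linarith
          have haY : |(a : ℝ)| ≤ √(p : ℝ) / 2 := by
            rw [hax]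
            refine (abs_add_le _ _).trans ?_
            rw [abs_mul, abs_of_pos hM']
            linarith
          have hua : u a = u a₀ := hu.per a a₀ ⟨x, hx⟩
          have hua1 : cu ≤ u a := by rw [hua]; exact hu.low a₀ hua₀
          have hsw3 := (sw_bounds p hp1 a).2.2 haY
          have hlow : c' / Real.log p / √(p : ℝ) ≤ b a := by
            rw [hb, hc']
            calc cu * c * (3 / 10) / Real.log p / √(p : ℝ)
                = cu * (c / Real.log p) * (3 / 10 / √(p : ℝ)) := by ring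
              _ ≤ u a * W a * sw p a :=
                mul_le_mul (mul_le_mul hua1 (hW a).1 (by positivity) (hu.nonneg a)) hsw3
                  (by positivity) (mul_nonneg (hu.nonneg a) (hW0 a).le)
          have hθle : θ ≤ c' / Real.log p / √(p : ℝ) := by
            rw [hθ]
            exact div_le_self (by positivity) hℓ1
          have := (abs_le.1 (hSle a)).2
          linarith
      · push Not at hex
        have hS0 : S a = 0 := by
          rw [hS]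
          exact sum_eq_zero hex
        rw [hS0, sub_zero]
        exact hb0 a
  have hμ : ∀ m₁ n : ℕ, Lev M m₁ n → n ≤ p → ¬ p ∣ n → ∀ (t : ℤ) (k : ℕ),
      |∑ a ∈ (V p).filter (fun a => ((m₁ * n : ℕ) : ℤ) ∣ a - t), μ a * Uk k (xx p a) -
          (if k = 0 then u t / ((m₁ * n : ℕ) : ℝ) * DD p t n else 0)| ≤
        E' * (m₁ * √(m₁ : ℝ)) * (n : ℝ) ^ 2 * (k + 1) * (Real.log p / √(p : ℝ)) := by
    intro m₁ n hlev hnp hpn t k
    have h1 := hWe u hu.per (fun t => ⟨hu.nonneg t, hu.le t⟩) m₁ n hlev hnp hpn t k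
    obtain ⟨F, hF⟩ : ∃ F, F = (V p).filter (fun a => ((m₁ * n : ℕ) : ℤ) ∣ a - t) := ⟨_, rfl⟩
    obtain ⟨T, hT⟩ : ∃ T, T = (if k = 0 then u t / ((m₁ * n : ℕ) : ℝ) * DD p t n else 0) := ⟨_, rfl⟩
    rw [← hF, ← hT] at h1 ⊢
    have hmpos : 0 < m₁ * n := Nat.mul_pos hlev.pos₁ hlev.pos
    have e1 : ∑ a ∈ F, μ a * Uk k (xx p a) =
        ∑ a ∈ F, b a * Uk k (xx p a) -
          ∑ a₀ ∈ A, (b a₀ / (1 - ν 0)) * ∑ a ∈ F, ejg M ν a₀ a * Uk k (xx p a) +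
        ∑ a ∈ F.filter (· ∈ A), S a * Uk k (xx p a) := by
      have := ej_split M ν hν0.ne' b A F fun a => Uk k (xx p a)
      simp only [hμd, hS]
      exact this
    -- the sizes
    obtain ⟨Z, hZ⟩ : ∃ Z : ℝ, Z = (m₁ * √(m₁ : ℝ)) * (n : ℝ) ^ 2 * (k + 1) := ⟨_, rfl⟩
    have hm1 : (1 : ℝ) ≤ m₁ := by exact_mod_cast hlev.pos₁
    have hn1 : (1 : ℝ) ≤ n := by exact_mod_cast hlev.pos
    have hk0 : (0 : ℝ) ≤ k := Nat.cast_nonneg k
    have hsm1 : (1 : ℝ) ≤ √(m₁ : ℝ) := Real.one_le_sqrt.2 hm1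
    have hmn : ((m₁ * n : ℕ) : ℝ) * √((m₁ * n : ℕ) : ℝ) * (k + 1) ≤ Z := by
      rw [hZ]
      push_cast
      rw [Real.sqrt_mul (by positivity)]
      have h2 : √(n : ℝ) ≤ n := by
        rw [Real.sqrt_le_left (by positivity)]
        nlinarith
      have h3 : (m₁ : ℝ) * n * (√(m₁ : ℝ) * √(n : ℝ)) ≤ (m₁ * √(m₁ : ℝ)) * (n : ℝ) ^ 2 := by
        calc (m₁ : ℝ) * n * (√(m₁ : ℝ) * √(n : ℝ)) = (m₁ * √(m₁ : ℝ)) * (n * √(n : ℝ)) := by ring
          _ ≤ (m₁ * √(m₁ : ℝ)) * (n * n) := by gcongr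
          _ = _ := by ring
      exact mul_le_mul_of_nonneg_right h3 (by linarith)
    have hZ1 : 1 ≤ Z := by
      rw [hZ]
      have h2 : (1 : ℝ) ≤ (m₁ * √(m₁ : ℝ)) := one_le_mul_of_one_le_of_one_le hm1 hsm1
      have h3 : (1 : ℝ) ≤ (n : ℝ) ^ 2 := one_le_pow₀ hn1
      exact one_le_mul_of_one_le_of_one_le (one_le_mul_of_one_le_of_one_le h2 h3) (by linarith)
    have e2 : |∑ a₀ ∈ A, (b a₀ / (1 - ν 0)) * ∑ a ∈ F, ejg M ν a₀ a * Uk k (xx p a)| ≤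
        28 * Z * (Real.log p / √(p : ℝ)) := by
      have h2 : ∀ a₀ ∈ A, |(b a₀ / (1 - ν 0)) * ∑ a ∈ F, ejg M ν a₀ a * Uk k (xx p a)| ≤
          2 * B * (7 * Z / R) := by
        intro a₀ ha₀
        have ha₀l : |(a₀ : ℝ)| ≤ √(p : ℝ) / 4 := by
          have := (hmemA a₀).1 ha₀
          linarith
        have h3 := spike_equi M hM a₀ p hp2 ha₀l R hR1 ν hsupp hmain (m₁ * n) hmpos
          (Dvd.dvd.mul_right hlev.dvd n) t k
        rw [← hF] at h3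
        have h4 : |∑ a ∈ F, ejg M ν a₀ a * Uk k (xx p a)| ≤ 7 * Z / R := by
          refine le_trans h3 ?_
          refine div_le_div_of_nonneg_right ?_ hR0.le
          calc 7 * (((m₁ * n : ℕ) : ℝ) * √((m₁ * n : ℕ) : ℝ)) * (k + 1)
              = 7 * (((m₁ * n : ℕ) : ℝ) * √((m₁ * n : ℕ) : ℝ) * (k + 1)) := by ring
            _ ≤ 7 * Z := by linarith
        rw [abs_mul, abs_div, abs_of_nonneg (hb0 a₀), abs_of_pos hν0]
        have h5 : b a₀ / (1 - ν 0) ≤ 2 * B := by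
          rw [div_le_iff₀ hν0]
          have := hbB a₀
          nlinarith
        exact mul_le_mul h5 h4 (abs_nonneg _) (by positivity)
      calc |∑ a₀ ∈ A, (b a₀ / (1 - ν 0)) * ∑ a ∈ F, ejg M ν a₀ a * Uk k (xx p a)|
          ≤ ∑ a₀ ∈ A, |(b a₀ / (1 - ν 0)) * ∑ a ∈ F, ejg M ν a₀ a * Uk k (xx p a)| :=
            abs_sum_le_sum_abs _ _
        _ ≤ ∑ _a₀ ∈ A, 2 * B * (7 * Z / R) := sum_le_sum h2
        _ = (A.card : ℝ) * (2 * B * (7 * Z / R)) := by rw [sum_const, nsmul_eq_mul]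
        _ ≤ ℓ * (2 * B * (7 * Z / R)) := by
            refine mul_le_mul_of_nonneg_right hcA ?_
            have : 0 ≤ Z := by linarith
            positivity
        _ = 14 * Z * (ℓ * B / R) := by ring
        _ ≤ 14 * Z * (1 / √(p : ℝ)) := by
            have h6 : ℓ * B / R ≤ 1 / √(p : ℝ) := by
              refine le_trans ?_ hasy1
              refine div_le_div_of_nonneg_right ?_ hR0.le
              refine mul_le_mul_of_nonneg_left ?_ (by linarith)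
              rw [hB, hAc]
              refine mul_le_mul_of_nonneg_right ?_ hP30.le
              have : (M : ℝ) ≤ 192 * (M : ℝ) ^ 2 := by nlinarith
              exact mul_le_mul_of_nonneg_right this hE0
            have : 0 ≤ 14 * Z := by linarith
            exact mul_le_mul_of_nonneg_left h6 this
        _ ≤ 28 * Z * (Real.log p / √(p : ℝ)) := by
            have h7 : 28 * Z * (Real.log p / √(p : ℝ)) = 14 * Z * ((2 * Real.log p) / √(p : ℝ)) := by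
              ring
            rw [h7]
            have : 0 ≤ 14 * Z := by linarith
            refine mul_le_mul_of_nonneg_left ?_ this
            exact div_le_div_of_nonneg_right (by linarith) hs0.le
    have e3 : |∑ a ∈ F.filter (· ∈ A), S a * Uk k (xx p a)| ≤
        8 * c' * Z * (Real.log p / √(p : ℝ)) := by
      have h2 : ∀ a ∈ F.filter (· ∈ A), |S a * Uk k (xx p a)| ≤ θ * 2 := by
        intro a ha
        have ha' := (hmemA a).1 (mem_filter.1 ha).2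
        have hx : |xx p a| ≤ 1 / 2 := by
          unfold xx
          rw [abs_div, abs_of_pos (by positivity : (0 : ℝ) < 2 * √(p : ℝ)),
            div_le_div_iff₀ (by positivity) (by norm_num)]
          linarith
        rw [abs_mul]
        exact mul_le_mul (hSle a) (Uk_le_two k hx) (abs_nonneg _) hθ0.le
      have h3 : ((F.filter (· ∈ A)).card : ℝ) ≤ ℓ := by
        refine le_trans ?_ hcA
        exact_mod_cast Finset.card_le_card fun a ha => (mem_filter.1 ha).2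
      calc |∑ a ∈ F.filter (· ∈ A), S a * Uk k (xx p a)|
          ≤ ∑ a ∈ F.filter (· ∈ A), |S a * Uk k (xx p a)| := abs_sum_le_sum_abs _ _
        _ ≤ ∑ _a ∈ F.filter (· ∈ A), θ * 2 := sum_le_sum h2
        _ = ((F.filter (· ∈ A)).card : ℝ) * (θ * 2) := by rw [sum_const, nsmul_eq_mul]
        _ ≤ ℓ * (θ * 2) := mul_le_mul_of_nonneg_right h3 (by positivity)
        _ = 2 * (c' / Real.log p / √(p : ℝ)) := by
            rw [hθ]
            field_simp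
        _ ≤ 8 * c' * 1 * (Real.log p / √(p : ℝ)) := by
            have h4 : c' / Real.log p ≤ 4 * c' * Real.log p := by
              rw [div_le_iff₀ hlog0]
              have h5 : 1 ≤ 4 * (Real.log p * Real.log p) := by nlinarith
              nlinarith
            have h6 : 2 * (c' / Real.log p / √(p : ℝ)) = 2 * (c' / Real.log p) / √(p : ℝ) := by ring
            have h7 : 8 * c' * 1 * (Real.log p / √(p : ℝ)) = 2 * (4 * c' * Real.log p) / √(p : ℝ) := by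
              ring
            rw [h6, h7]
            exact div_le_div_of_nonneg_right (by linarith) hs0.le
        _ ≤ 8 * c' * Z * (Real.log p / √(p : ℝ)) := by
            have h8 : 0 ≤ Real.log p / √(p : ℝ) := by positivity
            gcongr
    have e4 : ∑ a ∈ F, b a * Uk k (xx p a) = ∑ a ∈ F, u a * W a * sw p a * Uk k (xx p a) :=
      sum_congr rfl fun a _ => by rw [hb]
    rw [e1, e4]
    have e5 : ∀ x y z : ℝ, |x - y + z - T| ≤ |x - T| + |y| + |z| := by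
      intro x y z
      have h2 : x - y + z - T = (x - T) + (-y + z) := by ring
      rw [h2]
      refine (abs_add_le _ _).trans ?_
      have h3 := abs_add_le (-y) z
      rw [abs_neg] at h3
      linarith
    refine (e5 _ _ _).trans ?_
    have e6 : E' * (m₁ * √(m₁ : ℝ)) * (n : ℝ) ^ 2 * (k + 1) * (Real.log p / √(p : ℝ)) =
        E * (m₁ * √(m₁ : ℝ)) * (n : ℝ) ^ 2 * (k + 1) * (Real.log p / √(p : ℝ)) +
          28 * Z * (Real.log p / √(p : ℝ)) + 8 * c' * Z * (Real.log p / √(p : ℝ)) := by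
      rw [hE', hZ]
      ring
    rw [e6]
    exact add_le_add (add_le_add h1 e2) e3
  obtain ⟨ρ, hρ, -, hz⟩ := norm_J M hM cu u hu E' hE'0 p hpr (hp₃ p hpp₃) μ hμ0 hμ
  refine ⟨ρ, hρ, fun a ha => hz a ?_⟩
  rw [hμd, if_pos ((hmemA a).2 ha)]

end Pool.Agent.JB
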