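import Pool.Agent.Lib_MP_f1937f_jb.Defs

/-!
# Lifts of a matrix
-/

set_option autoImplicit false

namespace Pool.Agent.JB

open Finset Pool.Agent.TB

/-- the preimage of a set under a surjective homomorphism -/
private theorem card_preim {A B : Type} [AddCommGroup A] [AddCommGroup B] [Finite A] [Finite B]
    (φ : A →+ B) (hφ : Function.Surjective φ) (P : B → Prop) :
    Nat.card {a : A // P (φ a)} * Nat.card B = Nat.card {b : B // P b} * Nat.card A := by
  classical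
  have key : ∀ P : B → Prop, Nat.card {a : A // P (φ a)} =
      Nat.card {b : B // P b} * Nat.card φ.ker := by
    intro P
    rw [← Nat.card_prod]
    refine Nat.card_congr
      { toFun := fun a => (⟨φ a.1, a.2⟩, ⟨a.1 - Function.surjInv hφ (φ a.1), ?_⟩)
        invFun := fun b => ⟨Function.surjInv hφ b.1.1 + b.2.1, ?_⟩
        left_inv := ?_
        right_inv := ?_ }
    · rw [AddMonoidHom.mem_ker, map_sub, Function.surjInv_eq hφ, sub_self]
    · rw [map_add, Function.surjInv_eq hφ, (AddMonoidHom.mem_ker).1 b.2.2, add_zero]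
      exact b.1.2
    · rintro ⟨a, ha⟩
      simp
    · rintro ⟨⟨b, hb⟩, ⟨k, hk⟩⟩
      have hk' : φ k = 0 := (AddMonoidHom.mem_ker).1 hk
      have h1 : φ (Function.surjInv hφ b + k) = b := by
        rw [map_add, Function.surjInv_eq hφ, hk', add_zero]
      ext
      · simp [h1]
      · simp [h1]
  have h1 := key P
  have h2 := key (fun _ => True)
  have h3 : Nat.card {a : A // True} = Nat.card A := Nat.card_congr (Equiv.subtypeUnivEquiv fun _ => trivial)
  have h4 : Nat.card {b : B // True} = Nat.card B := Nat.card_congr (Equiv.subtypeUnivEquiv fun _ => trivial)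
  rw [h3, h4] at h2
  rw [h1, h2]
  ring

/-- units modulo `m` are detected modulo divisors -/
private theorem unit_of {M Q m : ℕ} (hm : 0 < m) (hM : M ∣ m) (hQ : Q ∣ m)
    (hp : ∀ p : ℕ, p.Prime → p ∣ m → p ∣ M ∨ p ∣ Q) (d : ZMod m)
    (h1 : IsUnit (ZMod.castHom hM (ZMod M) d)) (h2 : IsUnit (ZMod.castHom hQ (ZMod Q) d)) :
    IsUnit d := by
  have : NeZero m := ⟨hm.ne'⟩
  have hd : d = ((d.val : ℕ) : ZMod m) := (ZMod.natCast_zmod_val d).symm
  rw [hd, map_natCast, ZMod.isUnit_iff_coprime] at h1 h2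
  rw [hd, ZMod.isUnit_iff_coprime]
  by_contra hc
  obtain ⟨p, hpp, hp1, hp2⟩ := Nat.Prime.not_coprime_iff_dvd.1 hc
  rcases hp p hpp hp2 with h | h
  · exact Nat.not_coprime_of_dvd_of_dvd hpp.one_lt hp1 h h1
  · exact Nat.not_coprime_of_dvd_of_dvd hpp.one_lt hp1 h h2

/-- the reduction modulo `M` and `Q` -/
private def red {M Q m : ℕ} (hM : M ∣ m) (hQ : Q ∣ m) : ZMod m →+ ZMod M × ZMod Q :=
  (ZMod.castHom hM (ZMod M)).toAddMonoidHom.prod (ZMod.castHom hQ (ZMod Q)).toAddMonoidHom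

private theorem red_fst {M Q m : ℕ} (hM : M ∣ m) (hQ : Q ∣ m) (x : ZMod m) :
    (red hM hQ x).1 = ZMod.castHom hM (ZMod M) x := rfl

private theorem red_snd {M Q m : ℕ} (hM : M ∣ m) (hQ : Q ∣ m) (x : ZMod m) :
    (red hM hQ x).2 = ZMod.castHom hQ (ZMod Q) x := rfl

private theorem red_surj {M Q m : ℕ} (hm : 0 < m) (hM : M ∣ m) (hQ : Q ∣ m)
    (hc : Nat.Coprime M Q) : Function.Surjective (red hM hQ) := by
  have : NeZero M := ⟨(Nat.pos_of_dvd_of_pos hM hm).ne'⟩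
  have : NeZero Q := ⟨(Nat.pos_of_dvd_of_pos hQ hm).ne'⟩
  rintro ⟨a, b⟩
  obtain ⟨k, hk1, hk2⟩ := Nat.chineseRemainder hc a.val b.val
  refine ⟨(k : ZMod m), ?_⟩
  refine Prod.ext ?_ ?_
  · rw [red_fst, map_natCast]
    have h1 := (ZMod.natCast_eq_natCast_iff k a.val M).2 hk1
    rw [h1, ZMod.natCast_zmod_val]
  · rw [red_snd, map_natCast]
    have h1 := (ZMod.natCast_eq_natCast_iff k b.val Q).2 hk2
    rw [h1, ZMod.natCast_zmod_val]

/-- the reduction of triples -/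
private def red3 {M Q m : ℕ} (hM : M ∣ m) (hQ : Q ∣ m) : ZMod m × ZMod m × ZMod m →+
    (ZMod M × ZMod Q) × (ZMod M × ZMod Q) × (ZMod M × ZMod Q) :=
  (red hM hQ).prodMap ((red hM hQ).prodMap (red hM hQ))

private theorem red3_surj {M Q m : ℕ} (hm : 0 < m) (hM : M ∣ m) (hQ : Q ∣ m)
    (hc : Nat.Coprime M Q) : Function.Surjective (red3 hM hQ) := by
  rintro ⟨a, b, c⟩
  obtain ⟨a', ha⟩ := red_surj hm hM hQ hc a
  obtain ⟨b', hb⟩ := red_surj hm hM hQ hc b
  obtain ⟨c', hc'⟩ := red_surj hm hM hQ hc c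
  refine ⟨(a', b', c'), ?_⟩
  unfold red3
  simp only [AddMonoidHom.coe_prodMap, Prod.map_apply]
  rw [ha, hb, hc']

/-- the condition on the reductions -/
private def PP {M Q : ℕ} (t d : ℤ) (g₀ : GL (Fin 2) (ZMod M))
    (b : (ZMod M × ZMod Q) × (ZMod M × ZMod Q) × (ZMod M × ZMod Q)) : Prop :=
  (b.1.1 = g₀ 0 0 ∧ b.2.1.1 = g₀ 0 1 ∧ b.2.2.1 = g₀ 1 0) ∧
    b.1.2 * ((t : ZMod Q) - b.1.2) - b.2.1.2 * b.2.2.2 = (d : ZMod Q)

private theorem card_PP {M Q : ℕ} (t d : ℤ) (g₀ : GL (Fin 2) (ZMod M)) :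
    Nat.card {b // PP (Q := Q) t d g₀ b} =
      Nat.card {x : ZMod Q × ZMod Q × ZMod Q // x.1 * ((t : ZMod Q) - x.1) - x.2.1 * x.2.2 = (d : ZMod Q)} := by
  refine Nat.card_congr
    { toFun := fun b => ⟨(b.1.1.2, b.1.2.1.2, b.1.2.2.2), b.2.2⟩
      invFun := fun x => ⟨((g₀ 0 0, x.1.1), (g₀ 0 1, x.1.2.1), (g₀ 1 0, x.1.2.2)), ⟨rfl, rfl, rfl⟩, x.2⟩
      left_inv := ?_
      right_inv := ?_ }
  · rintro ⟨⟨⟨a1, a2⟩, ⟨b1, b2⟩, ⟨c1, c2⟩⟩, ⟨h1, h2, h3⟩, h4⟩
    simp only at h1 h2 h3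
    subst h1 h2 h3
    rfl
  · rintro ⟨⟨a, b, c⟩, h⟩
    rfl

private theorem det_zero {M : ℕ} (t : ℤ) (g₀ : GL (Fin 2) (ZMod M))
    (ht : g₀.val.trace = (t : ZMod M)) : g₀ 1 1 = (t : ZMod M) - g₀ 0 0 := by
  rw [← ht, Matrix.trace_fin_two]
  ring

private theorem isUnit_two {R : Type} [CommRing R] (g : GL (Fin 2) R) :
    IsUnit (g 0 0 * g 1 1 - g 0 1 * g 1 0) := by
  have h := (Matrix.isUnit_iff_isUnit_det _).1 g.isUnit
  rw [Matrix.det_fin_two] at h
  exact h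

private theorem card_GL {M Q m : ℕ} (hm : 0 < m) (hM : M ∣ m) (hQ : Q ∣ m)
    (hp : ∀ p : ℕ, p.Prime → p ∣ m → p ∣ M ∨ p ∣ Q) (t d : ℤ) (hd : IsUnit (d : ZMod Q))
    (g₀ : GL (Fin 2) (ZMod M)) (ht : g₀.val.trace = (t : ZMod M)) :
    Nat.card {g : GL (Fin 2) (ZMod m) //
        Matrix.GeneralLinearGroup.map (ZMod.castHom hM (ZMod M)) g = g₀ ∧
          ZMod.castHom hQ (ZMod Q) g.val.det = (d : ZMod Q) ∧ g.val.trace = (t : ZMod m)} =
      Nat.card {x : ZMod m × ZMod m × ZMod m // PP t d g₀ (red3 hM hQ x)} := by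
  have hmem : ∀ g : GL (Fin 2) (ZMod m),
      Matrix.GeneralLinearGroup.map (ZMod.castHom hM (ZMod M)) g = g₀ →
      ZMod.castHom hQ (ZMod Q) g.val.det = (d : ZMod Q) → g.val.trace = (t : ZMod m) →
      PP t d g₀ (red3 hM hQ (g 0 0, g 0 1, g 1 0)) := by
    intro g hg hdt htr
    have h1 : ∀ i j, ZMod.castHom hM (ZMod M) (g i j) = g₀ i j := by
      intro i j
      rw [← hg]
      rfl
    refine ⟨⟨h1 0 0, h1 0 1, h1 1 0⟩, ?_⟩
    have h2 := hdt
    rw [Matrix.det_fin_two, det_zero t g htr] at h2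
    simp only [map_sub, map_mul, map_intCast] at h2
    exact h2
  refine Nat.card_congr (Equiv.ofBijective
    (fun g => ⟨(g.1 0 0, g.1 0 1, g.1 1 0), hmem g.1 g.2.1 g.2.2.1 g.2.2.2⟩) ⟨?_, ?_⟩)
  · rintro ⟨g, hg1, _, hg2⟩ ⟨g', hg1', _, hg2'⟩ he
    simp only [Subtype.mk.injEq, Prod.mk.injEq] at he
    obtain ⟨e1, e2, e3⟩ := he
    have e4 : g 1 1 = g' 1 1 := by rw [det_zero t g hg2, det_zero t g' hg2', e1]
    apply Subtype.ext
    apply Units.ext
    ext i j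
    fin_cases i <;> fin_cases j
    · exact e1
    · exact e2
    · exact e3
    · exact e4
  · rintro ⟨⟨a, b, c⟩, ⟨h1, h2, h3⟩, h4⟩
    have h1' : ZMod.castHom hM (ZMod M) a = g₀ 0 0 := h1
    have h2' : ZMod.castHom hM (ZMod M) b = g₀ 0 1 := h2
    have h3' : ZMod.castHom hM (ZMod M) c = g₀ 1 0 := h3
    have h4' : ZMod.castHom hQ (ZMod Q) a * ((t : ZMod Q) - ZMod.castHom hQ (ZMod Q) a) -
      ZMod.castHom hQ (ZMod Q) b * ZMod.castHom hQ (ZMod Q) c = (d : ZMod Q) := h4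
    have hu : IsUnit (a * ((t : ZMod m) - a) - b * c) := by
      apply unit_of hm hM hQ hp
      · rw [map_sub, map_mul, map_mul, map_sub, map_intCast, h1', h2', h3', ← det_zero t g₀ ht]
        exact isUnit_two g₀
      · rw [map_sub, map_mul, map_mul, map_sub, map_intCast, h4']
        exact hd
    have hdet : IsUnit (Matrix.det !![a, b; c, (t : ZMod m) - a]) := by
      rw [Matrix.det_fin_two_of]
      exact hu
    refine ⟨⟨Matrix.GeneralLinearGroup.mk'' _ hdet, ?_, ?_, ?_⟩, ?_⟩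
    · apply Units.ext
      ext i j
      fin_cases i <;> fin_cases j
      · exact h1'
      · exact h2'
      · exact h3'
      · show ZMod.castHom hM (ZMod M) ((t : ZMod m) - a) = g₀ 1 1
        rw [map_sub, map_intCast, h1', ← det_zero t g₀ ht]
    · show ZMod.castHom hQ (ZMod Q) (Matrix.det !![a, b; c, (t : ZMod m) - a]) = _
      rw [Matrix.det_fin_two_of, map_sub, map_mul, map_mul, map_sub, map_intCast]
      exact h4'
    · show Matrix.trace !![a, b; c, (t : ZMod m) - a] = _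
      rw [Matrix.trace_fin_two_of]
      ring
    · rfl

/-- PIECE [JB-G3] (about 200 lines; adapt `Lib_MP_f1937f_tb/GlFiber.lean`, where the condition is 'unit' instead of `= d`). PROOF. A matrix of trace `t` is given by the entries `x, y, z` (the fourth one is `t - x`). The conditions are:
`x, y, z` reduce to the entries of `g₀` modulo `M`, and `x (t - x) - y z = d` modulo `n`. Then the determinant is a unit modulo `M` and modulo `n`, hence modulo `m₁ n`
(every prime factor of `m₁ n` divides `M` or `n`). The additive map `ZMod (m₁ n) → ZMod M × ZMod n` is surjective with fibres of `m₁ / M` elements. -/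
theorem card_fib (M m₁ n : ℕ) (hM : 0 < M) (h : Lev M m₁ n) (hMm : M ∣ m₁ * n) (hnm : n ∣ m₁ * n) (t d : ℤ) (hd : IsCoprime d (n : ℤ))
    (g₀ : GL (Fin 2) (ZMod M)) (hg : g₀.val.trace = (t : ZMod M)) :
    Nat.card {g : GL (Fin 2) (ZMod (m₁ * n)) // Matrix.GeneralLinearGroup.map (ZMod.castHom hMm (ZMod M)) g = g₀ ∧
        ZMod.castHom hnm (ZMod n) g.val.det = (d : ZMod n) ∧ g.val.trace = (t : ZMod (m₁ * n))} =
      (m₁ / M) ^ 3 * Nat.card {x : ZMod n × ZMod n × ZMod n // x.1 * ((t : ZMod n) - x.1) - x.2.1 * x.2.2 = (d : ZMod n)} := by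
  obtain ⟨k, hk⟩ := h.dvd
  have hn : 0 < n := h.pos
  have hk0 : 0 < k := by
    rcases Nat.eq_zero_or_pos k with h0 | h0
    · rw [h0, mul_zero] at hk
      exact absurd hk h.pos₁.ne'
    · exact h0
  have hm : 0 < m₁ * n := Nat.mul_pos h.pos₁ hn
  have hp : ∀ p : ℕ, p.Prime → p ∣ m₁ * n → p ∣ M ∨ p ∣ n := fun p hp hpm =>
    ((Nat.Prime.dvd_mul hp).1 hpm).imp (h.pr p hp) id
  have hdu : IsUnit (d : ZMod n) := by
    obtain ⟨a, b, hab⟩ := hd
    have h1 := congrArg (Int.cast : ℤ → ZMod n) hab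
    push_cast at h1
    rw [ZMod.natCast_self, mul_zero, add_zero] at h1
    exact IsUnit.of_mul_eq_one_right _ h1
  have : NeZero (m₁ * n) := ⟨hm.ne'⟩
  have : NeZero M := ⟨hM.ne'⟩
  have : NeZero n := ⟨hn.ne'⟩
  have hcard := card_preim (red3 hMm hnm) (red3_surj hm hMm hnm h.cop.symm) (PP t d g₀)
  rw [← card_GL hm hMm hnm hp t d hdu g₀ hg, card_PP] at hcard
  simp only [Nat.card_prod, Nat.card_zmod] at hcard
  have hdiv : m₁ / M = k := by rw [hk, Nat.mul_div_cancel_left k hM]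
  rw [hdiv]
  have h0 : 0 < M * n * (M * n * (M * n)) := by positivity
  apply Nat.eq_of_mul_eq_mul_right h0
  subst hk
  rw [hcard]
  ring

end Pool.Agent.JB
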