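import Pool.Agent.Lib_MP_f1937f_jb.Defs

/-!
# Derandomised Hoeffding inequality
-/

set_option autoImplicit false

namespace Pool.Agent.JB

open Finset Pool.Agent.TB


/-- Hoeffding's lemma for a finite law. -/
theorem hoeffding_fin (A : Finset ℤ) (ρ X : ℤ → ℝ) (h0 : ∀ a, 0 ≤ ρ a) (h1 : ∑ a ∈ A, ρ a = 1)
    (hX : ∑ a ∈ A, ρ a * X a = 0) (D : ℝ) (hD : 0 < D) (hXD : ∀ a ∈ A, |X a| ≤ D) (s : ℝ) :
    ∑ a ∈ A, ρ a * Real.exp (s * X a) ≤ Real.exp ((s * D) ^ 2 / 2) := by
  have hc : ∀ x : ℝ, |x| ≤ D → Real.exp (s * x) ≤ Real.cosh (s * D) + x / D * Real.sinh (s * D) := by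
    intro x hx
    rw [abs_le] at hx
    have ha : 0 ≤ (D - x) / (2 * D) := div_nonneg (by linarith) (by linarith)
    have hb : 0 ≤ (D + x) / (2 * D) := div_nonneg (by linarith) (by linarith)
    have h2 := convexOn_exp.2 (Set.mem_univ (-(s * D))) (Set.mem_univ (s * D)) ha hb (by field_simp; ring)
    simp only [smul_eq_mul] at h2
    have h3 : (D - x) / (2 * D) * -(s * D) + (D + x) / (2 * D) * (s * D) = s * x := by
      field_simp
      ring
    rw [h3] at h2
    refine h2.trans (le_of_eq ?_)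
    rw [Real.cosh_eq, Real.sinh_eq]
    field_simp
    ring
  calc ∑ a ∈ A, ρ a * Real.exp (s * X a)
      ≤ ∑ a ∈ A, ρ a * (Real.cosh (s * D) + X a / D * Real.sinh (s * D)) :=
        Finset.sum_le_sum fun a ha => mul_le_mul_of_nonneg_left (hc _ (hXD a ha)) (h0 a)
    _ = (∑ a ∈ A, ρ a) * Real.cosh (s * D) + (∑ a ∈ A, ρ a * X a) * (Real.sinh (s * D) / D) := by
        rw [Finset.sum_mul, Finset.sum_mul, ← Finset.sum_add_distrib]
        refine Finset.sum_congr rfl fun a _ => ?_
        ring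
    _ = Real.cosh (s * D) := by rw [h1, hX]; ring
    _ ≤ Real.exp ((s * D) ^ 2 / 2) := Real.cosh_le_exp_half_sq _

/-- PIECE [JB-F1] (about 150 lines). PROOF. Put `X j p a = T j p a - ∑ b ∈ Vs p, ρ p b * T j p b`, `|X j p a| ≤ 2 c j` for `a ∈ Vs p`, mean `0`. For `s j > 0` and a finite `S' ⊆ S` claim: there is `v` with
`v p ∈ Vs p`, `ρ p (v p) > 0` for `p ∈ S'` and `∑ j ∈ J, (exp (s j Y j) + exp (-s j Y j)) exp (-(s j 2 c j) ^ 2 #S' / 2) ≤ 2 #J`, `Y j = ∑ p ∈ S', X j p (v p)`. Induction on `S'`: for a new `p`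
average over `a` with weights `ρ p a`; `∑ a, ρ p a exp (± s X j p a) ≤ cosh (2 s c) ≤ exp ((2 s c) ^ 2 / 2)` (convexity: `exp (s x) ≤ cosh (2 s c) + (x / (2 c)) sinh (2 s c)` for
`|x| ≤ 2 c`; `Real.cosh_le_exp_half_sq`), so some `a` with `ρ p a > 0` does not increase the potential. At the end
`exp (s j |Y j|) ≤ 2 #J exp ((2 s j c j) ^ 2 #S / 2)`; take `s j = √(2 L / #S) / (2 c j)` (`S` nonempty): `|Y j| ≤ 2 L / s j = 4 c j √(#S L / 2)`, which is `≤ 3 c j √(#S L)`. -/
theorem greedy {ι : Type*} (J : Finset ι) (S : Finset ℕ) (Vs : ℕ → Finset ℤ) (ρ : ℕ → ℤ → ℝ) (h0 : ∀ p ∈ S, ∀ a, 0 ≤ ρ p a)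
    (h1 : ∀ p ∈ S, ∑ a ∈ Vs p, ρ p a = 1) (T : ι → ℕ → ℤ → ℝ) (c : ι → ℝ) (hc : ∀ j ∈ J, 0 < c j)
    (hT : ∀ j ∈ J, ∀ p ∈ S, ∀ a ∈ Vs p, |T j p a| ≤ c j) (L : ℝ) (hL : Real.log (2 * J.card + 1) ≤ L) (hL0 : 0 < L) :
    ∃ v : ℕ → ℤ, (∀ p ∈ S, v p ∈ Vs p ∧ 0 < ρ p (v p)) ∧
      ∀ j ∈ J, |∑ p ∈ S, (T j p (v p) - ∑ a ∈ Vs p, ρ p a * T j p a)| ≤ 3 * c j * √((S.card : ℝ) * L) := by
  classical
  -- the centred variables
  set X : ι → ℕ → ℤ → ℝ := fun j p a => T j p a - ∑ b ∈ Vs p, ρ p b * T j p b with hXdef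
  have hXmean : ∀ j ∈ J, ∀ p ∈ S, ∑ a ∈ Vs p, ρ p a * X j p a = 0 := by
    intro j _ p hp
    simp only [hXdef, mul_sub, Finset.sum_sub_distrib, ← Finset.sum_mul, h1 p hp]
    ring
  have hXD : ∀ j ∈ J, ∀ p ∈ S, ∀ a ∈ Vs p, |X j p a| ≤ 2 * c j := by
    intro j hj p hp a ha
    have h2 : |∑ b ∈ Vs p, ρ p b * T j p b| ≤ c j := by
      calc |∑ b ∈ Vs p, ρ p b * T j p b| ≤ ∑ b ∈ Vs p, |ρ p b * T j p b| := Finset.abs_sum_le_sum_abs _ _
        _ ≤ ∑ b ∈ Vs p, ρ p b * c j := by
            refine Finset.sum_le_sum fun b hb => ?_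
            rw [abs_mul, abs_of_nonneg (h0 p hp b)]
            exact mul_le_mul_of_nonneg_left (hT j hj p hp b hb) (h0 p hp b)
        _ = c j := by rw [← Finset.sum_mul, h1 p hp, one_mul]
    have h3 := hT j hj p hp a ha
    calc |X j p a| ≤ |T j p a| + |∑ b ∈ Vs p, ρ p b * T j p b| := abs_sub _ _
      _ ≤ 2 * c j := by linarith
  have hstep : ∀ s : ι → ℝ, ∀ S' ⊆ S, ∃ v : ℕ → ℤ, (∀ p ∈ S', v p ∈ Vs p ∧ 0 < ρ p (v p)) ∧
      ∑ j ∈ J, (Real.exp (s j * ∑ p ∈ S', X j p (v p)) + Real.exp (-s j * ∑ p ∈ S', X j p (v p))) *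
        Real.exp (-((s j * (2 * c j)) ^ 2 / 2 * S'.card)) ≤ 2 * J.card := by
    intro s S'
    induction S' using Finset.induction_on with
    | empty =>
      intro _
      refine ⟨fun _ => 0, by simp, ?_⟩
      simp only [Finset.sum_empty, mul_zero, Real.exp_zero, Finset.card_empty, Nat.cast_zero, neg_zero, mul_one]
      rw [Finset.sum_const, nsmul_eq_mul]
      linarith
    | insert p S' hp ih =>
      intro hS
      have hpS : p ∈ S := hS (Finset.mem_insert_self _ _)
      obtain ⟨v, hv1, hv2⟩ := ih (fun x hx => hS (Finset.mem_insert_of_mem hx))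
      obtain ⟨Z, hZ⟩ : ∃ Z : ι → ℝ, ∀ j, Z j = ∑ q ∈ S', X j q (v q) := ⟨_, fun _ => rfl⟩
      simp only [← hZ] at hv2
      set Φ : ℤ → ℝ := fun a => ∑ j ∈ J, (Real.exp (s j * (X j p a + Z j)) +
        Real.exp (-s j * (X j p a + Z j))) * Real.exp (-((s j * (2 * c j)) ^ 2 / 2 * (S'.card + 1))) with hΦ
      set Ψ : ℝ := ∑ j ∈ J, (Real.exp (s j * Z j) + Real.exp (-s j * Z j)) *
        Real.exp (-((s j * (2 * c j)) ^ 2 / 2 * S'.card)) with hΨ
      have hav : ∑ a ∈ Vs p, ρ p a * Φ a ≤ Ψ := by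
        have h2 : ∑ a ∈ Vs p, ρ p a * Φ a = ∑ j ∈ J, ((∑ a ∈ Vs p, ρ p a * Real.exp (s j * X j p a)) * Real.exp (s j * Z j) +
            (∑ a ∈ Vs p, ρ p a * Real.exp (-s j * X j p a)) * Real.exp (-s j * Z j)) *
            Real.exp (-((s j * (2 * c j)) ^ 2 / 2 * (S'.card + 1))) := by
          simp only [hΦ, Finset.mul_sum]
          rw [Finset.sum_comm]
          refine Finset.sum_congr rfl fun j _ => ?_
          rw [Finset.sum_mul, Finset.sum_mul, ← Finset.sum_add_distrib, Finset.sum_mul]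
          refine Finset.sum_congr rfl fun a _ => ?_
          rw [mul_add (s j), mul_add (-s j), Real.exp_add, Real.exp_add]
          ring
        rw [h2, hΨ]
        refine Finset.sum_le_sum fun j hj => ?_
        have h3 := hoeffding_fin (Vs p) (ρ p) (X j p) (h0 p hpS) (h1 p hpS) (hXmean j hj p hpS) (2 * c j)
          (by have := hc j hj; linarith) (hXD j hj p hpS) (s j)
        have h4 := hoeffding_fin (Vs p) (ρ p) (X j p) (h0 p hpS) (h1 p hpS) (hXmean j hj p hpS) (2 * c j)
          (by have := hc j hj; linarith) (hXD j hj p hpS) (-s j)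
        have h5 : (-s j * (2 * c j)) ^ 2 / 2 = (s j * (2 * c j)) ^ 2 / 2 := by ring
        rw [h5] at h4
        have h6 : Real.exp (-((s j * (2 * c j)) ^ 2 / 2 * S'.card)) =
            Real.exp ((s j * (2 * c j)) ^ 2 / 2) * Real.exp (-((s j * (2 * c j)) ^ 2 / 2 * (S'.card + 1))) := by
          rw [← Real.exp_add]
          congr 1
          ring
        rw [h6]
        refine le_trans (mul_le_mul_of_nonneg_right ?_ (Real.exp_pos _).le) (le_of_eq (mul_assoc _ _ _))
        rw [add_mul]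
        refine add_le_add ?_ ?_
        · rw [mul_comm (Real.exp (s j * Z j))]
          exact mul_le_mul_of_nonneg_right h3 (Real.exp_pos _).le
        · rw [mul_comm (Real.exp (-s j * Z j))]
          exact mul_le_mul_of_nonneg_right h4 (Real.exp_pos _).le
      have hex : ∃ a ∈ Vs p, 0 < ρ p a ∧ Φ a ≤ Ψ := by
        by_contra hcon
        push Not at hcon
        have h2 : Ψ < ∑ a ∈ Vs p, ρ p a * Φ a := by
          calc Ψ = ∑ a ∈ Vs p, ρ p a * Ψ := by rw [← Finset.sum_mul, h1 p hpS, one_mul]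
            _ < ∑ a ∈ Vs p, ρ p a * Φ a := by
              apply Finset.sum_lt_sum
              · intro a ha
                rcases (h0 p hpS a).lt_or_eq with h | h
                · exact mul_le_mul_of_nonneg_left (hcon a ha h).le (h0 p hpS a)
                · rw [← h, zero_mul, zero_mul]
              · have : ∃ a ∈ Vs p, 0 < ρ p a := by
                  by_contra hno
                  push Not at hno
                  have : ∑ a ∈ Vs p, ρ p a ≤ 0 := Finset.sum_nonpos hno
                  rw [h1 p hpS] at this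
                  linarith
                obtain ⟨a, ha, hpos⟩ := this
                exact ⟨a, ha, mul_lt_mul_of_pos_left (hcon a ha hpos) hpos⟩
        linarith
      obtain ⟨a, ha, hρ, hle⟩ := hex
      refine ⟨Function.update v p a, ?_, ?_⟩
      · intro q hq
        rw [Finset.mem_insert] at hq
        by_cases hqp : q = p
        · rw [hqp, Function.update_self]
          exact ⟨ha, hρ⟩
        · rw [Function.update_of_ne hqp]
          exact hv1 q (hq.resolve_left hqp)
      · have h2 : ∀ j, ∑ q ∈ insert p S', X j q (Function.update v p a q) = X j p a + ∑ q ∈ S', X j q (v q) := by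
          intro j
          rw [Finset.sum_insert hp, Function.update_self]
          congr 1
          refine Finset.sum_congr rfl fun q hq => ?_
          rw [Function.update_of_ne]
          rintro rfl
          exact hp hq
        simp only [h2, Finset.card_insert_of_notMem hp, Nat.cast_add, Nat.cast_one]
        have h3 := hle.trans hv2
        simpa only [hΦ, hZ] using h3
  rcases S.eq_empty_or_nonempty with hS | hS
  · refine ⟨fun _ => 0, by simp [hS], ?_⟩
    intro j hj
    rw [hS]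
    simp
  have hn : (0 : ℝ) < S.card := by exact_mod_cast hS.card_pos
  obtain ⟨v, hv1, hv2⟩ := hstep (fun j => √(2 * L / S.card) / (2 * c j)) S subset_rfl
  refine ⟨v, hv1, ?_⟩
  intro j hj
  have hcj := hc j hj
  set u := √(2 * L / S.card) with hu
  have hu2 : u ^ 2 = 2 * L / S.card := Real.sq_sqrt (by positivity)
  have hu0 : 0 < u := Real.sqrt_pos.2 (by positivity)
  set s := u / (2 * c j) with hs
  have hs0 : 0 < s := by positivity
  set Z := ∑ p ∈ S, X j p (v p) with hZ
  have h2 : (Real.exp (s * Z) + Real.exp (-s * Z)) * Real.exp (-((s * (2 * c j)) ^ 2 / 2 * S.card)) ≤ 2 * J.card := by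
    refine le_trans ?_ hv2
    exact Finset.single_le_sum (f := fun j => (Real.exp (√(2 * L / S.card) / (2 * c j) * ∑ p ∈ S, X j p (v p)) +
      Real.exp (-(√(2 * L / S.card) / (2 * c j)) * ∑ p ∈ S, X j p (v p))) *
      Real.exp (-((√(2 * L / S.card) / (2 * c j) * (2 * c j)) ^ 2 / 2 * S.card))) (fun i _ => by positivity) hj
  have h3 : (s * (2 * c j)) ^ 2 / 2 * S.card = L := by
    have : s * (2 * c j) = u := by
      rw [hs]
      field_simp
    rw [this, hu2]
    field_simp
  rw [h3] at h2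
  have h4 : Real.exp (s * |Z|) ≤ 2 * J.card * Real.exp L := by
    have h5 : Real.exp (s * |Z|) ≤ Real.exp (s * Z) + Real.exp (-s * Z) := by
      rcases abs_cases Z with h | h
      · rw [h.1]
        have := Real.exp_pos (-s * Z)
        linarith
      · rw [h.1]
        have := Real.exp_pos (s * Z)
        have h6 : s * -Z = -s * Z := by ring
        rw [h6]
        linarith
    rw [Real.exp_neg] at h2
    have h6 := Real.exp_pos L
    calc Real.exp (s * |Z|) ≤ Real.exp (s * Z) + Real.exp (-s * Z) := h5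
      _ = (Real.exp (s * Z) + Real.exp (-s * Z)) * (Real.exp L)⁻¹ * Real.exp L := by field_simp
      _ ≤ 2 * J.card * Real.exp L := mul_le_mul_of_nonneg_right h2 h6.le
  have h5 : s * |Z| ≤ 2 * L := by
    have h6 : (2 * (J.card : ℝ)) ≤ Real.exp L := by
      have h7 : (2 * (J.card : ℝ) + 1) ≤ Real.exp L := by
        rw [← Real.log_le_iff_le_exp (by positivity)]
        exact hL
      linarith
    have h8 : Real.exp (s * |Z|) ≤ Real.exp (2 * L) := by
      calc Real.exp (s * |Z|) ≤ 2 * J.card * Real.exp L := h4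
        _ ≤ Real.exp L * Real.exp L := mul_le_mul_of_nonneg_right h6 (Real.exp_pos _).le
        _ = Real.exp (2 * L) := by rw [← Real.exp_add]; congr 1; ring
    exact Real.exp_le_exp.1 h8
  have h6 : |Z| * u ≤ 4 * c j * L := by
    have h7 : s * |Z| = |Z| * u / (2 * c j) := by
      rw [hs]
      ring
    rw [h7, div_le_iff₀ (by positivity)] at h5
    linarith
  set R := √((S.card : ℝ) * L) with hR
  have hR0 : 0 ≤ R := Real.sqrt_nonneg _
  have hR2 : R ^ 2 = S.card * L := Real.sq_sqrt (by positivity)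
  have huR : 2 * L ^ 2 = u ^ 2 * R ^ 2 := by
    rw [hu2, hR2]
    field_simp
  have h7 : 4 * L ≤ 3 * (u * R) := by
    have h8 : (4 * L) ^ 2 ≤ (3 * (u * R)) ^ 2 := by
      have : (3 * (u * R)) ^ 2 = 9 * (2 * L ^ 2) := by rw [huR]; ring
      rw [this]
      nlinarith [sq_nonneg L]
    exact (abs_le_of_sq_le_sq' h8 (by positivity)).2
  have h8 : |Z| * u ≤ 3 * c j * R * u := by
    calc |Z| * u ≤ 4 * c j * L := h6
      _ = c j * (4 * L) := by ring
      _ ≤ c j * (3 * (u * R)) := mul_le_mul_of_nonneg_left h7 hcj.le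
      _ = 3 * c j * R * u := by ring
  exact le_of_mul_le_mul_right h8 hu0


end Pool.Agent.JB
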