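import Pool.Agent.Lib_MP_f1937f_jb.PB
import Pool.Agent.Lib_MP_f1937f_jb.Avg

/-!
# All levels
-/

set_option autoImplicit false

namespace Pool.Agent.JB

open Finset Pool.Agent.TB


/-- PIECE [JB-D2] (about 150 lines). PROOF. Let `m = m₁ n`. For `w h ≠ 0`, `h` is coprime to `M`, hence to `m₁`, and `g = gcd h m = gcd h n` divides `n`; write `h = g e`, `e ≤ 3 H / g`. `w h * e ≤ 3 C / g` if `h ≠ 1`
(`w h ≤ C / H`, `e ≤ 3 H / g`), and `w 1 ≤ C`. `CC p t g ≤ g` (`CC_le`). So the sum is at most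
`∑_{g ∣ n} g * (3 C / g) * ∑_{e ≤ 3 H / g} |EE p k (e m) (cf (g e))| ≤ ∑_{g ∣ n} 3 C * C' (k + 1) √m / √p` by `pb` with `X = 3 H / g` (skip the `g > 3 H`), and
`#divisors n ≤ n`. -/
theorem group_h (M : ℕ) (hM : 0 < M) (C c : ℝ) (hC : 0 ≤ C) : ∃ C' : ℝ, 0 ≤ C' ∧ ∀ (H p k m₁ n : ℕ) (w : ℕ → ℝ), 1 ≤ H →
    Wt M H C c w → 1 ≤ p → ((3 * H : ℕ) : ℝ) ^ 3 ≤ √(p : ℝ) → Lev M m₁ n → IsCoprime (p : ℤ) (n : ℤ) → ∀ (t : ℤ) (cf : ℕ → ℤ),
    ∑ h ∈ Icc 1 (3 * H), w h * (((h / Nat.gcd h (m₁ * n) : ℕ) : ℝ) * CC p t (Nat.gcd h (m₁ * n))) *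
        |EE p k (h / Nat.gcd h (m₁ * n) * (m₁ * n)) (cf h)| ≤
      C' * n * (k + 1) * √((m₁ * n : ℕ) : ℝ) / √(p : ℝ) := by
  have _ := hM
  obtain ⟨C1, hC1, hpb⟩ := pb
  refine ⟨3 * C * C1, by positivity, fun H p k m₁ n w hH hw hp hHp hL hcop t cf => ?_⟩
  have hm : 1 ≤ m₁ * n := Nat.mul_pos hL.pos₁ hL.pos
  have hn0 : n ≠ 0 := hL.pos.ne'
  obtain ⟨m, hmdef⟩ : ∃ m, m = m₁ * n := ⟨_, rfl⟩
  rw [← hmdef] at hm ⊢
  have hg0 : ∀ h, 0 < Nat.gcd h m := fun h => Nat.gcd_pos_of_pos_right h hm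
  have hge : ∀ h, Nat.gcd h m * (h / Nat.gcd h m) = h := fun h => Nat.mul_div_cancel' (Nat.gcd_dvd_left h m)
  have hgn : ∀ h, w h ≠ 0 → Nat.gcd h m ∣ n := by
    intro h hwh
    have h1 : h.Coprime m₁ := by
      refine Nat.coprime_of_dvd fun l hl hlh hlm => ?_
      have h2 : l ∣ Nat.gcd h M := Nat.dvd_gcd hlh (hL.pr l hl hlm)
      rw [(hw.supp h hwh).2.2] at h2
      exact hl.one_lt.ne' (Nat.dvd_one.mp h2)
    have h3 : (Nat.gcd h m).Coprime m₁ := Nat.Coprime.coprime_dvd_left (Nat.gcd_dvd_left h m) h1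
    refine h3.dvd_of_dvd_mul_left ?_
    rw [← hmdef]
    exact Nat.gcd_dvd_right h m
  have hterm : ∀ h ∈ (Icc 1 (3 * H)).filter (fun h => w h ≠ 0),
      w h * (((h / Nat.gcd h m : ℕ) : ℝ) * CC p t (Nat.gcd h m)) * |EE p k (h / Nat.gcd h m * m) (cf h)| ≤
        3 * C * |EE p k (h / Nat.gcd h m * m) (cf (Nat.gcd h m * (h / Nat.gcd h m)))| := by
    intro h hh
    rw [Finset.mem_filter, Finset.mem_Icc] at hh
    rw [hge]
    refine mul_le_mul_of_nonneg_right ?_ (abs_nonneg _)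
    have h1 : CC p t (Nat.gcd h m) ≤ (Nat.gcd h m : ℕ) := CC_le p t _ (hg0 h)
      (hcop.of_isCoprime_of_dvd_right (Int.natCast_dvd_natCast.mpr (hgn h hh.2)))
    have h2 : ((h / Nat.gcd h m : ℕ) : ℝ) * CC p t (Nat.gcd h m) ≤ h := by
      calc ((h / Nat.gcd h m : ℕ) : ℝ) * CC p t (Nat.gcd h m) ≤ ((h / Nat.gcd h m : ℕ) : ℝ) * (Nat.gcd h m : ℕ) :=
            mul_le_mul_of_nonneg_left h1 (Nat.cast_nonneg _)
        _ = h := by rw [← Nat.cast_mul, Nat.mul_comm, hge]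
    have h3 : w h * (((h / Nat.gcd h m : ℕ) : ℝ) * CC p t (Nat.gcd h m)) ≤ w h * h :=
      mul_le_mul_of_nonneg_left h2 (hw.nonneg h)
    refine h3.trans ?_
    by_cases h4 : h = 1
    · rw [h4, Nat.cast_one, mul_one]
      linarith [hw.one_le]
    · have hH' : (0 : ℝ) < H := Nat.cast_pos.mpr hH
      have h5 : (h : ℝ) ≤ 3 * H := by exact_mod_cast hh.1.2
      calc w h * h ≤ C / H * (3 * H) :=
            mul_le_mul (hw.le h h4) h5 (Nat.cast_nonneg _) (div_nonneg hC hH'.le)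
        _ = 3 * C := by field_simp
  have hsub : ((Icc 1 (3 * H)).filter (fun h => w h ≠ 0)).image
      (fun h => (⟨Nat.gcd h m, h / Nat.gcd h m⟩ : (_ : ℕ) × ℕ)) ⊆
        n.divisors.sigma (fun g => Icc 1 (3 * H / g)) := by
    intro x hx
    obtain ⟨h, hh, rfl⟩ := Finset.mem_image.mp hx
    rw [Finset.mem_filter, Finset.mem_Icc] at hh
    rw [Finset.mem_sigma, Nat.mem_divisors, Finset.mem_Icc]
    refine ⟨⟨hgn h hh.2, hn0⟩, ?_, ?_⟩
    · exact Nat.div_pos (Nat.le_of_dvd (by omega) (Nat.gcd_dvd_left h m)) (hg0 h)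
    · exact Nat.div_le_div_right hh.1.2
  have hinj : Set.InjOn (fun h => (⟨Nat.gcd h m, h / Nat.gcd h m⟩ : (_ : ℕ) × ℕ))
      ((Icc 1 (3 * H)).filter (fun h => w h ≠ 0)) := by
    intro a _ b _ hab
    have h1 := congrArg (fun x : (_ : ℕ) × ℕ => x.1 * x.2) hab
    simp only [hge] at h1
    exact h1
  have hinner : ∀ g ∈ n.divisors, ∑ e ∈ Icc 1 (3 * H / g), 3 * C * |EE p k (e * m) (cf (g * e))| ≤
      3 * C * (C1 * (k + 1) * √(m : ℝ) / √(p : ℝ)) := by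
    intro g hg
    rw [← Finset.mul_sum]
    refine mul_le_mul_of_nonneg_left ?_ (by positivity)
    rcases Nat.eq_zero_or_pos (3 * H / g) with h0 | h0
    · rw [h0]
      simp only [Finset.Icc_eq_empty (show ¬ (1 : ℕ) ≤ 0 by omega), Finset.sum_empty]
      positivity
    · refine hpb p k m (3 * H / g) hp hm h0 ?_ (fun e => cf (g * e))
      refine le_trans ?_ hHp
      have h1 : ((3 * H / g : ℕ) : ℝ) ≤ ((3 * H : ℕ) : ℝ) := Nat.cast_le.mpr (Nat.div_le_self _ _)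
      exact pow_le_pow_left₀ (Nat.cast_nonneg _) h1 3
  calc ∑ h ∈ Icc 1 (3 * H), w h * (((h / Nat.gcd h m : ℕ) : ℝ) * CC p t (Nat.gcd h m)) *
        |EE p k (h / Nat.gcd h m * m) (cf h)|
      = ∑ h ∈ (Icc 1 (3 * H)).filter (fun h => w h ≠ 0), w h * (((h / Nat.gcd h m : ℕ) : ℝ) * CC p t (Nat.gcd h m)) *
        |EE p k (h / Nat.gcd h m * m) (cf h)| := by
        symm
        refine Finset.sum_filter_of_ne fun h _ hne => ?_
        intro hw0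
        apply hne
        rw [hw0, zero_mul, zero_mul]
    _ ≤ ∑ h ∈ (Icc 1 (3 * H)).filter (fun h => w h ≠ 0),
        3 * C * |EE p k (h / Nat.gcd h m * m) (cf (Nat.gcd h m * (h / Nat.gcd h m)))| := Finset.sum_le_sum hterm
    _ = ∑ x ∈ ((Icc 1 (3 * H)).filter (fun h => w h ≠ 0)).image
        (fun h => (⟨Nat.gcd h m, h / Nat.gcd h m⟩ : (_ : ℕ) × ℕ)), 3 * C * |EE p k (x.2 * m) (cf (x.1 * x.2))| :=
        (Finset.sum_image (f := fun x : (_ : ℕ) × ℕ => 3 * C * |EE p k (x.2 * m) (cf (x.1 * x.2))|) hinj).symm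
    _ ≤ ∑ x ∈ n.divisors.sigma (fun g => Icc 1 (3 * H / g)), 3 * C * |EE p k (x.2 * m) (cf (x.1 * x.2))| :=
        Finset.sum_le_sum_of_subset_of_nonneg hsub fun x _ _ => by positivity
    _ = ∑ g ∈ n.divisors, ∑ e ∈ Icc 1 (3 * H / g), 3 * C * |EE p k (e * m) (cf (g * e))| := by
        rw [Finset.sum_sigma]
    _ ≤ ∑ g ∈ n.divisors, 3 * C * (C1 * (k + 1) * √(m : ℝ) / √(p : ℝ)) := Finset.sum_le_sum hinner
    _ = (n.divisors.card : ℝ) * (3 * C * (C1 * (k + 1) * √(m : ℝ) / √(p : ℝ))) := by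
        rw [Finset.sum_const, nsmul_eq_mul]
    _ ≤ (n : ℝ) * (3 * C * (C1 * (k + 1) * √(m : ℝ) / √(p : ℝ))) :=
        mul_le_mul_of_nonneg_right (Nat.cast_le.mpr (Nat.card_divisors_le_self n)) (by positivity)
    _ = 3 * C * C1 * n * (k + 1) * √(m : ℝ) / √(p : ℝ) := by ring


end Pool.Agent.JB
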