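import Pool.Agent.Lib_MP_f1937f_jb.PiAP
import Pool.Agent.Lib_MP_f1937f_jb.Defs

/-!
# Primes whose rank in their class has a given 2-adic valuation
-/

set_option autoImplicit false

namespace Pool.Agent.JB

open Finset Pool.Agent.TB


/-- the primes of the class of `d` -/
private def PJ (M d n : ℕ) : Prop := n.Prime ∧ n ≡ d [MOD M]

private lemma PJ_filter (M d x : ℕ) [DecidablePred (PJ M d)] :
    (((range (x + 1)).filter Nat.Prime).filter (fun p => p ≡ d [MOD M])).card = Nat.count (PJ M d) (x + 1) := by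
  rw [Nat.count_eq_card_filter_range, Finset.filter_filter]
  congr 1
  exact Finset.filter_congr fun p _ => Iff.rfl

private lemma rkJ_nth (M d n : ℕ) [DecidablePred (PJ M d)] (hinf : (setOf (PJ M d)).Infinite) :
    rkJ M (Nat.nth (PJ M d) n) = padicValNat 2 (n + 1) := by
  have hp : PJ M d (Nat.nth (PJ M d) n) := Nat.nth_mem_of_infinite hinf n
  unfold rkJ
  congr 1
  have e1 : ((range (Nat.nth (PJ M d) n + 1)).filter Nat.Prime).filter
      (fun q => q ≡ Nat.nth (PJ M d) n [MOD M]) =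
      ((range (Nat.nth (PJ M d) n + 1)).filter Nat.Prime).filter (fun q => q ≡ d [MOD M]) := by
    refine Finset.filter_congr fun q _ => ?_
    exact ⟨fun h => h.trans hp.2, fun h => h.trans hp.2.symm⟩
  rw [e1, PJ_filter, Nat.count_succ, if_pos hp, Nat.count_nth_of_infinite hinf]

private lemma rankJ_count (M d j x : ℕ) (hinf : (setOf (PJ M d)).Infinite) :
    ((((range (x + 1)).filter Nat.Prime).filter (fun p => p ≡ d [MOD M])).card : ℝ) / 2 ^ (j + 1) - 1 ≤
    ((((range (x + 1)).filter Nat.Prime).filter (fun p => p ≡ d [MOD M] ∧ rkJ M p = j)).card : ℝ) := by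
  classical
  obtain ⟨n, hn⟩ : ∃ n, n = Nat.count (PJ M d) (x + 1) := ⟨_, rfl⟩
  rw [PJ_filter, ← hn]
  have hinj : ∀ s ∈ range ((n / 2 ^ j + 1) / 2), Nat.nth (PJ M d) (2 ^ j * (2 * s + 1) - 1) ∈
      (((range (x + 1)).filter Nat.Prime).filter (fun p => p ≡ d [MOD M] ∧ rkJ M p = j)) := by
    intro s hs
    rw [mem_range] at hs
    have h1 : 2 * s + 1 ≤ n / 2 ^ j := by omega
    have h2 : 2 ^ j * (2 * s + 1) ≤ n := by
      have := Nat.mul_div_le n (2 ^ j)
      exact (Nat.mul_le_mul_left _ h1).trans this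
    have h3 : 1 ≤ 2 ^ j * (2 * s + 1) := Nat.one_le_iff_ne_zero.mpr (by positivity)
    have hp : PJ M d (Nat.nth (PJ M d) (2 ^ j * (2 * s + 1) - 1)) := Nat.nth_mem_of_infinite hinf _
    rw [mem_filter, mem_filter, mem_range]
    refine ⟨⟨?_, hp.1⟩, hp.2, ?_⟩
    · apply Nat.nth_lt_of_lt_count
      omega
    · rw [rkJ_nth M d _ hinf, Nat.sub_add_cancel h3]
      rw [padicValNat.mul (by positivity) (by omega), padicValNat.prime_pow,
        padicValNat.eq_zero_of_not_dvd (by omega), add_zero]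
  have hcard := card_le_card_of_injOn (fun s => Nat.nth (PJ M d) (2 ^ j * (2 * s + 1) - 1)) hinj (by
    intro s _ s' _ h
    have h1 := Nat.nth_injective hinf h
    have h2 : 1 ≤ 2 ^ j * (2 * s + 1) := Nat.one_le_iff_ne_zero.mpr (by positivity)
    have h3 : 1 ≤ 2 ^ j * (2 * s' + 1) := Nat.one_le_iff_ne_zero.mpr (by positivity)
    have h4 : 2 ^ j * (2 * s + 1) = 2 ^ j * (2 * s' + 1) := by omega
    have h5 := Nat.eq_of_mul_eq_mul_left (by positivity) h4
    omega)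
  rw [card_range] at hcard
  have h5 : (n : ℝ) / 2 ^ (j + 1) - 1 ≤ (((n / 2 ^ j + 1) / 2 : ℕ) : ℝ) := by
    have h6 : n < 2 ^ j * (n / 2 ^ j + 1) := Nat.lt_mul_div_succ n (by positivity)
    have h7 : n / 2 ^ j ≤ 2 * ((n / 2 ^ j + 1) / 2) := by omega
    have h8 : n < 2 ^ j * (2 * ((n / 2 ^ j + 1) / 2) + 1) := lt_of_lt_of_le h6 (Nat.mul_le_mul_left _ (by omega))
    have h9 : (n : ℝ) < 2 ^ j * (2 * (((n / 2 ^ j + 1) / 2 : ℕ) : ℝ) + 1) := by exact_mod_cast h8
    rw [sub_le_iff_le_add, div_le_iff₀ (by positivity), pow_succ]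
    have h10 : (0 : ℝ) < 2 ^ j := by positivity
    nlinarith
  exact h5.trans (by exact_mod_cast hcard)

private lemma rankJ_card_ge (M d j p₀ x : ℕ) (hinf : (setOf (PJ M d)).Infinite) :
    ((((range (x + 1)).filter Nat.Prime).filter (fun p => p ≡ d [MOD M])).card : ℝ) / 2 ^ (j + 1) - 1 - p₀ ≤
    ((((range (x + 1)).filter Nat.Prime).filter (fun p => p ≡ d [MOD M] ∧ rkJ M p = j ∧ p₀ ≤ p)).card : ℝ) := by
  have h1 := rankJ_count M d j x hinf
  have h2 : (((range (x + 1)).filter Nat.Prime).filter (fun p => p ≡ d [MOD M] ∧ rkJ M p = j)).card ≤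
      (((range (x + 1)).filter Nat.Prime).filter (fun p => p ≡ d [MOD M] ∧ rkJ M p = j ∧ p₀ ≤ p)).card + p₀ := by
    calc (((range (x + 1)).filter Nat.Prime).filter (fun p => p ≡ d [MOD M] ∧ rkJ M p = j)).card
        ≤ (((range (x + 1)).filter Nat.Prime).filter (fun p => p ≡ d [MOD M] ∧ rkJ M p = j ∧ p₀ ≤ p) ∪
            range p₀).card := by
          apply Finset.card_le_card
          intro p hp
          rw [Finset.mem_union, Finset.mem_filter, Finset.mem_range]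
          rw [Finset.mem_filter] at hp
          by_cases h : p₀ ≤ p
          · exact Or.inl ⟨hp.1, hp.2.1, hp.2.2, h⟩
          · exact Or.inr (not_le.1 h)
      _ ≤ _ := (Finset.card_union_le _ _).trans (by rw [Finset.card_range])
  have h3 : ((((range (x + 1)).filter Nat.Prime).filter (fun p => p ≡ d [MOD M] ∧ rkJ M p = j)).card : ℝ) ≤
      ((((range (x + 1)).filter Nat.Prime).filter (fun p => p ≡ d [MOD M] ∧ rkJ M p = j ∧ p₀ ≤ p)).card : ℝ) + p₀ := by
    exact_mod_cast h2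
  linarith

/-- PIECE [JB-M5] (about 200 lines; adapt `Lib_MP_f1937f_tb/Rank.lean` and `SumLower.lean`). PROOF. Among the first `N` primes of the class of `d`, at least `N / 2 ^ (j + 1) - 1` have a rank of 2-adic valuation `j`; for `p ≡ d`, `rkJ M p` is the
valuation of the rank of `p` in this class. With `pi_ap` the sum is at least `x ^ (-1/4 - ε) / 4 * (c x / (2 ^ (j+1) log x) - 1 - p₀)`, for large `x` at least
`x ^ (3/4 - 2 ε) + C' √x log x` (`ε ≤ 1 / 8`, so `3/4 - ε > 1/2`). -/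
theorem rank_J (M : ℕ) (hM : 0 < M) (d : ℕ) (hd : d.Coprime M) (ε : ℝ) (hε : 0 < ε) (hε' : ε ≤ 1 / 8) (C' : ℝ) (j p₀ : ℕ) :
    ∃ x₀ : ℕ, ∀ x : ℕ, x₀ ≤ x → (x : ℝ) ^ (3 / 4 - 2 * ε) + C' * √(x : ℝ) * Real.log x ≤
      ∑ p ∈ ((range (x + 1)).filter Nat.Prime).filter (fun p => p ≡ d [MOD M] ∧ rkJ M p = j ∧ p₀ ≤ p),
        (p : ℝ) ^ (-(1 / 4) - ε) / 4 := by
  classical
  have hinf : (setOf (PJ M d)).Infinite := by
    haveI : NeZero M := ⟨hM.ne'⟩
    exact Nat.infinite_setOf_prime_and_modEq hM.ne' hd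
  obtain ⟨c, x₁, hc, hx₁, hpi⟩ := pi_ap M hM d hd
  obtain ⟨D, hD⟩ : ∃ D : ℝ, D = 2 ^ (j + 1) := ⟨_, rfl⟩
  have hD0 : 0 < D := by rw [hD]; positivity
  have e1 : ∀ᶠ x : ℝ in Filter.atTop, 16 * D / c * Real.log x ≤ x ^ ε := by
    filter_upwards [(isLittleO_log_rpow_atTop hε).def (c := 1 / (16 * D / c)) (by positivity),
      Filter.eventually_ge_atTop 1] with x h1 h2
    rw [Real.norm_eq_abs, Real.norm_eq_abs, abs_of_nonneg (Real.log_nonneg h2),
      abs_of_nonneg (Real.rpow_nonneg (by linarith) _)] at h1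
    rw [one_div, inv_mul_eq_div, le_div_iff₀ (by positivity)] at h1
    linarith
  have e2 : ∀ᶠ x : ℝ in Filter.atTop, (2 * D * (p₀ + 1) / c) * Real.log x ≤ x := by
    filter_upwards [Real.isLittleO_log_id_atTop.def (c := 1 / (2 * D * (p₀ + 1) / c)) (by positivity),
      Filter.eventually_ge_atTop 1] with x h1 h2
    simp only [id] at h1
    rw [Real.norm_eq_abs, Real.norm_eq_abs, abs_of_nonneg (Real.log_nonneg h2),
      abs_of_nonneg (by linarith : (0 : ℝ) ≤ x)] at h1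
    rw [one_div, inv_mul_eq_div, le_div_iff₀ (by positivity)] at h1
    linarith
  have e3 : ∀ᶠ x : ℝ in Filter.atTop, (16 * D * (|C'| + 1) / c) * Real.log x ≤ x ^ (1 / 16 : ℝ) := by
    filter_upwards [(isLittleO_log_rpow_atTop (by norm_num : (0 : ℝ) < 1 / 16)).def
      (c := 1 / (16 * D * (|C'| + 1) / c)) (by positivity), Filter.eventually_ge_atTop 1] with x h1 h2
    rw [Real.norm_eq_abs, Real.norm_eq_abs, abs_of_nonneg (Real.log_nonneg h2),
      abs_of_nonneg (Real.rpow_nonneg (by linarith) _)] at h1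
    rw [one_div (16 * D * (|C'| + 1) / c), inv_mul_eq_div, le_div_iff₀ (by positivity)] at h1
    linarith
  have e3' : ∀ᶠ x : ℝ in Filter.atTop, Real.log x ≤ x ^ (1 / 16 : ℝ) := by
    filter_upwards [(isLittleO_log_rpow_atTop (by norm_num : (0 : ℝ) < 1 / 16)).def
      (c := 1) (by positivity), Filter.eventually_ge_atTop 1] with x h1 h2
    rw [Real.norm_eq_abs, Real.norm_eq_abs, abs_of_nonneg (Real.log_nonneg h2),
      abs_of_nonneg (Real.rpow_nonneg (by linarith) _)] at h1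
    linarith
  have e4 : ∀ᶠ x : ℝ in Filter.atTop, 1 ≤ Real.log x :=
    Real.tendsto_log_atTop.eventually_ge_atTop 1
  obtain ⟨x₀, hx₀⟩ := Filter.eventually_atTop.1
    (tendsto_natCast_atTop_atTop.eventually (e1.and (e2.and (e3.and (e3'.and (e4.and
      (Filter.eventually_ge_atTop (100 : ℝ))))))))
  refine ⟨max x₀ x₁, fun x hx => ?_⟩
  obtain ⟨h1, h2, h3, h3', h4, h5⟩ := hx₀ x (le_trans (le_max_left _ _) hx)
  have hN := hpi x (le_trans (le_max_right _ _) hx)
  have hx0 : (0 : ℝ) < x := by linarith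
  have hx1 : (1 : ℝ) ≤ x := by linarith
  have hl0 : (0 : ℝ) < Real.log x := by linarith
  obtain ⟨S, hS⟩ : ∃ S : Finset ℕ, S = ((range (x + 1)).filter Nat.Prime).filter
    (fun p => p ≡ d [MOD M] ∧ rkJ M p = j ∧ p₀ ≤ p) := ⟨_, rfl⟩
  -- each term
  have t1 : ∀ p ∈ S, (x : ℝ) ^ (-(1 / 4) - ε) / 4 ≤ (p : ℝ) ^ (-(1 / 4) - ε) / 4 := by
    intro p hp
    rw [hS, Finset.mem_filter, Finset.mem_filter, Finset.mem_range] at hp
    have hp0 : (0 : ℝ) < p := by exact_mod_cast hp.1.2.pos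
    have hpx : (p : ℝ) ≤ x := by exact_mod_cast (by omega : p ≤ x)
    have := Real.rpow_le_rpow_of_nonpos hp0 hpx (by linarith : -(1 / 4) - ε ≤ 0)
    linarith
  have t2 := Finset.card_nsmul_le_sum _ _ _ t1
  rw [nsmul_eq_mul] at t2
  -- number of terms
  have hc3 : c * x / (2 * D * Real.log x) ≤ (S.card : ℝ) := by
    have h0 := rankJ_card_ge M d j p₀ x hinf
    rw [← hS, ← hD] at h0
    refine le_trans ?_ h0
    have h6 : c * x / Real.log x / D ≤
        ((((range (x + 1)).filter Nat.Prime).filter (fun p => p ≡ d [MOD M])).card : ℝ) / D :=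
      div_le_div_of_nonneg_right hN hD0.le
    have h7 : (p₀ : ℝ) + 1 ≤ c * x / (2 * D * Real.log x) := by
      rw [le_div_iff₀ (by positivity)]
      have h8 : c * (2 * D * (p₀ + 1) / c * Real.log x) ≤ c * x := mul_le_mul_of_nonneg_left h2 hc.le
      have h9 : c * (2 * D * (p₀ + 1) / c * Real.log x) = ((p₀ : ℝ) + 1) * (2 * D * Real.log x) := by
        field_simp
      linarith
    have h8 : c * x / Real.log x / D = 2 * (c * x / (2 * D * Real.log x)) := by
      field_simp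
    linarith
  -- main term
  have h6 : (0 : ℝ) ≤ (x : ℝ) ^ (-(1 / 4) - ε) / 4 := by positivity
  have hmain : c * x / (2 * D * Real.log x) * ((x : ℝ) ^ (-(1 / 4) - ε) / 4) ≤
      (S.card : ℝ) * ((x : ℝ) ^ (-(1 / 4) - ε) / 4) := mul_le_mul_of_nonneg_right hc3 h6
  have h8 : c * x / (2 * D * Real.log x) * ((x : ℝ) ^ (-(1 / 4) - ε) / 4) =
      2 * (c * (x : ℝ) ^ (3 / 4 - ε) / (16 * D * Real.log x)) := by
    have h9 : (x : ℝ) ^ (3 / 4 - ε) = x * (x : ℝ) ^ (-(1 / 4) - ε) := by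
      nth_rewrite 2 [← Real.rpow_one (x : ℝ)]
      rw [← Real.rpow_add hx0]
      congr 1
      ring
    rw [h9]
    field_simp
    norm_num
  have hA : (x : ℝ) ^ (3 / 4 - 2 * ε) ≤ c * (x : ℝ) ^ (3 / 4 - ε) / (16 * D * Real.log x) := by
    have h9 : (x : ℝ) ^ (3 / 4 - ε) = (x : ℝ) ^ (3 / 4 - 2 * ε) * x ^ ε := by
      rw [← Real.rpow_add hx0]
      congr 1
      ring
    rw [le_div_iff₀ (by positivity), h9]
    have h10 : c * (16 * D / c * Real.log x) ≤ c * x ^ ε := mul_le_mul_of_nonneg_left h1 hc.le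
    have h11 : c * (16 * D / c * Real.log x) = 16 * D * Real.log x := by
      field_simp
    rw [h11] at h10
    calc (x : ℝ) ^ (3 / 4 - 2 * ε) * (16 * D * Real.log x)
        ≤ (x : ℝ) ^ (3 / 4 - 2 * ε) * (c * x ^ ε) := mul_le_mul_of_nonneg_left h10 (by positivity)
      _ = _ := by ring
  have hB : C' * √(x : ℝ) * Real.log x ≤ c * (x : ℝ) ^ (3 / 4 - ε) / (16 * D * Real.log x) := by
    have h9 : (x : ℝ) ^ (1 / 2 : ℝ) * ((x : ℝ) ^ (1 / 16 : ℝ) * (x : ℝ) ^ (1 / 16 : ℝ)) ≤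
        (x : ℝ) ^ (3 / 4 - ε) := by
      rw [← Real.rpow_add hx0, ← Real.rpow_add hx0]
      exact Real.rpow_le_rpow_of_exponent_le hx1 (by linarith)
    rw [Real.sqrt_eq_rpow, le_div_iff₀ (by positivity)]
    have h10 : c * (16 * D * (|C'| + 1) / c * Real.log x) ≤ c * (x : ℝ) ^ (1 / 16 : ℝ) :=
      mul_le_mul_of_nonneg_left h3 hc.le
    have h11 : c * (16 * D * (|C'| + 1) / c * Real.log x) = 16 * D * (|C'| + 1) * Real.log x := by
      field_simp
    rw [h11] at h10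
    have h12 : C' ≤ |C'| + 1 := by linarith [le_abs_self C']
    have hs : 0 ≤ (x : ℝ) ^ (1 / 2 : ℝ) := by positivity
    calc C' * (x : ℝ) ^ (1 / 2 : ℝ) * Real.log x * (16 * D * Real.log x)
        ≤ (|C'| + 1) * (x : ℝ) ^ (1 / 2 : ℝ) * Real.log x * (16 * D * Real.log x) := by
          gcongr
      _ = (x : ℝ) ^ (1 / 2 : ℝ) * ((16 * D * (|C'| + 1) * Real.log x) * Real.log x) := by ring
      _ ≤ (x : ℝ) ^ (1 / 2 : ℝ) * ((c * (x : ℝ) ^ (1 / 16 : ℝ)) * (x : ℝ) ^ (1 / 16 : ℝ)) := by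
          refine mul_le_mul_of_nonneg_left ?_ hs
          exact mul_le_mul h10 h3' hl0.le (by positivity)
      _ = c * ((x : ℝ) ^ (1 / 2 : ℝ) * ((x : ℝ) ^ (1 / 16 : ℝ) * (x : ℝ) ^ (1 / 16 : ℝ))) := by ring
      _ ≤ c * (x : ℝ) ^ (3 / 4 - ε) := mul_le_mul_of_nonneg_left h9 hc.le
  rw [← hS]
  linarith


end Pool.Agent.JB
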