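import Pool.Agent.Lib_MP_f1937f_jb.RealJ

/-!
# Realisation of good laws
-/

set_option autoImplicit false

namespace Pool.Agent.JB

open Finset Pool.Agent.TB

private theorem rj_V_le {p x : ℕ} (hpx : p ≤ x) {a : ℤ} (ha : a ∈ V p) : |a| ≤ 2 * x := by
  unfold V at ha
  rw [Finset.mem_Icc] at ha
  have h1 : Nat.sqrt (4 * p) ≤ 2 * x := by
    have h2 : Nat.sqrt (4 * p) ≤ Nat.sqrt ((2 * x) * (2 * x)) := by
      refine Nat.sqrt_le_sqrt ?_
      rcases Nat.eq_zero_or_pos x with h0 | h0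
      · subst h0
        have : p = 0 := by omega
        subst this
        simp
      · nlinarith
    rwa [Nat.sqrt_eq] at h2
  have h3 : ((Nat.sqrt (4 * p) : ℕ) : ℤ) ≤ 2 * x := by exact_mod_cast h1
  exact abs_le.2 ⟨by linarith, by linarith⟩

private theorem rj_xx {p : ℕ} (hp : p.Prime) {a : ℤ} (ha : a ∈ V p) : |xx p a| ≤ 1 := by
  unfold V at ha
  rw [Finset.mem_Icc] at ha
  have hp0 : (0 : ℝ) < p := by exact_mod_cast hp.pos
  have h1 : |a| ≤ (Nat.sqrt (4 * p) : ℤ) := abs_le.2 ha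
  have h2 : |(a : ℝ)| ≤ ((Nat.sqrt (4 * p) : ℕ) : ℝ) := by
    rw [← Int.cast_abs]
    exact_mod_cast h1
  have h3 : ((Nat.sqrt (4 * p) : ℕ) : ℝ) ≤ 2 * √(p : ℝ) := by
    have h4 : ((Nat.sqrt (4 * p) : ℕ) : ℝ) ^ 2 ≤ 4 * p := by
      exact_mod_cast Nat.sqrt_le' (4 * p)
    have h5 : (2 * √(p : ℝ)) ^ 2 = 4 * p := by
      rw [mul_pow, Real.sq_sqrt hp0.le]; norm_num
    have h6 : 0 ≤ 2 * √(p : ℝ) := by positivity
    exact le_of_sq_le_sq (by rw [h5]; exact h4) h6
  have h7 : 0 < 2 * √(p : ℝ) := by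
    have := Real.sqrt_pos.2 hp0
    positivity
  unfold xx
  rw [abs_div, abs_of_pos h7, div_le_one h7]
  linarith

/-- PIECE [JB-F5b] (about 180 lines). PROOF. `a` from `real_rand`. Main statement: `real_rand` with `q = M n`, `Q = m₁ n`; it remains to bound
`∑ p ≤ x, p ≡ d [MOD M n], |∑ b, ρ p b U - T|`, where `T` is the target, the same for all these `p` (`DD_congr`; `hper`; all these `p` are coprime to `M n` as `d` is). For
`p ≥ n` (so `p > n`, `p ∤ n`): at most `C (m₁ √m₁) n ^ 2 (k + 1) log x / √p`; sum over `p ≡ d mod n` by `sum_prog`: `2 C (m₁ √m₁) n (k + 1) √x log x`. At most one `p < n`: trivial bound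
`(k + 1) + 1` (`|T| ≤ 1` by `DD_le`, `u ≤ M ≤ m₁`). The final bound has `log (m₁ n (k + 2) x) ≥ log x ≥ 1 / 2`. Counting: `real_rand` with `q = 1`, `k = 0`, `t = b`,
`Q = 4 x + 5` (all `a p`, `p ≤ x`, and `b`, if it occurs at all, have absolute value at most `2 √x ≤ 2 x`; if `|b| > 2 x` everything is `0`). -/
theorem realize_J (M : ℕ) (hM : 0 < M) (c : ℝ) (u : ℕ → ℤ → ℝ) (hu : ∀ d : ℕ, d.Coprime M → UV M c (u d))
    (hper : ∀ (d d' : ℕ) (t : ℤ), d ≡ d' [MOD M] → u d t = u d' t) (C : ℝ) (hC : 0 ≤ C) (ρ : ℕ → ℤ → ℝ)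
    (h0 : ∀ p : ℕ, p.Prime → ∀ a, 0 ≤ ρ p a) (hs : ∀ p : ℕ, p.Prime → ∀ a, ρ p a ≠ 0 → a ∈ V p)
    (h1 : ∀ p : ℕ, p.Prime → ∑ a ∈ V p, ρ p a = 1)
    (hg : ∀ p : ℕ, p.Prime → p.Coprime M → GoodLawJ M (u p) C p (ρ p)) :
    ∃ (a : ℕ → ℤ) (C' : ℝ), (∀ p : ℕ, p.Prime → a p ∈ V p ∧ 0 < ρ p (a p)) ∧ InfoJ M u a 1 ∧
      ∀ (b : ℤ) (x : ℕ), 2 ≤ x → |((((range (x + 1)).filter Nat.Prime).filter (fun p => a p = b)).card : ℝ) -
        ∑ p ∈ (range (x + 1)).filter Nat.Prime, ρ p b| ≤ C' * √(x : ℝ) * Real.log x := by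
  classical
  obtain ⟨a, C1, hC1, ha, hR⟩ := real_rand ρ h0 h1
  refine ⟨a, C1, ha, ⟨C1 + 2 * C + 4, ?_⟩, ?_⟩
  · intro m₁ n hL t d hd k x hx
    rw [Real.rpow_one]
    have hQ : 0 < m₁ * n := Nat.mul_pos hL.pos₁ hL.pos
    have hN : 0 < M * n := Nat.mul_pos hM hL.pos
    have hdM : d.Coprime M := Nat.Coprime.coprime_mul_right_right hd
    have hdn : d.Coprime n := Nat.Coprime.coprime_mul_left_right hd
    have hdn' : IsCoprime (d : ℤ) (n : ℤ) := Nat.isCoprime_iff_coprime.2 hdn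
    have hMm : M ≤ m₁ := Nat.le_of_dvd hL.pos₁ hL.dvd
    have hn0 : (0 : ℝ) < n := by exact_mod_cast hL.pos
    have hn1 : (1 : ℝ) ≤ n := by exact_mod_cast hL.pos
    have hm1 : (1 : ℝ) ≤ m₁ := by exact_mod_cast hL.pos₁
    have hx2 : (2 : ℝ) ≤ x := by exact_mod_cast hx
    have hk0 : (0 : ℝ) ≤ k := Nat.cast_nonneg k
    have hlx : 1 / 2 ≤ Real.log x := by
      have h2 : Real.log 2 ≤ Real.log x := Real.log_le_log two_pos hx2
      have h3 := Real.log_two_gt_d9
      linarith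
    obtain ⟨S, hS⟩ : ∃ S : Finset ℕ, S = ((range (x + 1)).filter Nat.Prime).filter
      (fun p => p ≡ d [MOD M * n]) := ⟨_, rfl⟩
    obtain ⟨f, hf⟩ : ∃ f : ℕ → ℝ, f = fun p =>
      if ((m₁ * n : ℕ) : ℤ) ∣ a p - t then Uk k (xx p (a p)) else 0 := ⟨_, rfl⟩
    obtain ⟨g, hgdef⟩ : ∃ g : ℕ → ℝ, g = fun p =>
      ∑ b ∈ (V p).filter (fun b => ((m₁ * n : ℕ) : ℤ) ∣ b - t), ρ p b * Uk k (xx p b) := ⟨_, rfl⟩
    obtain ⟨T, hT⟩ : ∃ T : ℝ, T = if k = 0 then u d t / ((m₁ * n : ℕ) : ℝ) * DD d t n else 0 := ⟨_, rfl⟩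
    have e1 : ∑ p ∈ ((range (x + 1)).filter Nat.Prime).filter
        (fun p => p ≡ d [MOD M * n] ∧ ((m₁ * n : ℕ) : ℤ) ∣ a p - t), Uk k (xx p (a p)) -
        T * (S.card : ℝ) = ∑ p ∈ S, (f p - g p) + ∑ p ∈ S, (g p - T) := by
      rw [← Finset.filter_filter, ← hS, Finset.sum_filter, Finset.sum_sub_distrib,
        Finset.sum_sub_distrib, Finset.sum_const, nsmul_eq_mul, hf]
      ring
    rw [← hT, ← hS, e1]
    have hT0 : 0 ≤ T := by
      rw [hT]
      split_ifs
      · exact mul_nonneg (div_nonneg ((hu d hdM).nonneg t) (Nat.cast_nonneg _)) (DD_nonneg _ _ _)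
      · exact le_rfl
    have hT1 : T ≤ 1 := by
      rw [hT]
      split_ifs
      · have k1 : u d t ≤ m₁ := ((hu d hdM).le t).trans (by exact_mod_cast hMm)
        have k2 := DD_le (d : ℤ) t n hL.pos hdn'
        have k3 := DD_nonneg (d : ℤ) t n
        have k4 := (hu d hdM).nonneg t
        rw [div_mul_eq_mul_div, div_le_one (by exact_mod_cast hQ)]
        push_cast
        exact mul_le_mul k1 k2 k3 (by positivity)
      · norm_num
    have hfirst : |∑ p ∈ S, (f p - g p)| ≤ C1 * (k + 1) * √(x : ℝ) * Real.log x := by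
      have h2 := hR (M * n) d (m₁ * n) hN hQ t k x hx
      rw [hS, hf, hgdef]
      exact h2
    have hsmall : ∀ p ∈ S, |g p - T| ≤ 2 * (k + 1) := by
      intro p hp
      rw [hS] at hp
      have hpp : p.Prime := (mem_filter.1 (mem_filter.1 hp).1).2
      have h2 : |g p| ≤ k + 1 := by
        rw [hgdef]
        calc |∑ b ∈ (V p).filter (fun b => ((m₁ * n : ℕ) : ℤ) ∣ b - t), ρ p b * Uk k (xx p b)|
            ≤ ∑ b ∈ (V p).filter (fun b => ((m₁ * n : ℕ) : ℤ) ∣ b - t), |ρ p b * Uk k (xx p b)| :=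
              Finset.abs_sum_le_sum_abs _ _
          _ ≤ ∑ b ∈ (V p).filter (fun b => ((m₁ * n : ℕ) : ℤ) ∣ b - t), ρ p b * (k + 1) := by
              refine Finset.sum_le_sum fun b hb => ?_
              rw [abs_mul, abs_of_nonneg (h0 p hpp b)]
              exact mul_le_mul_of_nonneg_left (Uk_le k (rj_xx hpp (mem_filter.1 hb).1)) (h0 p hpp b)
          _ ≤ ∑ b ∈ V p, ρ p b * (k + 1) := by
              refine Finset.sum_le_sum_of_subset_of_nonneg (Finset.filter_subset _ _) fun b _ _ => ?_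
              exact mul_nonneg (h0 p hpp b) (by positivity)
          _ = k + 1 := by rw [← Finset.sum_mul, h1 p hpp, one_mul]
      have h3 : |T| ≤ 1 := by rw [abs_of_nonneg hT0]; exact hT1
      calc |g p - T| ≤ |g p| + |T| := abs_sub _ _
        _ ≤ 2 * (k + 1) := by linarith
    have hbig : ∀ p ∈ S, n ≤ p → |g p - T| ≤
        C * (m₁ * √(m₁ : ℝ)) * (n : ℝ) ^ 2 * (k + 1) * Real.log x * (1 / √(p : ℝ)) := by
      intro p hp hnp
      rw [hS] at hp
      have hpp : p.Prime := (mem_filter.1 (mem_filter.1 hp).1).2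
      have hpx : p ≤ x := by
        have := mem_range.1 (mem_filter.1 (mem_filter.1 hp).1).1
        omega
      have hpd : p ≡ d [MOD M * n] := (mem_filter.1 hp).2
      have hpc : p.Coprime (M * n) := by
        rw [Nat.Coprime, hpd.gcd_eq]
        exact hd
      have hpM : p.Coprime M := Nat.Coprime.coprime_mul_right_right hpc
      have hpn : p.Coprime n := Nat.Coprime.coprime_mul_left_right hpc
      have hpdn : ¬ p ∣ n := by
        intro h
        have := Nat.Coprime.eq_one_of_dvd hpn h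
        exact hpp.one_lt.ne' this
      have h2 := (hg p hpp hpM).equi m₁ n hL hnp hpdn t k
      have h3 : u p t = u d t := hper p d t (hpd.of_mul_right n)
      have h4 : DD p t n = DD d t n := by
        refine DD_congr ?_ (by simp)
        exact (Nat.modEq_iff_dvd.1 (hpd.of_mul_left M).symm)
      rw [h3, h4, ← hT] at h2
      rw [hgdef]
      refine h2.trans ?_
      have hp0 : (0 : ℝ) < p := by exact_mod_cast hpp.pos
      have h5 : Real.log p ≤ Real.log x := Real.log_le_log hp0 (by exact_mod_cast hpx)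
      have h6 : Real.log p / √(p : ℝ) ≤ Real.log x * (1 / √(p : ℝ)) := by
        rw [mul_one_div]
        exact div_le_div_of_nonneg_right h5 (Real.sqrt_nonneg _)
      calc C * (m₁ * √(m₁ : ℝ)) * (n : ℝ) ^ 2 * (k + 1) * (Real.log p / √(p : ℝ))
          ≤ C * (m₁ * √(m₁ : ℝ)) * (n : ℝ) ^ 2 * (k + 1) * (Real.log x * (1 / √(p : ℝ))) :=
            mul_le_mul_of_nonneg_left h6 (by positivity)
        _ = _ := by ring
    have hsecond : |∑ p ∈ S, (g p - T)| ≤
        2 * C * (m₁ * √(m₁ : ℝ)) * n * (k + 1) * √(x : ℝ) * Real.log x + 2 * (k + 1) := by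
      refine (Finset.abs_sum_le_sum_abs _ _).trans ?_
      rw [← Finset.sum_filter_add_sum_filter_not S (fun p => n ≤ p)]
      refine add_le_add ?_ ?_
      · calc ∑ p ∈ S.filter (fun p => n ≤ p), |g p - T|
            ≤ ∑ p ∈ S.filter (fun p => n ≤ p),
              C * (m₁ * √(m₁ : ℝ)) * (n : ℝ) ^ 2 * (k + 1) * Real.log x * (1 / √(p : ℝ)) :=
              Finset.sum_le_sum fun p hp => hbig p (mem_filter.1 hp).1 (mem_filter.1 hp).2
          _ ≤ ∑ p ∈ (Icc n x).filter (fun p => p ≡ d [MOD n]),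
              C * (m₁ * √(m₁ : ℝ)) * (n : ℝ) ^ 2 * (k + 1) * Real.log x * (1 / √(p : ℝ)) := by
              refine Finset.sum_le_sum_of_subset_of_nonneg ?_ (fun p _ _ => by positivity)
              intro p hp
              rw [hS] at hp
              have h2 := mem_range.1 (mem_filter.1 (mem_filter.1 (mem_filter.1 hp).1).1).1
              exact mem_filter.2 ⟨mem_Icc.2 ⟨(mem_filter.1 hp).2, by omega⟩,
                ((mem_filter.1 (mem_filter.1 hp).1).2).of_mul_left M⟩
          _ = C * (m₁ * √(m₁ : ℝ)) * (n : ℝ) ^ 2 * (k + 1) * Real.log x *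
              ∑ p ∈ (Icc n x).filter (fun p => p ≡ d [MOD n]), (1 / √(p : ℝ)) := by
              rw [Finset.mul_sum]
          _ ≤ C * (m₁ * √(m₁ : ℝ)) * (n : ℝ) ^ 2 * (k + 1) * Real.log x * (2 * √(x : ℝ) / n) :=
              mul_le_mul_of_nonneg_left (sum_prog n d x hL.pos) (by positivity)
          _ = _ := by field_simp
      · calc ∑ p ∈ S.filter (fun p => ¬ n ≤ p), |g p - T|
            ≤ ∑ p ∈ S.filter (fun p => ¬ n ≤ p), (2 * ((k : ℝ) + 1)) :=
              Finset.sum_le_sum fun p hp => hsmall p (mem_filter.1 hp).1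
          _ ≤ ∑ p ∈ ({d % n} : Finset ℕ), (2 * ((k : ℝ) + 1)) := by
              refine Finset.sum_le_sum_of_subset_of_nonneg ?_ (fun p _ _ => by positivity)
              intro p hp
              rw [hS] at hp
              have h2 : p < n := not_le.1 (mem_filter.1 hp).2
              have h3 : p ≡ d [MOD n] := ((mem_filter.1 (mem_filter.1 hp).1).2).of_mul_left M
              rw [Finset.mem_singleton, ← h3, Nat.mod_eq_of_lt h2]
          _ = 2 * (k + 1) := by rw [Finset.sum_singleton]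
    refine (abs_add_le _ _).trans ((add_le_add hfirst hsecond).trans ?_)
    have hsx : 1 ≤ √(x : ℝ) := Real.one_le_sqrt.2 (by linarith)
    have hsm : 1 ≤ √(m₁ : ℝ) := Real.one_le_sqrt.2 hm1
    have hW : 1 ≤ (m₁ * √(m₁ : ℝ)) * n := by
      have h2 : 1 ≤ m₁ * √(m₁ : ℝ) := one_le_mul_of_one_le_of_one_le hm1 hsm
      exact one_le_mul_of_one_le_of_one_le h2 hn1
    have hlog : Real.log x ≤ Real.log (((m₁ * n : ℕ) : ℝ) * (k + 2) * x) := by
      refine Real.log_le_log (by linarith) ?_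
      have h2 : (1 : ℝ) ≤ ((m₁ * n : ℕ) : ℝ) := by exact_mod_cast hQ
      have h3 : (1 : ℝ) ≤ ((m₁ * n : ℕ) : ℝ) * (k + 2) :=
        one_le_mul_of_one_le_of_one_le h2 (by linarith)
      nlinarith
    obtain ⟨W, hWdef⟩ : ∃ W : ℝ, W = (m₁ * √(m₁ : ℝ)) * n := ⟨_, rfl⟩
    obtain ⟨L, hLdef⟩ : ∃ L : ℝ, L = Real.log (((m₁ * n : ℕ) : ℝ) * (k + 2) * x) := ⟨_, rfl⟩
    rw [← hWdef] at hW
    rw [← hLdef] at hlog ⊢
    have hL2 : 1 / 2 ≤ L := hlx.trans hlog
    have a1 : C1 * (k + 1) * √(x : ℝ) * Real.log x ≤ C1 * W * (k + 1) * √(x : ℝ) * L := by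
      have h2 : C1 * (k + 1) * √(x : ℝ) * Real.log x ≤ C1 * (k + 1) * √(x : ℝ) * L :=
        mul_le_mul_of_nonneg_left hlog (by positivity)
      have h3 : C1 * (k + 1) * √(x : ℝ) * L ≤ W * (C1 * (k + 1) * √(x : ℝ) * L) :=
        le_mul_of_one_le_left (by positivity) hW
      calc _ ≤ _ := h2.trans h3
        _ = _ := by ring
    have a2 : 2 * C * (m₁ * √(m₁ : ℝ)) * n * (k + 1) * √(x : ℝ) * Real.log x ≤
        2 * C * W * (k + 1) * √(x : ℝ) * L := by
      have h2 : 2 * C * (m₁ * √(m₁ : ℝ)) * n * (k + 1) * √(x : ℝ) * Real.log x =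
          2 * C * W * (k + 1) * √(x : ℝ) * Real.log x := by rw [hWdef]; ring
      rw [h2]
      exact mul_le_mul_of_nonneg_left hlog (by positivity)
    have a3 : 2 * ((k : ℝ) + 1) ≤ 4 * W * (k + 1) * √(x : ℝ) * L := by
      have h2 : 1 ≤ W * √(x : ℝ) := one_le_mul_of_one_le_of_one_le hW hsx
      have h3 : 1 ≤ W * √(x : ℝ) * (2 * L) := one_le_mul_of_one_le_of_one_le h2 (by linarith)
      have h4 : 2 * ((k : ℝ) + 1) ≤ (W * √(x : ℝ) * (2 * L)) * (2 * ((k : ℝ) + 1)) :=
        le_mul_of_one_le_left (by positivity) h3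
      calc _ ≤ _ := h4
        _ = _ := by ring
    calc C1 * (k + 1) * √(x : ℝ) * Real.log x +
          (2 * C * (m₁ * √(m₁ : ℝ)) * n * (k + 1) * √(x : ℝ) * Real.log x + 2 * (k + 1))
        ≤ C1 * W * (k + 1) * √(x : ℝ) * L + (2 * C * W * (k + 1) * √(x : ℝ) * L +
          4 * W * (k + 1) * √(x : ℝ) * L) := add_le_add a1 (add_le_add a2 a3)
      _ = (C1 + 2 * C + 4) * (m₁ * √(m₁ : ℝ)) * n * (k + 1) * √(x : ℝ) * L := by
          rw [hWdef]; ring
  · intro b x hx
    have hx2 : (2 : ℝ) ≤ x := by exact_mod_cast hx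
    have hlx : 0 ≤ Real.log x := Real.log_nonneg (by linarith)
    have e1 : ((((range (x + 1)).filter Nat.Prime).filter (fun p => a p = b)).card : ℝ) -
        ∑ p ∈ (range (x + 1)).filter Nat.Prime, ρ p b =
        ∑ p ∈ (range (x + 1)).filter Nat.Prime, ((if a p = b then (1 : ℝ) else 0) - ρ p b) := by
      rw [Finset.sum_sub_distrib, Finset.sum_boole]
    rw [e1]
    have hpx : ∀ p ∈ (range (x + 1)).filter Nat.Prime, p.Prime ∧ p ≤ x := by
      intro p hp
      have := mem_range.1 (mem_filter.1 hp).1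
      exact ⟨(mem_filter.1 hp).2, by omega⟩
    by_cases hb : |b| ≤ 2 * x
    · have h2 := hR 1 0 (4 * x + 5) one_pos (by omega) b 0 x hx
      have e2 : ∑ p ∈ ((range (x + 1)).filter Nat.Prime).filter (fun p => p ≡ 0 [MOD 1]),
          ((if ((4 * x + 5 : ℕ) : ℤ) ∣ a p - b then Uk 0 (xx p (a p)) else 0) -
            ∑ b' ∈ (V p).filter (fun b' => ((4 * x + 5 : ℕ) : ℤ) ∣ b' - b), ρ p b' * Uk 0 (xx p b')) =
          ∑ p ∈ (range (x + 1)).filter Nat.Prime, ((if a p = b then (1 : ℝ) else 0) - ρ p b) := by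
        rw [Finset.filter_true_of_mem (fun p _ => Nat.modEq_one)]
        refine Finset.sum_congr rfl fun p hp => ?_
        obtain ⟨hpp, hple⟩ := hpx p hp
        have key : ∀ y ∈ V p, (((4 * x + 5 : ℕ) : ℤ) ∣ y - b ↔ y = b) := by
          intro y hy
          constructor
          · intro h
            have h3 := abs_le.1 (rj_V_le hple hy)
            have h4 := abs_le.1 hb
            have h5 : y - b = 0 := by
              refine Int.eq_zero_of_abs_lt_dvd h ?_
              rw [abs_lt]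
              push_cast
              constructor <;> linarith
            linarith
          · rintro rfl
            simp
        have e3 : (if ((4 * x + 5 : ℕ) : ℤ) ∣ a p - b then Uk 0 (xx p (a p)) else 0) =
            (if a p = b then (1 : ℝ) else 0) := by
          rw [Uk_zero]
          simp only [key (a p) (ha p hpp).1]
        have e4 : ∑ b' ∈ (V p).filter (fun b' => ((4 * x + 5 : ℕ) : ℤ) ∣ b' - b), ρ p b' * Uk 0 (xx p b') =
            ρ p b := by
          have e5 : (V p).filter (fun b' => ((4 * x + 5 : ℕ) : ℤ) ∣ b' - b) =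
              (V p).filter (fun b' => b' = b) := Finset.filter_congr fun y hy => key y hy
          rw [e5, Finset.filter_eq']
          split_ifs with h6
          · rw [Finset.sum_singleton, Uk_zero, mul_one]
          · rw [Finset.sum_empty]
            by_contra h7
            exact h6 (hs p hpp b (Ne.symm h7))
        rw [e3, e4]
      rw [e2] at h2
      refine h2.trans (le_of_eq ?_)
      push_cast
      ring
    · rw [Finset.sum_eq_zero]
      · rw [abs_zero]
        positivity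
      · intro p hp
        obtain ⟨hpp, hple⟩ := hpx p hp
        have h3 : a p ≠ b := by
          rintro rfl
          exact hb (rj_V_le hple (ha p hpp).1)
        have h4 : ρ p b = 0 := by
          by_contra h7
          exact hb (rj_V_le hple (hs p hpp b h7))
        rw [if_neg h3, h4, sub_zero]

end Pool.Agent.JB
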