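import Pool.Agent.Lib_MP_f1937f_tb.ChebFejer
import Pool.Agent.Lib_MP_f1937f_tb.PiLe
import Pool.Agent.Lib_MP_f1937f_tb.Upper

/-!
# The upper bound
-/

set_option autoImplicit false

namespace Pool.Agent.JB

open Finset Pool.Agent.TB

private theorem xx_le_one {p : ℕ} (hp : p.Prime) {a : ℤ} (ha : a ∈ V p) : |xx p a| ≤ 1 := by
  have hp0 : (0 : ℝ) < p := by exact_mod_cast hp.pos
  have h1 : |a| ≤ (Nat.sqrt (4 * p) : ℤ) := by
    unfold V at ha
    rw [Finset.mem_Icc] at ha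
    exact abs_le.2 ha
  have h2 : ((Nat.sqrt (4 * p) : ℕ) : ℝ) ^ 2 ≤ 4 * p := by
    have := Nat.sqrt_le' (4 * p)
    exact_mod_cast this
  have h3 : |(a : ℝ)| ≤ (Nat.sqrt (4 * p) : ℕ) := by exact_mod_cast h1
  have h4 : |(a : ℝ)| ≤ 2 * √(p : ℝ) := by
    have h5 : |(a : ℝ)| ^ 2 ≤ (2 * √(p : ℝ)) ^ 2 := by
      rw [mul_pow, Real.sq_sqrt hp0.le]
      have : |(a : ℝ)| ^ 2 ≤ ((Nat.sqrt (4 * p) : ℕ) : ℝ) ^ 2 := by gcongr
      linarith
    exact abs_le_of_sq_le_sq' h5 (by positivity) |>.2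
  unfold xx
  rw [abs_div, abs_of_pos (show (0 : ℝ) < 2 * √(p : ℝ) by positivity)]
  exact (div_le_one (by positivity)).2 h4

private theorem xx_le_small {p L : ℕ} (hL : 1 ≤ L) {b : ℤ} (hp : b.natAbs ^ 2 * L ^ 2 < p) :
    |xx p b| ≤ 1 / (2 * (L : ℝ)) := by
  have hp0 : (0 : ℝ) < p := by exact_mod_cast (Nat.zero_le _).trans_lt hp
  have hL0 : (0 : ℝ) < L := by exact_mod_cast hL
  have h1 : (|(b : ℝ)| * L) ^ 2 ≤ p := by
    have h2 : ((b.natAbs : ℕ) : ℝ) = |(b : ℝ)| := by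
      rw [Nat.cast_natAbs, Int.cast_abs]
    have h3 : ((b.natAbs ^ 2 * L ^ 2 : ℕ) : ℝ) ≤ p := by exact_mod_cast hp.le
    push_cast [h2] at h3
    rw [mul_pow]
    exact h3
  have h2 : |(b : ℝ)| * L ≤ √(p : ℝ) := Real.le_sqrt_of_sq_le h1
  unfold xx
  rw [abs_div, abs_of_pos (show (0 : ℝ) < 2 * √(p : ℝ) by positivity),
    div_le_div_iff₀ (by positivity) (by positivity)]
  nlinarith

/-- PIECE [JB-U2] (about 200 lines; adapt `Lib_MP_f1937f_tb/Upper.lean`). PROOF. `L = ⌈x ^ (1/4) / (log x) ^ ((1 + s) / 2)⌉₊`. As `x ^ (1/4) / (log x) ^ ((1 + s) / 2) ≥ c_s > 0` for `x ≥ 3`, `L ≤ (1 + 1 / c_s) x ^ (1/4) / (log x) ^ ((1 + s) / 2)`,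
and for large `x`, `2 L ≤ x` (for the other `x` the claim is trivial). As in `Upper.lean` the count is at most `b ^ 2 L ^ 2 + (5 / 2) ((2 / L) π x + 4 C L √x (log x) ^ s)`; `π x ≤ C x / log x` (`pi_le`):
`π x / L ≤ C x ^ (3/4) (log x) ^ ((s - 1) / 2)`, `L √x (log x) ^ s ≤ C x ^ (3/4) (log x) ^ ((s - 1) / 2)`, `L ^ 2 ≤ C √x`. -/
theorem up_J (a : ℕ → ℤ) (ha : ∀ p : ℕ, p.Prime → a p ∈ V p) (s : ℝ) (hs : 0 ≤ s) (C : ℝ) (hC : 0 ≤ C)
    (hmom : ∀ k x : ℕ, 3 ≤ x → k ≤ x →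
      |∑ p ∈ (range (x + 1)).filter Nat.Prime, Uk k (xx p (a p)) - (if k = 0 then (Nat.primeCounting x : ℝ) else 0)| ≤
        C * (k + 1) * √(x : ℝ) * Real.log x ^ s) (b : ℤ) :
    ∃ C' : ℝ, ∀ x : ℕ, 3 ≤ x →
      ((((range (x + 1)).filter Nat.Prime).filter (fun p => a p = b)).card : ℝ) ≤
        C' * (x : ℝ) ^ (3 / 4 : ℝ) * Real.log x ^ ((s - 1) / 2) := by
  obtain ⟨C2, hC2, hpi⟩ := pi_le
  set τ : ℝ := (1 + s) / 2 with hτ
  have hτ0 : 0 < τ := by rw [hτ]; linarith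
  set E : ℝ := (4 * τ) ^ τ with hE
  have hE0 : 0 ≤ E := Real.rpow_nonneg (by positivity) _
  set F : ℝ := 1 + E with hF
  have hF0 : 0 ≤ F := by rw [hF]; linarith
  refine ⟨(b : ℝ) ^ 2 * F ^ 2 + 5 * C2 + 10 * C * F, fun x hx => ?_⟩
  set X : ℝ := (x : ℝ) with hXdef
  have hX : (3 : ℝ) ≤ X := by rw [hXdef]; exact_mod_cast hx
  have hX0 : (0 : ℝ) < X := by linarith
  set l : ℝ := Real.log X with hl
  have hl1 : 1 ≤ l := by
    rw [hl, Real.le_log_iff_exp_le hX0]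
    linarith [Real.exp_one_lt_d9]
  have hl0 : 0 < l := by linarith
  set q : ℝ := X ^ (1 / 4 : ℝ) with hq
  have hq0 : 0 < q := Real.rpow_pos_of_pos hX0 _
  have hq1 : 1 ≤ q := Real.one_le_rpow (by linarith) (by norm_num)
  have hq4 : q ^ 4 = X := by
    rw [hq, ← Real.rpow_natCast, ← Real.rpow_mul hX0.le]; norm_num
  have hq3 : X ^ (3 / 4 : ℝ) = q ^ 3 := by
    rw [hq, ← Real.rpow_natCast, ← Real.rpow_mul hX0.le]; norm_num
  have hq2 : √X = q ^ 2 := by
    rw [Real.sqrt_eq_rpow, hq, ← Real.rpow_natCast, ← Real.rpow_mul hX0.le]; norm_num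
  -- the powers of the logarithm
  set g : ℝ := l ^ ((s - 1) / 2) with hg
  have hg0 : 0 < g := Real.rpow_pos_of_pos hl0 _
  set e : ℝ := l ^ τ with he
  have he0 : 0 < e := Real.rpow_pos_of_pos hl0 _
  have he1 : 1 ≤ e := Real.one_le_rpow hl1 hτ0.le
  have heg : e = l * g := by
    rw [he, hg, ← Real.rpow_one_add' hl0.le (by intro h; linarith)]
    congr 1
    rw [hτ]
    ring
  have hlseg : l ^ s = e * g := by
    rw [he, hg, ← Real.rpow_add hl0]
    congr 1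
    rw [hτ]
    ring
  have he2g : 1 ≤ e ^ 2 * g := by
    have h1 : e ^ 2 * g = l ^ ((3 * s + 1) / 2) := by
      rw [he, hg, ← Real.rpow_natCast, ← Real.rpow_mul hl0.le, ← Real.rpow_add hl0]
      congr 1
      rw [hτ]
      push_cast
      ring
    rw [h1]
    exact Real.one_le_rpow hl1 (by linarith)
  have heE : e ≤ E * q := by
    have h1 : l ≤ X ^ (1 / (4 * τ)) / (1 / (4 * τ)) :=
      Real.log_le_rpow_div hX0.le (by positivity)
    have h2 : X ^ (1 / (4 * τ)) / (1 / (4 * τ)) = (4 * τ) * X ^ (1 / (4 * τ)) := by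
      field_simp
    rw [h2] at h1
    have h3 : e ≤ ((4 * τ) * X ^ (1 / (4 * τ))) ^ τ := Real.rpow_le_rpow hl0.le h1 hτ0.le
    rw [Real.mul_rpow (by positivity) (by positivity), ← Real.rpow_mul hX0.le] at h3
    have h4 : 1 / (4 * τ) * τ = 1 / 4 := by field_simp
    rw [h4] at h3
    exact h3
  set L : ℕ := ⌈q / e⌉₊ with hLdef
  have hL1 : 1 ≤ L := Nat.ceil_pos.2 (by positivity)
  have hL1' : (1 : ℝ) ≤ L := by exact_mod_cast hL1
  have hLge : q / e ≤ L := Nat.le_ceil _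
  have hLlt : (L : ℝ) < q / e + 1 := Nat.ceil_lt_add_one (by positivity)
  have hLe : L * e ≤ F * q := by
    have h1 : (L : ℝ) * e ≤ (q / e + 1) * e := by gcongr
    have h2 : (q / e + 1) * e = q + e := by field_simp
    rw [h2] at h1
    rw [hF]
    linarith
  have hLe' : q ≤ L * e := by rwa [div_le_iff₀ he0] at hLge
  have hkx : ∀ i ∈ range L, 2 * i ≤ x := by
    intro i hi
    have h1 : (i : ℝ) + 1 ≤ L := by exact_mod_cast Finset.mem_range.1 hi
    have h2 : q / e ≤ q := div_le_self hq0.le he1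
    have h3 : 2 ≤ q ^ 3 := by
      by_contra hcon
      rw [not_le] at hcon
      have h4 : (q ^ 3) ^ 4 < 2 ^ 4 := by gcongr
      have h5 : (q ^ 3) ^ 4 = (q ^ 4) ^ 3 := by ring
      have h6 : (3 : ℝ) ^ 3 ≤ (q ^ 4) ^ 3 := by
        rw [hq4]
        gcongr
      rw [h5] at h4
      norm_num at h4 h6
      linarith
    have h4 : 2 * q ≤ X := by
      calc 2 * q ≤ q ^ 3 * q := by gcongr
        _ = X := by rw [← hq4]; ring
    have h5 : ((2 * i : ℕ) : ℝ) ≤ X := by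
      push_cast
      linarith
    rw [hXdef] at h5
    exact_mod_cast h5
  obtain ⟨c, hc2, hcpos, hclow⟩ := fejer L hL1
  set P : Finset ℕ := (range (x + 1)).filter Nat.Prime with hP
  set G : ℕ → ℝ := fun p => ∑ i ∈ range L, c i / L * Uk (2 * i) (xx p (a p)) with hG
  have hG0 : ∀ p ∈ P, 0 ≤ G p := by
    intro p hp
    have hpp : p.Prime := (Finset.mem_filter.1 hp).2
    exact hcpos _ (xx_le_one hpp (ha p hpp))
  set S : Finset ℕ := P.filter (fun p => a p = b) with hS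
  set B : ℕ := b.natAbs ^ 2 * L ^ 2 with hB
  have hsplit : S.card ≤ B + (S.filter (fun p => B < p)).card := by
    have h1 : S ⊆ (S.filter (fun p => B < p)) ∪ Finset.Icc 1 B := by
      intro p hp
      rw [Finset.mem_union, Finset.mem_filter, Finset.mem_Icc]
      have hpp : p.Prime := (Finset.mem_filter.1 (Finset.mem_filter.1 hp).1).2
      rcases lt_or_ge B p with h | h
      · exact Or.inl ⟨hp, h⟩
      · exact Or.inr ⟨hpp.one_le, h⟩
    have h2 := (Finset.card_le_card h1).trans (Finset.card_union_le _ _)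
    rw [Nat.card_Icc] at h2
    omega
  have hsub : (2 / 5 : ℝ) * (S.filter (fun p => B < p)).card ≤ ∑ p ∈ P, G p := by
    have h1 : (2 / 5 : ℝ) * (S.filter (fun p => B < p)).card ≤
        ∑ p ∈ S.filter (fun p => B < p), G p := by
      rw [mul_comm, ← nsmul_eq_mul]
      refine Finset.card_nsmul_le_sum _ _ _ ?_
      intro p hp
      rw [Finset.mem_filter] at hp
      have h2 : a p = b := (Finset.mem_filter.1 hp.1).2
      refine hclow _ ?_
      rw [h2]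
      exact xx_le_small hL1 hp.2
    refine h1.trans (Finset.sum_le_sum_of_subset_of_nonneg ?_ ?_)
    · intro p hp
      exact (Finset.mem_filter.1 (Finset.mem_filter.1 hp).1).1
    · intro p hp _
      exact hG0 p hp
  have hswap : ∑ p ∈ P, G p = ∑ i ∈ range L, c i / L * ∑ p ∈ P, Uk (2 * i) (xx p (a p)) := by
    rw [hG, Finset.sum_comm]
    refine Finset.sum_congr rfl fun i _ => ?_
    rw [Finset.mul_sum]
  set K : ℝ := C * (2 * L) * q ^ 2 * l ^ s with hK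
  have hls0 : 0 ≤ l ^ s := (Real.rpow_pos_of_pos hl0 _).le
  have hK0 : 0 ≤ K := by positivity
  have hterm : ∀ i ∈ range L, c i / L * ∑ p ∈ P, Uk (2 * i) (xx p (a p)) ≤
      2 / L * ((if i = 0 then (Nat.primeCounting x : ℝ) else 0) + K) := by
    intro i hi
    have h1 := hmom (2 * i) x hx (hkx i hi)
    have hi1 : (i : ℝ) + 1 ≤ L := by exact_mod_cast Finset.mem_range.1 hi
    have h2 : C * (((2 * i : ℕ) : ℝ) + 1) * √X * l ^ s ≤ K := by
      rw [hK, hq2]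
      have h3 : ((2 * i : ℕ) : ℝ) + 1 ≤ 2 * L := by push_cast; linarith
      gcongr
    have h3 : |∑ p ∈ P, Uk (2 * i) (xx p (a p))| ≤
        (if i = 0 then (Nat.primeCounting x : ℝ) else 0) + K := by
      have h4 := h1.trans h2
      have h5 : (if 2 * i = 0 then (Nat.primeCounting x : ℝ) else 0) =
          (if i = 0 then (Nat.primeCounting x : ℝ) else 0) := by
        rcases Nat.eq_zero_or_pos i with rfl | h
        · simp
        · rw [if_neg (by omega), if_neg (by omega)]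
      rw [h5] at h4
      have h6 : 0 ≤ (if i = 0 then (Nat.primeCounting x : ℝ) else 0) := by
        split_ifs
        · exact Nat.cast_nonneg _
        · exact le_refl _
      rw [abs_le] at h4 ⊢
      constructor <;> linarith [h4.1, h4.2]
    have h4 : c i / L * ∑ p ∈ P, Uk (2 * i) (xx p (a p)) ≤
        |c i / L| * |∑ p ∈ P, Uk (2 * i) (xx p (a p))| := by
      rw [← abs_mul]; exact le_abs_self _
    have h5 : |c i / L| ≤ 2 / L := by
      rw [abs_div, abs_of_pos (show (0 : ℝ) < L by linarith)]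
      have := hc2 i
      gcongr
    refine h4.trans ?_
    gcongr
  have hsum : ∑ p ∈ P, G p ≤ 2 / L * (Nat.primeCounting x + L * K) := by
    rw [hswap]
    refine (Finset.sum_le_sum hterm).trans ?_
    rw [← Finset.mul_sum, Finset.sum_add_distrib, Finset.sum_const, Finset.card_range,
      nsmul_eq_mul]
    have h1 : ∑ i ∈ range L, (if i = 0 then (Nat.primeCounting x : ℝ) else 0) =
        Nat.primeCounting x := by
      rw [Finset.sum_ite_eq' (range L) 0 (fun _ => (Nat.primeCounting x : ℝ)),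
        if_pos (Finset.mem_range.2 hL1)]
    rw [h1]
  have hpix := hpi x (by omega)
  have hfirst : 2 / L * (Nat.primeCounting x : ℝ) ≤ 2 * C2 * q ^ 3 * g := by
    have h1 : (Nat.primeCounting x : ℝ) ≤ C2 * q ^ 4 / l := by rw [hq4]; exact hpix
    rw [div_mul_eq_mul_div, div_le_iff₀ (by linarith)]
    calc 2 * (Nat.primeCounting x : ℝ) ≤ 2 * (C2 * q ^ 4 / l) := by gcongr
      _ = 2 * C2 * q ^ 3 / l * q := by ring
      _ ≤ 2 * C2 * q ^ 3 / l * (L * e) := by gcongr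
      _ = 2 * C2 * q ^ 3 * g * L := by
          rw [heg]
          field_simp
  have hsecond : 2 / L * (L * K) ≤ 4 * C * F * q ^ 3 * g := by
    have h1 : 2 / L * (L * K) = 2 * K := by field_simp
    rw [h1, hK, hlseg]
    calc 2 * (C * (2 * L) * q ^ 2 * (e * g)) = 4 * C * q ^ 2 * g * (L * e) := by ring
      _ ≤ 4 * C * q ^ 2 * g * (F * q) := by gcongr
      _ = 4 * C * F * q ^ 3 * g := by ring
  have hBle : (B : ℝ) ≤ (b : ℝ) ^ 2 * F ^ 2 * q ^ 3 * g := by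
    have h1 : (B : ℝ) = (b : ℝ) ^ 2 * (L : ℝ) ^ 2 := by
      have h2 : ((b.natAbs : ℕ) : ℝ) = |(b : ℝ)| := by
        rw [Nat.cast_natAbs, Int.cast_abs]
      rw [hB, Nat.cast_mul, Nat.cast_pow, Nat.cast_pow, h2, sq_abs]
    rw [h1]
    have h3 : q ^ 2 ≤ q ^ 3 := pow_le_pow_right₀ hq1 (by norm_num)
    have h4 : (L : ℝ) ^ 2 ≤ F ^ 2 * q ^ 3 * g := by
      calc (L : ℝ) ^ 2 ≤ (L : ℝ) ^ 2 * (e ^ 2 * g) := le_mul_of_one_le_right (by positivity) he2g
        _ = (L * e) ^ 2 * g := by ring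
        _ ≤ (F * q) ^ 2 * g := by gcongr
        _ = F ^ 2 * q ^ 2 * g := by ring
        _ ≤ F ^ 2 * q ^ 3 * g := by gcongr
    calc (b : ℝ) ^ 2 * (L : ℝ) ^ 2 ≤ (b : ℝ) ^ 2 * (F ^ 2 * q ^ 3 * g) := by gcongr
      _ = (b : ℝ) ^ 2 * F ^ 2 * q ^ 3 * g := by ring
  have hcard : (S.card : ℝ) ≤ B + (S.filter (fun p => B < p)).card := by exact_mod_cast hsplit
  rw [hq3]
  rw [mul_add] at hsum
  have e3 : ((S.filter (fun p => B < p)).card : ℝ) ≤
      5 / 2 * (2 * C2 * q ^ 3 * g + 4 * C * F * q ^ 3 * g) := by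
    linarith
  calc (S.card : ℝ) ≤ B + (S.filter (fun p => B < p)).card := hcard
    _ ≤ (b : ℝ) ^ 2 * F ^ 2 * q ^ 3 * g + 5 / 2 * (2 * C2 * q ^ 3 * g + 4 * C * F * q ^ 3 * g) := by
        linarith
    _ = ((b : ℝ) ^ 2 * F ^ 2 + 5 * C2 + 10 * C * F) * q ^ 3 * g := by ring

end Pool.Agent.JB
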