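import Pool.Agent.Lib_MP_f1937f_jb.SpikeJ
import Pool.Agent.Lib_MP_f1937f_jb.EmptyJ
import Pool.Agent.Lib_MP_f1937f_jb.SmallJ
import Pool.Agent.Lib_MP_f1937f_jb.RealJ2
import Pool.Agent.Lib_MP_f1937f_jb.RankJ
import Pool.Agent.Lib_MP_f1937f_jb.UJf
import Pool.Agent.Lib_MP_f1937f_jb.MomJ
import Pool.Agent.Lib_MP_f1937f_jb.UpJ

/-!
# Assembly
-/

set_option autoImplicit false

namespace Pool.Agent.JB

open Finset Pool.Agent.TB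

theorem GoodLawJ.mono {M : ℕ} {u : ℤ → ℝ} {A B : ℝ} {p : ℕ} {ρ : ℤ → ℝ} (hAB : A ≤ B) (hg : GoodLawJ M u A p ρ) :
    GoodLawJ M u B p ρ := by
  refine ⟨hg.nonneg, hg.supp, hg.total, fun m₁ n hL hn hpn t k => (hg.equi m₁ n hL hn hpn t k).trans ?_⟩
  have h2 : (0 : ℝ) ≤ Real.log p / √(p : ℝ) := div_nonneg (Real.log_natCast_nonneg p) (Real.sqrt_nonneg _)
  gcongr

/-- the point mass at `0` -/
theorem point_law (p : ℕ) : ∃ ρ : ℤ → ℝ, (∀ a, 0 ≤ ρ a) ∧ (∀ a, ρ a ≠ 0 → a ∈ V p) ∧ ∑ a ∈ V p, ρ a = 1 := by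
  classical
  have h0 : (0 : ℤ) ∈ V p := by
    unfold V
    rw [mem_Icc]
    constructor <;> simp
  refine ⟨fun a => if a = 0 then 1 else 0, fun a => by dsimp only; split_ifs <;> norm_num, fun a ha => ?_, ?_⟩
  · by_cases h : a = 0
    · rw [h]
      exact h0
    · exact absurd (if_neg h) ha
  · rw [Finset.sum_ite_eq' (V p) (0 : ℤ) (fun _ => (1 : ℝ)), if_pos h0]

/-- laws for all primes -/
theorem law_all_J (M : ℕ) (hM : 0 < M) (c : ℝ) (u : ℕ → ℤ → ℝ) (hu : ∀ d : ℕ, d.Coprime M → UV M c (u d)) (C : ℝ) (p₀ : ℕ)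
    (P : ℕ → (ℤ → ℝ) → Prop)
    (h : ∀ p : ℕ, p.Prime → p.Coprime M → p₀ ≤ p → ∃ ρ : ℤ → ℝ, GoodLawJ M (u p) C p ρ ∧ P p ρ) :
    ∃ (C' : ℝ) (ρ : ℕ → ℤ → ℝ), 0 ≤ C' ∧ (∀ p : ℕ, p.Prime → ∀ a, 0 ≤ ρ p a) ∧
      (∀ p : ℕ, p.Prime → ∀ a, ρ p a ≠ 0 → a ∈ V p) ∧ (∀ p : ℕ, p.Prime → ∑ a ∈ V p, ρ p a = 1) ∧
      (∀ p : ℕ, p.Prime → p.Coprime M → GoodLawJ M (u p) C' p (ρ p)) ∧
      ∀ p : ℕ, p.Prime → p.Coprime M → p₀ ≤ p → P p (ρ p) := by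
  classical
  obtain ⟨C₁, hC₁, h1⟩ := small_J M hM p₀
  have key : ∀ p : ℕ, ∃ ρ : ℤ → ℝ, (p.Prime → (∀ a, 0 ≤ ρ a) ∧ (∀ a, ρ a ≠ 0 → a ∈ V p) ∧ ∑ a ∈ V p, ρ a = 1) ∧
      (p.Prime → p.Coprime M → GoodLawJ M (u p) (max (max C C₁) 0) p ρ) ∧
      (p.Prime → p.Coprime M → p₀ ≤ p → P p ρ) := by
    intro p
    by_cases hpp : p.Prime
    · by_cases hpM : p.Coprime M
      · by_cases hp : p₀ ≤ p
        · obtain ⟨ρ, hρ, hP⟩ := h p hpp hpM hp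
          have hg := hρ.mono ((le_max_left C C₁).trans (le_max_left _ 0))
          exact ⟨ρ, fun _ => ⟨hg.nonneg, hg.supp, hg.total⟩, fun _ _ => hg, fun _ _ _ => hP⟩
        · obtain ⟨ρ, hρ⟩ := h1 p hpp (by omega) c (u p) (hu p hpM)
          have hg := hρ.mono ((le_max_right C C₁).trans (le_max_left _ 0))
          exact ⟨ρ, fun _ => ⟨hg.nonneg, hg.supp, hg.total⟩, fun _ _ => hg, fun _ _ h => absurd h hp⟩
      · obtain ⟨ρ, hρ1, hρ2, hρ3⟩ := point_law p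
        exact ⟨ρ, fun _ => ⟨hρ1, hρ2, hρ3⟩, fun _ h => absurd h hpM, fun _ h => absurd h hpM⟩
    · exact ⟨0, fun h => absurd h hpp, fun h => absurd h hpp, fun h => absurd h hpp⟩
  choose ρ hρ1 hρ2 hρ3 using key
  exact ⟨max (max C C₁) 0, ρ, le_max_right _ _, fun p hp => (hρ1 p hp).1, fun p hp => (hρ1 p hp).2.1,
    fun p hp => (hρ1 p hp).2.2, hρ2, hρ3⟩

section

variable (M : ℕ) (hM : 0 < M) (G : Subgroup (GL (Fin 2) (ZMod M)))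
  (hG : ∀ d : (ZMod M)ˣ, ∃ g ∈ G, g.val.det = (d : ZMod M))

include hM hG

theorem part_one :
    ∃ a : ℕ → ℤ, (∀ p : ℕ, p.Prime → a p ∈ V p) ∧ InfoJ M (uJ M G) a 1 ∧
      ∀ a₀ : ℤ, (∃ g ∈ G, g.val.trace = (a₀ : ZMod M)) → ∀ ε : ℝ, 0 < ε → ∃ x₀ : ℕ, ∀ x : ℕ, x₀ ≤ x →
        (x : ℝ) ^ (3 / 4 - ε) ≤ ((((range (x + 1)).filter Nat.Prime).filter (fun p => a p = a₀)).card : ℝ) := by
  classical
  obtain ⟨c, hc, hu⟩ := uJ_facts M hM G hG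
  obtain ⟨C, hC0, hC⟩ := spike_J M hM c hc
  choose! P hP using hC
  obtain ⟨C₂, p₂, hC₂, hl⟩ := empty_J M hM c hc
  set e : ℕ ≃ ℤ := (Denumerable.eqv ℤ).symm with he
  set Q : ℕ → (ℤ → ℝ) → Prop := fun p ρ => ∀ n : ℕ, 8 ≤ n → n ≤ p → 0 < uJ M G p (e (rkJ M p)) →
    P (e (rkJ M p)) (1 / (n : ℝ)) ≤ p → (p : ℝ) ^ (-(1 / 4) - 1 / (n : ℝ)) / 4 ≤ ρ (e (rkJ M p)) with hQ
  have key : ∀ p : ℕ, p.Prime → p.Coprime M → p₂ ≤ p →
      ∃ ρ : ℤ → ℝ, GoodLawJ M (uJ M G p) (max C C₂) p ρ ∧ Q p ρ := by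
    intro p hpp hpM hp
    by_cases hup : 0 < uJ M G p (e (rkJ M p))
    · set N : Finset ℕ := (Icc 8 p).filter (fun n => P (e (rkJ M p)) (1 / (n : ℝ)) ≤ p) with hN
      rcases N.eq_empty_or_nonempty with hN0 | hN0
      · obtain ⟨ρ, hρ, -⟩ := hl p hpp hp _ (hu p hpM)
        refine ⟨ρ, hρ.mono (le_max_right _ _), fun n hn8 hnp _ hPn => ?_⟩
        have : n ∈ N := mem_filter.mpr ⟨mem_Icc.mpr ⟨hn8, hnp⟩, hPn⟩
        rw [hN0] at this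
        simp at this
      · set n₁ := N.max' hN0 with hn₁
        have hmem : n₁ ∈ N := N.max'_mem hN0
        rw [hN, mem_filter, mem_Icc] at hmem
        obtain ⟨⟨h8, hnp⟩, hPn⟩ := hmem
        have h8' : (8 : ℝ) ≤ n₁ := by exact_mod_cast h8
        obtain ⟨ρ, hρ, hρ1⟩ := hP (e (rkJ M p)) (1 / (n₁ : ℝ)) (by positivity)
          (one_div_le_one_div_of_le (by norm_num) h8') p hpp hPn (uJ M G p) (hu p hpM) hup
        refine ⟨ρ, hρ.mono (le_max_left _ _), fun n hn8 hnp' _ hPn' => le_trans ?_ hρ1⟩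
        have hle : n ≤ n₁ := N.le_max' n (mem_filter.mpr ⟨mem_Icc.mpr ⟨hn8, hnp'⟩, hPn'⟩)
        have hn0 : (0 : ℝ) < n := by exact_mod_cast (by omega : 0 < n)
        have hp1 : (1 : ℝ) ≤ p := by exact_mod_cast (by omega : 1 ≤ p)
        have h5 : 1 / (n₁ : ℝ) ≤ 1 / (n : ℝ) := one_div_le_one_div_of_le hn0 (by exact_mod_cast hle)
        have h6 := Real.rpow_le_rpow_of_exponent_le hp1 (by linarith : -(1 / 4) - 1 / (n : ℝ) ≤ -(1 / 4) - 1 / (n₁ : ℝ))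
        linarith
    · obtain ⟨ρ, hρ, -⟩ := hl p hpp hp _ (hu p hpM)
      exact ⟨ρ, hρ.mono (le_max_right _ _), fun n _ _ h => absurd h hup⟩
  obtain ⟨C', ρ, hC', hρ0, hρs, hρ1, hρg, hQρ⟩ := law_all_J M hM c (uJ M G) hu (max C C₂) p₂ Q key
  obtain ⟨a, C₃, ha, hI, hcount⟩ := realize_J M hM c (uJ M G) hu (fun d d' t h => uJ_per M G d d' t h) C' hC' ρ hρ0 hρs hρ1 hρg
  refine ⟨a, fun p hp => (ha p hp).1, hI, fun a₀ ha₀ ε hε => ?_⟩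
  obtain ⟨d, hd, hud⟩ := uJ_pos M hM G a₀ ha₀
  obtain ⟨n₀, hn₀⟩ := exists_nat_ge (max 8 (2 / ε))
  have hn8r : (8 : ℝ) ≤ n₀ := (le_max_left _ _).trans hn₀
  have hn8 : 8 ≤ n₀ := by exact_mod_cast hn8r
  have hnε : 2 / ε ≤ n₀ := (le_max_right _ _).trans hn₀
  have hn0 : (0 : ℝ) < n₀ := by linarith
  have hε' : 1 / (n₀ : ℝ) ≤ 1 / 8 := one_div_le_one_div_of_le (by norm_num) hn8r
  have hε2 : 2 * (1 / (n₀ : ℝ)) ≤ ε := by
    rw [div_le_iff₀ hε] at hnε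
    rw [mul_one_div, div_le_iff₀ hn0]
    linarith
  set j : ℕ := e.symm a₀ with hj
  have hej : e j = a₀ := by rw [hj, Equiv.apply_symm_apply]
  obtain ⟨x₀, hx₀⟩ := rank_J M hM d hd (1 / (n₀ : ℝ)) (by positivity) hε' C₃ j (max p₂ (max n₀ (P a₀ (1 / (n₀ : ℝ)))))
  refine ⟨max x₀ 2, fun x hx => ?_⟩
  have hx2 : 2 ≤ x := (le_max_right _ _).trans hx
  have hx1 : 1 ≤ x := by omega
  have h5 := hcount a₀ x hx2
  have h6 := hx₀ x ((le_max_left _ _).trans hx)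
  have h7 : ∑ p ∈ ((range (x + 1)).filter Nat.Prime).filter
        (fun p => p ≡ d [MOD M] ∧ rkJ M p = j ∧ max p₂ (max n₀ (P a₀ (1 / (n₀ : ℝ)))) ≤ p),
          (p : ℝ) ^ (-(1 / 4) - 1 / (n₀ : ℝ)) / 4 ≤
      ∑ p ∈ (range (x + 1)).filter Nat.Prime, ρ p a₀ := by
    calc _ ≤ ∑ p ∈ ((range (x + 1)).filter Nat.Prime).filter (fun p => p ≡ d [MOD M] ∧ rkJ M p = j ∧
            max p₂ (max n₀ (P a₀ (1 / (n₀ : ℝ)))) ≤ p), ρ p a₀ := by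
          refine sum_le_sum fun p hp => ?_
          rw [mem_filter, mem_filter] at hp
          obtain ⟨⟨hp1, hpp⟩, hpd, hpj, hpm⟩ := hp
          have hpM : p.Coprime M := by
            rw [Nat.Coprime, Nat.ModEq.gcd_eq hpd]
            exact hd
          have hq := hQρ p hpp hpM ((le_max_left _ _).trans hpm) n₀ hn8
            ((le_max_left _ _).trans ((le_max_right _ _).trans hpm))
          rw [hpj, hej, uJ_per M G p d a₀ hpd] at hq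
          exact hq hud ((le_max_right _ _).trans ((le_max_right _ _).trans hpm))
      _ ≤ _ := by
          refine sum_le_sum_of_subset_of_nonneg (filter_subset _ _) fun p hp _ => ?_
          exact hρ0 p (mem_filter.mp hp).2 a₀
  have h8 : (x : ℝ) ^ (3 / 4 - ε) ≤ (x : ℝ) ^ (3 / 4 - 2 * (1 / (n₀ : ℝ))) := by
    apply Real.rpow_le_rpow_of_exponent_le
    · exact_mod_cast hx1
    · linarith
  have h9 := (abs_le.mp h5).1
  have h10 := h6.trans h7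
  linarith

theorem part_two :
    ∃ a : ℕ → ℤ, (∀ p : ℕ, p.Prime → a p ∈ V p) ∧ InfoJ M (uJ M G) a 1 ∧
      ∀ b : ℤ, {p : ℕ | p.Prime ∧ a p = b}.Finite := by
  obtain ⟨c, hc, hu⟩ := uJ_facts M hM G hG
  obtain ⟨C, p₂, hC, hl⟩ := empty_J M hM c hc
  obtain ⟨C', ρ, hC', hρ0, hρs, hρ1, hρg, hP⟩ := law_all_J M hM c (uJ M G) hu C p₂
    (fun p ρ => ∀ a : ℤ, |(a : ℝ)| ≤ Real.log p → ρ a = 0) (fun p hpp hpM hp => hl p hpp hp _ (hu p hpM))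
  obtain ⟨a, C₃, ha, hI, -⟩ := realize_J M hM c (uJ M G) hu (fun d d' t h => uJ_per M G d d' t h) C' hC' ρ hρ0 hρs hρ1 hρg
  refine ⟨a, fun p hp => (ha p hp).1, hI, fun b => ?_⟩
  obtain ⟨n₀, hn₀⟩ := exists_nat_ge (Real.exp |(b : ℝ)|)
  refine (Set.finite_Iio (max (max p₂ (M + 1)) (n₀ + 1))).subset ?_
  rintro p ⟨hp, hab⟩
  rw [Set.mem_Iio]
  by_contra hlt
  push Not at hlt
  have hp1 : p₂ ≤ p := (le_max_left _ _).trans ((le_max_left _ _).trans hlt)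
  have hp3 : M + 1 ≤ p := (le_max_right _ _).trans ((le_max_left _ _).trans hlt)
  have hp2 : n₀ + 1 ≤ p := (le_max_right _ _).trans hlt
  have hpM : p.Coprime M := (Nat.Prime.coprime_iff_not_dvd hp).2 fun h => by
    have := Nat.le_of_dvd hM h
    omega
  have h5 : |(b : ℝ)| ≤ Real.log p := by
    rw [Real.le_log_iff_exp_le (by exact_mod_cast hp.pos)]
    refine hn₀.trans ?_
    exact_mod_cast (by omega : n₀ ≤ p)
  have h6 := hP p hp hpM hp1 b h5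
  have h7 := (ha p hp).2
  rw [hab, h6] at h7
  exact lt_irrefl _ h7

theorem part_three (a : ℕ → ℤ) (s : ℝ) (hs : 0 ≤ s) (ha : ∀ p : ℕ, p.Prime → a p ∈ V p)
    (hI : InfoJ M (uJ M G) a s) (b : ℤ) :
    ∃ C : ℝ, ∀ x : ℕ, 3 ≤ x →
      ((((range (x + 1)).filter Nat.Prime).filter (fun p => a p = b)).card : ℝ) ≤
        C * (x : ℝ) ^ (3 / 4 : ℝ) * Real.log x ^ ((s - 1) / 2) := by
  obtain ⟨c, hc, hu⟩ := uJ_facts M hM G hG
  obtain ⟨C, hC, hmom⟩ := mom_J M hM c (uJ M G) hu a ha s hs hI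
  exact up_J a ha s hs C hC hmom b

end

end Pool.Agent.JB
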