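import Pool.Agent.Lib_MP_f1937f_jb.MertC
import Pool.Agent.Lib_MP_f1a94e_mr.MertensA

/-!
# Mertens' theorem in progressions
-/

set_option autoImplicit false

namespace Pool.Agent.JB

open Finset

/-- the numbers with a common factor with `M` contribute `O(1)` -/
private theorem mA_noncop (M : ℕ) (hM : 0 < M) : ∃ C : ℝ, 0 ≤ C ∧ ∀ x : ℕ,
    ∑ n ∈ (Icc 1 x).filter (fun n => ¬ n.Coprime M), ArithmeticFunction.vonMangoldt n / (n : ℝ) ≤ C := by
  obtain ⟨C, hC⟩ := Pool.Agent.GaussMR.mertensA_powers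
  have hnn : ∀ n : ℕ, 0 ≤ ArithmeticFunction.vonMangoldt n / (n : ℝ) := fun n =>
    div_nonneg ArithmeticFunction.vonMangoldt_nonneg (Nat.cast_nonneg n)
  have hC0 : 0 ≤ C := by
    have := hC 0
    simpa using this
  refine ⟨C + ∑ p ∈ M.primeFactors, ArithmeticFunction.vonMangoldt p / (p : ℝ),
    add_nonneg hC0 (sum_nonneg fun p _ => hnn p), fun x => ?_⟩
  rw [← sum_filter_add_sum_filter_not _ (fun n => n.Prime), add_comm]
  apply add_le_add
  · refine le_trans ?_ (hC x)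
    have h1 : ∑ n ∈ ((Icc 1 x).filter (fun n => ¬ n.Coprime M)).filter (fun n => ¬ n.Prime),
        ArithmeticFunction.vonMangoldt n / (n : ℝ) =
        ∑ n ∈ ((Icc 1 x).filter (fun n => ¬ n.Coprime M)).filter (fun n => ¬ n.Prime),
        (if n.Prime then 0 else ArithmeticFunction.vonMangoldt n) / (n : ℝ) := by
      refine sum_congr rfl fun n hn => ?_
      rw [if_neg (mem_filter.mp hn).2]
    rw [h1]
    refine sum_le_sum_of_subset_of_nonneg ((filter_subset _ _).trans (filter_subset _ _)) fun n _ _ => ?_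
    split_ifs
    · simp
    · exact hnn n
  · refine sum_le_sum_of_subset_of_nonneg ?_ fun n _ _ => hnn n
    intro n hn
    rw [mem_filter, mem_filter] at hn
    rw [Nat.mem_primeFactors]
    refine ⟨hn.2, ?_, hM.ne'⟩
    by_contra hnd
    exact hn.1.2 ((Nat.Prime.coprime_iff_not_dvd hn.2).mpr hnd)

/-- PIECE [JB-M3] (about 150 lines). PROOF. Orthogonality of the characters modulo `M` (`DirichletCharacter.sum_char_inv_mul_char_eq`): the sum is
`φ(M)⁻¹ ∑_χ χ(d)⁻¹ ∑_{n ≤ x} χ n Λ n / n`. The characters `χ ≠ 1` contribute `O(1)` (`mert_C`). `χ = 1`: `∑_{n ≤ x, (n, M) = 1} Λ n / n = log x + O(1)`: `mert_one` (in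
`Lib_MP_f1a94e_mr`, namespace `Pool.Agent.GaussMR`), and the `n` with a common factor with `M` and `Λ n ≠ 0` are the powers of the primes dividing `M`: at most `∑_{l ∣ M} ∑_j log l / l ^ j = O(1)`. -/
theorem mert_ap (M : ℕ) (hM : 0 < M) (d : ℕ) (hd : d.Coprime M) : ∃ C : ℝ, 0 ≤ C ∧ ∀ x : ℕ, 1 ≤ x →
    |∑ n ∈ (Icc 1 x).filter (fun n => n ≡ d [MOD M]), ArithmeticFunction.vonMangoldt n / (n : ℝ) - Real.log x / M.totient| ≤ C := by
  classical
  have : NeZero M := ⟨hM.ne'⟩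
  have hdu : IsUnit (d : ZMod M) := (ZMod.isUnit_iff_coprime d M).mpr hd
  have hφ : 0 < M.totient := Nat.totient_pos.mpr hM
  have hφr : (0 : ℝ) < M.totient := by exact_mod_cast hφ
  have hφ1 : (1 : ℝ) ≤ M.totient := by exact_mod_cast hφ
  obtain ⟨C1, hC1⟩ := Pool.Agent.GaussMR.mert_one
  obtain ⟨C2, hC20, hC2⟩ := mA_noncop M hM
  have hC10 : 0 ≤ C1 := (abs_nonneg _).trans (hC1 1 le_rfl)
  have hch : ∀ χ : DirichletCharacter ℂ M, ∃ C : ℝ, 0 ≤ C ∧ (χ ≠ 1 → ∀ x : ℕ, 1 ≤ x →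
      ‖∑ n ∈ Icc 1 x, χ (n : ZMod M) * ((ArithmeticFunction.vonMangoldt n : ℝ) : ℂ) / (n : ℂ)‖ ≤ C) := by
    intro χ
    by_cases h : χ = 1
    · exact ⟨0, le_rfl, fun h' => absurd h h'⟩
    · obtain ⟨C, h0, hC⟩ := mert_C M χ h
      exact ⟨C, h0, fun _ => hC⟩
  choose Cf hCf0 hCf using hch
  refine ⟨C1 + C2 + ∑ χ : DirichletCharacter ℂ M, Cf χ, by
    have := sum_nonneg fun χ (_ : χ ∈ (univ : Finset (DirichletCharacter ℂ M))) => hCf0 χ
    positivity, fun x hx => ?_⟩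
  -- the sum as a sum over characters
  set S : ℝ := ∑ n ∈ (Icc 1 x).filter (fun n => n ≡ d [MOD M]), ArithmeticFunction.vonMangoldt n / (n : ℝ) with hS
  set A : DirichletCharacter ℂ M → ℂ := fun χ =>
    ∑ n ∈ Icc 1 x, χ (n : ZMod M) * ((ArithmeticFunction.vonMangoldt n : ℝ) : ℂ) / (n : ℂ) with hA
  have hSA : (S : ℂ) = (M.totient : ℂ)⁻¹ * ∑ χ : DirichletCharacter ℂ M, χ (d : ZMod M)⁻¹ * A χ := by
    have h1 : S = ∑ n ∈ Icc 1 x, ArithmeticFunction.vonMangoldt.residueClass (d : ZMod M) n / (n : ℝ) := by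
      rw [hS, sum_filter]
      refine sum_congr rfl fun n _ => ?_
      rw [ArithmeticFunction.vonMangoldt.residueClass, Set.indicator_apply]
      simp only [Set.mem_ofPred_eq, ZMod.natCast_eq_natCast_iff]
      split_ifs <;> simp
    rw [h1, Complex.ofReal_sum]
    have h2 : ∀ n ∈ Icc 1 x, ((ArithmeticFunction.vonMangoldt.residueClass (d : ZMod M) n / (n : ℝ) : ℝ) : ℂ) =
        (M.totient : ℂ)⁻¹ * ∑ χ : DirichletCharacter ℂ M, χ (d : ZMod M)⁻¹ *
          (χ (n : ZMod M) * ((ArithmeticFunction.vonMangoldt n : ℝ) : ℂ) / (n : ℂ)) := by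
      intro n _
      rw [Complex.ofReal_div, ArithmeticFunction.vonMangoldt.residueClass_apply hdu n, mul_div_assoc, sum_div]
      congr 1
      refine sum_congr rfl fun χ _ => ?_
      push_cast
      ring
    rw [sum_congr rfl h2, ← mul_sum, sum_comm]
    congr 1
    refine sum_congr rfl fun χ _ => ?_
    rw [← mul_sum]
  -- the trivial character
  have hone : ‖A 1 - (Real.log x : ℂ)‖ ≤ C1 + C2 := by
    have h1 : A 1 = ((∑ n ∈ (Icc 1 x).filter (fun n => n.Coprime M), ArithmeticFunction.vonMangoldt n / (n : ℝ) : ℝ) : ℂ) := by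
      rw [sum_filter, Complex.ofReal_sum, hA]
      refine sum_congr rfl fun n _ => ?_
      by_cases h : n.Coprime M
      · rw [if_pos h, MulChar.one_apply ((ZMod.isUnit_iff_coprime n M).2 h)]
        push_cast
        ring
      · rw [if_neg h, MulChar.map_nonunit]
        · simp
        · rw [ZMod.isUnit_iff_coprime]
          exact h
    rw [h1, ← Complex.ofReal_sub, Complex.norm_real, Real.norm_eq_abs]
    have h2 := sum_filter_add_sum_filter_not (Icc 1 x) (fun n => n.Coprime M) (fun n => ArithmeticFunction.vonMangoldt n / (n : ℝ))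
    have h3 := hC1 x hx
    have h4 := hC2 x
    have h5 : 0 ≤ ∑ n ∈ (Icc 1 x).filter (fun n => ¬ n.Coprime M), ArithmeticFunction.vonMangoldt n / (n : ℝ) :=
      sum_nonneg fun n _ => div_nonneg ArithmeticFunction.vonMangoldt_nonneg (Nat.cast_nonneg n)
    rw [abs_le] at h3 ⊢
    constructor <;> linarith [h3.1, h3.2]
  have hfin : ((S - Real.log x / M.totient : ℝ) : ℂ) = (M.totient : ℂ)⁻¹ *
      ((A 1 - (Real.log x : ℂ)) + ∑ χ ∈ univ.erase (1 : DirichletCharacter ℂ M), χ (d : ZMod M)⁻¹ * A χ) := by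
    push_cast
    rw [hSA, ← Finset.add_sum_erase _ _ (mem_univ (1 : DirichletCharacter ℂ M)),
      MulChar.one_apply (by
        obtain ⟨u, hu⟩ := hdu
        rw [← hu, ZMod.inv_coe_unit]
        exact (u⁻¹).isUnit)]
    ring
  rw [← Real.norm_eq_abs, ← Complex.norm_real, hfin, norm_mul, norm_inv, Complex.norm_natCast]
  have h6 : ‖(A 1 - (Real.log x : ℂ)) + ∑ χ ∈ univ.erase (1 : DirichletCharacter ℂ M), χ (d : ZMod M)⁻¹ * A χ‖ ≤
      C1 + C2 + ∑ χ : DirichletCharacter ℂ M, Cf χ := by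
    refine (norm_add_le _ _).trans (add_le_add hone ?_)
    refine (norm_sum_le _ _).trans ?_
    refine le_trans (sum_le_sum fun χ hχ => ?_) (sum_le_sum_of_subset_of_nonneg (erase_subset _ _) fun χ _ _ => hCf0 χ)
    rw [norm_mul]
    have h7 := hCf χ (ne_of_mem_erase hχ) x hx
    have h8 := χ.norm_le_one (d : ZMod M)⁻¹
    calc ‖χ (d : ZMod M)⁻¹‖ * ‖A χ‖ ≤ 1 * Cf χ := mul_le_mul h8 h7 (norm_nonneg _) zero_le_one
      _ = Cf χ := one_mul _
  have h9 : (M.totient : ℝ)⁻¹ ≤ 1 := inv_le_one_of_one_le₀ hφ1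
  calc (M.totient : ℝ)⁻¹ * _ ≤ 1 * (C1 + C2 + ∑ χ : DirichletCharacter ℂ M, Cf χ) :=
        mul_le_mul h9 h6 (norm_nonneg _) zero_le_one
    _ = _ := one_mul _


end Pool.Agent.JB
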