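import Pool.Agent.Lib_MP_f1937f_jb.MertL

/-!
# Mertens' theorem for characters
-/

set_option autoImplicit false

namespace Pool.Agent.JB

open Finset

/-- Partial summation against a monotone weight. -/
private theorem mC_abel (χ : ℕ → ℂ) (g : ℕ → ℝ) (B : ℝ)
    (hB : ∀ k n, k ≤ n → ‖∑ d ∈ Ioc k n, χ d‖ ≤ B) (k : ℕ)
    (hg : ∀ d, k < d → g (d + 1) ≤ g d) (h0 : ∀ d, k < d → 0 ≤ g d) (N : ℕ) (hkN : k < N) :
    ‖∑ d ∈ Ioc k N, χ d * (g d : ℂ)‖ ≤ B * g (k + 1) := by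
  have hB0 : 0 ≤ B := (norm_nonneg _).trans (hB 0 0 le_rfl)
  have key : ‖∑ d ∈ Ioc k N, χ d * (g d : ℂ) - (∑ d ∈ Ioc k N, χ d) * (g N : ℂ)‖ ≤
      B * (g (k + 1) - g N) := by
    induction N, hkN using Nat.le_induction with
    | base =>
      rw [Nat.Ioc_succ_singleton]
      simp
    | succ N hN ih =>
      have hN' : k < N := hN
      rw [sum_Ioc_succ_top (by omega), sum_Ioc_succ_top (by omega)]
      have e : ∑ d ∈ Ioc k N, χ d * (g d : ℂ) + χ (N + 1) * (g (N + 1) : ℂ) -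
          (∑ d ∈ Ioc k N, χ d + χ (N + 1)) * (g (N + 1) : ℂ) =
          (∑ d ∈ Ioc k N, χ d * (g d : ℂ) - (∑ d ∈ Ioc k N, χ d) * (g N : ℂ)) +
          (∑ d ∈ Ioc k N, χ d) * ((g N - g (N + 1) : ℝ) : ℂ) := by push_cast; ring
      rw [e]
      refine (norm_add_le _ _).trans ?_
      have h1 := hg N hN'
      have h2 : ‖(∑ d ∈ Ioc k N, χ d) * ((g N - g (N + 1) : ℝ) : ℂ)‖ ≤ B * (g N - g (N + 1)) := by
        rw [norm_mul, Complex.norm_real, Real.norm_of_nonneg (sub_nonneg.2 h1)]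
        exact mul_le_mul_of_nonneg_right (hB k N hN'.le) (sub_nonneg.2 h1)
      linarith
  have h2 : ‖(∑ d ∈ Ioc k N, χ d) * (g N : ℂ)‖ ≤ B * g N := by
    rw [norm_mul, Complex.norm_real, Real.norm_of_nonneg (h0 N hkN)]
    exact mul_le_mul_of_nonneg_right (hB k N hkN.le) (h0 N hkN)
  have e : ∑ d ∈ Ioc k N, χ d * (g d : ℂ) =
      (∑ d ∈ Ioc k N, χ d * (g d : ℂ) - (∑ d ∈ Ioc k N, χ d) * (g N : ℂ)) + (∑ d ∈ Ioc k N, χ d) * (g N : ℂ) := by
    ring
  rw [e]
  refine (norm_add_le _ _).trans ?_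
  linarith

private theorem mC_conv (χ : ℕ → ℂ) (hmul : ∀ a b, χ (a * b) = χ a * χ b)
    (F G : ArithmeticFunction ℂ)
    (hF : ∀ n, F n = χ n * ((ArithmeticFunction.vonMangoldt n : ℝ) : ℂ) / (n : ℂ))
    (hG : ∀ n, G n = χ n / (n : ℂ)) (n : ℕ) :
    (F * G) n = χ n * ((Real.log n / n : ℝ) : ℂ) := by
  rw [ArithmeticFunction.mul_apply]
  have h : ∀ p ∈ n.divisorsAntidiagonal, F p.1 * G p.2
      = (χ n / n) * ((ArithmeticFunction.vonMangoldt p.1 : ℝ) : ℂ) := by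
    intro p hp
    obtain ⟨h1, h2⟩ := Nat.mem_divisorsAntidiagonal.1 hp
    rw [hF, hG, ← h1, hmul]
    push_cast
    rw [div_mul_div_comm, div_mul_eq_mul_div]
    ring
  rw [Finset.sum_congr rfl h, ← Finset.mul_sum, ← Complex.ofReal_sum,
    Nat.sum_divisorsAntidiagonal (fun a _ => ArithmeticFunction.vonMangoldt a),
    ArithmeticFunction.vonMangoldt_sum]
  push_cast
  ring

private theorem mC_char (χ : ℕ → ℂ) (hmul : ∀ a b, χ (a * b) = χ a * χ b) (habs : ∀ n, ‖χ n‖ ≤ 1)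
    (L : ℂ) (C₁ C₂ : ℝ) (hL : L ≠ 0)
    (h1 : ∀ k : ℕ, ‖∑ d ∈ Ioc 0 k, χ d / (d : ℂ) - L‖ ≤ C₁ / ((k : ℝ) + 1))
    (h2 : ∀ N : ℕ, ‖∑ n ∈ Ioc 0 N, χ n * ((Real.log n / n : ℝ) : ℂ)‖ ≤ C₂) :
    ∃ K : ℝ, 0 ≤ K ∧ ∀ N : ℕ, 1 ≤ N →
      ‖∑ n ∈ Icc 1 N, χ n * ((ArithmeticFunction.vonMangoldt n : ℝ) : ℂ) / (n : ℂ)‖ ≤ K := by
  have hC₁ : 0 ≤ C₁ := by
    have := (norm_nonneg _).trans (h1 0)
    simpa using this
  have hC₂ : 0 ≤ C₂ := (norm_nonneg _).trans (h2 0)
  have hlog4 : 0 ≤ Real.log 4 := Real.log_nonneg (by norm_num)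
  refine ⟨(C₂ + C₁ * (Real.log 4 + 4)) / ‖L‖, by positivity, fun N hN => ?_⟩
  have hIcc : Finset.Icc 1 N = Finset.Ioc 0 N := by
    ext x; simp only [Finset.mem_Icc, Finset.mem_Ioc]; omega
  rw [hIcc]
  have hNpos : (0 : ℝ) < N := by exact_mod_cast hN
  set F : ArithmeticFunction ℂ :=
    ⟨fun n => χ n * ((ArithmeticFunction.vonMangoldt n : ℝ) : ℂ) / (n : ℂ), by simp⟩ with hFdef
  set G : ArithmeticFunction ℂ := ⟨fun n => χ n / (n : ℂ), by simp⟩ with hGdef
  have hF : ∀ n, F n = χ n * ((ArithmeticFunction.vonMangoldt n : ℝ) : ℂ) / (n : ℂ) := fun n => rfl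
  have hG : ∀ n, G n = χ n / (n : ℂ) := fun n => rfl
  have hT := h2 N
  have hconv := ArithmeticFunction.sum_Ioc_mul_eq_sum_sum F G N
  rw [Finset.sum_congr rfl (fun n _ => mC_conv χ hmul F G hF hG n)] at hconv
  rw [hconv] at hT
  have hinner : ∀ k : ℕ, ‖∑ d ∈ Finset.Ioc 0 k, G d - L‖ ≤ C₁ / ((k : ℝ) + 1) := h1
  have hpsi : ∑ n ∈ Finset.Ioc 0 N, ArithmeticFunction.vonMangoldt n ≤ (Real.log 4 + 4) * N := by
    have h1 := Chebyshev.psi_le_const_mul_self (x := (N : ℝ)) hNpos.le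
    refine le_trans (le_of_eq ?_) h1
    unfold Chebyshev.psi
    rw [Nat.floor_natCast]
  set M : ℂ := ∑ n ∈ Finset.Ioc 0 N, F n with hM
  have hdiff : ‖∑ n ∈ Finset.Ioc 0 N, F n * ∑ d ∈ Finset.Ioc 0 (N / n), G d
      - L * M‖ ≤ C₁ * (Real.log 4 + 4) := by
    have e1 : ∑ n ∈ Finset.Ioc 0 N, F n * ∑ d ∈ Finset.Ioc 0 (N / n), G d
        - L * M
        = ∑ n ∈ Finset.Ioc 0 N, F n * (∑ d ∈ Finset.Ioc 0 (N / n), G d - L) := by
      rw [hM, Finset.mul_sum, ← Finset.sum_sub_distrib]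
      refine Finset.sum_congr rfl (fun n _ => ?_)
      ring
    rw [e1]
    refine (norm_sum_le _ _).trans ?_
    have h1 : ∀ n ∈ Finset.Ioc 0 N, ‖F n * (∑ d ∈ Finset.Ioc 0 (N / n), G d - L)‖
        ≤ C₁ * (ArithmeticFunction.vonMangoldt n / N) := by
      intro n hn
      rw [Finset.mem_Ioc] at hn
      have hn0 : (0 : ℝ) < n := by exact_mod_cast hn.1
      have hv : 0 ≤ ArithmeticFunction.vonMangoldt n := ArithmeticFunction.vonMangoldt_nonneg
      rw [norm_mul]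
      have h2 : ‖F n‖ ≤ ArithmeticFunction.vonMangoldt n / n := by
        rw [hF, norm_div, norm_mul, Complex.norm_real, Real.norm_of_nonneg hv, Complex.norm_natCast]
        apply div_le_div_of_nonneg_right _ hn0.le
        have := habs n
        nlinarith
      have h3 : ‖∑ d ∈ Finset.Ioc 0 (N / n), G d - L‖ ≤ C₁ * (n / N) := by
        refine (hinner (N / n)).trans ?_
        rw [div_eq_mul_one_div]
        apply mul_le_mul_of_nonneg_left _ hC₁
        rw [div_le_div_iff₀ (by positivity) hNpos, one_mul]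
        have h4 : N < n * (N / n + 1) := by
          have := Nat.lt_mul_div_succ N hn.1
          simpa [Nat.succ_eq_add_one] using this
        have h5 : (N : ℝ) < n * (((N / n : ℕ) : ℝ) + 1) := by exact_mod_cast h4
        linarith
      calc ‖F n‖ * ‖∑ d ∈ Finset.Ioc 0 (N / n), G d - L‖
          ≤ (ArithmeticFunction.vonMangoldt n / n) * (C₁ * (n / N)) := by
            apply mul_le_mul h2 h3 (norm_nonneg _) (by positivity)
        _ = C₁ * (ArithmeticFunction.vonMangoldt n / N) := by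
            field_simp
    refine (Finset.sum_le_sum h1).trans ?_
    rw [← Finset.mul_sum, ← Finset.sum_div]
    apply mul_le_mul_of_nonneg_left _ hC₁
    rw [div_le_iff₀ hNpos]
    exact hpsi
  have hMeq : ∑ n ∈ Finset.Ioc 0 N, χ n *
      ((ArithmeticFunction.vonMangoldt n : ℝ) : ℂ) / (n : ℂ) = M := rfl
  rw [hMeq]
  have h6 : ‖L * M‖ ≤ C₂ + C₁ * (Real.log 4 + 4) := by
    have e : L * M = ∑ n ∈ Finset.Ioc 0 N, F n * ∑ d ∈ Finset.Ioc 0 (N / n), G d -
        (∑ n ∈ Finset.Ioc 0 N, F n * ∑ d ∈ Finset.Ioc 0 (N / n), G d - L * M) := by ring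
    rw [e]
    refine (norm_sub_le _ _).trans ?_
    linarith
  rw [norm_mul] at h6
  rw [le_div_iff₀ (norm_pos_iff.2 hL)]
  linarith

/-- partial sums of a nontrivial character -/
private theorem mC_sum (M : ℕ) [NeZero M] (χ : DirichletCharacter ℂ M) (hχ : χ ≠ 1) (N : ℕ) :
    ‖∑ n ∈ range N, χ (n : ZMod M)‖ ≤ M := by
  have hM : 0 < M := NeZero.pos M
  have hper : ∑ n ∈ range M, χ (n : ZMod M) = 0 := by
    rw [← MulChar.sum_eq_zero_of_ne_one hχ]
    refine sum_nbij' (fun a => (a : ZMod M)) (fun x => x.val) ?_ ?_ ?_ ?_ ?_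
    · intro a _
      exact mem_univ _
    · intro x _
      rw [mem_range]
      exact ZMod.val_lt x
    · intro a ha
      rw [mem_range] at ha
      exact ZMod.val_cast_of_lt ha
    · intro x _
      exact ZMod.natCast_zmod_val x
    · intro a _
      rfl
  have hadd : ∀ N : ℕ, ∑ n ∈ range (M + N), χ (n : ZMod M) = ∑ n ∈ range N, χ (n : ZMod M) := by
    intro N
    rw [sum_range_add, hper, zero_add]
    refine sum_congr rfl fun n _ => ?_
    congr 1
    push_cast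
    rw [ZMod.natCast_self, zero_add]
  induction N using Nat.strong_induction_on with
  | _ N ih =>
    by_cases h : N < M
    · refine (norm_sum_le _ _).trans ?_
      calc ∑ n ∈ range N, ‖χ (n : ZMod M)‖ ≤ ∑ _n ∈ range N, (1 : ℝ) := sum_le_sum fun n _ => χ.norm_le_one _
        _ = N := by simp
        _ ≤ M := by exact_mod_cast h.le
    · obtain ⟨K, rfl⟩ : ∃ K, N = M + K := ⟨N - M, by omega⟩
      rw [hadd]
      exact ih K (by omega)

/-- PIECE [JB-M2] (about 180 lines). PROOF. `Λ * 1 = log`, so `∑_{n ≤ x} χ n log n / n = ∑_{m ≤ x} (χ m Λ m / m) ∑_{k ≤ x / m} χ k / k`. The left side is bounded (partial summation: the partial sums of `χ` are bounded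
and `log n / n` is decreasing for `n ≥ 3`). By `mert_L` the right side is `l ∑_{m ≤ x} χ m Λ m / m + O(∑_{m ≤ x} (Λ m / m) / ⌊x / m⌋)`, and `1 / ⌊x / m⌋ ≤ 2 m / x`, so the error is
`O(ψ(x) / x) = O(1)` (`Chebyshev.psi_le_const_mul_self`). Divide by `l`. See `mert_chi` in `Lib_MP_f1a94e_mr` (the case of the character mod 4). -/
theorem mert_C (M : ℕ) [NeZero M] (χ : DirichletCharacter ℂ M) (hχ : χ ≠ 1) : ∃ C : ℝ, 0 ≤ C ∧ ∀ x : ℕ, 1 ≤ x →
    ‖∑ n ∈ Icc 1 x, χ (n : ZMod M) * ((ArithmeticFunction.vonMangoldt n : ℝ) : ℂ) / (n : ℂ)‖ ≤ C := by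
  obtain ⟨l, C, hl, hC, hlC⟩ := mert_L M χ hχ
  have hIoc : ∀ k : ℕ, Ioc 0 k = Icc 1 k := by
    intro k
    ext x; simp only [Finset.mem_Icc, Finset.mem_Ioc]; omega
  have habs : ∀ n : ℕ, ‖χ (n : ZMod M)‖ ≤ 1 := fun n => χ.norm_le_one _
  have hB : ∀ k n : ℕ, k ≤ n → ‖∑ d ∈ Ioc k n, χ (d : ZMod M)‖ ≤ 2 * M := by
    intro k n hkn
    have e : ∑ d ∈ Ioc k n, χ (d : ZMod M) = ∑ d ∈ range (n + 1), χ (d : ZMod M) - ∑ d ∈ range (k + 1), χ (d : ZMod M) := by
      rw [← sum_Ico_eq_sub _ (by omega)]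
      congr 1
      ext x; simp only [Finset.mem_Ico, Finset.mem_Ioc]; omega
    rw [e]
    refine (norm_sub_le _ _).trans ?_
    have h1 := mC_sum M χ hχ (n + 1)
    have h2 := mC_sum M χ hχ (k + 1)
    linarith
  refine mC_char (fun n => χ (n : ZMod M)) (fun a b => by push_cast; exact map_mul χ _ _) habs l (2 * C + ‖l‖)
    (1 + 2 * M * (Real.log 3 / 3)) hl ?_ ?_
  · intro k
    rcases Nat.eq_zero_or_pos k with rfl | hk
    · simp
      linarith
    · rw [hIoc]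
      refine (hlC k hk).trans ?_
      have hk1 : (1 : ℝ) ≤ k := by exact_mod_cast hk
      rw [div_le_div_iff₀ (by linarith) (by linarith)]
      nlinarith [norm_nonneg l]
  · intro N
    have hlog2 : Real.log 2 ≤ 1 := by
      have := Real.log_two_lt_d9
      linarith
    have hlog2' : 0 ≤ Real.log 2 := Real.log_nonneg (by norm_num)
    have hlog3 : 0 ≤ Real.log 3 := Real.log_nonneg (by norm_num)
    have hsmall : ∀ m : ℕ, m ≤ 2 → ‖∑ n ∈ Ioc 0 m, χ (n : ZMod M) * ((Real.log n / n : ℝ) : ℂ)‖ ≤ 1 := by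
      intro m hm
      interval_cases m
      · simp
      · rw [show Ioc 0 1 = {1} from rfl]
        simp
      · rw [show Ioc 0 2 = {1, 2} from rfl, Finset.sum_insert (by simp), Finset.sum_singleton]
        simp only [Nat.cast_one, Real.log_one, zero_div, Complex.ofReal_zero, mul_zero, zero_add, Nat.cast_ofNat]
        rw [norm_mul, Complex.norm_real, Real.norm_of_nonneg (by positivity : 0 ≤ Real.log 2 / 2)]
        have := χ.norm_le_one (2 : ZMod M)
        nlinarith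
    rcases le_or_gt N 2 with h | h
    · exact (hsmall N h).trans (by
        have : 0 ≤ 2 * (M : ℝ) * (Real.log 3 / 3) := by positivity
        linarith)
    · rw [← Finset.sum_Ioc_consecutive _ (Nat.zero_le 2) h.le]
      refine (norm_add_le _ _).trans (add_le_add (hsmall 2 le_rfl) ?_)
      have h3 := mC_abel (fun n => χ (n : ZMod M)) (fun d => Real.log d / (d : ℝ)) (2 * M) hB 2 (fun d hd => by
        have he : Real.exp 1 ≤ 3 := by
          have := Real.exp_one_lt_d9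
          linarith
        have hd3 : (3 : ℝ) ≤ (d : ℝ) := by exact_mod_cast hd
        have hd4 : (d : ℝ) ≤ ((d + 1 : ℕ) : ℝ) := by push_cast; linarith
        exact Real.log_div_self_antitoneOn (he.trans hd3) (he.trans (hd3.trans hd4)) hd4)
        (fun d hd => by
          have : (1 : ℝ) ≤ (d : ℝ) := by exact_mod_cast (by omega : 1 ≤ d)
          have := Real.log_nonneg this
          positivity) N h
      refine h3.trans_eq ?_
      norm_num


end Pool.Agent.JB
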