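import Pool.Agent.Lib_MP_f1937f_jb.Defs

/-!
# Partial sums of L(1, χ)
-/

set_option autoImplicit false

namespace Pool.Agent.JB

open Finset

/-- Partial summation against a monotone weight. -/
private theorem mL_abel (χ : ℕ → ℂ) (g : ℕ → ℝ) (B : ℝ)
    (hB : ∀ k n, k ≤ n → ‖∑ d ∈ Ioc k n, χ d‖ ≤ B) (k : ℕ)
    (hg : ∀ d, k < d → g (d + 1) ≤ g d) (h0 : ∀ d, k < d → 0 ≤ g d) (N : ℕ) (hkN : k < N) :
    ‖∑ d ∈ Ioc k N, χ d * (g d : ℂ)‖ ≤ B * g (k + 1) := by
  have hB0 : 0 ≤ B := (norm_nonneg _).trans (hB 0 0 le_rfl)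
  have key : ‖∑ d ∈ Ioc k N, χ d * (g d : ℂ) - (∑ d ∈ Ioc k N, χ d) * (g N : ℂ)‖ ≤
      B * (g (k + 1) - g N) := by
    induction N, hkN using Nat.le_induction with
    | base =>
      rw [Nat.Ioc_succ_singleton]
      simp
    | succ N hN ih =>
      have hN' : k < N := hN
      rw [sum_Ioc_succ_top (by omega), sum_Ioc_succ_top (by omega)]
      have e : ∑ d ∈ Ioc k N, χ d * (g d : ℂ) + χ (N + 1) * (g (N + 1) : ℂ) -
          (∑ d ∈ Ioc k N, χ d + χ (N + 1)) * (g (N + 1) : ℂ) =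
          (∑ d ∈ Ioc k N, χ d * (g d : ℂ) - (∑ d ∈ Ioc k N, χ d) * (g N : ℂ)) +
          (∑ d ∈ Ioc k N, χ d) * ((g N - g (N + 1) : ℝ) : ℂ) := by push_cast; ring
      rw [e]
      refine (norm_add_le _ _).trans ?_
      have h1 := hg N hN'
      have h2 : ‖(∑ d ∈ Ioc k N, χ d) * ((g N - g (N + 1) : ℝ) : ℂ)‖ ≤ B * (g N - g (N + 1)) := by
        rw [norm_mul, Complex.norm_real, Real.norm_of_nonneg (sub_nonneg.2 h1)]
        exact mul_le_mul_of_nonneg_right (hB k N hN'.le) (sub_nonneg.2 h1)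
      linarith
  have h2 : ‖(∑ d ∈ Ioc k N, χ d) * (g N : ℂ)‖ ≤ B * g N := by
    rw [norm_mul, Complex.norm_real, Real.norm_of_nonneg (h0 N hkN)]
    exact mul_le_mul_of_nonneg_right (hB k N hkN.le) (h0 N hkN)
  have e : ∑ d ∈ Ioc k N, χ d * (g d : ℂ) =
      (∑ d ∈ Ioc k N, χ d * (g d : ℂ) - (∑ d ∈ Ioc k N, χ d) * (g N : ℂ)) + (∑ d ∈ Ioc k N, χ d) * (g N : ℂ) := by
    ring
  rw [e]
  refine (norm_add_le _ _).trans ?_
  linarith

/-- partial sums of a nontrivial character -/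
private theorem mL_sum (M : ℕ) [NeZero M] (χ : DirichletCharacter ℂ M) (hχ : χ ≠ 1) (N : ℕ) :
    ‖∑ n ∈ range N, χ (n : ZMod M)‖ ≤ M := by
  have hM : 0 < M := NeZero.pos M
  have hper : ∑ n ∈ range M, χ (n : ZMod M) = 0 := by
    rw [← MulChar.sum_eq_zero_of_ne_one hχ]
    refine sum_nbij' (fun a => (a : ZMod M)) (fun x => x.val) ?_ ?_ ?_ ?_ ?_
    · intro a _
      exact mem_univ _
    · intro x _
      rw [mem_range]
      exact ZMod.val_lt x
    · intro a ha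
      rw [mem_range] at ha
      exact ZMod.val_cast_of_lt ha
    · intro x _
      exact ZMod.natCast_zmod_val x
    · intro a _
      rfl
  have hadd : ∀ N : ℕ, ∑ n ∈ range (M + N), χ (n : ZMod M) = ∑ n ∈ range N, χ (n : ZMod M) := by
    intro N
    rw [sum_range_add, hper, zero_add]
    refine sum_congr rfl fun n _ => ?_
    congr 1
    push_cast
    rw [ZMod.natCast_self, zero_add]
  induction N using Nat.strong_induction_on with
  | _ N ih =>
    by_cases h : N < M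
    · refine (norm_sum_le _ _).trans ?_
      calc ∑ n ∈ range N, ‖χ (n : ZMod M)‖ ≤ ∑ _n ∈ range N, (1 : ℝ) := sum_le_sum fun n _ => χ.norm_le_one _
        _ = N := by simp
        _ ≤ M := by exact_mod_cast h.le
    · obtain ⟨K, rfl⟩ : ∃ K, N = M + K := ⟨N - M, by omega⟩
      rw [hadd]
      exact ih K (by omega)

open Filter Topology in
/-- PIECE [JB-M1] (about 150 lines). PROOF. The partial sums of `χ` over intervals are bounded by `M` (`χ ≠ 1`: the sum over a full period is `0`,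
`DirichletCharacter` / `MulChar.sum_eq_zero_of_ne_one`; cf. `Lib_MP_92ef0c_lb/PerS.lean`, `chi_sum`). Partial summation: for `s ≥ 1`, `y ≤ z`,
`|∑_{y < k ≤ z} χ k / k ^ s| ≤ 2 M / y`. So `∑ χ k / k` converges, to `l` say, with `|∑_{k ≤ y} χ k / k - l| ≤ 2 M / y`, and letting `s → 1+` in the bound for the tails,
`∑ χ k k ^ (-s) → l`. As `LFunction χ` is continuous (`DirichletCharacter.differentiable_LFunction`) and equals the series for `s > 1`, `l = LFunction χ 1 ≠ 0`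
(`DirichletCharacter.LFunction_apply_one_ne_zero`). -/
theorem mert_L (M : ℕ) [NeZero M] (χ : DirichletCharacter ℂ M) (hχ : χ ≠ 1) : ∃ (l : ℂ) (C : ℝ), l ≠ 0 ∧ 0 ≤ C ∧
    ∀ y : ℕ, 1 ≤ y → ‖∑ k ∈ Icc 1 y, χ (k : ZMod M) / (k : ℂ) - l‖ ≤ C / y := by
  have hMr : (0 : ℝ) ≤ M := Nat.cast_nonneg M
  refine ⟨DirichletCharacter.LFunction χ 1, 2 * M, DirichletCharacter.LFunction_apply_one_ne_zero hχ, by positivity,
    fun y hy => ?_⟩
  have hyr : (1 : ℝ) ≤ y := by exact_mod_cast hy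
  have hB : ∀ k n : ℕ, k ≤ n → ‖∑ d ∈ Ioc k n, χ (d : ZMod M)‖ ≤ 2 * M := by
    intro k n hkn
    have e : ∑ d ∈ Ioc k n, χ (d : ZMod M) = ∑ d ∈ range (n + 1), χ (d : ZMod M) - ∑ d ∈ range (k + 1), χ (d : ZMod M) := by
      rw [← sum_Ico_eq_sub _ (by omega)]
      congr 1
      ext x; simp only [Finset.mem_Ico, Finset.mem_Ioc]; omega
    rw [e]
    refine (norm_sub_le _ _).trans ?_
    have h1 := mL_sum M χ hχ (n + 1)
    have h2 := mL_sum M χ hχ (k + 1)
    linarith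
  -- the bound for `σ > 1`
  have hmain : ∀ σ : ℝ, 1 < σ →
      ‖∑ k ∈ Icc 1 y, χ (k : ZMod M) / (k : ℂ) ^ (σ : ℂ) - DirichletCharacter.LFunction χ (σ : ℂ)‖ ≤ 2 * M / y := by
    intro σ hσ
    have hσ' : 1 < (σ : ℂ).re := by simpa using hσ
    have hs : HasSum (LSeries.term (fun n => χ (n : ZMod M)) (σ : ℂ)) (DirichletCharacter.LFunction χ (σ : ℂ)) := by
      rw [DirichletCharacter.LFunction_eq_LSeries χ hσ']
      exact (DirichletCharacter.LSeriesSummable_of_one_lt_re χ hσ').hasSum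
    have ht := hs.tendsto_sum_nat
    have ht2 : Tendsto (fun N : ℕ => ‖∑ k ∈ Icc 1 y, χ (k : ZMod M) / (k : ℂ) ^ (σ : ℂ) -
        ∑ i ∈ range (N + 1), LSeries.term (fun n => χ (n : ZMod M)) (σ : ℂ) i‖) atTop
        (𝓝 ‖∑ k ∈ Icc 1 y, χ (k : ZMod M) / (k : ℂ) ^ (σ : ℂ) - DirichletCharacter.LFunction χ (σ : ℂ)‖) :=
      ((tendsto_const_nhds).sub (ht.comp (tendsto_add_atTop_nat 1))).norm
    refine le_of_tendsto ht2 ?_
    filter_upwards [eventually_gt_atTop y] with N hN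
    have hterm : ∀ n : ℕ, 1 ≤ n → LSeries.term (fun n => χ (n : ZMod M)) (σ : ℂ) n = χ (n : ZMod M) / (n : ℂ) ^ (σ : ℂ) := by
      intro n hn
      rw [LSeries.term_of_ne_zero (by omega)]
    have e1 : ∑ i ∈ range (N + 1), LSeries.term (fun n => χ (n : ZMod M)) (σ : ℂ) i =
        ∑ k ∈ Icc 1 y, χ (k : ZMod M) / (k : ℂ) ^ (σ : ℂ) + ∑ k ∈ Ioc y N, χ (k : ZMod M) / (k : ℂ) ^ (σ : ℂ) := by
      rw [range_eq_Ico, sum_eq_sum_Ico_succ_bot (by omega), LSeries.term_zero, zero_add,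
        show Ico (0 + 1) (N + 1) = Ioc 0 N by ext x; simp only [Finset.mem_Ico, Finset.mem_Ioc]; omega,
        show Icc 1 y = Ioc 0 y by ext x; simp only [Finset.mem_Icc, Finset.mem_Ioc]; omega,
        sum_Ioc_consecutive _ (Nat.zero_le y) hN.le]
      refine sum_congr rfl fun n hn => hterm n ?_
      rw [Finset.mem_Ioc] at hn
      omega
    rw [e1, sub_add_cancel_left, norm_neg]
    have e2 : ∀ k ∈ Ioc y N, χ (k : ZMod M) / (k : ℂ) ^ (σ : ℂ) = χ (k : ZMod M) * (((k : ℝ) ^ (-σ) : ℝ) : ℂ) := by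
      intro k _
      rw [Complex.ofReal_cpow (Nat.cast_nonneg k), Complex.ofReal_neg, Complex.cpow_neg, div_eq_mul_inv]
      norm_num
    rw [sum_congr rfl e2]
    refine (mL_abel (fun k => χ (k : ZMod M)) (fun d => (d : ℝ) ^ (-σ)) (2 * M) hB y ?_ ?_ N hN).trans ?_
    · intro d hd
      have hd0 : (0 : ℝ) < d := by exact_mod_cast (by omega : 0 < d)
      exact Real.rpow_le_rpow_of_nonpos hd0 (by push_cast; linarith) (by linarith)
    · intro d _
      exact Real.rpow_nonneg (Nat.cast_nonneg d) _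
    · rw [div_eq_mul_inv]
      refine mul_le_mul_of_nonneg_left ?_ (by positivity)
      have h1 : ((y + 1 : ℕ) : ℝ) ^ (-σ) ≤ ((y + 1 : ℕ) : ℝ) ^ (-(1 : ℝ)) :=
        Real.rpow_le_rpow_of_exponent_le (by push_cast; linarith) (by linarith)
      refine h1.trans ?_
      rw [Real.rpow_neg (Nat.cast_nonneg _), Real.rpow_one]
      exact inv_anti₀ (by linarith) (by push_cast; linarith)
  -- continuity at `1`
  have hcont : Continuous (DirichletCharacter.LFunction χ) := (DirichletCharacter.differentiable_LFunction hχ).continuous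
  have hofr : Tendsto (fun σ : ℝ => (σ : ℂ)) (𝓝[>] 1) (𝓝 ((1 : ℝ) : ℂ)) :=
    (Complex.continuous_ofReal.tendsto 1).mono_left nhdsWithin_le_nhds
  rw [Complex.ofReal_one] at hofr
  have hlim : Tendsto (fun σ : ℝ => ‖∑ k ∈ Icc 1 y, χ (k : ZMod M) / (k : ℂ) ^ (σ : ℂ) -
      DirichletCharacter.LFunction χ (σ : ℂ)‖) (𝓝[>] 1)
      (𝓝 ‖∑ k ∈ Icc 1 y, χ (k : ZMod M) / (k : ℂ) ^ (1 : ℂ) - DirichletCharacter.LFunction χ 1‖) := by
    refine (Tendsto.sub (tendsto_finsetSum _ fun k hk => ?_) ((hcont.tendsto 1).comp hofr)).norm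
    rw [Finset.mem_Icc] at hk
    have hk0 : (k : ℂ) ≠ 0 := by exact_mod_cast (by omega : k ≠ 0)
    have h1 : Tendsto (fun σ : ℝ => (k : ℂ) ^ (σ : ℂ)) (𝓝[>] 1) (𝓝 ((k : ℂ) ^ (1 : ℂ))) :=
      ((continuousAt_const_cpow hk0).tendsto).comp hofr
    exact tendsto_const_nhds.div h1 (by rw [Complex.cpow_one]; exact hk0)
  have hfin := le_of_tendsto hlim (eventually_nhdsWithin_of_forall fun σ hσ => hmain σ hσ)
  simpa only [Complex.cpow_one] using hfin


end Pool.Agent.JB
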