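import Pool.Agent.Lib_MP_f1937f_jb.Bes
import Pool.Agent.Lib_MP_f1937f_tb.Prog

/-!
# Poisson summation
-/

set_option autoImplicit false

namespace Pool.Agent.JB

open Finset Pool.Agent.TB


/-- the clipped function -/
private noncomputable def pf (p k : ℕ) (y : ℝ) : ℝ :=
  Real.sin ((k + 1) * Real.arccos (y / (2 * √(p : ℝ)))) / (Real.pi * √(p : ℝ))

private theorem pf_cont (p k : ℕ) : Continuous (pf p k) := by
  unfold pf
  exact (Real.continuous_sin.comp (continuous_const.mul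
    (Real.continuous_arccos.comp (continuous_id.div_const _)))).div_const _

private theorem pf_zero_right (p k : ℕ) (hp : 1 ≤ p) (y : ℝ) (hy : 2 * √(p : ℝ) ≤ y) : pf p k y = 0 := by
  have hN : 0 < 2 * √(p : ℝ) := by
    have : (0 : ℝ) < p := by exact_mod_cast hp
    positivity
  have h1 : 1 ≤ y / (2 * √(p : ℝ)) := by
    rw [le_div_iff₀ hN]; linarith
  unfold pf
  rw [Real.arccos_of_one_le h1]
  simp

private theorem pf_zero_left (p k : ℕ) (hp : 1 ≤ p) (y : ℝ) (hy : y ≤ -(2 * √(p : ℝ))) : pf p k y = 0 := by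
  have hN : 0 < 2 * √(p : ℝ) := by
    have : (0 : ℝ) < p := by exact_mod_cast hp
    positivity
  have h1 : y / (2 * √(p : ℝ)) ≤ -1 := by
    rw [div_le_iff₀ hN]; linarith
  unfold pf
  rw [Real.arccos_of_le_neg_one h1]
  have h2 : Real.sin (((k : ℝ) + 1) * Real.pi) = 0 := by
    have := Real.sin_nat_mul_pi (k + 1)
    push_cast at this
    exact this
  rw [h2, zero_div]

private theorem dsin (c θ : ℝ) : HasDerivAt (fun θ : ℝ => Real.sin (c * θ)) (Real.cos (c * θ) * c) θ := by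
  have h := (hasDerivAt_id θ).const_mul c
  simp only [id, mul_one] at h
  exact h.sin

private theorem pf_int (p : ℕ) (hp : 1 ≤ p) (k : ℕ) :
    ∫ y in (-(2 * √(p : ℝ)))..(2 * √(p : ℝ)), pf p k y = if k = 0 then 1 else 0 := by
  have hp' : (0 : ℝ) < p := by exact_mod_cast hp
  have hs : 0 < √(p : ℝ) := Real.sqrt_pos.2 hp'
  set N : ℝ := 2 * √(p : ℝ) with hN
  have hNpos : 0 < N := by positivity
  -- substitution
  have h1 : ∫ θ in (0 : ℝ)..Real.pi, (pf p k ∘ fun θ => N * Real.cos θ) θ * (-(N * Real.sin θ)) =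
      ∫ y in (N * Real.cos 0)..(N * Real.cos Real.pi), pf p k y := by
    apply intervalIntegral.integral_comp_mul_deriv
    · intro θ _
      have := (Real.hasDerivAt_cos θ).const_mul N
      rw [mul_neg] at this
      exact this
    · exact (by fun_prop : Continuous fun θ : ℝ => -(N * Real.sin θ)).continuousOn
    · exact pf_cont p k
  rw [Real.cos_zero, Real.cos_pi, mul_one, mul_neg_one] at h1
  rw [intervalIntegral.integral_symm, ← h1, ← intervalIntegral.integral_neg]
  have h2 : ∫ θ in (0 : ℝ)..Real.pi, -((pf p k ∘ fun θ => N * Real.cos θ) θ * (-(N * Real.sin θ))) =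
      ∫ θ in (0 : ℝ)..Real.pi, (2 / Real.pi) * (Real.sin ((k + 1) * θ) * Real.sin θ) := by
    apply intervalIntegral.integral_congr
    intro θ hθ
    rw [Set.uIcc_of_le Real.pi_pos.le] at hθ
    show -((pf p k (N * Real.cos θ)) * (-(N * Real.sin θ))) = _
    unfold pf
    rw [← hN, mul_div_cancel_left₀ _ hNpos.ne', Real.arccos_cos hθ.1 hθ.2, hN]
    have hpi := Real.pi_pos
    field_simp
  rw [h2, intervalIntegral.integral_const_mul]
  by_cases hk : k = 0
  · subst hk
    simp only [Nat.cast_zero, zero_add, one_mul, if_true]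
    have h3 : ∫ θ in (0 : ℝ)..Real.pi, Real.sin θ * Real.sin θ = Real.pi / 2 := by
      have h4 := @integral_sin_sq 0 Real.pi
      simp only [pow_two, Real.sin_zero, Real.sin_pi, zero_mul, sub_zero, zero_add] at h4
      rw [h4]
    rw [h3]
    have hpi := Real.pi_pos
    field_simp
  · rw [if_neg hk]
    have hk0 : (0 : ℝ) < k := by exact_mod_cast Nat.pos_of_ne_zero hk
    have h3 : ∫ θ in (0 : ℝ)..Real.pi, Real.sin ((k + 1) * θ) * Real.sin θ = 0 := by
      have h4 : ∀ θ ∈ Set.uIcc (0 : ℝ) Real.pi, HasDerivAt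
          (fun θ : ℝ => Real.sin (k * θ) / (2 * k) - Real.sin ((k + 2) * θ) / (2 * (k + 2)))
          (Real.sin ((k + 1) * θ) * Real.sin θ) θ := by
        intro θ _
        have h5 := dsin (k : ℝ) θ
        have h6 := dsin ((k : ℝ) + 2) θ
        have h7 := (h5.div_const (2 * (k : ℝ))).sub (h6.div_const (2 * ((k : ℝ) + 2)))
        refine HasDerivAt.congr_deriv h7 ?_
        have e1 : (k : ℝ) * θ = ((k : ℝ) + 1) * θ - θ := by ring
        have e2 : ((k : ℝ) + 2) * θ = ((k : ℝ) + 1) * θ + θ := by ring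
        have e3 : (k : ℝ) + 2 ≠ 0 := by positivity
        have e4 : Real.cos ((k : ℝ) * θ) * k / (2 * k) = Real.cos ((k : ℝ) * θ) / 2 := by
          field_simp
        have e5 : Real.cos (((k : ℝ) + 2) * θ) * (k + 2) / (2 * (k + 2)) =
            Real.cos (((k : ℝ) + 2) * θ) / 2 := by
          field_simp
        rw [e4, e5, e1, e2, Real.cos_sub, Real.cos_add]
        ring
      rw [intervalIntegral.integral_eq_sub_of_hasDerivAt h4
        ((by fun_prop : Continuous fun θ : ℝ =>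
          Real.sin ((k + 1) * θ) * Real.sin θ).intervalIntegrable _ _)]
      have e6 : Real.sin ((k : ℝ) * Real.pi) = 0 := Real.sin_nat_mul_pi k
      have e7 : Real.sin (((k : ℝ) + 2) * Real.pi) = 0 := by
        have := Real.sin_nat_mul_pi (k + 2)
        push_cast at this
        exact this
      simp [e6, e7]
    rw [h3, mul_zero]

private theorem mem_V_iff (p : ℕ) (a : ℤ) : a ∈ V p ↔ |(a : ℝ)| ≤ 2 * √(p : ℝ) := by
  unfold V
  rw [Finset.mem_Icc, ← abs_le]
  have h1 : (2 * √(p : ℝ)) = √((4 * p : ℕ) : ℝ) := by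
    push_cast
    rw [Real.sqrt_mul (by norm_num), show (4 : ℝ) = 2 ^ 2 by norm_num, Real.sqrt_sq (by norm_num)]
  rw [h1]
  constructor
  · intro h
    apply Real.le_sqrt_of_sq_le
    have h2 : |a| ^ 2 ≤ ((Nat.sqrt (4 * p) : ℕ) : ℤ) ^ 2 := by
      gcongr
    have h3 : ((Nat.sqrt (4 * p) : ℕ) : ℤ) ^ 2 ≤ ((4 * p : ℕ) : ℤ) := by
      have := Nat.sqrt_le' (4 * p)
      exact_mod_cast this
    have h4 := h2.trans h3
    exact_mod_cast h4
  · intro h
    have h2 : |(a : ℝ)| ^ 2 ≤ ((4 * p : ℕ) : ℝ) := by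
      have h3 := Real.sq_sqrt (by positivity : (0 : ℝ) ≤ ((4 * p : ℕ) : ℝ))
      rw [← h3]
      gcongr
    have h3 : a.natAbs ^ 2 ≤ 4 * p := by
      have h4 : ((a.natAbs : ℕ) : ℝ) = |(a : ℝ)| := by
        rw [Nat.cast_natAbs, Int.cast_abs]
      rw [← h4] at h2
      exact_mod_cast h2
    have h5 : a.natAbs ≤ Nat.sqrt (4 * p) := Nat.le_sqrt'.2 h3
    rw [← Int.natCast_natAbs]
    exact_mod_cast h5

private theorem pf_eq (p : ℕ) (hp : 1 ≤ p) (k : ℕ) (a : ℤ) (ha : a ∈ V p) :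
    sw p a * Uk k (xx p a) = pf p k a := by
  have hp' : (0 : ℝ) < p := by exact_mod_cast hp
  have hs : 0 < √(p : ℝ) := Real.sqrt_pos.2 hp'
  rw [mem_V_iff] at ha
  have ha1 := abs_le.1 ha
  have hN : (0 : ℝ) < 2 * √(p : ℝ) := by positivity
  have h1 : -1 ≤ (a : ℝ) / (2 * √(p : ℝ)) := by
    rw [le_div_iff₀ hN]; linarith [ha1.1]
  have h2 : (a : ℝ) / (2 * √(p : ℝ)) ≤ 1 := by
    rw [div_le_iff₀ hN]; linarith [ha1.2]
  set θ := Real.arccos ((a : ℝ) / (2 * √(p : ℝ))) with hθ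
  have hcos : Real.cos θ = (a : ℝ) / (2 * √(p : ℝ)) := Real.cos_arccos h1 h2
  have hsin : Real.sin θ = √(1 - ((a : ℝ) / (2 * √(p : ℝ))) ^ 2) := Real.sin_arccos _
  have hU := Uk_cos k θ
  unfold pf
  rw [← hθ, ← hU, hcos]
  unfold sw xx
  have h3 : √(4 * (p : ℝ) - (a : ℝ) ^ 2) = (2 * √(p : ℝ)) * Real.sin θ := by
    rw [hsin]
    rw [show (4 * (p : ℝ) - (a : ℝ) ^ 2) = (2 * √(p : ℝ)) ^ 2 * (1 - ((a : ℝ) / (2 * √(p : ℝ))) ^ 2) by
      rw [div_pow, mul_pow, Real.sq_sqrt hp'.le]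
      field_simp
      ring]
    rw [Real.sqrt_mul (by positivity), Real.sqrt_sq hN.le]
  rw [h3]
  have h4 : (2 * √(p : ℝ)) * Real.sin θ / (2 * Real.pi * p) = Real.sin θ / (Real.pi * √(p : ℝ)) := by
    have h5 : (p : ℝ) = √(p : ℝ) * √(p : ℝ) := (Real.mul_self_sqrt hp'.le).symm
    rw [div_eq_div_iff (by positivity) (by positivity)]
    calc 2 * √(p : ℝ) * Real.sin θ * (Real.pi * √(p : ℝ)) =
        Real.sin θ * (2 * Real.pi * (√(p : ℝ) * √(p : ℝ))) := by ring
      _ = _ := by rw [← h5]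
  rw [h4]
  ring

private theorem JI_neg (n : ℕ) (z : ℝ) : ‖JI n (-z)‖ = ‖JI n z‖ := by
  have h1 : JI n (-z) = (-1 : ℂ) ^ n * JI n z := by
    unfold JI
    rw [← intervalIntegral.integral_const_mul]
    have h2 := intervalIntegral.integral_comp_sub_left (a := (0 : ℝ)) (b := Real.pi)
      (fun θ : ℝ => (Real.cos (n * θ) : ℂ) * Complex.exp (((-z * Real.cos θ : ℝ) : ℂ) * Complex.I)) Real.pi
    rw [sub_self, sub_zero] at h2
    rw [← h2]
    apply intervalIntegral.integral_congr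
    intro θ _
    show (Real.cos (n * (Real.pi - θ)) : ℂ) * Complex.exp (((-z * Real.cos (Real.pi - θ) : ℝ) : ℂ) * Complex.I) =
      (-1 : ℂ) ^ n * ((Real.cos (n * θ) : ℂ) * Complex.exp (((z * Real.cos θ : ℝ) : ℂ) * Complex.I))
    have e1 : Real.cos (n * (Real.pi - θ)) = (-1) ^ n * Real.cos (n * θ) := by
      rw [mul_sub, Real.cos_nat_mul_pi_sub]
    have e2 : -z * Real.cos (Real.pi - θ) = z * Real.cos θ := by
      rw [Real.cos_pi_sub]
      ring
    rw [e1, e2]
    push_cast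
    ring
  rw [h1, norm_mul, norm_pow, norm_neg, norm_one, one_pow, one_mul]

private theorem JI_abs (n : ℕ) (z : ℝ) : ‖JI n |z|‖ = ‖JI n z‖ := by
  rcases abs_cases z with ⟨h, _⟩ | ⟨h, _⟩
  · rw [h]
  · rw [h, JI_neg]

/-- the Fourier integral of the clipped function -/
private theorem pf_fourier (p k : ℕ) (hp : 1 ≤ p) (w : ℝ) (hw : w ≠ 0) :
    ‖∫ y in (-(2 * √(p : ℝ)))..(2 * √(p : ℝ)), Complex.exp (((-2 * Real.pi * y * w : ℝ) : ℂ) * Complex.I) *
      (pf p k y : ℂ)‖ = (k + 1) / (2 * Real.pi ^ 2 * √(p : ℝ) * |w|) * ‖JI (k + 1) (4 * Real.pi * √(p : ℝ) * |w|)‖ := by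
  have hp' : (0 : ℝ) < p := by exact_mod_cast hp
  have hs : 0 < √(p : ℝ) := Real.sqrt_pos.2 hp'
  have hpi := Real.pi_pos
  set N : ℝ := 2 * √(p : ℝ) with hN
  have hNpos : 0 < N := by positivity
  set z : ℝ := 2 * Real.pi * w * N with hz
  have hz0 : z ≠ 0 := by
    rw [hz]
    have : (2 * Real.pi) ≠ 0 := by positivity
    exact mul_ne_zero (mul_ne_zero this hw) hNpos.ne'
  have hzc : (z : ℂ) ≠ 0 := by exact_mod_cast hz0
  set F : ℝ → ℂ := fun y => Complex.exp (((-2 * Real.pi * y * w : ℝ) : ℂ) * Complex.I) * (pf p k y : ℂ) with hF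
  have hFc : Continuous F := by
    have h1 := pf_cont p k
    have h2 : Continuous fun y : ℝ => ((pf p k y : ℝ) : ℂ) := Complex.continuous_ofReal.comp h1
    exact (by fun_prop : Continuous fun y : ℝ => Complex.exp (((-2 * Real.pi * y * w : ℝ) : ℂ) * Complex.I)).mul h2
  have h1 : ∫ θ in (0 : ℝ)..Real.pi, (-(N * Real.sin θ)) • (F ∘ fun θ => N * Real.cos θ) θ =
      ∫ y in (N * Real.cos 0)..(N * Real.cos Real.pi), F y := by
    apply intervalIntegral.integral_deriv_smul_comp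
    · intro θ _
      have := (Real.hasDerivAt_cos θ).const_mul N
      rw [mul_neg] at this
      exact this
    · exact (by fun_prop : Continuous fun θ : ℝ => -(N * Real.sin θ)).continuousOn
    · exact hFc
  rw [Real.cos_zero, Real.cos_pi, mul_one, mul_neg_one] at h1
  rw [intervalIntegral.integral_symm, ← h1, norm_neg]
  have h2 : ∫ θ in (0 : ℝ)..Real.pi, (-(N * Real.sin θ)) • (F ∘ fun θ => N * Real.cos θ) θ =
      ∫ θ in (0 : ℝ)..Real.pi, (-(2 / Real.pi : ℝ) : ℂ) * ((Real.sin ((k + 1) * θ) : ℂ) *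
        ((Real.sin θ : ℂ) * Complex.exp (((-z * Real.cos θ : ℝ) : ℂ) * Complex.I))) := by
    apply intervalIntegral.integral_congr
    intro θ hθ
    rw [Set.uIcc_of_le Real.pi_pos.le] at hθ
    show (-(N * Real.sin θ)) • (Complex.exp (((-2 * Real.pi * (N * Real.cos θ) * w : ℝ) : ℂ) * Complex.I) *
      (pf p k (N * Real.cos θ) : ℂ)) = _
    have e1 : pf p k (N * Real.cos θ) = Real.sin ((k + 1) * θ) / (Real.pi * √(p : ℝ)) := by
      unfold pf
      rw [← hN, mul_div_cancel_left₀ _ hNpos.ne', Real.arccos_cos hθ.1 hθ.2]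
    have e2 : -2 * Real.pi * (N * Real.cos θ) * w = -z * Real.cos θ := by
      rw [hz]; ring
    rw [e1, e2, Complex.real_smul]
    have e3 : (N * Real.sin θ) * (Real.sin ((k + 1) * θ) / (Real.pi * √(p : ℝ))) =
        (2 / Real.pi) * (Real.sin ((k + 1) * θ) * Real.sin θ) := by
      rw [hN]
      field_simp
    have e4 : ((N * Real.sin θ : ℝ) : ℂ) * ((Real.sin ((k + 1) * θ) / (Real.pi * √(p : ℝ)) : ℝ) : ℂ) =
        ((2 / Real.pi : ℝ) : ℂ) * ((Real.sin ((k + 1) * θ) : ℂ) * (Real.sin θ : ℂ)) := by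
      rw [← Complex.ofReal_mul, e3]
      push_cast
      ring
    calc ((-(N * Real.sin θ) : ℝ) : ℂ) * (Complex.exp (((-z * Real.cos θ : ℝ) : ℂ) * Complex.I) *
          ((Real.sin ((k + 1) * θ) / (Real.pi * √(p : ℝ)) : ℝ) : ℂ)) =
        -(((N * Real.sin θ : ℝ) : ℂ) * ((Real.sin ((k + 1) * θ) / (Real.pi * √(p : ℝ)) : ℝ) : ℂ)) *
          Complex.exp (((-z * Real.cos θ : ℝ) : ℂ) * Complex.I) := by
          rw [Complex.ofReal_neg]; ring
      _ = _ := by
          rw [e4]; ring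
  rw [h2, intervalIntegral.integral_const_mul]
  -- integration by parts
  have h3 : ∫ θ in (0 : ℝ)..Real.pi, ((Real.sin ((k + 1) * θ) : ℂ) *
        ((Real.sin θ : ℂ) * Complex.exp (((-z * Real.cos θ : ℝ) : ℂ) * Complex.I))) =
      -(((k + 1 : ℝ) : ℂ) / (z * Complex.I)) * JI (k + 1) (-z) := by
    have hu : ∀ θ ∈ Set.uIcc (0 : ℝ) Real.pi, HasDerivAt (fun θ : ℝ => (Real.sin ((k + 1) * θ) : ℂ))
        ((Real.cos ((k + 1) * θ) * (k + 1) : ℝ) : ℂ) θ := by
      intro θ _
      exact (dsin ((k : ℝ) + 1) θ).ofReal_comp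
    have hv : ∀ θ ∈ Set.uIcc (0 : ℝ) Real.pi, HasDerivAt
        (fun θ : ℝ => Complex.exp (((-z * Real.cos θ : ℝ) : ℂ) * Complex.I) / (z * Complex.I))
        ((Real.sin θ : ℂ) * Complex.exp (((-z * Real.cos θ : ℝ) : ℂ) * Complex.I)) θ := by
      intro θ _
      have e1 : HasDerivAt (fun θ : ℝ => -z * Real.cos θ) (z * Real.sin θ) θ := by
        have := (Real.hasDerivAt_cos θ).const_mul (-z)
        rw [neg_mul_neg] at this
        exact this
      have e2 := ((e1.ofReal_comp.mul_const Complex.I).cexp).div_const ((z : ℂ) * Complex.I)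
      refine HasDerivAt.congr_deriv e2 ?_
      have hI : (z : ℂ) * Complex.I ≠ 0 := mul_ne_zero hzc Complex.I_ne_zero
      field_simp
      push_cast
      ring
    have hip := intervalIntegral.integral_mul_deriv_eq_deriv_mul hu hv
      (by
        apply Continuous.intervalIntegrable
        fun_prop)
      (by
        apply Continuous.intervalIntegrable
        fun_prop)
    rw [hip]
    have e6 : Real.sin (((k : ℝ) + 1) * Real.pi) = 0 := by
      have := Real.sin_nat_mul_pi (k + 1)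
      push_cast at this
      exact this
    rw [e6, mul_zero, Real.sin_zero]
    unfold JI
    rw [← intervalIntegral.integral_const_mul]
    simp only [Complex.ofReal_zero, zero_mul, sub_self, zero_sub]
    rw [← intervalIntegral.integral_neg]
    apply intervalIntegral.integral_congr
    intro θ _
    simp only
    push_cast
    ring
  rw [h3, norm_mul, norm_mul, norm_neg, norm_neg, norm_div, norm_mul, Complex.norm_I, mul_one, JI_neg]
  have e7 : ‖((2 / Real.pi : ℝ) : ℂ)‖ = 2 / Real.pi := by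
    rw [Complex.norm_real, Real.norm_eq_abs, abs_of_pos (by positivity)]
  have e8 : ‖((k + 1 : ℝ) : ℂ)‖ = (k + 1 : ℝ) := by
    rw [Complex.norm_real, Real.norm_eq_abs, abs_of_pos (by positivity)]
  have e9 : ‖(z : ℂ)‖ = |z| := by rw [Complex.norm_real, Real.norm_eq_abs]
  rw [e7, e8, e9, ← JI_abs]
  have e10 : |z| = 4 * Real.pi * √(p : ℝ) * |w| := by
    rw [hz, hN, abs_mul, abs_mul, abs_of_pos (by positivity : (0 : ℝ) < 2 * Real.pi),
      abs_of_pos (by positivity : (0 : ℝ) < 2 * √(p : ℝ))]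
    ring
  rw [e10]
  have hw' : 0 < |w| := abs_pos.2 hw
  field_simp
  norm_num

private theorem jsum (k : ℕ) (A : ℝ) (hA : 0 < A) :
    Summable (fun h : ℕ => ‖JI (k + 1) (A * ((h : ℝ) + 1))‖ / ((h : ℝ) + 1)) := by
  obtain ⟨C, hC, hJ⟩ := JI_one
  have hs : Summable (fun h : ℕ => C * A ^ (-(1 / 3) : ℝ) * (((h + 1 : ℕ) : ℝ) ^ (-(4 / 3) : ℝ))) := by
    apply Summable.mul_left
    have h1 : Summable (fun n : ℕ => (n : ℝ) ^ (-(4 / 3) : ℝ)) := Real.summable_nat_rpow.2 (by norm_num)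
    exact (summable_nat_add_iff 1).2 h1
  refine Summable.of_nonneg_of_le (fun h => by positivity) (fun h => ?_) hs
  have hh : (0 : ℝ) < (h : ℝ) + 1 := by positivity
  have h1 := hJ (k + 1) (A * ((h : ℝ) + 1)) (by positivity)
  rw [div_le_iff₀ hh]
  refine h1.trans (le_of_eq ?_)
  rw [Real.mul_rpow hA.le hh.le]
  push_cast
  have h2 : ((h : ℝ) + 1) ^ (-(4 / 3) : ℝ) * ((h : ℝ) + 1) = ((h : ℝ) + 1) ^ (-(1 / 3) : ℝ) := by
    rw [← Real.rpow_add_one hh.ne']
    norm_num
  rw [mul_assoc (C * A ^ (-(1 / 3) : ℝ)), h2]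
  ring

/-- PIECE [JB-C3] (about 200 lines). PROOF. Let `N = 2 √p`, `f y = sin ((k + 1) arccos (y / N)) / (π √p)` (continuous, `0` for `|y| ≥ N`, equal to
`sw p a * Uk k (xx p a)` at the integers `a ∈ V p`; see the private lemmas `pf_*` of `Lib_MP_f1937f_tb/Prog.lean`, copy what you need:
also `∫ f = [k = 0]`). For `y ≠ 0`, `z = 2 π y N`, the substitution `x = N cos θ` and an integration by parts (the boundary terms vanish) give
`∫ f x e(-x y) dx = (2 / π) ∫_0^π sin ((k + 1) θ) sin θ exp (- i z cos θ) dθ = - (2 / π) (k + 1) / (i z) * ∫_0^π cos ((k + 1) θ) exp (- i z cos θ) dθ`, of norm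
`(2 (k + 1) / (π |z|)) ‖JI (k + 1) |z|‖` (`JI n (-z) = conj (JI n z)`). Poisson (`Real.tsum_eq_tsum_fourier_of_rpow_decay`, decay exponent
`4 / 3` by `JI_one`) for `y ↦ f (c + L y)`: the coefficients are `(1 / L) 𝓕 f (h / L) e(h c / L)`. The term `h = 0` is `[k = 0] / L`, and the terms `± h`,
`h ≥ 1`, contribute at most `(k + 1) / (π ^ 2 √p) * ‖JI (k + 1) (4 π √p h / L)‖ / h`. -/
theorem pois (p : ℕ) (hp : 1 ≤ p) (k L : ℕ) (hL : 1 ≤ L) (c : ℤ) :
    Summable (fun h : ℕ => ‖JI (k + 1) (4 * Real.pi * √(p : ℝ) * (h + 1) / L)‖ / ((h : ℝ) + 1)) ∧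
    |EE p k L c| ≤ (k + 1) / √(p : ℝ) * ∑' h : ℕ, ‖JI (k + 1) (4 * Real.pi * √(p : ℝ) * (h + 1) / L)‖ / ((h : ℝ) + 1) := by
  have hp' : (0 : ℝ) < p := by exact_mod_cast hp
  have hs : 0 < √(p : ℝ) := Real.sqrt_pos.2 hp'
  have hpi := Real.pi_pos
  have hL' : (0 : ℝ) < L := by exact_mod_cast hL
  have hLz : (L : ℤ) ≠ 0 := by
    have : 0 < L := hL
    exact_mod_cast this.ne'
  set A : ℝ := 4 * Real.pi * √(p : ℝ) / L with hA
  have hApos : 0 < A := by positivity
  have hrew : ∀ h : ℕ, 4 * Real.pi * √(p : ℝ) * ((h : ℝ) + 1) / L = A * ((h : ℝ) + 1) := by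
    intro h; rw [hA]; ring
  simp only [hrew]
  have hsum := jsum k A hApos
  refine ⟨hsum, ?_⟩
  set N : ℝ := 2 * √(p : ℝ) with hN
  have hNpos : 0 < N := by positivity
  set g : ℝ → ℂ := fun y => ((pf p k ((c : ℝ) + L * y) : ℝ) : ℂ) with hg
  have hgc : Continuous g := by
    have h1 := (pf_cont p k).comp (by fun_prop : Continuous fun y : ℝ => (c : ℝ) + L * y)
    exact Complex.continuous_ofReal.comp h1
  -- the Fourier transform
  set G : ℝ → ℂ := fun w => ∫ y in (-N)..N, Complex.exp (((-2 * Real.pi * y * w : ℝ) : ℂ) * Complex.I) *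
      (pf p k y : ℂ) with hG
  have hgF : ∀ w : ℝ, FourierTransform.fourier g w =
      ((L : ℝ)⁻¹ : ℂ) * Complex.exp (((2 * Real.pi * c * (w / L) : ℝ) : ℂ) * Complex.I) * G (w / L) := by
    intro w
    rw [Real.fourier_real_eq_integral_exp_smul]
    set h : ℝ → ℂ := fun x => Complex.exp (((2 * Real.pi * c * (w / L) : ℝ) : ℂ) * Complex.I) *
      (Complex.exp (((-2 * Real.pi * x * (w / L) : ℝ) : ℂ) * Complex.I) * (pf p k x : ℂ)) with hh
    have e1 : (fun v : ℝ => Complex.exp (((-2 * Real.pi * v * w : ℝ) : ℂ) * Complex.I) • g v) =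
        fun v => h ((c : ℝ) + L * v) := by
      funext v
      simp only [hh, hg, smul_eq_mul]
      rw [← mul_assoc, ← Complex.exp_add, ← add_mul, ← Complex.ofReal_add]
      congr 4
      field_simp
      ring
    rw [e1]
    have e2 := MeasureTheory.Measure.integral_comp_mul_left (fun x => h ((c : ℝ) + x)) (L : ℝ)
    rw [e2, MeasureTheory.integral_add_left_eq_self (f := h) (c : ℝ)]
    have e3 : ∫ x, h x = Complex.exp (((2 * Real.pi * c * (w / L) : ℝ) : ℂ) * Complex.I) * G (w / L) := by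
      simp only [hh]
      rw [MeasureTheory.integral_const_mul]
      congr 1
      rw [hG]
      simp only
      rw [intervalIntegral.integral_eq_integral_of_support_subset]
      intro x hx
      have hx2 : pf p k x ≠ 0 := by
        intro h0
        apply hx
        simp only [h0, Complex.ofReal_zero, mul_zero]
      constructor
      · by_contra h4
        exact hx2 (pf_zero_left p k hp x (by rw [← hN]; linarith))
      · by_contra h4
        exact hx2 (pf_zero_right p k hp x (by rw [← hN]; linarith))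
    rw [e3, abs_of_pos (by positivity : (0 : ℝ) < (L : ℝ)⁻¹), Complex.real_smul]
    push_cast
    ring
  have hgn : ∀ w : ℝ, w ≠ 0 → ‖FourierTransform.fourier g w‖ =
      (k + 1) / (2 * Real.pi ^ 2 * √(p : ℝ)) * (‖JI (k + 1) (A * |w|)‖ / |w|) := by
    intro w hw
    rw [hgF, norm_mul, norm_mul, Complex.norm_exp_ofReal_mul_I, mul_one]
    have e1 : ‖((L : ℝ)⁻¹ : ℂ)‖ = (L : ℝ)⁻¹ := by
      rw [← Complex.ofReal_inv, Complex.norm_real, Real.norm_eq_abs, abs_of_pos (by positivity)]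
    have hw' : w / L ≠ 0 := div_ne_zero hw hL'.ne'
    have e2 := pf_fourier p k hp (w / L) hw'
    rw [← hN] at e2
    rw [e1, hG]
    simp only
    rw [e2, abs_div, abs_of_pos hL']
    have hw2 : 0 < |w| := abs_pos.2 hw
    have e3 : 4 * Real.pi * √(p : ℝ) * (|w| / L) = A * |w| := by rw [hA]; ring
    rw [e3]
    field_simp
  have hg0 : FourierTransform.fourier g 0 = ((if k = 0 then 1 / (L : ℝ) else 0 : ℝ) : ℂ) := by
    rw [hgF, zero_div, hG]
    have e1 : ∫ y in (-N)..N, Complex.exp (((-2 * Real.pi * y * 0 : ℝ) : ℂ) * Complex.I) * (pf p k y : ℂ) =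
        ((∫ y in (-N)..N, pf p k y : ℝ) : ℂ) := by
      rw [← intervalIntegral.integral_ofReal]
      apply intervalIntegral.integral_congr
      intro y _
      simp
    simp only
    rw [e1, hN, pf_int p hp k]
    by_cases hk : k = 0
    · simp [hk]
    · simp [hk]
  -- decay
  have hev : ∀ R : ℝ, ∀ᶠ x : ℝ in Filter.cocompact ℝ, R ≤ |x| := by
    intro R
    exact (tendsto_norm_cocompact_atTop (E := ℝ)).eventually_ge_atTop R
  have hd1 : g =O[Filter.cocompact ℝ] fun x => |x| ^ (-(4 / 3 : ℝ)) := by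
    apply Asymptotics.IsBigO.of_bound 0
    filter_upwards [hev ((N + |(c : ℝ)|) / L)] with x hx
    rw [div_le_iff₀ hL'] at hx
    have h1 : N ≤ |(c : ℝ) + L * x| := by
      have h2 : |L * x| ≤ |(c : ℝ) + L * x| + |(c : ℝ)| := by
        have h3 : (L : ℝ) * x = ((c : ℝ) + L * x) - c := by ring
        calc |(L : ℝ) * x| = |((c : ℝ) + L * x) - c| := by rw [← h3]
          _ ≤ _ := abs_sub _ _
      rw [abs_mul, abs_of_pos hL'] at h2
      linarith
    have h2 : g x = 0 := by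
      simp only [hg]
      rcases le_abs.1 h1 with h | h
      · rw [pf_zero_right p k hp _ (by rw [← hN]; exact h), Complex.ofReal_zero]
      · rw [pf_zero_left p k hp _ (by rw [← hN]; linarith), Complex.ofReal_zero]
    rw [h2, norm_zero, zero_mul]
  have hd2 : (FourierTransform.fourier g) =O[Filter.cocompact ℝ] fun x => |x| ^ (-(4 / 3 : ℝ)) := by
    obtain ⟨C, hC, hJ⟩ := JI_one
    apply Asymptotics.IsBigO.of_bound ((k + 1) / (2 * Real.pi ^ 2 * √(p : ℝ)) * (C * A ^ (-(1 / 3) : ℝ)))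
    filter_upwards [hev 1] with x hx
    have hx0 : 0 < |x| := lt_of_lt_of_le one_pos hx
    rw [hgn x (abs_pos.1 hx0), mul_assoc (((k : ℝ) + 1) / (2 * Real.pi ^ 2 * √(p : ℝ))) (C * A ^ (-(1 / 3) : ℝ))]
    apply mul_le_mul_of_nonneg_left _ (by positivity)
    rw [Real.norm_eq_abs, abs_of_nonneg (Real.rpow_nonneg (abs_nonneg x) _), div_le_iff₀ hx0]
    refine (hJ (k + 1) (A * |x|) (by positivity)).trans (le_of_eq ?_)
    rw [Real.mul_rpow hApos.le hx0.le]
    have h2 : |x| ^ (-(4 / 3) : ℝ) * |x| = |x| ^ (-(1 / 3) : ℝ) := by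
      rw [← Real.rpow_add_one hx0.ne']
      norm_num
    rw [mul_assoc (C * A ^ (-(1 / 3) : ℝ)), h2]
    ring
  have P := Real.tsum_eq_tsum_fourier_of_rpow_decay hgc (b := 4 / 3) (by norm_num) hd1 hd2 0
  simp only [zero_add] at P
  -- the left side
  have hleft : (((∑ a ∈ (V p).filter (fun a => (L : ℤ) ∣ a - c), sw p a * Uk k (xx p a) : ℝ)) : ℂ) =
      ∑' n : ℤ, g n := by
    set S : Finset ℤ := ((V p).filter (fun a => (L : ℤ) ∣ a - c)).image (fun a => (a - c) / L) with hS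
    have h1 : ∑' n : ℤ, g n = ∑ n ∈ S, g n := by
      apply tsum_eq_sum
      intro n hn
      have h2 : c + L * n ∉ V p := by
        intro h3
        apply hn
        rw [hS, Finset.mem_image]
        refine ⟨c + L * n, Finset.mem_filter.2 ⟨h3, ⟨n, by ring⟩⟩, ?_⟩
        rw [add_sub_cancel_left, Int.mul_ediv_cancel_left _ hLz]
      rw [mem_V_iff, not_le, ← hN] at h2
      push_cast at h2
      simp only [hg]
      rcases lt_abs.1 h2 with h | h
      · rw [pf_zero_right p k hp _ (by rw [← hN]; exact h.le), Complex.ofReal_zero]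
      · rw [pf_zero_left p k hp _ (by rw [← hN]; linarith), Complex.ofReal_zero]
    rw [h1, hS, Finset.sum_image]
    · rw [Complex.ofReal_sum]
      apply Finset.sum_congr rfl
      intro a ha
      rw [Finset.mem_filter] at ha
      obtain ⟨haV, t, ht⟩ := ha
      rw [pf_eq p hp k a haV]
      simp only [hg]
      rw [ht, Int.mul_ediv_cancel_left _ hLz]
      have h3 : (a : ℝ) = (c : ℝ) + L * t := by
        have h4 : a = c + L * t := by linarith
        rw [h4]
        push_cast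
        ring
      rw [h3]
    · intro a ha b hb hab
      rw [Finset.mem_coe, Finset.mem_filter] at ha hb
      obtain ⟨_, t, ht⟩ := ha
      obtain ⟨_, u, hu⟩ := hb
      simp only at hab
      rw [ht, hu, Int.mul_ediv_cancel_left _ hLz, Int.mul_ediv_cancel_left _ hLz] at hab
      rw [hab] at ht
      linarith
  -- the right side
  set B : ℕ → ℝ := fun h => (k + 1) / (2 * Real.pi ^ 2 * √(p : ℝ)) *
    (‖JI (k + 1) (A * ((h : ℝ) + 1))‖ / ((h : ℝ) + 1)) with hB
  have hBs : Summable B := hsum.mul_left _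
  have hb1 : ∀ n : ℕ, ‖FourierTransform.fourier g ((n + 1 : ℕ) : ℝ)‖ ≤ B n := by
    intro n
    have h0 : (0 : ℝ) < (n : ℝ) + 1 := by positivity
    have h1 : (((n + 1 : ℕ) : ℝ)) ≠ 0 := by positivity
    rw [hgn _ h1]
    push_cast
    rw [abs_of_pos h0]
  have hb2 : ∀ n : ℕ, ‖FourierTransform.fourier g (-((n : ℝ) + 1))‖ ≤ B n := by
    intro n
    have h0 : (0 : ℝ) < (n : ℝ) + 1 := by positivity
    rw [hgn _ (by linarith), abs_neg, abs_of_pos h0]
  have hfour : ∀ n : ℤ, (_root_.fourier n) ((0 : ℝ) : UnitAddCircle) = 1 := by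
    intro n
    simp
  simp only [hfour, mul_one] at P
  have hs1 : Summable (fun n : ℕ => FourierTransform.fourier g ((n : ℤ) : ℝ)) := by
    rw [← summable_nat_add_iff 1]
    refine Summable.of_norm_bounded hBs ?_
    intro n
    have := hb1 n
    push_cast at this ⊢
    exact this
  have hs2 : Summable (fun n : ℕ => FourierTransform.fourier g ((-((n : ℤ) + 1) : ℤ) : ℝ)) := by
    refine Summable.of_norm_bounded hBs ?_
    intro n
    have := hb2 n
    push_cast
    exact this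
  have hsplit := tsum_of_nat_of_neg_add_one (f := fun n : ℤ => FourierTransform.fourier g (n : ℝ)) hs1 hs2
  have hzero := hs1.tsum_eq_zero_add
  have hEE : ((EE p k L c : ℝ) : ℂ) =
      ∑' n : ℕ, FourierTransform.fourier g (((n + 1 : ℕ) : ℤ) : ℝ) +
        ∑' n : ℕ, FourierTransform.fourier g ((-((n : ℤ) + 1) : ℤ) : ℝ) := by
    unfold EE
    rw [Complex.ofReal_sub, hleft, P, hsplit, hzero]
    simp only [Nat.cast_zero, Int.cast_zero]
    rw [hg0]
    ring
  have hn1 : ‖∑' n : ℕ, FourierTransform.fourier g (((n + 1 : ℕ) : ℤ) : ℝ)‖ ≤ ∑' h, B h := by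
    refine tsum_of_norm_bounded hBs.hasSum ?_
    intro n
    have := hb1 n
    push_cast at this ⊢
    exact this
  have hn2 : ‖∑' n : ℕ, FourierTransform.fourier g ((-((n : ℤ) + 1) : ℤ) : ℝ)‖ ≤ ∑' h, B h := by
    refine tsum_of_norm_bounded hBs.hasSum ?_
    intro n
    have := hb2 n
    push_cast
    exact this
  have hfin : |EE p k L c| ≤ 2 * ∑' h, B h := by
    have h1 : |EE p k L c| = ‖((EE p k L c : ℝ) : ℂ)‖ := by
      rw [Complex.norm_real, Real.norm_eq_abs]
    rw [h1, hEE]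
    calc _ ≤ _ := norm_add_le _ _
      _ ≤ ∑' h, B h + ∑' h, B h := add_le_add hn1 hn2
      _ = _ := by ring
  refine hfin.trans ?_
  have hBt : ∑' h, B h = (k + 1) / (2 * Real.pi ^ 2 * √(p : ℝ)) *
      ∑' h : ℕ, ‖JI (k + 1) (A * ((h : ℝ) + 1))‖ / ((h : ℝ) + 1) := by
    rw [hB]
    exact tsum_mul_left
  rw [hBt, ← mul_assoc]
  apply mul_le_mul_of_nonneg_right
  · have h1 : 2 * ((k + 1) / (2 * Real.pi ^ 2 * √(p : ℝ))) = ((k : ℝ) + 1) / (Real.pi ^ 2 * √(p : ℝ)) := by
      field_simp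
    rw [h1]
    apply div_le_div_of_nonneg_left (by positivity) hs
    have h2 : (1 : ℝ) ≤ Real.pi ^ 2 := by
      have := Real.pi_gt_three
      nlinarith
    nlinarith
  · exact tsum_nonneg (fun h => by positivity)


end Pool.Agent.JB
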