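import Pool.Agent.Lib_MP_f1937f_jb.SumE
import Pool.Agent.Lib_MP_f1937f_jb.Pois
import Pool.Agent.Lib_MP_f1937f_tb.Prog

/-!
# Semicircle sums in progressions on average over the modulus
-/

set_option autoImplicit false

namespace Pool.Agent.JB

open Finset Pool.Agent.TB


private theorem pb_term (X m : ℕ) (s : ℝ) (hm : 1 ≤ m) (hX : 1 ≤ X) (hs : (X : ℝ) ^ 3 ≤ s) (h : ℕ) :
    ((X : ℝ) / (4 * Real.pi * s * ((h : ℝ) + 1) / m)) ^ (1 / 3 : ℝ) +
      (X : ℝ) ^ (3 / 2 : ℝ) * (4 * Real.pi * s * ((h : ℝ) + 1) / m) ^ (-(1 / 2) : ℝ) ≤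
      2 * √(m : ℝ) * ((h : ℝ) + 1) ^ (-(1 / 3) : ℝ) := by
  have hm' : (1 : ℝ) ≤ m := by exact_mod_cast hm
  have hX' : (1 : ℝ) ≤ X := by exact_mod_cast hX
  have hX3 : (1 : ℝ) ≤ (X : ℝ) ^ 3 := one_le_pow₀ hX'
  have hs1 : 1 ≤ s := hX3.trans hs
  have hXs : (X : ℝ) ≤ s := by
    refine le_trans ?_ hs
    calc (X : ℝ) = (X : ℝ) ^ 1 := (pow_one _).symm
      _ ≤ (X : ℝ) ^ 3 := pow_le_pow_right₀ hX' (by norm_num)
  have hpi : (3 : ℝ) < Real.pi := Real.pi_gt_three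
  have hh : (1 : ℝ) ≤ (h : ℝ) + 1 := by
    have : (0 : ℝ) ≤ h := Nat.cast_nonneg h
    linarith
  set H : ℝ := (h : ℝ) + 1 with hH
  have hH0 : 0 < H := by linarith
  set A : ℝ := 4 * Real.pi * s * H / m with hA
  have hAlow : s * H / m ≤ A := by
    rw [hA]
    apply div_le_div_of_nonneg_right _ (by linarith)
    have : 0 ≤ s * H := by positivity
    nlinarith
  have hA0 : 0 < A := lt_of_lt_of_le (by positivity) hAlow
  have hsH : 0 < s * H / m := by positivity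
  -- first term
  have h1 : (X : ℝ) / A ≤ m / H := by
    calc (X : ℝ) / A ≤ X / (s * H / m) := div_le_div_of_nonneg_left (by linarith) hsH hAlow
      _ = (X / s) * (m / H) := by field_simp
      _ ≤ 1 * (m / H) := by
          apply mul_le_mul_of_nonneg_right _ (by positivity)
          rw [div_le_one (by linarith)]; exact hXs
      _ = m / H := one_mul _
  have h2 : (X : ℝ) ^ 3 / A ≤ m / H := by
    calc (X : ℝ) ^ 3 / A ≤ (X : ℝ) ^ 3 / (s * H / m) := div_le_div_of_nonneg_left (by linarith) hsH hAlow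
      _ = ((X : ℝ) ^ 3 / s) * (m / H) := by field_simp
      _ ≤ 1 * (m / H) := by
          apply mul_le_mul_of_nonneg_right _ (by positivity)
          rw [div_le_one (by linarith)]; exact hs
      _ = m / H := one_mul _
  have h3 : ((X : ℝ) / A) ^ (1 / 3 : ℝ) ≤ √(m : ℝ) * H ^ (-(1 / 3) : ℝ) := by
    calc ((X : ℝ) / A) ^ (1 / 3 : ℝ) ≤ ((m : ℝ) / H) ^ (1 / 3 : ℝ) :=
          Real.rpow_le_rpow (by positivity) h1 (by norm_num)
      _ = (m : ℝ) ^ (1 / 3 : ℝ) * H ^ (-(1 / 3) : ℝ) := by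
          rw [Real.div_rpow (by linarith) hH0.le, Real.rpow_neg hH0.le]; rfl
      _ ≤ √(m : ℝ) * H ^ (-(1 / 3) : ℝ) := by
          apply mul_le_mul_of_nonneg_right _ (by positivity)
          rw [Real.sqrt_eq_rpow]
          exact Real.rpow_le_rpow_of_exponent_le hm' (by norm_num)
  have h4 : (X : ℝ) ^ (3 / 2 : ℝ) * A ^ (-(1 / 2) : ℝ) ≤ √(m : ℝ) * H ^ (-(1 / 3) : ℝ) := by
    have e1 : (X : ℝ) ^ (3 / 2 : ℝ) * A ^ (-(1 / 2) : ℝ) = ((X : ℝ) ^ 3 / A) ^ (1 / 2 : ℝ) := by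
      rw [Real.div_rpow (by positivity) hA0.le, Real.rpow_neg hA0.le, ← Real.rpow_natCast, ← Real.rpow_mul (by linarith)]
      norm_num [div_eq_mul_inv]
    rw [e1]
    calc ((X : ℝ) ^ 3 / A) ^ (1 / 2 : ℝ) ≤ ((m : ℝ) / H) ^ (1 / 2 : ℝ) :=
          Real.rpow_le_rpow (by positivity) h2 (by norm_num)
      _ = √(m : ℝ) * H ^ (-(1 / 2) : ℝ) := by
          rw [Real.div_rpow (by linarith) hH0.le, Real.rpow_neg hH0.le, Real.sqrt_eq_rpow]; rfl
      _ ≤ √(m : ℝ) * H ^ (-(1 / 3) : ℝ) := by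
          apply mul_le_mul_of_nonneg_left _ (by positivity)
          exact Real.rpow_le_rpow_of_exponent_le hh (by norm_num)
  linarith

/-- PIECE [JB-C5] (about 150 lines). PROOF. If `m ≥ X ^ 2`: `|EE p k (e m) c| ≤ (k + 1) / √p` (`prog_sum` in `Lib_MP_f1937f_tb/Prog.lean`), `X ≤ √m`. If `m < X ^ 2`: by `pois` and
`Summable.tsum_finsetSum` the sum is at most `(k + 1) / √p * ∑' h, (1 / (h + 1)) ∑_{e ≤ X} ‖JI (k + 1) (A_h / e)‖` with
`A_h = 4 π √p (h + 1) / m ≥ X` (as `m < X ^ 2 ≤ √p / X`), by `sum_e` at most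
`(k + 1) / √p * C * ∑' h, ((X m / √p) ^ (1/3) (h + 1) ^ (-4/3) + (X ^ 3 m / √p) ^ (1/2) (h + 1) ^ (-3/2))`, and `X m / √p ≤ m`, `X ^ 3 m / √p ≤ m`. -/
theorem pb : ∃ C : ℝ, 0 ≤ C ∧ ∀ p k m X : ℕ, 1 ≤ p → 1 ≤ m → 1 ≤ X → (X : ℝ) ^ 3 ≤ √(p : ℝ) → ∀ c : ℕ → ℤ,
    ∑ e ∈ Icc 1 X, |EE p k (e * m) (c e)| ≤ C * (k + 1) * √(m : ℝ) / √(p : ℝ) := by
  obtain ⟨C, hC, hsum⟩ := sum_e
  have hZs : Summable (fun h : ℕ => ((h : ℝ) + 1) ^ (-(4 / 3) : ℝ)) := by
    have h0 : Summable (fun n : ℕ => (n : ℝ) ^ (-(4 / 3) : ℝ)) := Real.summable_nat_rpow.2 (by norm_num)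
    have h1 := (summable_nat_add_iff 1).2 h0
    refine h1.congr (fun h => ?_)
    push_cast
    rfl
  set Z : ℝ := ∑' h : ℕ, ((h : ℝ) + 1) ^ (-(4 / 3) : ℝ) with hZ
  have hZ0 : 0 ≤ Z := tsum_nonneg (fun h => by positivity)
  refine ⟨1 + 2 * C * Z, by positivity, ?_⟩
  intro p k m X hp hm hX hXp c
  have hp' : (0 : ℝ) < p := by exact_mod_cast hp
  have hs : 0 < √(p : ℝ) := Real.sqrt_pos.2 hp'
  have hm' : (1 : ℝ) ≤ m := by exact_mod_cast hm
  have hX' : (1 : ℝ) ≤ X := by exact_mod_cast hX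
  have hpi : (3 : ℝ) < Real.pi := Real.pi_gt_three
  rcases le_total ((X : ℝ) ^ 2) (m : ℝ) with hcase | hcase
  · -- large `m`
    have h1 : ∀ e ∈ Icc 1 X, |EE p k (e * m) (c e)| ≤ (k + 1) / √(p : ℝ) := by
      intro e he
      rw [Finset.mem_Icc] at he
      exact prog_sum p hp (e * m) (Nat.mul_pos he.1 hm) (c e) k
    have h2 := Finset.sum_le_card_nsmul _ _ _ h1
    rw [Nat.card_Icc, nsmul_eq_mul] at h2
    have h3 : ((X + 1 - 1 : ℕ) : ℝ) = X := by simp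
    rw [h3] at h2
    have h4 : (X : ℝ) ≤ √(m : ℝ) := Real.le_sqrt_of_sq_le hcase
    refine h2.trans ?_
    have h5 : (X : ℝ) * ((k + 1) / √(p : ℝ)) ≤ √(m : ℝ) * ((k + 1) / √(p : ℝ)) :=
      mul_le_mul_of_nonneg_right h4 (by positivity)
    refine h5.trans ?_
    have h6 : √(m : ℝ) * ((k + 1) / √(p : ℝ)) = 1 * (k + 1) * √(m : ℝ) / √(p : ℝ) := by ring
    rw [h6]
    apply div_le_div_of_nonneg_right _ hs.le
    apply mul_le_mul_of_nonneg_right _ (Real.sqrt_nonneg _)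
    apply mul_le_mul_of_nonneg_right _ (by positivity)
    nlinarith [mul_nonneg hC hZ0]
  · -- small `m`
    set f : ℕ → ℕ → ℝ := fun e h =>
      ‖JI (k + 1) (4 * Real.pi * √(p : ℝ) * (h + 1) / ((e * m : ℕ) : ℝ))‖ / ((h : ℝ) + 1) with hf
    have hpo : ∀ e ∈ Icc 1 X, Summable (f e) ∧ |EE p k (e * m) (c e)| ≤ (k + 1) / √(p : ℝ) * ∑' h : ℕ, f e h := by
      intro e he
      rw [Finset.mem_Icc] at he
      exact pois p hp k (e * m) (Nat.mul_pos he.1 hm) (c e)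
    have h1 : ∑ e ∈ Icc 1 X, |EE p k (e * m) (c e)| ≤ ∑ e ∈ Icc 1 X, (k + 1) / √(p : ℝ) * ∑' h : ℕ, f e h :=
      Finset.sum_le_sum (fun e he => (hpo e he).2)
    rw [← Finset.mul_sum, ← Summable.tsum_finsetSum (fun e he => (hpo e he).1)] at h1
    have h2 : ∀ h : ℕ, ∑ e ∈ Icc 1 X, f e h ≤ 2 * C * √(m : ℝ) * ((h : ℝ) + 1) ^ (-(4 / 3) : ℝ) := by
      intro h
      have hh : (1 : ℝ) ≤ (h : ℝ) + 1 := by
        have : (0 : ℝ) ≤ h := Nat.cast_nonneg h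
        linarith
      have hH0 : (0 : ℝ) < (h : ℝ) + 1 := by linarith
      set A : ℝ := 4 * Real.pi * √(p : ℝ) * ((h : ℝ) + 1) / m with hA
      have hXA : (X : ℝ) ≤ A := by
        rw [hA, le_div_iff₀ (by linarith)]
        calc (X : ℝ) * m ≤ X * X ^ 2 := mul_le_mul_of_nonneg_left hcase (by linarith)
          _ = (X : ℝ) ^ 3 := by ring
          _ ≤ √(p : ℝ) := hXp
          _ = 1 * √(p : ℝ) * 1 := by ring
          _ ≤ 4 * Real.pi * √(p : ℝ) * ((h : ℝ) + 1) := by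
            apply mul_le_mul _ hh (by norm_num) (by positivity)
            apply mul_le_mul_of_nonneg_right _ hs.le
            nlinarith
      have h3 : ∑ e ∈ Icc 1 X, f e h = (∑ e ∈ Icc 1 X, ‖JI (k + 1) (A / e)‖) / ((h : ℝ) + 1) := by
        rw [Finset.sum_div]
        refine Finset.sum_congr rfl (fun e he => ?_)
        rw [Finset.mem_Icc] at he
        simp only [hf]
        congr 3
        rw [hA, div_div]
        push_cast
        ring
      rw [h3]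
      have h4 := hsum (k + 1) A X (by omega) hX hXA
      have h5 := pb_term X m (√(p : ℝ)) hm hX hXp h
      rw [← hA] at h5
      have h6 : (∑ e ∈ Icc 1 X, ‖JI (k + 1) (A / e)‖) ≤ C * (2 * √(m : ℝ) * ((h : ℝ) + 1) ^ (-(1 / 3) : ℝ)) :=
        h4.trans (mul_le_mul_of_nonneg_left h5 hC)
      have h7 : ((h : ℝ) + 1) ^ (-(4 / 3) : ℝ) = ((h : ℝ) + 1) ^ (-(1 / 3) : ℝ) / ((h : ℝ) + 1) := by
        rw [show (-(4 / 3) : ℝ) = -(1 / 3) - 1 by norm_num, Real.rpow_sub hH0, Real.rpow_one]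
      rw [h7, div_le_iff₀ hH0]
      refine h6.trans (le_of_eq ?_)
      field_simp
    have h3 : ∑' h : ℕ, ∑ e ∈ Icc 1 X, f e h ≤ 2 * C * √(m : ℝ) * Z := by
      rw [hZ, ← tsum_mul_left]
      refine Summable.tsum_le_tsum h2 ?_ (hZs.mul_left _)
      exact summable_sum (fun e he => (hpo e he).1)
    refine h1.trans ?_
    calc (k + 1) / √(p : ℝ) * ∑' h : ℕ, ∑ e ∈ Icc 1 X, f e h ≤ (k + 1) / √(p : ℝ) * (2 * C * √(m : ℝ) * Z) :=
          mul_le_mul_of_nonneg_left h3 (by positivity)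
      _ = (2 * C * Z) * (k + 1) * √(m : ℝ) / √(p : ℝ) := by ring
      _ ≤ (1 + 2 * C * Z) * (k + 1) * √(m : ℝ) / √(p : ℝ) := by
          apply div_le_div_of_nonneg_right _ hs.le
          apply mul_le_mul_of_nonneg_right _ (Real.sqrt_nonneg _)
          apply mul_le_mul_of_nonneg_right _ (by positivity)
          linarith


end Pool.Agent.JB
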