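import Pool.Agent.Lib_MP_f1937f_jb.MertA

/-!
# Primes in progressions, lower bound
-/

set_option autoImplicit false

namespace Pool.Agent.JB

open Finset


/-- PIECE [JB-M4] (about 120 lines). PROOF. By `mert_ap` and as `∑ Λ n / n` over the `n` which are not prime converges (`mertensA_powers` in `Lib_MP_f1a94e_mr/MertensA.lean`), `∑_{p ≤ x, p ≡ d} log p / p = log x / φ(M) + O(1)`; so for a
constant `K` and all `x ≥ K`, `∑_{x / K < p ≤ x, p ≡ d} log p / p ≥ 1`, and every term is at most `K log x / x`. -/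
theorem pi_ap (M : ℕ) (hM : 0 < M) (d : ℕ) (hd : d.Coprime M) : ∃ (c : ℝ) (x₀ : ℕ), 0 < c ∧ 2 ≤ x₀ ∧ ∀ x : ℕ, x₀ ≤ x →
    c * x / Real.log x ≤ ((((range (x + 1)).filter Nat.Prime).filter (fun p => p ≡ d [MOD M])).card : ℝ) := by
  classical
  obtain ⟨C, hC0, hC⟩ := mert_ap M hM d hd
  obtain ⟨C', hC'⟩ := Pool.Agent.GaussMR.mertensA_powers
  have hφ : (1 : ℝ) ≤ M.totient := by exact_mod_cast Nat.totient_pos.mpr hM
  have hφ0 : (0 : ℝ) < M.totient := by linarith
  have hC'0 : 0 ≤ C' := by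
    have := hC' 0
    simpa using this
  have hnn : ∀ n : ℕ, 0 ≤ ArithmeticFunction.vonMangoldt n / (n : ℝ) := fun n =>
    div_nonneg ArithmeticFunction.vonMangoldt_nonneg (Nat.cast_nonneg n)
  obtain ⟨K, hK⟩ : ∃ K : ℕ, Real.exp (M.totient * (1 + 2 * C + C')) ≤ K := exists_nat_ge _
  have hKpos : (0 : ℝ) < K := (Real.exp_pos _).trans_le hK
  have hKpos' : 0 < K := by exact_mod_cast hKpos
  have hlogK : 1 + 2 * C + C' ≤ Real.log K / M.totient := by
    rw [le_div_iff₀ hφ0, mul_comm]
    exact (Real.le_log_iff_exp_le hKpos).mpr hK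
  refine ⟨1 / K, max K 2, by positivity, le_max_right _ _, fun x hx => ?_⟩
  have hxK : K ≤ x := (le_max_left _ _).trans hx
  have hx2 : 2 ≤ x := (le_max_right _ _).trans hx
  have hx0 : (0 : ℝ) < x := by exact_mod_cast (by omega : 0 < x)
  have hlogx : 0 < Real.log x := Real.log_pos (by exact_mod_cast (by omega : 1 < x))
  obtain ⟨y, hy⟩ : ∃ y : ℕ, y = x / K := ⟨_, rfl⟩
  have hy1 : 1 ≤ y := by
    rw [hy]
    exact (Nat.one_le_div_iff hKpos').mpr hxK
  have hyx : y ≤ x := by
    rw [hy]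
    exact Nat.div_le_self x K
  have hyr : (y : ℝ) * K ≤ x := by
    have : y * K ≤ x := by rw [hy]; exact Nat.div_mul_le_self x K
    exact_mod_cast this
  have hy0 : (0 : ℝ) < y := by exact_mod_cast hy1
  have hlogy : Real.log y + Real.log K ≤ Real.log x := by
    rw [← Real.log_mul hy0.ne' hKpos.ne']
    exact Real.log_le_log (by positivity) hyr
  -- the sums
  have hSx := hC x (by omega)
  have hSy := hC y hy1
  set Sx : ℝ := ∑ n ∈ (Icc 1 x).filter (fun n => n ≡ d [MOD M]), ArithmeticFunction.vonMangoldt n / (n : ℝ) with hSxd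
  set Sy : ℝ := ∑ n ∈ (Icc 1 y).filter (fun n => n ≡ d [MOD M]), ArithmeticFunction.vonMangoldt n / (n : ℝ) with hSyd
  have hdiff : 1 + C' ≤ Sx - Sy := by
    rw [abs_le] at hSx hSy
    have h1 : Real.log y / M.totient + Real.log K / M.totient ≤ Real.log x / M.totient := by
      rw [← add_div]
      exact div_le_div_of_nonneg_right hlogy hφ0.le
    linarith [hSx.1, hSy.2]
  have hsplit : Sx = Sy + ∑ n ∈ (Ioc y x).filter (fun n => n ≡ d [MOD M]), ArithmeticFunction.vonMangoldt n / (n : ℝ) := by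
    rw [hSxd, hSyd, sum_filter, sum_filter, sum_filter,
      show Icc 1 x = Ioc 0 x by ext n; simp only [Finset.mem_Icc, Finset.mem_Ioc]; omega,
      show Icc 1 y = Ioc 0 y by ext n; simp only [Finset.mem_Icc, Finset.mem_Ioc]; omega,
      sum_Ioc_consecutive _ (Nat.zero_le y) hyx]
  set T := (Ioc y x).filter (fun n => n ≡ d [MOD M]) with hT
  have hTsplit := sum_filter_add_sum_filter_not T (fun n => n.Prime) (fun n => ArithmeticFunction.vonMangoldt n / (n : ℝ))
  have hnp : ∑ n ∈ T.filter (fun n => ¬ n.Prime), ArithmeticFunction.vonMangoldt n / (n : ℝ) ≤ C' := by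
    refine le_trans ?_ (hC' x)
    have h1 : ∑ n ∈ T.filter (fun n => ¬ n.Prime), ArithmeticFunction.vonMangoldt n / (n : ℝ) =
        ∑ n ∈ T.filter (fun n => ¬ n.Prime), (if n.Prime then 0 else ArithmeticFunction.vonMangoldt n) / (n : ℝ) := by
      refine sum_congr rfl fun n hn => ?_
      rw [if_neg (mem_filter.mp hn).2]
    rw [h1]
    refine sum_le_sum_of_subset_of_nonneg ?_ fun n _ _ => ?_
    · intro n hn
      rw [mem_filter, hT, mem_filter, mem_Ioc] at hn
      rw [mem_Icc]
      omega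
    · split_ifs
      · simp
      · exact hnn n
  have hpr : 1 ≤ ∑ n ∈ T.filter (fun n => n.Prime), ArithmeticFunction.vonMangoldt n / (n : ℝ) := by linarith
  have hterm : ∀ n ∈ T.filter (fun n => n.Prime), ArithmeticFunction.vonMangoldt n / (n : ℝ) ≤ Real.log x * K / x := by
    intro n hn
    rw [mem_filter, hT, mem_filter, mem_Ioc] at hn
    have hn0 : (0 : ℝ) < n := by exact_mod_cast (by omega : 0 < n)
    have hnx : (n : ℝ) ≤ x := by exact_mod_cast hn.1.1.2
    have h1 : ArithmeticFunction.vonMangoldt n ≤ Real.log x := by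
      rw [ArithmeticFunction.vonMangoldt_apply_prime hn.2]
      exact Real.log_le_log hn0 hnx
    have h2 : (x : ℝ) ≤ K * n := by
      have h3 : x < K * (x / K + 1) := Nat.lt_mul_div_succ x hKpos'
      have h4 : K * (x / K + 1) ≤ K * n := Nat.mul_le_mul_left K (by omega)
      exact_mod_cast (by omega : x ≤ K * n)
    rw [div_le_div_iff₀ hn0 hx0]
    calc ArithmeticFunction.vonMangoldt n * x ≤ Real.log x * (K * n) :=
          mul_le_mul h1 h2 hx0.le hlogx.le
      _ = Real.log x * K * n := by ring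
  have hcard := sum_le_card_nsmul _ _ _ hterm
  rw [nsmul_eq_mul] at hcard
  have h5 : 1 ≤ ((T.filter (fun n => n.Prime)).card : ℝ) * (Real.log x * K / x) := hpr.trans hcard
  have h6 : 1 / (K : ℝ) * x / Real.log x ≤ ((T.filter (fun n => n.Prime)).card : ℝ) := by
    rw [div_le_iff₀ hlogx, one_div, inv_mul_le_iff₀ hKpos]
    have h7 : (x : ℝ) ≤ ((T.filter (fun n => n.Prime)).card : ℝ) * (Real.log x * K) := by
      rw [mul_div_assoc'] at h5
      rwa [le_div_iff₀ hx0, one_mul] at h5
    linarith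
  refine h6.trans ?_
  have h8 : T.filter (fun n => n.Prime) ⊆ ((range (x + 1)).filter Nat.Prime).filter (fun p => p ≡ d [MOD M]) := by
    intro n hn
    rw [mem_filter, hT, mem_filter, mem_Ioc] at hn
    rw [mem_filter, mem_filter, mem_range]
    exact ⟨⟨by omega, hn.2⟩, hn.1.2⟩
  exact_mod_cast card_le_card h8


end Pool.Agent.JB
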