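import Pool.Agent.Lib_MP_f1937f_jb.Defs

/-!
# Inverse square roots in a progression
-/

set_option autoImplicit false

namespace Pool.Agent.JB

open Finset Pool.Agent.TB

private theorem sum_inv_sqrt (L : ℕ) : ∑ l ∈ Icc 1 L, 1 / √(l : ℝ) ≤ 2 * √(L : ℝ) := by
  induction L with
  | zero => simp
  | succ L ih =>
    rw [Finset.sum_Icc_succ_top (by omega)]
    have h1 : 0 < √((L + 1 : ℕ) : ℝ) := Real.sqrt_pos.2 (by positivity)
    have h2 : 0 ≤ √(L : ℝ) := Real.sqrt_nonneg _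
    have h3 : √((L + 1 : ℕ) : ℝ) ^ 2 = L + 1 := by
      rw [Real.sq_sqrt (by positivity)]; push_cast; ring
    have h4 : √(L : ℝ) ^ 2 = L := Real.sq_sqrt (by positivity)
    have h5 : 1 / √((L + 1 : ℕ) : ℝ) ≤ 2 * (√((L + 1 : ℕ) : ℝ) - √(L : ℝ)) := by
      rw [div_le_iff₀ h1]
      nlinarith [sq_nonneg (√((L + 1 : ℕ) : ℝ) - √(L : ℝ))]
    linarith

/-- PIECE [JB-F4] (about 80 lines). PROOF. The elements `j ≥ n` of the class of `d` modulo `n` are `j = l n + d % n` with `l ≥ 1`, `1 / √j ≤ 1 / √(l n)`, and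
`∑_{1 ≤ l ≤ x / n} 1 / √l ≤ 2 √(x / n)`. -/
theorem sum_prog (n d x : ℕ) (hn : 0 < n) :
    ∑ p ∈ (Icc n x).filter (fun p => p ≡ d [MOD n]), 1 / √(p : ℝ) ≤ 2 * √(x : ℝ) / n := by
  classical
  have hn' : (0 : ℝ) < n := by exact_mod_cast hn
  have hs : 0 < √(n : ℝ) := Real.sqrt_pos.2 hn'
  have hinj : Set.InjOn (fun p => p / n) ((Icc n x).filter (fun p => p ≡ d [MOD n])) := by
    intro p hp q hq h
    have h1 : p % n = d % n := (Finset.mem_filter.1 (Finset.mem_coe.1 hp)).2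
    have h2 : q % n = d % n := (Finset.mem_filter.1 (Finset.mem_coe.1 hq)).2
    have h3 := Nat.div_add_mod p n
    have h4 := Nat.div_add_mod q n
    simp only at h
    rw [← h3, ← h4, h, h1, h2]
  calc ∑ p ∈ (Icc n x).filter (fun p => p ≡ d [MOD n]), 1 / √(p : ℝ)
      ≤ ∑ p ∈ (Icc n x).filter (fun p => p ≡ d [MOD n]), (1 / √(n : ℝ)) * (1 / √((p / n : ℕ) : ℝ)) := by
        refine Finset.sum_le_sum fun p hp => ?_
        have h1 := Finset.mem_Icc.1 (Finset.mem_filter.1 hp).1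
        have h2 : 0 < p / n := Nat.div_pos h1.1 hn
        have h3 : (0 : ℝ) < ((p / n : ℕ) : ℝ) := by exact_mod_cast h2
        have h4 : (n : ℝ) * ((p / n : ℕ) : ℝ) ≤ p := by exact_mod_cast Nat.mul_div_le p n
        rw [div_mul_div_comm, one_mul, ← Real.sqrt_mul hn'.le]
        exact one_div_le_one_div_of_le (Real.sqrt_pos.2 (by positivity)) (Real.sqrt_le_sqrt h4)
    _ = (1 / √(n : ℝ)) * ∑ l ∈ ((Icc n x).filter (fun p => p ≡ d [MOD n])).image (fun p => p / n), 1 / √(l : ℝ) := by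
        rw [Finset.sum_image hinj, Finset.mul_sum]
    _ ≤ (1 / √(n : ℝ)) * ∑ l ∈ Icc 1 (x / n), 1 / √(l : ℝ) := by
        refine mul_le_mul_of_nonneg_left ?_ (by positivity)
        refine Finset.sum_le_sum_of_subset_of_nonneg ?_ (fun i _ _ => by positivity)
        intro l hl
        obtain ⟨p, hp, rfl⟩ := Finset.mem_image.1 hl
        have h1 := Finset.mem_Icc.1 (Finset.mem_filter.1 hp).1
        exact Finset.mem_Icc.2 ⟨Nat.div_pos h1.1 hn, Nat.div_le_div_right h1.2⟩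
    _ ≤ (1 / √(n : ℝ)) * (2 * √((x : ℝ) / n)) := by
        refine mul_le_mul_of_nonneg_left ((sum_inv_sqrt _).trans ?_) (by positivity)
        refine mul_le_mul_of_nonneg_left (Real.sqrt_le_sqrt Nat.cast_div_le) (by norm_num)
    _ = 2 * √(x : ℝ) / n := by
        rw [Real.sqrt_div (Nat.cast_nonneg x)]
        have h5 : √(n : ℝ) * √(n : ℝ) = n := Real.mul_self_sqrt hn'.le
        calc 1 / √(n : ℝ) * (2 * (√(x : ℝ) / √(n : ℝ))) = 2 * √(x : ℝ) / (√(n : ℝ) * √(n : ℝ)) := by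
              field_simp
          _ = _ := by rw [h5]

end Pool.Agent.JB
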