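import Pool.Agent.Lib_MP_f1937f_jb.Greedy
import Pool.Agent.Lib_MP_f1937f_tb.Block
import Pool.Agent.Lib_MP_f1937f_tb.Cheb

/-!
# One dyadic block, finitely many tests
-/

set_option autoImplicit false

namespace Pool.Agent.JB

open Finset Pool.Agent.TB

theorem RBlk_card_le (i : ℕ) : (blk i).card ≤ 2 ^ i := by
  unfold blk
  refine (Finset.card_filter_le _ _).trans ?_
  rw [Nat.card_Ico, pow_succ]
  omega

theorem RBlk_xx_le_one {p : ℕ} (hp : 0 < p) {a : ℤ} (ha : a ∈ V p) : |xx p a| ≤ 1 := by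
  have h4 := Block_abs_le ha
  have hp0 : (0 : ℝ) < p := by exact_mod_cast hp
  unfold xx
  rw [abs_div, abs_of_pos (show (0 : ℝ) < 2 * √(p : ℝ) by positivity)]
  exact (div_le_one (by positivity)).2 h4

/-- PIECE [JB-F2] (about 120 lines). PROOF. `greedy` with `S = blk i`, `Vs = V`, `J = range (2 ^ (i+3) + 1) ^ 6` (indices `q, d, Q, t, k, x`),
`T j p a = if p ≤ x ∧ p ≡ d [MOD q] ∧ Q ∣ a - t then Uk k (xx p a) else 0`, `c j = k + 1` (`|Uk k y| ≤ k + 1` for `|y| ≤ 1`, see `Cheb.lean`; `|xx p a| ≤ 1` for `a ∈ V p`),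
`#S ≤ 2 ^ i`, `log (2 #J + 1) ≤ 30 (i + 1)`. -/
theorem rblk (i : ℕ) (ρ : ℕ → ℤ → ℝ) (h0 : ∀ p ∈ blk i, ∀ a, 0 ≤ ρ p a) (h1 : ∀ p ∈ blk i, ∑ a ∈ V p, ρ p a = 1) :
    ∃ v : ℕ → ℤ, (∀ p ∈ blk i, v p ∈ V p ∧ 0 < ρ p (v p)) ∧
      ∀ q d Q t k x : ℕ, q ≤ 2 ^ (i + 3) → d ≤ 2 ^ (i + 3) → Q ≤ 2 ^ (i + 3) → t ≤ 2 ^ (i + 3) → k ≤ 2 ^ (i + 3) → x ≤ 2 ^ (i + 3) →
        |∑ p ∈ (blk i).filter (fun p => p ≤ x ∧ p ≡ d [MOD q]), ((if (Q : ℤ) ∣ v p - t then Uk k (xx p (v p)) else 0) -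
            ∑ a ∈ (V p).filter (fun a => (Q : ℤ) ∣ a - t), ρ p a * Uk k (xx p a))| ≤
          20 * (k + 1) * √((2 : ℝ) ^ i * (i + 1)) := by
  classical
  set R : Finset ℕ := range (2 ^ (i + 3) + 1) with hR
  set J : Finset (ℕ × ℕ × ℕ × ℕ × ℕ × ℕ) := R ×ˢ R ×ˢ R ×ˢ R ×ˢ R ×ˢ R with hJ
  set T : ℕ × ℕ × ℕ × ℕ × ℕ × ℕ → ℕ → ℤ → ℝ := fun j p a =>
    if (p ≤ j.2.2.2.2.2 ∧ p ≡ j.2.1 [MOD j.1]) ∧ (j.2.2.1 : ℤ) ∣ a - (j.2.2.2.1 : ℤ)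
      then Uk j.2.2.2.2.1 (xx p a) else 0 with hT
  set c : ℕ × ℕ × ℕ × ℕ × ℕ × ℕ → ℝ := fun j => (j.2.2.2.2.1 : ℝ) + 1 with hc
  have hcJ : (J.card : ℝ) ≤ (2 : ℝ) ^ (6 * i + 24) := by
    have e1 : J.card = (2 ^ (i + 3) + 1) ^ 6 := by
      rw [hJ]
      simp only [Finset.card_product, hR, Finset.card_range]
      ring
    have e2 : 2 ^ (i + 3) + 1 ≤ 2 ^ (i + 4) := by
      rw [pow_succ 2 (i + 3)]
      have := Nat.one_le_two_pow (n := i + 3)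
      omega
    have e3 : J.card ≤ 2 ^ (6 * i + 24) := by
      rw [e1]
      calc (2 ^ (i + 3) + 1) ^ 6 ≤ (2 ^ (i + 4)) ^ 6 := Nat.pow_le_pow_left e2 6
        _ = 2 ^ (6 * i + 24) := by rw [← pow_mul]; congr 1; ring
    exact_mod_cast e3
  have hL : Real.log (2 * J.card + 1) ≤ 30 * ((i : ℝ) + 1) := by
    have e1 : 2 * (J.card : ℝ) + 1 ≤ (2 : ℝ) ^ (6 * i + 26) := by
      have e2 : (1 : ℝ) ≤ (2 : ℝ) ^ (6 * i + 24) := one_le_pow₀ (by norm_num)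
      calc 2 * (J.card : ℝ) + 1 ≤ 2 * (2 : ℝ) ^ (6 * i + 24) + (2 : ℝ) ^ (6 * i + 24) := by linarith
        _ ≤ 4 * (2 : ℝ) ^ (6 * i + 24) := by linarith
        _ = (2 : ℝ) ^ (6 * i + 26) := by
            rw [show 6 * i + 26 = (6 * i + 24) + 2 by ring, pow_add]
            ring
    have e2 : Real.log (2 * J.card + 1) ≤ Real.log ((2 : ℝ) ^ (6 * i + 26)) :=
      Real.log_le_log (by positivity) e1
    rw [Real.log_pow] at e2
    have e3 := Real.log_two_lt_d9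
    have e4 : Real.log 2 ≤ 1 := by linarith
    have e5 : (0 : ℝ) ≤ ((6 * i + 26 : ℕ) : ℝ) := Nat.cast_nonneg _
    have e6 : ((6 * i + 26 : ℕ) : ℝ) * Real.log 2 ≤ ((6 * i + 26 : ℕ) : ℝ) * 1 :=
      mul_le_mul_of_nonneg_left e4 e5
    push_cast at e2 e6
    have e7 : (0 : ℝ) ≤ i := Nat.cast_nonneg i
    linarith
  have hTb : ∀ j ∈ J, ∀ p ∈ blk i, ∀ a ∈ V p, |T j p a| ≤ c j := by
    intro j _ p hp a ha
    rw [hT, hc]
    beta_reduce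
    split_ifs with h
    · exact Uk_le _ (RBlk_xx_le_one (Block_blk hp).1 ha)
    · rw [abs_zero]
      positivity
  obtain ⟨v, hv1, hv2⟩ := greedy J (blk i) V ρ h0 h1 T c (fun j _ => by rw [hc]; positivity) hTb
    (30 * ((i : ℝ) + 1)) hL (by positivity)
  refine ⟨v, hv1, ?_⟩
  intro q d Q t k x hq hd hQ ht hk hx
  have hmem : (q, d, Q, t, k, x) ∈ J := by
    rw [hJ]
    simp only [Finset.mem_product, hR, Finset.mem_range]
    omega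
  have h2 := hv2 _ hmem
  rw [hT, hc] at h2
  simp only at h2
  have h3 : ∑ p ∈ blk i, ((if (p ≤ x ∧ p ≡ d [MOD q]) ∧ (Q : ℤ) ∣ v p - (t : ℤ)
        then Uk k (xx p (v p)) else 0) -
        ∑ a ∈ V p, ρ p a * (if (p ≤ x ∧ p ≡ d [MOD q]) ∧ (Q : ℤ) ∣ a - (t : ℤ)
          then Uk k (xx p a) else 0))
      = ∑ p ∈ (blk i).filter (fun p => p ≤ x ∧ p ≡ d [MOD q]),
        ((if (Q : ℤ) ∣ v p - t then Uk k (xx p (v p)) else 0) -
            ∑ a ∈ (V p).filter (fun a => (Q : ℤ) ∣ a - t), ρ p a * Uk k (xx p a)) := by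
    rw [Finset.sum_filter]
    refine Finset.sum_congr rfl fun p _ => ?_
    by_cases hcond : p ≤ x ∧ p ≡ d [MOD q]
    · rw [if_pos hcond, Finset.sum_filter]
      congr 1
      · by_cases h : (Q : ℤ) ∣ v p - (t : ℤ)
        · rw [if_pos ⟨hcond, h⟩, if_pos h]
        · rw [if_neg (fun hh => h hh.2), if_neg h]
      · refine Finset.sum_congr rfl fun a _ => ?_
        by_cases h : (Q : ℤ) ∣ a - (t : ℤ)
        · rw [if_pos ⟨hcond, h⟩, if_pos h]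
        · rw [if_neg (fun hh => h hh.2), if_neg h, mul_zero]
    · rw [if_neg hcond, if_neg (fun hh => hcond hh.1)]
      rw [zero_sub, neg_eq_zero]
      refine Finset.sum_eq_zero fun a _ => ?_
      rw [if_neg (fun hh => hcond hh.1), mul_zero]
  rw [h3] at h2
  refine h2.trans ?_
  have hcard : ((blk i).card : ℝ) ≤ (2 : ℝ) ^ i := by exact_mod_cast RBlk_card_le i
  have h4 : √(((blk i).card : ℝ) * (30 * ((i : ℝ) + 1))) ≤ 6 * √((2 : ℝ) ^ i * (i + 1)) := by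
    have h5 : (6 : ℝ) * √((2 : ℝ) ^ i * (i + 1)) = √(36 * ((2 : ℝ) ^ i * (i + 1))) := by
      rw [Real.sqrt_mul (by norm_num : (0 : ℝ) ≤ 36)]
      congr 1
      rw [show (36 : ℝ) = 6 ^ 2 by norm_num, Real.sqrt_sq (by norm_num)]
    rw [h5]
    apply Real.sqrt_le_sqrt
    have h6 : (0 : ℝ) ≤ (i : ℝ) + 1 := by positivity
    have h7 : ((blk i).card : ℝ) * ((i : ℝ) + 1) ≤ (2 : ℝ) ^ i * (i + 1) :=
      mul_le_mul_of_nonneg_right hcard h6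
    have h8 : (0 : ℝ) ≤ (2 : ℝ) ^ i * (i + 1) := by positivity
    nlinarith
  have h9 : (0 : ℝ) ≤ √((2 : ℝ) ^ i * (i + 1)) := Real.sqrt_nonneg _
  have h10 : (0 : ℝ) ≤ (k : ℝ) + 1 := by positivity
  calc 3 * ((k : ℝ) + 1) * √(((blk i).card : ℝ) * (30 * ((i : ℝ) + 1)))
      ≤ 3 * ((k : ℝ) + 1) * (6 * √((2 : ℝ) ^ i * (i + 1))) := by gcongr
    _ = 18 * (((k : ℝ) + 1) * √((2 : ℝ) ^ i * (i + 1))) := by ring
    _ ≤ 20 * (((k : ℝ) + 1) * √((2 : ℝ) ^ i * (i + 1))) := by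
        have := mul_nonneg h10 h9
        linarith
    _ = 20 * (k + 1) * √((2 : ℝ) ^ i * (i + 1)) := by ring


end Pool.Agent.JB
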