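import Pool.Agent.Lib_MP_f1937f_jb.RBlk

/-!
# One dyadic block, all tests
-/

set_option autoImplicit false

namespace Pool.Agent.JB

open Finset Pool.Agent.TB

/-- `|U_k (a / (2 √p))| ≤ 2 √p`, since `a ^ 2 ≠ 4 p` -/
theorem RBlk_Uk_le {p : ℕ} (hp : p.Prime) {a : ℤ} (ha : a ∈ V p) (k : ℕ) :
    |Uk k (xx p a)| ≤ 2 * √(p : ℝ) := by
  have hp0 : (0 : ℝ) < p := by exact_mod_cast hp.pos
  have hsp : 0 < √(p : ℝ) := Real.sqrt_pos.2 hp0
  have hsq : √(p : ℝ) ^ 2 = p := Real.sq_sqrt hp0.le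
  have h1 : a.natAbs ^ 2 ≤ 4 * p := by
    have h2 : |a| ≤ (Nat.sqrt (4 * p) : ℤ) := by
      unfold V at ha
      rw [Finset.mem_Icc] at ha
      exact abs_le.2 ha
    have h3 : a.natAbs ≤ Nat.sqrt (4 * p) := by
      have h4 : ((a.natAbs : ℕ) : ℤ) = |a| := Int.natCast_natAbs a
      omega
    exact Nat.le_sqrt'.1 h3
  have h2 : a.natAbs ^ 2 ≠ 4 * p := by
    intro h
    have h3 : 2 ∣ a.natAbs := by
      apply Nat.prime_two.dvd_of_dvd_pow (n := 2)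
      rw [h]
      exact ⟨2 * p, by ring⟩
    obtain ⟨m, hm⟩ := h3
    rw [hm] at h
    have h4 : m * m = p := by nlinarith
    rcases (Nat.dvd_prime hp).1 (Dvd.intro m h4) with h5 | h5
    · rw [h5] at h4
      exact hp.one_lt.ne (by omega)
    · rw [h5] at h4
      have h6 := hp.one_lt
      nlinarith
  have h3 : a.natAbs ^ 2 + 1 ≤ 4 * p := by omega
  have h4 : (a : ℝ) ^ 2 + 1 ≤ 4 * p := by
    have h5 : ((a.natAbs : ℕ) : ℝ) = |(a : ℝ)| := by
      rw [Nat.cast_natAbs, Int.cast_abs]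
    have h6 : ((a.natAbs ^ 2 + 1 : ℕ) : ℝ) ≤ ((4 * p : ℕ) : ℝ) := by exact_mod_cast h3
    push_cast at h6
    rw [Nat.cast_natAbs, Int.cast_abs, sq_abs] at h6
    exact h6
  have hy1 := RBlk_xx_le_one hp.pos ha
  have hy2 := abs_le.1 hy1
  have h5 := Uk_cos k (Real.arccos (xx p a))
  rw [Real.cos_arccos hy2.1 hy2.2, Real.sin_arccos] at h5
  have h6 : 1 / (2 * √(p : ℝ)) ≤ √(1 - xx p a ^ 2) := by
    apply Real.le_sqrt_of_sq_le
    unfold xx
    rw [div_pow, div_pow, mul_pow, hsq, one_pow]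
    have h7 : (1 : ℝ) - (a : ℝ) ^ 2 / (2 ^ 2 * p) = (4 * p - (a : ℝ) ^ 2) / (2 ^ 2 * p) := by
      field_simp
      ring
    rw [h7]
    exact div_le_div_of_nonneg_right (by linarith) (by positivity)
  have h7 : |Uk k (xx p a)| * √(1 - xx p a ^ 2) ≤ 1 := by
    have h8 : |Uk k (xx p a)| * √(1 - xx p a ^ 2) = |Uk k (xx p a) * √(1 - xx p a ^ 2)| := by
      rw [abs_mul, abs_of_nonneg (Real.sqrt_nonneg (1 - xx p a ^ 2))]
    rw [h8, h5]
    exact Real.abs_sin_le_one _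
  have h8 : |Uk k (xx p a)| * (1 / (2 * √(p : ℝ))) ≤ 1 :=
    (mul_le_mul_of_nonneg_left h6 (abs_nonneg _)).trans h7
  rw [mul_one_div, div_le_one (by positivity)] at h8
  exact h8

/-- the trivial bound of one term -/
theorem RBlk_term_le (p : ℕ) (ρ : ℤ → ℝ) (h0 : ∀ a, 0 ≤ ρ a) (h1 : ∑ a ∈ V p, ρ a = 1) {v : ℤ}
    (hv : v ∈ V p) (k : ℕ) (B : ℝ) (hB : ∀ a ∈ V p, |Uk k (xx p a)| ≤ B) (P : ℤ → Prop)
    [DecidablePred P] :
    |(if P v then Uk k (xx p v) else 0) - ∑ a ∈ (V p).filter P, ρ a * Uk k (xx p a)| ≤ 2 * B := by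
  have hB0 : 0 ≤ B := (abs_nonneg _).trans (hB v hv)
  have h2 : |(if P v then Uk k (xx p v) else 0)| ≤ B := by
    split_ifs
    · exact hB v hv
    · rw [abs_zero]
      exact hB0
  have h3 : |∑ a ∈ (V p).filter P, ρ a * Uk k (xx p a)| ≤ B := by
    calc |∑ a ∈ (V p).filter P, ρ a * Uk k (xx p a)|
        ≤ ∑ a ∈ (V p).filter P, |ρ a * Uk k (xx p a)| := Finset.abs_sum_le_sum_abs _ _
      _ ≤ ∑ a ∈ V p, |ρ a * Uk k (xx p a)| :=
          Finset.sum_le_sum_of_subset_of_nonneg (Finset.filter_subset _ _)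
            (fun _ _ _ => abs_nonneg _)
      _ ≤ ∑ a ∈ V p, ρ a * B := by
          refine Finset.sum_le_sum fun a ha => ?_
          rw [abs_mul, abs_of_nonneg (h0 a)]
          exact mul_le_mul_of_nonneg_left (hB a ha) (h0 a)
      _ = B := by rw [← Finset.sum_mul, h1, one_mul]
  have h4 := abs_sub (if P v then Uk k (xx p v) else 0) (∑ a ∈ (V p).filter P, ρ a * Uk k (xx p a))
  linarith

/-- reduction of `Q`, `t` -/
theorem RBlk_red (i Q : ℕ) (hQ : 0 < Q) (t : ℤ) :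
    (∀ a ∈ V (2 ^ (i + 1)), ¬ (Q : ℤ) ∣ a - t) ∨
      ∃ Q' t' : ℕ, Q' ≤ 2 ^ (i + 3) ∧ t' ≤ 2 ^ (i + 3) ∧
        ∀ a ∈ V (2 ^ (i + 1)), ((Q : ℤ) ∣ a - t ↔ (Q' : ℤ) ∣ a - (t' : ℤ)) := by
  by_cases hQN : Q ≤ 2 ^ (i + 3)
  · right
    have hQ' : (0 : ℤ) < Q := by exact_mod_cast hQ
    have h0 : 0 ≤ t % (Q : ℤ) := Int.emod_nonneg _ hQ'.ne'
    have h1 : t % (Q : ℤ) < Q := Int.emod_lt_of_pos _ hQ'
    refine ⟨Q, (t % (Q : ℤ)).toNat, hQN, by omega, fun a _ => ?_⟩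
    rw [Int.toNat_of_nonneg h0]
    have h2 : a - t % (Q : ℤ) = (a - t) + (t - t % (Q : ℤ)) := by ring
    rw [h2]
    exact (Int.dvd_add_left (Int.dvd_self_sub_emod)).symm
  · rw [not_le] at hQN
    by_cases hex : ∃ a₁ ∈ V (2 ^ (i + 1)), (Q : ℤ) ∣ a₁ - t
    · right
      obtain ⟨a₁, ha₁, hd⟩ := hex
      have hN : (0 : ℤ) < ((2 ^ (i + 3) : ℕ) : ℤ) := by positivity
      have h0 : 0 ≤ a₁ % ((2 ^ (i + 3) : ℕ) : ℤ) := Int.emod_nonneg _ hN.ne'
      have h1 : a₁ % ((2 ^ (i + 3) : ℕ) : ℤ) < ((2 ^ (i + 3) : ℕ) : ℤ) := Int.emod_lt_of_pos _ hN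
      refine ⟨2 ^ (i + 3), (a₁ % ((2 ^ (i + 3) : ℕ) : ℤ)).toNat, le_rfl, by omega, fun a ha => ?_⟩
      rw [Int.toNat_of_nonneg h0]
      have hs : Nat.sqrt (4 * 2 ^ (i + 1)) * 2 < 2 ^ (i + 3) := by
        have h4 : 4 * 2 ^ (i + 1) = 2 ^ (i + 3) := by ring
        rw [h4]
        have h5 := Nat.sqrt_le' (2 ^ (i + 3))
        have h6 : 8 ≤ 2 ^ (i + 3) := by
          rw [pow_add]
          have := Nat.one_le_two_pow (n := i)
          omega
        by_contra hcon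
        rw [not_lt] at hcon
        have h7 : 2 ^ (i + 3) ^ 1 * 2 ^ (i + 3) ≤ (Nat.sqrt (2 ^ (i + 3)) * 2) * (Nat.sqrt (2 ^ (i + 3)) * 2) := by
          rw [pow_one]
          exact Nat.mul_le_mul hcon hcon
        rw [pow_one] at h7
        nlinarith
      have hdist : |a - a₁| < ((2 ^ (i + 3) : ℕ) : ℤ) := by
        unfold V at ha ha₁
        rw [Finset.mem_Icc] at ha ha₁
        have hs' : ((Nat.sqrt (4 * 2 ^ (i + 1)) : ℕ) : ℤ) * 2 < ((2 ^ (i + 3) : ℕ) : ℤ) := by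
          exact_mod_cast hs
        rw [abs_lt]
        constructor <;> linarith [ha.1, ha.2, ha₁.1, ha₁.2]
      have hkey : ∀ n : ℕ, 2 ^ (i + 3) ≤ n → ((n : ℤ) ∣ a - a₁ ↔ a = a₁) := by
        intro n hn
        constructor
        · intro h
          have h6 : a - a₁ = 0 := by
            apply Int.eq_zero_of_abs_lt_dvd h
            refine lt_of_lt_of_le hdist ?_
            exact_mod_cast hn
          linarith
        · rintro rfl
          simp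
      have h2 : (Q : ℤ) ∣ a - t ↔ (Q : ℤ) ∣ a - a₁ := by
        have h3 : a - t = (a - a₁) + (a₁ - t) := by ring
        rw [h3]
        exact Int.dvd_add_left hd
      have h3 : ((2 ^ (i + 3) : ℕ) : ℤ) ∣ a - a₁ % ((2 ^ (i + 3) : ℕ) : ℤ)
          ↔ ((2 ^ (i + 3) : ℕ) : ℤ) ∣ a - a₁ := by
        have h4 : a - a₁ % ((2 ^ (i + 3) : ℕ) : ℤ)
            = (a - a₁) + (a₁ - a₁ % ((2 ^ (i + 3) : ℕ) : ℤ)) := by ring
        rw [h4]
        exact Int.dvd_add_left (Int.dvd_self_sub_emod)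
      rw [h2, h3, hkey Q hQN.le, hkey _ le_rfl]
    · left
      intro a ha h
      exact hex ⟨a, ha, h⟩

/-- PIECE [JB-F3] (about 180 lines). PROOF. `v` from `rblk`. Reductions: `x` by `min x (2 ^ (i+1))`; `q > 2 ^ (i+1)`: at most one prime of the block is `≡ d mod q`, trivial bound `2 (k + 1)`; otherwise `d` by
`d % q`. `Q > 2 ^ (i+3)`: if some `a₁ ∈ V (2 ^ (i+1))` satisfies `Q ∣ a₁ - t`, then on `V (2 ^ (i+1))` (which contains all `V p`, `Block_V_mono`, and has less than `2 ^ (i+3)` elements;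
`|a - a'| < 2 ^ (i+3)`) `Q ∣ a - t` iff `a = a₁` iff `2 ^ (i+3) ∣ a - a₁`; if not, everything is `0`. `t` by its residue modulo `Q`. `k > 2 ^ (i+3)`: `|Uk k (xx p a)| ≤ 2 √p` for
`a ∈ V p`, `p` prime: with `xx p a = cos θ`, `|Uk k (cos θ) sin θ| = |sin ((k+1) θ)| ≤ 1` and `sin θ = √(4 p - a ^ 2) / (2 √p) ≥ 1 / (2 √p)` as `a ^ 2 ≠ 4 p`; at most `2 ^ i` primes, so the
sum is at most `2 ^ i * 4 √(2 ^ (i+1)) ≤ (k + 1) √(2 ^ i)`. -/
theorem rblk_all (i : ℕ) (ρ : ℕ → ℤ → ℝ) (h0 : ∀ p ∈ blk i, ∀ a, 0 ≤ ρ p a) (h1 : ∀ p ∈ blk i, ∑ a ∈ V p, ρ p a = 1) :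
    ∃ v : ℕ → ℤ, (∀ p ∈ blk i, v p ∈ V p ∧ 0 < ρ p (v p)) ∧
      ∀ q d Q : ℕ, 0 < q → 0 < Q → ∀ (t : ℤ) (k x : ℕ),
        |∑ p ∈ (blk i).filter (fun p => p ≤ x ∧ p ≡ d [MOD q]), ((if (Q : ℤ) ∣ v p - t then Uk k (xx p (v p)) else 0) -
            ∑ a ∈ (V p).filter (fun a => (Q : ℤ) ∣ a - t), ρ p a * Uk k (xx p a))| ≤
          20 * (k + 1) * √((2 : ℝ) ^ i * (i + 1)) := by
  classical
  obtain ⟨v, hv1, hv2⟩ := rblk i ρ h0 h1
  refine ⟨v, hv1, ?_⟩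
  intro q d Q hq hQ t k x
  have hk0 : (0 : ℝ) < (k : ℝ) + 1 := by positivity
  have h2i : (1 : ℝ) ≤ (2 : ℝ) ^ i := one_le_pow₀ (by norm_num)
  have hi1 : (1 : ℝ) ≤ (i : ℝ) + 1 := by
    have : (0 : ℝ) ≤ i := Nat.cast_nonneg i
    linarith
  have hsq1 : (1 : ℝ) ≤ √((2 : ℝ) ^ i * (i + 1)) := by
    rw [Real.one_le_sqrt]
    exact one_le_mul_of_one_le_of_one_le h2i hi1
  have hsq2 : √((2 : ℝ) ^ i) ≤ √((2 : ℝ) ^ i * (i + 1)) := by
    apply Real.sqrt_le_sqrt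
    exact le_mul_of_one_le_right (by positivity) hi1
  by_cases hkN : k ≤ 2 ^ (i + 3)
  swap
  · -- large degree
    rw [not_le] at hkN
    have hB : ∀ p ∈ blk i, ∀ a ∈ V p, |Uk k (xx p a)| ≤ 2 * √((2 : ℝ) ^ (i + 1)) := by
      intro p hp a ha
      have hpp : p.Prime := by
        unfold blk at hp
        exact (Finset.mem_filter.1 hp).2
      refine (RBlk_Uk_le hpp ha k).trans ?_
      have h3 : (p : ℝ) ≤ (2 : ℝ) ^ (i + 1) := by exact_mod_cast (Block_blk hp).2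
      have h4 := Real.sqrt_le_sqrt h3
      linarith
    refine (Finset.abs_sum_le_sum_abs _ _).trans ?_
    have h3 : ∀ p ∈ (blk i).filter (fun p => p ≤ x ∧ p ≡ d [MOD q]),
        |((if (Q : ℤ) ∣ v p - t then Uk k (xx p (v p)) else 0) -
            ∑ a ∈ (V p).filter (fun a => (Q : ℤ) ∣ a - t), ρ p a * Uk k (xx p a))|
          ≤ 2 * (2 * √((2 : ℝ) ^ (i + 1))) := by
      intro p hp
      have hp' := (Finset.mem_filter.1 hp).1
      exact RBlk_term_le p (ρ p) (h0 p hp') (h1 p hp') (hv1 p hp').1 k _ (hB p hp')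
        (fun a => (Q : ℤ) ∣ a - t)
    refine (Finset.sum_le_sum h3).trans ?_
    rw [Finset.sum_const, nsmul_eq_mul]
    have h4 : (((blk i).filter (fun p => p ≤ x ∧ p ≡ d [MOD q])).card : ℝ) ≤ (2 : ℝ) ^ i := by
      have h5 : ((blk i).filter (fun p => p ≤ x ∧ p ≡ d [MOD q])).card ≤ 2 ^ i :=
        (Finset.card_filter_le _ _).trans (RBlk_card_le i)
      exact_mod_cast h5
    have h5 : √((2 : ℝ) ^ (i + 1)) ≤ 2 * √((2 : ℝ) ^ i) := by
      have h6 : (2 : ℝ) * √((2 : ℝ) ^ i) = √(4 * (2 : ℝ) ^ i) := by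
        rw [Real.sqrt_mul (by norm_num : (0 : ℝ) ≤ 4)]
        congr 1
        rw [show (4 : ℝ) = 2 ^ 2 by norm_num, Real.sqrt_sq (by norm_num)]
      rw [h6]
      apply Real.sqrt_le_sqrt
      rw [pow_succ]
      nlinarith
    have h6 : (8 : ℝ) * (2 : ℝ) ^ i ≤ (k : ℝ) + 1 := by
      have h7 : (2 ^ (i + 3) : ℕ) ≤ k + 1 := by omega
      have h8 : (((2 ^ (i + 3) : ℕ)) : ℝ) ≤ ((k + 1 : ℕ) : ℝ) := by exact_mod_cast h7
      push_cast at h8
      rw [pow_add] at h8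
      linarith
    have h7 : 0 ≤ √((2 : ℝ) ^ (i + 1)) := Real.sqrt_nonneg _
    have h8 : 0 ≤ √((2 : ℝ) ^ i) := Real.sqrt_nonneg _
    calc (((blk i).filter (fun p => p ≤ x ∧ p ≡ d [MOD q])).card : ℝ) * (2 * (2 * √((2 : ℝ) ^ (i + 1))))
        ≤ (2 : ℝ) ^ i * (2 * (2 * (2 * √((2 : ℝ) ^ i)))) := by gcongr
      _ = (8 * (2 : ℝ) ^ i) * √((2 : ℝ) ^ i) := by ring
      _ ≤ ((k : ℝ) + 1) * √((2 : ℝ) ^ i) := by gcongr
      _ ≤ ((k : ℝ) + 1) * √((2 : ℝ) ^ i * (i + 1)) := by gcongr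
      _ ≤ 20 * (k + 1) * √((2 : ℝ) ^ i * (i + 1)) := by
          have h9 : 0 ≤ ((k : ℝ) + 1) * √((2 : ℝ) ^ i * (i + 1)) := by positivity
          linarith
  -- small degree
  have hterm : ∀ p ∈ blk i,
      |((if (Q : ℤ) ∣ v p - t then Uk k (xx p (v p)) else 0) -
          ∑ a ∈ (V p).filter (fun a => (Q : ℤ) ∣ a - t), ρ p a * Uk k (xx p a))|
        ≤ 2 * ((k : ℝ) + 1) := by
    intro p hp
    exact RBlk_term_le p (ρ p) (h0 p hp) (h1 p hp) (hv1 p hp).1 k _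
      (fun a ha => Uk_le k (RBlk_xx_le_one (Block_blk hp).1 ha)) (fun a => (Q : ℤ) ∣ a - t)
  by_cases hqN : q ≤ 2 ^ (i + 1)
  swap
  · -- large modulus of the progression
    rw [not_le] at hqN
    have hone : ((blk i).filter (fun p => p ≤ x ∧ p ≡ d [MOD q])).card ≤ 1 := by
      rw [Finset.card_le_one]
      intro p hp p' hp'
      rw [Finset.mem_filter] at hp hp'
      have h3 : p ≡ p' [MOD q] := hp.2.2.trans hp'.2.2.symm
      have h4 : p < 2 ^ (i + 1) := by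
        have h5 := hp.1
        unfold blk at h5
        rw [Finset.mem_filter, Finset.mem_Ico] at h5
        exact h5.1.2
      have h4' : p' < 2 ^ (i + 1) := by
        have h5 := hp'.1
        unfold blk at h5
        rw [Finset.mem_filter, Finset.mem_Ico] at h5
        exact h5.1.2
      exact Nat.ModEq.eq_of_lt_of_lt h3 (by omega) (by omega)
    refine (Finset.abs_sum_le_sum_abs _ _).trans ?_
    refine (Finset.sum_le_sum fun p hp => hterm p (Finset.mem_filter.1 hp).1).trans ?_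
    rw [Finset.sum_const, nsmul_eq_mul]
    have h3 : (((blk i).filter (fun p => p ≤ x ∧ p ≡ d [MOD q])).card : ℝ) ≤ 1 := by
      exact_mod_cast hone
    calc (((blk i).filter (fun p => p ≤ x ∧ p ≡ d [MOD q])).card : ℝ) * (2 * ((k : ℝ) + 1))
        ≤ 1 * (2 * ((k : ℝ) + 1)) := by gcongr
      _ ≤ 20 * ((k : ℝ) + 1) * 1 := by linarith
      _ ≤ 20 * (k + 1) * √((2 : ℝ) ^ i * (i + 1)) := by gcongr
  have hV : ∀ p ∈ blk i, ∀ a ∈ V p, a ∈ V (2 ^ (i + 1)) := fun p hp a ha =>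
    Block_V_mono (Block_blk hp).2 ha
  rcases RBlk_red i Q hQ t with hnone | ⟨Q', t', hQ', ht', hiff⟩
  · have hz : ∑ p ∈ (blk i).filter (fun p => p ≤ x ∧ p ≡ d [MOD q]),
        ((if (Q : ℤ) ∣ v p - t then Uk k (xx p (v p)) else 0) -
            ∑ a ∈ (V p).filter (fun a => (Q : ℤ) ∣ a - t), ρ p a * Uk k (xx p a)) = 0 := by
      refine Finset.sum_eq_zero fun p hp => ?_
      have hp' := (Finset.mem_filter.1 hp).1
      rw [if_neg (hnone _ (hV p hp' _ (hv1 p hp').1))]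
      have h3 : (V p).filter (fun a => (Q : ℤ) ∣ a - t) = ∅ := by
        rw [Finset.filter_eq_empty_iff]
        intro a ha
        exact hnone a (hV p hp' a ha)
      rw [h3, Finset.sum_empty, sub_zero]
    rw [hz, abs_zero]
    positivity
  · have hle1 : 2 ^ (i + 1) ≤ 2 ^ (i + 3) := Nat.pow_le_pow_right (by norm_num) (by omega)
    have h3 := hv2 q (d % q) Q' t' k (min x (2 ^ (i + 1))) (hqN.trans hle1)
      (((Nat.mod_lt d hq).le.trans hqN).trans hle1) hQ' ht' hkN ((min_le_right _ _).trans hle1)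
    have h4 : ∑ p ∈ (blk i).filter (fun p => p ≤ x ∧ p ≡ d [MOD q]),
        ((if (Q : ℤ) ∣ v p - t then Uk k (xx p (v p)) else 0) -
            ∑ a ∈ (V p).filter (fun a => (Q : ℤ) ∣ a - t), ρ p a * Uk k (xx p a))
        = ∑ p ∈ (blk i).filter (fun p => p ≤ min x (2 ^ (i + 1)) ∧ p ≡ d % q [MOD q]),
        ((if (Q' : ℤ) ∣ v p - t' then Uk k (xx p (v p)) else 0) -
            ∑ a ∈ (V p).filter (fun a => (Q' : ℤ) ∣ a - t'), ρ p a * Uk k (xx p a)) := by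
      have h5 : (blk i).filter (fun p => p ≤ x ∧ p ≡ d [MOD q])
          = (blk i).filter (fun p => p ≤ min x (2 ^ (i + 1)) ∧ p ≡ d % q [MOD q]) := by
        refine Finset.filter_congr fun p hp => ?_
        have h6 := (Block_blk hp).2
        have h7 : p ≡ d [MOD q] ↔ p ≡ d % q [MOD q] := by
          unfold Nat.ModEq
          rw [Nat.mod_mod]
        rw [h7, le_min_iff]
        constructor
        · rintro ⟨h8, h9⟩
          exact ⟨⟨h8, h6⟩, h9⟩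
        · rintro ⟨⟨h8, _⟩, h9⟩
          exact ⟨h8, h9⟩
      rw [h5]
      refine Finset.sum_congr rfl fun p hp => ?_
      have hp' := (Finset.mem_filter.1 hp).1
      have h6 := hiff _ (hV p hp' _ (hv1 p hp').1)
      have h7 : (V p).filter (fun a => (Q : ℤ) ∣ a - t) = (V p).filter (fun a => (Q' : ℤ) ∣ a - t') := by
        refine Finset.filter_congr fun a ha => ?_
        exact hiff a (hV p hp' a ha)
      rw [h7]
      congr 1
      by_cases h8 : (Q : ℤ) ∣ v p - t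
      · rw [if_pos h8, if_pos (h6.1 h8)]
      · rw [if_neg h8, if_neg (fun h9 => h8 (h6.2 h9))]
    rw [h4]
    exact h3


end Pool.Agent.JB
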