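import Pool.Agent.Lib_MP_f1937f_jb.RBlkAll
import Pool.Agent.Lib_MP_f1937f_jb.ProgS
import Pool.Agent.Lib_MP_f1937f_jb.DDf
import Pool.Agent.Lib_MP_f1937f_tb.Realize

/-!
# Realisation of the laws
-/

set_option autoImplicit false

namespace Pool.Agent.JB

open Finset Pool.Agent.TB


private lemma K4_sum (f : ℕ → ℝ) (x : ℕ) :
    ∑ p ∈ (range (x + 1)).filter Nat.Prime, f p =
      ∑ i ∈ range (Nat.log 2 x + 1), ∑ p ∈ (blk i).filter (· ≤ x), f p := by
  classical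
  rw [← Finset.sum_fiberwise_of_maps_to (g := fun p => Nat.log 2 p)
    (t := range (Nat.log 2 x + 1))]
  · refine Finset.sum_congr rfl fun i _ => ?_
    refine Finset.sum_congr ?_ fun _ _ => rfl
    ext p
    simp only [mem_filter, mem_range, blk, mem_Ico]
    constructor
    · rintro ⟨⟨h1, h2⟩, h3⟩
      have h4 := (Nat.log_eq_iff (b := 2) (m := i) (n := p) (Or.inr ⟨one_lt_two, h2.ne_zero⟩)).1 h3
      exact ⟨⟨h4, h2⟩, by omega⟩
    · rintro ⟨⟨h1, h2⟩, h3⟩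
      exact ⟨⟨by omega, h2⟩,
        (Nat.log_eq_iff (b := 2) (m := i) (n := p) (Or.inr ⟨one_lt_two, h2.ne_zero⟩)).2 h1⟩
  · intro p hp
    simp only [mem_filter, mem_range] at hp ⊢
    have := Nat.log_mono_right (b := 2) (show p ≤ x by omega)
    omega

private lemma K4_geom (n : ℕ) :
    ∑ i ∈ range (n + 1), √((2 : ℝ) ^ (i + 1)) ≤ 5 * √((2 : ℝ) ^ n) := by
  have hs : √(2 : ℝ) * √(2 : ℝ) = 2 := Real.mul_self_sqrt (by norm_num)
  have hs0 : 0 ≤ √(2 : ℝ) := Real.sqrt_nonneg 2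
  induction n with
  | zero =>
    simp only [zero_add, sum_range_one, pow_one, pow_zero, Real.sqrt_one, mul_one]
    nlinarith
  | succ n ih =>
    rw [Finset.sum_range_succ]
    have e1 : √((2 : ℝ) ^ (n + 1 + 1)) = 2 * √((2 : ℝ) ^ n) := by
      rw [pow_succ, pow_succ, mul_assoc, Real.sqrt_mul (by positivity)]
      rw [show (2 : ℝ) * 2 = 2 ^ 2 by norm_num, Real.sqrt_sq (by norm_num)]
      ring
    have e2 : √((2 : ℝ) ^ (n + 1)) = √2 * √((2 : ℝ) ^ n) := by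
      rw [pow_succ, Real.sqrt_mul (by positivity)]
      ring
    have h0 : 0 ≤ √((2 : ℝ) ^ n) := Real.sqrt_nonneg _
    have h1 : (7 : ℝ) ≤ 5 * √2 := by
      have : (1.4 : ℝ) ≤ √2 := Real.le_sqrt_of_sq_le (by norm_num)
      linarith
    rw [e1, e2]
    nlinarith [mul_le_mul_of_nonneg_right h1 h0]

/-- PIECE [JB-F5a] (about 120 lines). PROOF. Glue the sequences of `rblk_all` (`a p = v (log₂ p) p`) and sum over the blocks `i ≤ log₂ x`:
`∑_{i ≤ log₂ x} 20 (k + 1) √(2 ^ i (i + 1)) ≤ C (k + 1) √x log x` for `x ≥ 2` (private lemmas `K4_sum`, `K4_geom` of `Lib_MP_f1937f_tb/Realize.lean`, copy them). -/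
theorem real_rand (ρ : ℕ → ℤ → ℝ) (h0 : ∀ p : ℕ, p.Prime → ∀ a, 0 ≤ ρ p a) (h1 : ∀ p : ℕ, p.Prime → ∑ a ∈ V p, ρ p a = 1) :
    ∃ (a : ℕ → ℤ) (C : ℝ), 0 ≤ C ∧ (∀ p : ℕ, p.Prime → a p ∈ V p ∧ 0 < ρ p (a p)) ∧
      ∀ q d Q : ℕ, 0 < q → 0 < Q → ∀ (t : ℤ) (k x : ℕ), 2 ≤ x →
        |∑ p ∈ ((range (x + 1)).filter Nat.Prime).filter (fun p => p ≡ d [MOD q]),
            ((if (Q : ℤ) ∣ a p - t then Uk k (xx p (a p)) else 0) -
              ∑ b ∈ (V p).filter (fun b => (Q : ℤ) ∣ b - t), ρ p b * Uk k (xx p b))| ≤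
          C * (k + 1) * √(x : ℝ) * Real.log x := by
  classical
  have hblk0 : ∀ i : ℕ, ∀ p ∈ blk i, p.Prime := by
    intro i p hp
    simp only [blk, mem_filter] at hp
    exact hp.2
  choose v hv1 hv2 using fun i => rblk_all i ρ (fun p hp => h0 p (hblk0 i p hp))
    (fun p hp => h1 p (hblk0 i p hp))
  have hmem : ∀ p : ℕ, p.Prime → p ∈ blk (Nat.log 2 p) := by
    intro p hp
    simp only [blk, mem_filter, mem_Ico]
    exact ⟨⟨Nat.pow_log_le_self 2 hp.ne_zero, Nat.lt_pow_succ_log_self one_lt_two p⟩, hp⟩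
  have hlogp : ∀ i : ℕ, ∀ p ∈ blk i, Nat.log 2 p = i := by
    intro i p hp
    simp only [blk, mem_filter, mem_Ico] at hp
    exact (Nat.log_eq_iff (b := 2) (m := i) (n := p) (Or.inr ⟨one_lt_two, hp.2.ne_zero⟩)).2 hp.1
  have hlog2 : 0 < Real.log 2 := Real.log_pos one_lt_two
  refine ⟨fun p => v (Nat.log 2 p) p, 200 / Real.log 2, by positivity, ?_, ?_⟩
  · intro p hp
    exact hv1 _ p (hmem p hp)
  · intro q d Q hq hQ t k x hx
    obtain ⟨f, hf⟩ : ∃ f : ℕ → ℝ, f = fun p =>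
      ((if (Q : ℤ) ∣ v (Nat.log 2 p) p - t then Uk k (xx p (v (Nat.log 2 p) p)) else 0) -
        ∑ b ∈ (V p).filter (fun b => (Q : ℤ) ∣ b - t), ρ p b * Uk k (xx p b)) := ⟨_, rfl⟩
    have e1 : ∑ p ∈ ((range (x + 1)).filter Nat.Prime).filter (fun p => p ≡ d [MOD q]),
        ((if (Q : ℤ) ∣ v (Nat.log 2 p) p - t then Uk k (xx p (v (Nat.log 2 p) p)) else 0) -
          ∑ b ∈ (V p).filter (fun b => (Q : ℤ) ∣ b - t), ρ p b * Uk k (xx p b)) =
        ∑ i ∈ range (Nat.log 2 x + 1),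
          ∑ p ∈ (blk i).filter (fun p => p ≤ x ∧ p ≡ d [MOD q]), f p := by
      rw [Finset.sum_filter (fun p => p ≡ d [MOD q]), K4_sum]
      refine Finset.sum_congr rfl fun i _ => ?_
      rw [← Finset.sum_filter (fun p => p ≡ d [MOD q]), Finset.filter_filter, hf]
    have hx0 : x ≠ 0 := by omega
    have hxR : (2 : ℝ) ≤ x := by exact_mod_cast hx
    have hL : ((Nat.log 2 x : ℕ) : ℝ) * Real.log 2 ≤ Real.log x := by
      rw [← Real.log_pow]
      refine Real.log_le_log (by positivity) ?_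
      exact_mod_cast Nat.pow_log_le_self 2 hx0
    have hl2 : Real.log 2 ≤ Real.log x := Real.log_le_log two_pos hxR
    have hL1 : ((Nat.log 2 x : ℕ) : ℝ) + 1 ≤ 2 / Real.log 2 * Real.log x := by
      rw [div_mul_eq_mul_div, le_div_iff₀ hlog2]
      nlinarith
    have hk0 : (0 : ℝ) ≤ 20 * ((k : ℝ) + 1) := by positivity
    show |∑ p ∈ ((range (x + 1)).filter Nat.Prime).filter (fun p => p ≡ d [MOD q]),
        ((if (Q : ℤ) ∣ v (Nat.log 2 p) p - t then Uk k (xx p (v (Nat.log 2 p) p)) else 0) -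
          ∑ b ∈ (V p).filter (fun b => (Q : ℤ) ∣ b - t), ρ p b * Uk k (xx p b))| ≤ _
    rw [e1]
    refine (Finset.abs_sum_le_sum_abs _ _).trans ?_
    have hi : ∀ i ∈ range (Nat.log 2 x + 1),
        |∑ p ∈ (blk i).filter (fun p => p ≤ x ∧ p ≡ d [MOD q]), f p| ≤
          (20 * ((k : ℝ) + 1)) * (((Nat.log 2 x : ℕ) : ℝ) + 1) * √((2 : ℝ) ^ (i + 1)) := by
      intro i hi
      have h2 := hv2 i q d Q hq hQ t k x
      have h3 : ∑ p ∈ (blk i).filter (fun p => p ≤ x ∧ p ≡ d [MOD q]), f p =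
          ∑ p ∈ (blk i).filter (fun p => p ≤ x ∧ p ≡ d [MOD q]),
            ((if (Q : ℤ) ∣ v i p - t then Uk k (xx p (v i p)) else 0) -
              ∑ a ∈ (V p).filter (fun a => (Q : ℤ) ∣ a - t), ρ p a * Uk k (xx p a)) := by
        refine Finset.sum_congr rfl fun p hp => ?_
        rw [hf]
        simp only [hlogp i p (mem_filter.1 hp).1]
      rw [h3]
      refine h2.trans ?_
      have hiL : (i : ℝ) ≤ ((Nat.log 2 x : ℕ) : ℝ) := by
        have : i ≤ Nat.log 2 x := by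
          have := mem_range.1 hi
          omega
        exact_mod_cast this
      have hi0 : (0 : ℝ) ≤ i := Nat.cast_nonneg i
      have h4 : √((2 : ℝ) ^ i * (i + 1)) ≤ (((Nat.log 2 x : ℕ) : ℝ) + 1) * √((2 : ℝ) ^ (i + 1)) := by
        rw [Real.sqrt_mul (by positivity), mul_comm]
        have h5 : √((i : ℝ) + 1) ≤ ((Nat.log 2 x : ℕ) : ℝ) + 1 := by
          rw [Real.sqrt_le_left (by positivity)]
          nlinarith
        have h6 : √((2 : ℝ) ^ i) ≤ √((2 : ℝ) ^ (i + 1)) := by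
          refine Real.sqrt_le_sqrt ?_
          exact pow_le_pow_right₀ one_le_two (Nat.le_succ i)
        exact mul_le_mul h5 h6 (Real.sqrt_nonneg _) (by positivity)
      calc 20 * ((k : ℝ) + 1) * √((2 : ℝ) ^ i * (i + 1))
          ≤ 20 * ((k : ℝ) + 1) * ((((Nat.log 2 x : ℕ) : ℝ) + 1) * √((2 : ℝ) ^ (i + 1))) :=
            mul_le_mul_of_nonneg_left h4 hk0
        _ = _ := by ring
    refine (Finset.sum_le_sum hi).trans ?_
    rw [← Finset.mul_sum]
    have h9 := K4_geom (Nat.log 2 x)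
    have h10 : √((2 : ℝ) ^ (Nat.log 2 x)) ≤ √(x : ℝ) := by
      refine Real.sqrt_le_sqrt ?_
      exact_mod_cast Nat.pow_log_le_self 2 hx0
    have h11 : ∑ i ∈ range (Nat.log 2 x + 1), √((2 : ℝ) ^ (i + 1)) ≤ 5 * √(x : ℝ) := by linarith
    have hsx : 0 ≤ √(x : ℝ) := Real.sqrt_nonneg _
    calc 20 * ((k : ℝ) + 1) * (((Nat.log 2 x : ℕ) : ℝ) + 1) *
          ∑ i ∈ range (Nat.log 2 x + 1), √((2 : ℝ) ^ (i + 1))
        ≤ 20 * ((k : ℝ) + 1) * (((Nat.log 2 x : ℕ) : ℝ) + 1) * (5 * √(x : ℝ)) :=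
          mul_le_mul_of_nonneg_left h11 (by positivity)
      _ ≤ 20 * ((k : ℝ) + 1) * (2 / Real.log 2 * Real.log x) * (5 * √(x : ℝ)) := by
          refine mul_le_mul_of_nonneg_right ?_ (by positivity)
          exact mul_le_mul_of_nonneg_left hL1 hk0
      _ = 200 / Real.log 2 * ((k : ℝ) + 1) * √(x : ℝ) * Real.log x := by ring


end Pool.Agent.JB
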