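import Pool.Agent.Lib_MP_f1937f_jb.Defs

/-!
# Multiplicativity and periodicity

Plan: `rho` is multiplicative by the Chinese remainder theorem (`ZMod.chineseRemainder`, a ring isomorphism; the polynomial condition is
the conjunction of the two conditions). The statements on `CC` follow by splitting the product over the prime factors.
-/

set_option autoImplicit false

namespace Pool.Agent.JB

open Finset Pool.Agent.TB


/-- PIECE [JB-A1] (all theorems of this file, about 150 lines). `rho`: Chinese remainder theorem (`ZMod.chineseRemainder`, a ring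
isomorphism; the polynomial condition is the conjunction of the two conditions). `CC`: products over the prime factors. -/
theorem rho_one (d a : ℤ) : rho d a 1 = 1 := by
  unfold rho
  rw [Nat.card_eq_one_iff_unique]
  exact ⟨⟨fun x y => Subtype.ext (Subsingleton.elim _ _)⟩, ⟨⟨0, Subsingleton.elim _ _⟩⟩⟩

theorem rho_mul (d a : ℤ) {e f : ℕ} (he : 0 < e) (hf : 0 < f) (h : e.Coprime f) : rho d a (e * f) = rho d a e * rho d a f := by
  unfold rho
  rw [← Nat.card_prod]
  refine Nat.card_congr ?_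
  refine ((ZMod.chineseRemainder h).toEquiv.subtypeEquiv
    (q := fun x : ZMod e × ZMod f => (x.1 ^ 2 - (a : ZMod e) * x.1 + (d : ZMod e) = 0) ∧
      (x.2 ^ 2 - (a : ZMod f) * x.2 + (d : ZMod f) = 0)) ?_).trans
    (Equiv.subtypeProdEquivProd (p := fun x : ZMod e => x ^ 2 - (a : ZMod e) * x + (d : ZMod e) = 0)
      (q := fun x : ZMod f => x ^ 2 - (a : ZMod f) * x + (d : ZMod f) = 0))
  intro c
  have h1 : c ^ 2 - (a : ZMod (e * f)) * c + (d : ZMod (e * f)) = 0 ↔
      (ZMod.chineseRemainder h) (c ^ 2 - (a : ZMod (e * f)) * c + (d : ZMod (e * f))) = 0 :=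
    (map_eq_zero_iff _ (ZMod.chineseRemainder h).injective).symm
  rw [h1, Prod.ext_iff]
  simp only [map_add, map_sub, map_mul, map_pow, map_intCast, Prod.fst_add, Prod.fst_sub, Prod.fst_mul, Prod.pow_fst,
    Prod.fst_intCast, Prod.fst_zero, Prod.snd_add, Prod.snd_sub, Prod.snd_mul, Prod.pow_snd, Prod.snd_intCast, Prod.snd_zero]
  exact Iff.rfl

theorem rho_congr {d d' a a' : ℤ} {e : ℕ} (hd : (e : ℤ) ∣ d - d') (ha : (e : ℤ) ∣ a - a') : rho d a e = rho d' a' e := by
  have h1 : (d : ZMod e) = (d' : ZMod e) := ((ZMod.intCast_eq_intCast_iff_dvd_sub d' d e).mpr hd).symm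
  have h2 : (a : ZMod e) = (a' : ZMod e) := ((ZMod.intCast_eq_intCast_iff_dvd_sub a' a e).mpr ha).symm
  unfold rho
  rw [h1, h2]

theorem kap_pos {l : ℕ} (hl : 2 ≤ l) : 0 < kap l := by
  have h : (2 : ℝ) ≤ (l : ℝ) := by exact_mod_cast hl
  unfold kap
  exact div_pos (by nlinarith) (by nlinarith)

theorem CC_one (d a : ℤ) : CC d a 1 = 1 := by
  simp [CC]

theorem CC_nonneg (d a : ℤ) (h : ℕ) : 0 ≤ CC d a h := by
  unfold CC
  refine Finset.prod_nonneg fun l hl => ?_
  have h1 := kap_pos (Nat.prime_of_mem_primeFactors hl).two_le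
  positivity

theorem CC_mul (d a : ℤ) {e f : ℕ} (h : e.Coprime f) : CC d a (e * f) = CC d a e * CC d a f := by
  unfold CC
  rw [h.primeFactors_mul, Finset.prod_union h.disjoint_primeFactors]
  congr 1
  · refine Finset.prod_congr rfl fun l hl => ?_
    rw [Nat.factorization_eq_of_coprime_left h (Nat.mem_primeFactors_iff_mem_primeFactorsList.mp hl)]
  · refine Finset.prod_congr rfl fun l hl => ?_
    rw [Nat.factorization_eq_of_coprime_right h (Nat.mem_primeFactors_iff_mem_primeFactorsList.mp hl)]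

theorem CC_pow (d a : ℤ) {l j : ℕ} (hl : l.Prime) (hj : 1 ≤ j) :
    CC d a (l ^ j) = kap l * (rho d a (l ^ j) : ℝ) + 1 / ((l : ℝ) + 1) := by
  unfold CC
  rw [Nat.primeFactors_prime_pow (by omega) hl, Finset.prod_singleton, hl.factorization_pow, Finsupp.single_eq_same]

theorem CC_congr {d d' a a' : ℤ} {h : ℕ} (hd : (h : ℤ) ∣ d - d') (ha : (h : ℤ) ∣ a - a') : CC d a h = CC d' a' h := by
  unfold CC
  refine Finset.prod_congr rfl fun l _ => ?_
  have h1 : ((l ^ h.factorization l : ℕ) : ℤ) ∣ (h : ℤ) := Int.natCast_dvd_natCast.mpr (Nat.ordProj_dvd h l)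
  rw [rho_congr (h1.trans hd) (h1.trans ha)]


end Pool.Agent.JB
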