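import Pool.Agent.Lib_MP_f1937f_jb.Rho

/-!
# Number of roots on average, prime powers
-/

set_option autoImplicit false

namespace Pool.Agent.JB

open Finset Pool.Agent.TB

/-- `rho` as a sum of indicators -/
theorem rho_eq_sum (d a : ℤ) (e : ℕ) [NeZero e] :
    (rho d a e : ℝ) = ∑ c : ZMod e, if c ^ 2 - (a : ZMod e) * c + (d : ZMod e) = 0 then (1 : ℝ) else 0 := by
  classical
  unfold rho
  rw [Nat.card_eq_fintype_card, Fintype.card_subtype, Finset.sum_boole]

/-- fibres of the reduction -/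
theorem fiber_card (l J j : ℕ) (hl : l.Prime) (hj : j ≤ J) (y : ZMod (l ^ j)) [NeZero (l ^ J)] [NeZero (l ^ j)] :
    ((univ : Finset (ZMod (l ^ J))).filter (fun c => ZMod.castHom (pow_dvd_pow l hj) (ZMod (l ^ j)) c = y)).card = l ^ (J - j) := by
  classical
  set π := ZMod.castHom (pow_dvd_pow l hj) (ZMod (l ^ j)) with hπ
  have hsurj : Function.Surjective π := ZMod.castHom_surjective (pow_dvd_pow l hj)
  have h1 : ∀ z : ZMod (l ^ j), ((univ : Finset (ZMod (l ^ J))).filter (fun c => π c = z)).card =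
      ((univ : Finset (ZMod (l ^ J))).filter (fun c => π c = y)).card := by
    intro z
    obtain ⟨a, ha⟩ := hsurj z
    obtain ⟨b, hb⟩ := hsurj y
    refine Finset.card_bij (fun c _ => c - a + b) ?_ ?_ ?_
    · intro c hc
      simp only [Finset.mem_filter, Finset.mem_univ, true_and] at hc ⊢
      rw [map_add, map_sub, hc, ha, hb]; ring
    · intro c _ c' _ h
      simpa using h
    · intro c hc
      simp only [Finset.mem_filter, Finset.mem_univ, true_and] at hc
      refine ⟨c - b + a, ?_, by ring⟩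
      simp only [Finset.mem_filter, Finset.mem_univ, true_and]
      rw [map_add, map_sub, hc, ha, hb]; ring
  have h2 : (univ : Finset (ZMod (l ^ J))).card = ∑ z : ZMod (l ^ j), ((univ : Finset (ZMod (l ^ J))).filter (fun c => π c = z)).card :=
    Finset.card_eq_sum_card_fiberwise (fun c _ => Finset.mem_coe.mpr (Finset.mem_univ (π c)))
  rw [Finset.sum_congr rfl (fun z _ => h1 z), Finset.sum_const, Finset.card_univ, Finset.card_univ, ZMod.card, ZMod.card,
    smul_eq_mul] at h2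
  have h3 : l ^ J = l ^ j * l ^ (J - j) := by rw [← pow_add]; congr 1; omega
  have h4 : 0 < l ^ j := pow_pos hl.pos j
  exact (Nat.eq_of_mul_eq_mul_left h4 (h3.symm.trans h2)).symm

/-- PIECE [JB-A3a] (about 150 lines). PROOF. The sum counts the pairs `(b, c)`, `b, c` modulo `l ^ J`, with `b ≡ t mod l ^ j` and
`c ^ 2 - b c + d = 0`. As `d` is a unit, `c (b - c) = d` shows that `c` is a unit and `b = c + d / c` is determined by `c`; so the sum is the number
of units `c` of `ZMod (l ^ J)` whose reduction modulo `l ^ j` satisfies `c + d / c = t`, i.e. `c ^ 2 - t c + d = 0`. For `j = 0` these are all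
units. For `1 ≤ j ≤ J` every root modulo `l ^ j` is a unit and has `l ^ (J - j)` lifts, all of them units. -/
theorem rho_sum (l : ℕ) (hl : l.Prime) (d : ℤ) (hd : ¬ (l : ℤ) ∣ d) (J j : ℕ) (hJ : 1 ≤ J) (hj : j ≤ J) (t : ℤ) :
    ∑ b ∈ (range (l ^ J)).filter (fun b : ℕ => ((l ^ j : ℕ) : ℤ) ∣ (b : ℤ) - t), (rho d b (l ^ J) : ℝ) =
      if j = 0 then (((l ^ J).totient : ℕ) : ℝ) else (l : ℝ) ^ (J - j) * rho d t (l ^ j) := by
  classical
  have hN : NeZero (l ^ J) := ⟨(pow_pos hl.pos J).ne'⟩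
  have hN' : NeZero (l ^ j) := ⟨(pow_pos hl.pos j).ne'⟩
  set π := ZMod.castHom (pow_dvd_pow l hj) (ZMod (l ^ j)) with hπ
  -- `d` is a unit modulo every power of `l`
  have hdu : ∀ i : ℕ, IsUnit (d : ZMod (l ^ i)) := by
    intro i
    have h1 : IsCoprime (l : ℤ) d := (Nat.prime_iff_prime_int.mp hl).coprime_iff_not_dvd.mpr hd
    have h2 : IsCoprime ((l ^ i : ℕ) : ℤ) d := by push_cast; exact h1.pow_left
    obtain ⟨u, v, huv⟩ := h2
    refine IsUnit.of_mul_eq_one (v : ZMod (l ^ i)) ?_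
    have h3 := congrArg (Int.cast : ℤ → ZMod (l ^ i)) huv
    push_cast at h3
    rw [show ((l : ZMod (l ^ i)) ^ i) = ((l ^ i : ℕ) : ZMod (l ^ i)) by push_cast; rfl, ZMod.natCast_self, mul_zero, zero_add] at h3
    rw [mul_comm]; exact h3
  have hroot : ∀ (i : ℕ) (a : ℤ) (c : ZMod (l ^ i)), c ^ 2 - (a : ZMod (l ^ i)) * c + (d : ZMod (l ^ i)) = 0 → IsUnit c := by
    intro i a c hc
    have h1 : c * ((a : ZMod (l ^ i)) - c) = (d : ZMod (l ^ i)) := by linear_combination -hc
    exact isUnit_of_mul_isUnit_left (h1 ▸ hdu i)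
  -- count the pairs
  simp_rw [rho_eq_sum]
  rw [Finset.sum_comm]
  have key : ∀ c : ZMod (l ^ J),
      (∑ b ∈ (range (l ^ J)).filter (fun b : ℕ => ((l ^ j : ℕ) : ℤ) ∣ (b : ℤ) - t),
        if c ^ 2 - (((b : ℤ)) : ZMod (l ^ J)) * c + (d : ZMod (l ^ J)) = 0 then (1 : ℝ) else 0) =
      if IsUnit c ∧ (π c) ^ 2 - (t : ZMod (l ^ j)) * π c + (d : ZMod (l ^ j)) = 0 then (1 : ℝ) else 0 := by
    intro c
    by_cases hc : IsUnit c
    · obtain ⟨u, hu⟩ := hc
      set b0 : ZMod (l ^ J) := c + (d : ZMod (l ^ J)) * ((u⁻¹ : (ZMod (l ^ J))ˣ) : ZMod (l ^ J)) with hb0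
      have huc : c * ((u⁻¹ : (ZMod (l ^ J))ˣ) : ZMod (l ^ J)) = 1 := by rw [← hu]; exact Units.mul_inv u
      have hb0c : b0 * c = c ^ 2 + (d : ZMod (l ^ J)) := by
        rw [hb0]; linear_combination (d : ZMod (l ^ J)) * huc
      have h1 : ∀ b ∈ (range (l ^ J)).filter (fun b : ℕ => ((l ^ j : ℕ) : ℤ) ∣ (b : ℤ) - t),
          (if c ^ 2 - (((b : ℤ)) : ZMod (l ^ J)) * c + (d : ZMod (l ^ J)) = 0 then (1 : ℝ) else 0) =
          if b0.val = b then (1 : ℝ) else 0 := by
        intro b hb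
        have hb' : b < l ^ J := Finset.mem_range.mp (Finset.mem_filter.mp hb).1
        refine if_congr ?_ rfl rfl
        constructor
        · intro h
          have h2 : ((b : ℤ) : ZMod (l ^ J)) * c = b0 * c := by rw [hb0c]; linear_combination -h
          have h3 : ((b : ℤ) : ZMod (l ^ J)) = b0 := by
            have h4 := congrArg (· * ((u⁻¹ : (ZMod (l ^ J))ˣ) : ZMod (l ^ J))) h2
            simp only [mul_assoc, huc, mul_one] at h4
            exact h4
          rw [← h3, Int.cast_natCast, ZMod.val_natCast, Nat.mod_eq_of_lt hb']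
        · intro h
          have h3 : ((b : ℤ) : ZMod (l ^ J)) = b0 := by
            rw [← h, Int.cast_natCast, ZMod.natCast_zmod_val]
          rw [h3, hb0c]; ring
      rw [Finset.sum_congr rfl h1, Finset.sum_ite_eq]
      refine if_congr ?_ rfl rfl
      have hπb : ((l ^ j : ℕ) : ℤ) ∣ ((b0.val : ℕ) : ℤ) - t ↔ π b0 = (t : ZMod (l ^ j)) := by
        have h2 : π b0 = (((b0.val : ℕ) : ℤ) : ZMod (l ^ j)) := by
          conv_lhs => rw [← ZMod.natCast_zmod_val b0]
          rw [map_natCast, Int.cast_natCast]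
        rw [h2, eq_comm, ZMod.intCast_eq_intCast_iff_dvd_sub]
      rw [Finset.mem_filter, Finset.mem_range, hπb]
      have hπc : π b0 * π c = (π c) ^ 2 + (d : ZMod (l ^ j)) := by
        rw [← map_mul, hb0c, map_add, map_pow, map_intCast]
      have hπu : π c * π ((u⁻¹ : (ZMod (l ^ J))ˣ) : ZMod (l ^ J)) = 1 := by rw [← map_mul, huc, map_one]
      constructor
      · rintro ⟨_, h⟩
        refine ⟨⟨u, hu⟩, ?_⟩
        rw [← h, hπc]; ring
      · rintro ⟨_, h⟩
        refine ⟨ZMod.val_lt b0, ?_⟩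
        have h2 : π b0 * π c = (t : ZMod (l ^ j)) * π c := by rw [hπc]; linear_combination h
        have h4 := congrArg (· * π ((u⁻¹ : (ZMod (l ^ J))ˣ) : ZMod (l ^ J))) h2
        simp only [mul_assoc, hπu, mul_one] at h4
        exact h4
    · rw [if_neg (fun h => hc h.1)]
      refine Finset.sum_eq_zero fun b _ => ?_
      rw [if_neg (fun h => hc (hroot J (b : ℤ) c h))]
  rw [Finset.sum_congr rfl (fun c _ => key c)]
  split_ifs with hj0
  · subst hj0
    have : Subsingleton (ZMod (l ^ 0)) := by rw [pow_zero]; infer_instance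
    have h1 : ∀ c : ZMod (l ^ J), (if IsUnit c ∧ (π c) ^ 2 - (t : ZMod (l ^ 0)) * π c + (d : ZMod (l ^ 0)) = 0 then (1 : ℝ) else 0) =
        if IsUnit c then (1 : ℝ) else 0 := by
      intro c
      refine if_congr ⟨fun h => h.1, fun h => ⟨h, Subsingleton.elim _ _⟩⟩ rfl rfl
    rw [Finset.sum_congr rfl (fun c _ => h1 c), Finset.sum_boole]
    congr 1
    rw [← ZMod.card_units_eq_totient, ← Fintype.card_subtype]
    refine (Fintype.card_congr (Equiv.ofBijective (fun u : (ZMod (l ^ J))ˣ => (⟨u, u.isUnit⟩ : {c : ZMod (l ^ J) // IsUnit c})) ⟨?_, ?_⟩)).symm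
    · intro u v h
      exact Units.ext (congrArg Subtype.val h)
    · rintro ⟨c, u, rfl⟩
      exact ⟨u, rfl⟩
  · have h1 : ∀ c : ZMod (l ^ J), (if IsUnit c ∧ (π c) ^ 2 - (t : ZMod (l ^ j)) * π c + (d : ZMod (l ^ j)) = 0 then (1 : ℝ) else 0) =
        if (π c) ^ 2 - (t : ZMod (l ^ j)) * π c + (d : ZMod (l ^ j)) = 0 then (1 : ℝ) else 0 := by
      intro c
      refine if_congr ⟨fun h => h.2, fun h => ⟨?_, h⟩⟩ rfl rfl
      have h2 : IsUnit (π c) := hroot j t (π c) h
      -- `c` is a unit as its reduction is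
      have h3 : π c = ((c.val : ℕ) : ZMod (l ^ j)) := by
        conv_lhs => rw [← ZMod.natCast_zmod_val c]
        rw [map_natCast]
      rw [h3, ZMod.isUnit_iff_coprime] at h2
      have h4 : Nat.Coprime c.val l := Nat.Coprime.coprime_dvd_right (dvd_pow_self l hj0) h2
      have h5 : IsUnit ((c.val : ℕ) : ZMod (l ^ J)) := (ZMod.isUnit_iff_coprime _ _).mpr (Nat.Coprime.pow_right J h4)
      rwa [ZMod.natCast_zmod_val] at h5
    rw [Finset.sum_congr rfl (fun c _ => h1 c)]
    have h2 : ∀ c : ZMod (l ^ J), (if (π c) ^ 2 - (t : ZMod (l ^ j)) * π c + (d : ZMod (l ^ j)) = 0 then (1 : ℝ) else 0) =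
        (fun y : ZMod (l ^ j) => if y ^ 2 - (t : ZMod (l ^ j)) * y + (d : ZMod (l ^ j)) = 0 then (1 : ℝ) else 0) (π c) := fun c => rfl
    rw [Finset.sum_congr rfl (fun c _ => h2 c),
      ← Finset.sum_fiberwise_of_maps_to (s := (univ : Finset (ZMod (l ^ J)))) (t := (univ : Finset (ZMod (l ^ j)))) (g := fun c => π c)
        (fun c _ => Finset.mem_univ _), Finset.mul_sum]
    refine Finset.sum_congr rfl fun y _ => ?_
    rw [Finset.sum_congr rfl (g := fun _ => if y ^ 2 - (t : ZMod (l ^ j)) * y + (d : ZMod (l ^ j)) = 0 then (1 : ℝ) else 0)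
      (fun c hc => by rw [(Finset.mem_filter.mp hc).2]), Finset.sum_const, fiber_card l J j hl hj y, nsmul_eq_mul]
    push_cast
    ring


end Pool.Agent.JB
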