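import Pool.Agent.Lib_MP_f1937f_jb.BaseJ
import Pool.Agent.Lib_MP_f1937f_jb.NormJ
import Pool.Agent.Lib_MP_f1937f_jb.AsymJ
import Pool.Agent.Lib_MP_f1937f_tb.Spike
import Pool.Agent.Lib_MP_f1937f_tb.SpikeEqui
import Pool.Agent.Lib_MP_f1937f_tb.LawSpike

/-!
# The law with a spike
-/

set_option autoImplicit false

namespace Pool.Agent.JB

open Finset Pool.Agent.TB

/-- the law before the normalisation -/
private noncomputable def spk_mu (M : ℕ) (b : ℤ → ℝ) (a₀ : ℤ) (η : ℝ) (ν : ℤ → ℝ) (a : ℤ) : ℝ :=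
  b a + η * ((if a = a₀ then 1 else 0) - (if (M : ℤ) ∣ a - a₀ then ν ((a - a₀) / M) else 0))

private theorem spk_nonneg (M : ℕ) (hM : 0 < M) (b : ℤ → ℝ) (hb : ∀ a, 0 ≤ b a) (a₀ : ℤ) (p : ℕ) (hp : 1 ≤ p)
    (R η : ℝ) (hR : 1 ≤ R) (hη : η = R / √(p : ℝ)) (haa : |(a₀ : ℝ)| ≤ √(p : ℝ) / 4) (cc : ℝ)
    (hlow : ∀ a : ℤ, (M : ℤ) ∣ a - a₀ → |(a : ℝ)| ≤ √(p : ℝ) / 2 → cc / √(p : ℝ) ≤ b a) (ν : ℤ → ℝ)
    (hsupp : ∀ x : ℤ, √(p : ℝ) / (4 * M) < |(x : ℝ)| → ν x = 0)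
    (hsize : ∀ x : ℤ, x ≠ 0 → |ν x| ≤ 24 * (R / (√(p : ℝ) / (4 * M))) * (x.natAbs.divisors.card : ℝ))
    (hzero : |ν 0| ≤ 1 / 2)
    (hasym : ∀ n : ℕ, n ≠ 0 → (n : ℝ) ≤ √(p : ℝ) →
      96 * M * R ^ 2 * (n.divisors.card : ℝ) / p ≤ cc / √(p : ℝ)) :
    (∀ a, 0 ≤ spk_mu M b a₀ η ν a) ∧ η / 2 ≤ spk_mu M b a₀ η ν a₀ := by
  have hM' : (0 : ℝ) < (M : ℝ) := by exact_mod_cast hM
  have hM1 : (1 : ℝ) ≤ (M : ℝ) := by exact_mod_cast hM
  have hMz : (M : ℤ) ≠ 0 := by exact_mod_cast hM.ne'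
  have hp0 : (0 : ℝ) < (p : ℝ) := by exact_mod_cast hp
  have hs0 : 0 < √(p : ℝ) := Real.sqrt_pos.2 hp0
  have hs2 : √(p : ℝ) * √(p : ℝ) = p := Real.mul_self_sqrt hp0.le
  have hη0 : 0 < η := by
    rw [hη]
    positivity
  have hc : η / 2 ≤ spk_mu M b a₀ η ν a₀ := by
    unfold spk_mu
    rw [if_pos rfl, sub_self, if_pos (dvd_zero _), Int.zero_ediv]
    have h1 := hb a₀
    have h2 := (abs_le.1 hzero).2
    nlinarith
  refine ⟨fun a => ?_, hc⟩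
  by_cases h : (M : ℤ) ∣ a - a₀
  · obtain ⟨x, hx⟩ := h
    by_cases ha : a = a₀
    · rw [ha]
      linarith
    · have hx0 : x ≠ 0 := by
        rintro rfl
        rw [mul_zero] at hx
        exact ha (by linarith)
      have hdiv : (a - a₀) / (M : ℤ) = x := by
        rw [hx]
        exact Int.mul_ediv_cancel_left x hMz
      unfold spk_mu
      rw [if_neg ha, if_pos ⟨x, hx⟩, hdiv]
      have hb' := hb a
      by_cases hY : √(p : ℝ) / (4 * M) < |(x : ℝ)|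
      · rw [hsupp x hY]
        simpa using hb'
      · rw [not_lt] at hY
        have hax : (a : ℝ) = a₀ + M * x := by
          have : (a : ℤ) = a₀ + M * x := by linarith
          exact_mod_cast this
        have hMx : (M : ℝ) * |(x : ℝ)| ≤ √(p : ℝ) / 4 := by
          have h1 := mul_le_mul_of_nonneg_left hY hM'.le
          have h2 : (M : ℝ) * (√(p : ℝ) / (4 * M)) = √(p : ℝ) / 4 := by
            field_simp
          linarith
        have haY : |(a : ℝ)| ≤ √(p : ℝ) / 2 := by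
          rw [hax]
          refine (abs_add_le _ _).trans ?_
          rw [abs_mul, abs_of_pos hM']
          linarith
        have hlow' := hlow a ⟨x, hx⟩ haY
        have hxn : ((x.natAbs : ℕ) : ℝ) = |(x : ℝ)| := by
          rw [Nat.cast_natAbs, Int.cast_abs]
        have hxs : ((x.natAbs : ℕ) : ℝ) ≤ √(p : ℝ) := by
          rw [hxn]
          have : |(x : ℝ)| ≤ M * |(x : ℝ)| := le_mul_of_one_le_left (abs_nonneg _) hM1
          linarith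
        have hn := hasym x.natAbs (Int.natAbs_ne_zero.2 hx0) hxs
        have hsz := hsize x hx0
        have key : η * ν x ≤ 96 * M * R ^ 2 * (x.natAbs.divisors.card : ℝ) / p := by
          have h1 : η * ν x ≤ η * (24 * (R / (√(p : ℝ) / (4 * M))) * (x.natAbs.divisors.card : ℝ)) :=
            mul_le_mul_of_nonneg_left ((le_abs_self _).trans hsz) hη0.le
          refine h1.trans (le_of_eq ?_)
          rw [hη, LawSpike_id _ _ _ _ hs0.ne' hM'.ne', hs2]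
        linarith
  · have ha : a ≠ a₀ := by
      rintro rfl
      exact h (by simp)
    unfold spk_mu
    rw [if_neg ha, if_neg h]
    simpa using hb a

/-- PIECE [JB-E2] (about 200 lines; adapt `Lib_MP_f1937f_tb/LawSpike.lean` and `LawSpikeU.lean`). PROOF. `R = p ^ (1/4 - ε)`, `η = p ^ (-1/4 - ε) = R / √p`, `ν` from `spike` with `Y = √p / (4 M)`, `W` from
`base_J`, `μ a = u a * W a * sw p a + η * ([a = a₀] - [M ∣ a - a₀] ν ((a - a₀) / M))`. `μ ≥ 0`: if `M ∤ a - a₀` clear. If `M ∣ a - a₀`, `a ≠ a₀`,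
`x = (a - a₀) / M`: if `|x| > √p / (4 M)`, `ν x = 0`; else `|a| ≤ √p / 2`, `u a = u a₀ ≥ cu`, `u a * W a * sw p a ≥ cu * (c / log p) * (3 / 10) / √p` (`sw_bounds`) and
`η |ν x| ≤ 96 M R ^ 2 τ(|x|) / p`, apply `asym_spike`. `μ a₀ ≥ η (1 - ν 0) ≥ η / 2`. Equidistribution: `base_J` and `spike_equi` with `m = m₁ n`:
`η * 7 (m √m) (k + 1) / R = 7 (m √m) (k + 1) / √p`, `m √m ≤ (m₁ √m₁) n ^ 2`. Normalise by `norm_J`. -/
theorem spike_J (M : ℕ) (hM : 0 < M) (cu : ℝ) (hcu : 0 < cu) : ∃ C : ℝ, 0 ≤ C ∧ ∀ (a₀ : ℤ) (ε : ℝ), 0 < ε → ε ≤ 1 / 8 →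
    ∃ p₀ : ℕ, ∀ p : ℕ, p.Prime → p₀ ≤ p → ∀ u : ℤ → ℝ, UV M cu u → 0 < u a₀ →
      ∃ ρ : ℤ → ℝ, GoodLawJ M u C p ρ ∧ (p : ℝ) ^ (-(1 / 4) - ε) / 4 ≤ ρ a₀ := by
  obtain ⟨E, c, pb, hE0, hc0, hpb2, hbase⟩ := base_J M hM
  obtain ⟨p₂, hp₂⟩ := LawSpike_log ((E + 14) * (M : ℝ) ^ 2 * √(M : ℝ))
  refine ⟨2 * (E + 14) + 2 * (E + 14) * (M : ℝ) ^ 3 * √(M : ℝ), by positivity, fun a₀ ε hε hε' => ?_⟩
  obtain ⟨p₁, hp₁2, hp₁⟩ := asym_spike M hM (cu * c * (3 / 10)) (by positivity) a₀ ε hε hε'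
  refine ⟨max pb (max p₁ p₂), fun p hpr hp u hu ha₀ => ?_⟩
  have hppb : pb ≤ p := le_trans (le_max_left _ _) hp
  have hpp₁ : p₁ ≤ p := le_trans (le_trans (le_max_left _ _) (le_max_right _ _)) hp
  have hpp₂ : p₂ ≤ p := le_trans (le_trans (le_max_right _ _) (le_max_right _ _)) hp
  have hp2 : 2 ≤ p := hpr.two_le
  have hp1 : 1 ≤ p := by omega
  have hp0 : (0 : ℝ) < (p : ℝ) := by exact_mod_cast hp1
  have hs0 : 0 < √(p : ℝ) := Real.sqrt_pos.2 hp0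
  have hlog : 1 / 2 ≤ Real.log p := by
    have h3 : Real.log 2 ≤ Real.log p := Real.log_le_log (by norm_num) (by exact_mod_cast hp2)
    have := Real.log_two_gt_d9
    linarith
  have hlog0 : 0 < Real.log p := by linarith
  obtain ⟨W, hW, hWequi⟩ := hbase p hpr hppb
  obtain ⟨hR1, hRY, haa, hasym⟩ := hp₁ p hpp₁
  have hη : (p : ℝ) ^ (-(1 / 4) - ε) = (p : ℝ) ^ (1 / 4 - ε) / √(p : ℝ) := by
    rw [Real.sqrt_eq_rpow, ← Real.rpow_sub hp0]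
    congr 1
    ring
  obtain ⟨R, hR⟩ : ∃ R, R = (p : ℝ) ^ (1 / 4 - ε) := ⟨_, rfl⟩
  obtain ⟨η, hη'⟩ : ∃ η, η = (p : ℝ) ^ (-(1 / 4) - ε) := ⟨_, rfl⟩
  rw [← hR] at hR1 hRY hasym hη
  rw [← hη'] at hη ⊢
  have hη0 : 0 < η := by
    rw [hη]
    positivity
  obtain ⟨ν, hsupp, hsize, hzero, hmain⟩ := spike (√(p : ℝ) / (4 * M)) R hR1 hRY
  have hW0 : ∀ a, 0 ≤ W a := fun a => le_trans (by positivity) (hW a).1
  have hb : ∀ a, 0 ≤ u a * W a * sw p a := fun a =>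
    mul_nonneg (mul_nonneg (hu.nonneg a) (hW0 a)) (sw_bounds p hp1 a).1
  have hlow : ∀ a : ℤ, (M : ℤ) ∣ a - a₀ → |(a : ℝ)| ≤ √(p : ℝ) / 2 →
      (cu * c * (3 / 10) / Real.log p) / √(p : ℝ) ≤ u a * W a * sw p a := by
    intro a had haY
    have h1 : cu ≤ u a := by
      rw [hu.per a a₀ had]
      exact hu.low a₀ ha₀
    have h2 := (hW a).1
    have h3 := (sw_bounds p hp1 a).2.2 haY
    have h4 : cu * (c / Real.log p) ≤ u a * W a := mul_le_mul h1 h2 (by positivity) (hu.nonneg a)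
    calc (cu * c * (3 / 10) / Real.log p) / √(p : ℝ) = cu * (c / Real.log p) * (3 / 10 / √(p : ℝ)) := by ring
      _ ≤ u a * W a * sw p a := mul_le_mul h4 h3 (by positivity) (mul_nonneg (hu.nonneg a) (hW0 a))
  obtain ⟨hn, hc⟩ := spk_nonneg M hM (fun a => u a * W a * sw p a) hb a₀ p hp1 R η hR1 hη haa
    (cu * c * (3 / 10) / Real.log p) hlow ν hsupp hsize hzero hasym
  have hμ : ∀ m₁ n : ℕ, Lev M m₁ n → n ≤ p → ¬ p ∣ n → ∀ (t : ℤ) (k : ℕ),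
      |∑ a ∈ (V p).filter (fun a => ((m₁ * n : ℕ) : ℤ) ∣ a - t),
          spk_mu M (fun a => u a * W a * sw p a) a₀ η ν a * Uk k (xx p a) -
          (if k = 0 then u t / ((m₁ * n : ℕ) : ℝ) * DD p t n else 0)| ≤
        (E + 14) * (m₁ * √(m₁ : ℝ)) * (n : ℝ) ^ 2 * (k + 1) * (Real.log p / √(p : ℝ)) := by
    intro m₁ n hL hnp hpn t k
    have hm : 0 < m₁ * n := Nat.mul_pos hL.pos₁ hL.pos
    have hMm : M ∣ m₁ * n := hL.dvd.mul_right n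
    have h1 := hWequi u hu.per (fun t => ⟨hu.nonneg t, hu.le t⟩) m₁ n hL hnp hpn t k
    have h2 := spike_equi M hM a₀ p hp2 haa R hR1 ν hsupp hmain (m₁ * n) hm hMm t k
    have e1 : ∑ a ∈ (V p).filter (fun a => ((m₁ * n : ℕ) : ℤ) ∣ a - t),
          spk_mu M (fun a => u a * W a * sw p a) a₀ η ν a * Uk k (xx p a) =
        ∑ a ∈ (V p).filter (fun a => ((m₁ * n : ℕ) : ℤ) ∣ a - t), u a * W a * sw p a * Uk k (xx p a) +
          η * ∑ a ∈ (V p).filter (fun a => ((m₁ * n : ℕ) : ℤ) ∣ a - t),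
            ((if a = a₀ then 1 else 0) - (if (M : ℤ) ∣ a - a₀ then ν ((a - a₀) / M) else 0)) * Uk k (xx p a) := by
      rw [mul_sum, ← sum_add_distrib]
      refine sum_congr rfl fun a _ => ?_
      unfold spk_mu
      ring
    have hm1 : (1 : ℝ) ≤ m₁ := by exact_mod_cast hL.pos₁
    have hn1 : (1 : ℝ) ≤ n := by exact_mod_cast hL.pos
    have hk0 : (0 : ℝ) ≤ (k : ℝ) + 1 := by positivity
    have hmm : ((m₁ * n : ℕ) : ℝ) * √((m₁ * n : ℕ) : ℝ) ≤ (m₁ * √(m₁ : ℝ)) * (n : ℝ) ^ 2 := by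
      push_cast
      rw [Real.sqrt_mul (by positivity)]
      have h5 : √(n : ℝ) ≤ n := by
        rw [Real.sqrt_le_left (by positivity)]
        nlinarith
      calc (m₁ : ℝ) * n * (√(m₁ : ℝ) * √(n : ℝ)) = (m₁ * √(m₁ : ℝ)) * (n * √(n : ℝ)) := by ring
        _ ≤ (m₁ * √(m₁ : ℝ)) * (n * n) := by gcongr
        _ = _ := by ring
    have h4 : η * (7 * (((m₁ * n : ℕ) : ℝ) * √((m₁ * n : ℕ) : ℝ)) * (k + 1) / R) ≤
        14 * (m₁ * √(m₁ : ℝ)) * (n : ℝ) ^ 2 * (k + 1) * (Real.log p / √(p : ℝ)) := by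
      have e2 : η * (7 * (((m₁ * n : ℕ) : ℝ) * √((m₁ * n : ℕ) : ℝ)) * (k + 1) / R) =
          7 * (((((m₁ * n : ℕ) : ℝ) * √((m₁ * n : ℕ) : ℝ)) * (k + 1)) / √(p : ℝ)) := by
        rw [hη]
        field_simp
      rw [e2]
      calc 7 * (((((m₁ * n : ℕ) : ℝ) * √((m₁ * n : ℕ) : ℝ)) * (k + 1)) / √(p : ℝ))
          ≤ 7 * ((((m₁ * √(m₁ : ℝ)) * (n : ℝ) ^ 2) * (k + 1)) / √(p : ℝ)) := by gcongr
        _ = (14 * (1 / 2)) * ((((m₁ * √(m₁ : ℝ)) * (n : ℝ) ^ 2) * (k + 1)) / √(p : ℝ)) := by norm_num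
        _ ≤ (14 * Real.log p) * ((((m₁ * √(m₁ : ℝ)) * (n : ℝ) ^ 2) * (k + 1)) / √(p : ℝ)) := by gcongr
        _ = _ := by ring
    rw [e1, add_sub_right_comm]
    refine (abs_add_le _ _).trans ?_
    rw [abs_mul, abs_of_pos hη0]
    have h6 := mul_le_mul_of_nonneg_left h2 hη0.le
    calc _ ≤ E * (m₁ * √(m₁ : ℝ)) * (n : ℝ) ^ 2 * (k + 1) * (Real.log p / √(p : ℝ)) +
          14 * (m₁ * √(m₁ : ℝ)) * (n : ℝ) ^ 2 * (k + 1) * (Real.log p / √(p : ℝ)) := add_le_add h1 (h6.trans h4)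
      _ = _ := by ring
  obtain ⟨ρ, hρ, hρ1, -⟩ := norm_J M hM cu u hu (E + 14) (by linarith) p hpr (hp₂ p hpp₂) _ hn hμ
  refine ⟨ρ, hρ, ?_⟩
  have hmem : a₀ ∈ V p := by
    have h1 : (a₀ : ℝ) ^ 2 ≤ 4 * p := by
      rw [← sq_abs]
      have h2 := pow_le_pow_left₀ (abs_nonneg _) haa 2
      have h3 : (√(p : ℝ) / 4) ^ 2 = p / 16 := by
        rw [div_pow, Real.sq_sqrt hp0.le]
        norm_num
      linarith
    have h2 : a₀ ^ 2 ≤ 4 * (p : ℤ) := by exact_mod_cast h1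
    have h3 : a₀.natAbs ≤ Nat.sqrt (4 * p) := by
      rw [Nat.le_sqrt]
      have h4 : ((a₀.natAbs * a₀.natAbs : ℕ) : ℤ) ≤ ((4 * p : ℕ) : ℤ) := by
        rw [Int.natAbs_mul_self]
        push_cast
        nlinarith
      exact_mod_cast h4
    unfold V
    rw [mem_Icc]
    omega
  have := hρ1 a₀ hmem
  linarith


end Pool.Agent.JB
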