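import Pool.Agent.Lib_MP_f1937f_jb.Bes

/-!
# Sum over the levels
-/

set_option autoImplicit false

namespace Pool.Agent.JB

open Finset Pool.Agent.TB

private lemma q_bound {w A X m : ℝ} (hA : 0 < A) (hX : 0 < X) (hm : 0 < m)
    (h : A ^ 2 * m / (2 * X ^ 3) ≤ w) :
    w ^ (-(1 / 4) : ℝ) ≤ 2 * X ^ (3 / 4 : ℝ) * A ^ (-(1 / 2) : ℝ) * m ^ (-(1 / 4) : ℝ) := by
  have hw : 0 < w := lt_of_lt_of_le (by positivity) h
  have e1 : (w ^ (-(1 / 4) : ℝ)) ^ 4 = w⁻¹ := by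
    rw [← Real.rpow_natCast, ← Real.rpow_mul hw.le, ← Real.rpow_neg_one]
    norm_num
  have e2 : (X ^ (3 / 4 : ℝ)) ^ 4 = X ^ 3 := by
    rw [← Real.rpow_natCast, ← Real.rpow_mul hX.le, ← Real.rpow_natCast]
    norm_num
  have e3 : (A ^ (-(1 / 2) : ℝ)) ^ 4 = (A ^ 2)⁻¹ := by
    rw [← Real.rpow_natCast, ← Real.rpow_mul hA.le, ← Real.rpow_natCast, ← Real.rpow_neg hA.le]
    norm_num
  have e4 : (m ^ (-(1 / 4) : ℝ)) ^ 4 = m⁻¹ := by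
    rw [← Real.rpow_natCast, ← Real.rpow_mul hm.le, ← Real.rpow_neg_one]
    norm_num
  refine le_of_pow_le_pow_left₀ (n := 4) (by norm_num) (by positivity) ?_
  rw [mul_pow, mul_pow, mul_pow, e1, e2, e3, e4]
  calc w⁻¹ ≤ (A ^ 2 * m / (2 * X ^ 3))⁻¹ := inv_anti₀ (by positivity) h
    _ = 2 * X ^ 3 * (A ^ 2)⁻¹ * m⁻¹ := by field_simp
    _ ≤ 2 ^ 4 * X ^ 3 * (A ^ 2)⁻¹ * m⁻¹ := by
        gcongr
        norm_num

private lemma sum_q (N : ℕ) : ∑ j ∈ Icc 1 N, (j : ℝ) ^ (-(1 / 4) : ℝ) ≤ 2 * (N : ℝ) ^ (3 / 4 : ℝ) := by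
  induction N with
  | zero => simp
  | succ N ih =>
    rw [Finset.sum_Icc_succ_top (by omega)]
    have hN : (0 : ℝ) ≤ N := Nat.cast_nonneg N
    have hN1 : (0 : ℝ) < ((N + 1 : ℕ) : ℝ) := by positivity
    have k := Real.geom_mean_le_arith_mean2_weighted (w₁ := 3 / 4) (w₂ := 1 / 4) (p₁ := N) (p₂ := ((N + 1 : ℕ) : ℝ))
      (by norm_num) (by norm_num) hN hN1.le (by norm_num)
    set u : ℝ := ((N + 1 : ℕ) : ℝ) ^ (1 / 4 : ℝ) with hu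
    have hu0 : 0 < u := Real.rpow_pos_of_pos hN1 _
    have e1 : ((N + 1 : ℕ) : ℝ) ^ (-(1 / 4) : ℝ) = u⁻¹ := Real.rpow_neg hN1.le _
    have e2 : ((N + 1 : ℕ) : ℝ) ^ (3 / 4 : ℝ) * u = ((N + 1 : ℕ) : ℝ) := by
      rw [hu, ← Real.rpow_add hN1]
      norm_num
    have e3 : ((N + 1 : ℕ) : ℝ) = (N : ℝ) + 1 := by push_cast; ring
    have k2 : (N : ℝ) ^ (3 / 4 : ℝ) * u + 1 / 2 ≤ ((N + 1 : ℕ) : ℝ) ^ (3 / 4 : ℝ) * u := by
      rw [e2]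
      rw [e3] at k ⊢
      linarith
    have k3 : 2 * (N : ℝ) ^ (3 / 4 : ℝ) + u⁻¹ ≤ 2 * ((N + 1 : ℕ) : ℝ) ^ (3 / 4 : ℝ) := by
      rw [← mul_le_mul_iff_left₀ hu0, add_mul, inv_mul_cancel₀ hu0.ne']
      linarith
    rw [e1]
    linarith

private lemma sum_inj {X N : ℕ} (S : Finset ℕ) (f : ℕ → ℝ) (g : ℕ → ℕ) (hg : Set.InjOn g S)
    (hr : ∀ e ∈ S, 1 ≤ g e ∧ g e ≤ N) (hf : ∀ e ∈ S, f e ≤ (g e : ℝ) ^ (-(1 / 4) : ℝ)) (hN : N ≤ 2 * X) :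
    ∑ e ∈ S, f e ≤ 4 * (X : ℝ) ^ (3 / 4 : ℝ) := by
  calc ∑ e ∈ S, f e ≤ ∑ e ∈ S, (g e : ℝ) ^ (-(1 / 4) : ℝ) := Finset.sum_le_sum hf
    _ = ∑ j ∈ S.image g, (j : ℝ) ^ (-(1 / 4) : ℝ) := (Finset.sum_image (f := fun j : ℕ => (j : ℝ) ^ (-(1 / 4) : ℝ)) hg).symm
    _ ≤ ∑ j ∈ Icc 1 N, (j : ℝ) ^ (-(1 / 4) : ℝ) := by
        refine Finset.sum_le_sum_of_subset_of_nonneg ?_ fun j _ _ => by positivity
        intro j hj
        obtain ⟨e, he, rfl⟩ := Finset.mem_image.1 hj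
        exact Finset.mem_Icc.2 (hr e he)
    _ ≤ 2 * (N : ℝ) ^ (3 / 4 : ℝ) := sum_q N
    _ ≤ 2 * (2 * (X : ℝ)) ^ (3 / 4 : ℝ) := by
        gcongr
        exact_mod_cast hN
    _ ≤ 4 * (X : ℝ) ^ (3 / 4 : ℝ) := by
        rw [Real.mul_rpow (by norm_num) (Nat.cast_nonneg X)]
        have : (2 : ℝ) ^ (3 / 4 : ℝ) ≤ 2 ^ (1 : ℝ) := Real.rpow_le_rpow_of_exponent_le (by norm_num) (by norm_num)
        rw [Real.rpow_one] at this
        have h0 : 0 ≤ (X : ℝ) ^ (3 / 4 : ℝ) := by positivity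
        nlinarith [mul_le_mul_of_nonneg_right this h0]

private lemma floor_q {x : ℝ} (hx : 1 ≤ x) : x ^ (-(1 / 4) : ℝ) ≤ ((⌊x⌋₊ : ℕ) : ℝ) ^ (-(1 / 4) : ℝ) := by
  have h1 : 1 ≤ ⌊x⌋₊ := Nat.le_floor (by simpa using hx)
  have h2 : (0 : ℝ) < ((⌊x⌋₊ : ℕ) : ℝ) := by exact_mod_cast h1
  exact Real.rpow_le_rpow_of_nonpos h2 (Nat.floor_le (by linarith)) (by norm_num)

private lemma sum_far {X : ℕ} {y : ℝ} (hy : 0 < y) (hy2 : y < 2 * X) :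
    ∑ e ∈ (Icc 1 X).filter (fun e : ℕ => 1 ≤ |(e : ℝ) - y|), |(e : ℝ) - y| ^ (-(1 / 4) : ℝ) ≤ 8 * (X : ℝ) ^ (3 / 4 : ℝ) := by
  have hsplit : (Icc 1 X).filter (fun e : ℕ => 1 ≤ |(e : ℝ) - y|) ⊆
      (Icc 1 X).filter (fun e : ℕ => 1 ≤ (e : ℝ) - y) ∪ (Icc 1 X).filter (fun e : ℕ => 1 ≤ y - (e : ℝ)) := by
    intro e he
    rw [Finset.mem_filter] at he
    rw [Finset.mem_union, Finset.mem_filter, Finset.mem_filter]
    rcases le_abs.1 he.2 with h | h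
    · exact Or.inl ⟨he.1, h⟩
    · exact Or.inr ⟨he.1, by linarith⟩
  have h1 : ∑ e ∈ (Icc 1 X).filter (fun e : ℕ => 1 ≤ (e : ℝ) - y), |(e : ℝ) - y| ^ (-(1 / 4) : ℝ) ≤ 4 * (X : ℝ) ^ (3 / 4 : ℝ) := by
    refine sum_inj (N := X) (X := X) _ _ (fun e : ℕ => ⌊(e : ℝ) - y⌋₊) ?_ ?_ ?_ (by omega)
    · intro e he e' he' hee
      simp only [Finset.coe_filter, Set.mem_setOf_eq, Finset.mem_Icc] at he he' hee
      by_contra hne
      rcases lt_or_gt_of_ne hne with h | h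
      · have a1 : (e : ℝ) + 1 ≤ e' := by exact_mod_cast h
        have a2 := Nat.lt_floor_add_one ((e : ℝ) - y)
        have a3 := Nat.floor_le (a := (e' : ℝ) - y) (by linarith)
        rw [← hee] at a3
        have a4 : ((⌊(e : ℝ) - y⌋₊ : ℕ) : ℝ) ≤ (e : ℝ) - y := Nat.floor_le (by linarith)
        have a5 : ⌊(e : ℝ) - y⌋₊ + 1 ≤ ⌊(e' : ℝ) - y⌋₊ := Nat.le_floor (by push_cast; linarith)
        omega
      · have a1 : (e' : ℝ) + 1 ≤ e := by exact_mod_cast h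
        have a4 : ((⌊(e' : ℝ) - y⌋₊ : ℕ) : ℝ) ≤ (e' : ℝ) - y := Nat.floor_le (by linarith)
        have a5 : ⌊(e' : ℝ) - y⌋₊ + 1 ≤ ⌊(e : ℝ) - y⌋₊ := Nat.le_floor (by push_cast; linarith)
        omega
    · intro e he
      rw [Finset.mem_filter, Finset.mem_Icc] at he
      refine ⟨Nat.le_floor (by simpa using he.2), ?_⟩
      have : (((⌊(e : ℝ) - y⌋₊ : ℕ)) : ℝ) ≤ (e : ℝ) - y := Nat.floor_le (by linarith [he.2])
      have a : (((⌊(e : ℝ) - y⌋₊ : ℕ)) : ℝ) ≤ (e : ℝ) := by linarith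
      exact (by exact_mod_cast a : ⌊(e : ℝ) - y⌋₊ ≤ e).trans he.1.2
    · intro e he
      rw [Finset.mem_filter] at he
      rw [abs_of_nonneg (by linarith [he.2])]
      exact floor_q he.2
  have h2 : ∑ e ∈ (Icc 1 X).filter (fun e : ℕ => 1 ≤ y - (e : ℝ)), |(e : ℝ) - y| ^ (-(1 / 4) : ℝ) ≤ 4 * (X : ℝ) ^ (3 / 4 : ℝ) := by
    refine sum_inj (N := 2 * X) (X := X) _ _ (fun e : ℕ => ⌊y - (e : ℝ)⌋₊) ?_ ?_ ?_ le_rfl
    · intro e he e' he' hee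
      simp only [Finset.coe_filter, Set.mem_setOf_eq, Finset.mem_Icc] at he he' hee
      by_contra hne
      rcases lt_or_gt_of_ne hne with h | h
      · have a1 : (e : ℝ) + 1 ≤ e' := by exact_mod_cast h
        have a4 : ((⌊y - (e' : ℝ)⌋₊ : ℕ) : ℝ) ≤ y - (e' : ℝ) := Nat.floor_le (by linarith)
        have a5 : ⌊y - (e' : ℝ)⌋₊ + 1 ≤ ⌊y - (e : ℝ)⌋₊ := Nat.le_floor (by push_cast; linarith)
        omega
      · have a1 : (e' : ℝ) + 1 ≤ e := by exact_mod_cast h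
        have a4 : ((⌊y - (e : ℝ)⌋₊ : ℕ) : ℝ) ≤ y - (e : ℝ) := Nat.floor_le (by linarith)
        have a5 : ⌊y - (e : ℝ)⌋₊ + 1 ≤ ⌊y - (e' : ℝ)⌋₊ := Nat.le_floor (by push_cast; linarith)
        omega
    · intro e he
      rw [Finset.mem_filter, Finset.mem_Icc] at he
      refine ⟨Nat.le_floor (by simpa using he.2), ?_⟩
      have : (((⌊y - (e : ℝ)⌋₊ : ℕ)) : ℝ) ≤ y - (e : ℝ) := Nat.floor_le (by linarith [he.2])
      have a0 : (0 : ℝ) ≤ e := Nat.cast_nonneg e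
      have a : (((⌊y - (e : ℝ)⌋₊ : ℕ)) : ℝ) ≤ ((2 * X : ℕ) : ℝ) := by push_cast; linarith
      exact_mod_cast a
    · intro e he
      rw [Finset.mem_filter] at he
      rw [abs_sub_comm, abs_of_nonneg (by linarith [he.2])]
      exact floor_q he.2
  calc _ ≤ ∑ e ∈ (Icc 1 X).filter (fun e : ℕ => 1 ≤ (e : ℝ) - y) ∪ (Icc 1 X).filter (fun e : ℕ => 1 ≤ y - (e : ℝ)),
        |(e : ℝ) - y| ^ (-(1 / 4) : ℝ) :=
        Finset.sum_le_sum_of_subset_of_nonneg hsplit fun e _ _ => by positivity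
    _ ≤ ∑ e ∈ (Icc 1 X).filter (fun e : ℕ => 1 ≤ (e : ℝ) - y), |(e : ℝ) - y| ^ (-(1 / 4) : ℝ) +
        ∑ e ∈ (Icc 1 X).filter (fun e : ℕ => 1 ≤ y - (e : ℝ)), |(e : ℝ) - y| ^ (-(1 / 4) : ℝ) := by
        rw [← Finset.sum_union_inter]
        have : 0 ≤ ∑ e ∈ (Icc 1 X).filter (fun e : ℕ => 1 ≤ (e : ℝ) - y) ∩ (Icc 1 X).filter (fun e : ℕ => 1 ≤ y - (e : ℝ)),
            |(e : ℝ) - y| ^ (-(1 / 4) : ℝ) := Finset.sum_nonneg fun e _ => by positivity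
        linarith
    _ ≤ 8 * (X : ℝ) ^ (3 / 4 : ℝ) := by linarith

private lemma card_near (X : ℕ) {y : ℝ} (hy : 0 < y) :
    ((Icc 1 X).filter (fun e : ℕ => ¬ 1 ≤ |(e : ℝ) - y|)).card ≤ 2 := by
  have : (Icc 1 X).filter (fun e : ℕ => ¬ 1 ≤ |(e : ℝ) - y|) ⊆ {⌊y⌋₊, ⌊y⌋₊ + 1} := by
    intro e he
    rw [Finset.mem_filter, not_le, abs_lt] at he
    obtain ⟨_, h1, h2⟩ := he
    have a1 : ((⌊y⌋₊ : ℕ) : ℝ) ≤ y := Nat.floor_le hy.le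
    have a2 := Nat.lt_floor_add_one y
    have b1 : ((⌊y⌋₊ : ℕ) : ℝ) < ((e + 1 : ℕ) : ℝ) := by push_cast; linarith
    have b2 : ((e : ℕ) : ℝ) < ((⌊y⌋₊ + 2 : ℕ) : ℝ) := by push_cast; linarith
    have c1 : ⌊y⌋₊ < e + 1 := by exact_mod_cast b1
    have c2 : e < ⌊y⌋₊ + 2 := by exact_mod_cast b2
    rw [Finset.mem_insert, Finset.mem_singleton]
    omega
  exact (Finset.card_le_card this).trans Finset.card_le_two

/-- PIECE [JB-C4] (about 150 lines). PROOF. Let `C` be a common constant of `JI_one`, `JI_two`, `y = A / n`; for `e ≤ X`, `z = A / e ≥ 1`, `|n - z| = (n / e) |e - y|`, so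
for `e ≠ y`: `‖JI n (A / e)‖ ≤ C (z |n - z|) ^ (-1/4) = C e ^ (1/2) (A n) ^ (-1/4) |e - y| ^ (-1/4)`. If `y ≥ 2 X`: `|e - y| ≥ y / 2`, each term is at most
`2 C X ^ (1/2) A ^ (-1/2)`. If `y < 2 X`: `n > A / (2 X)`, so each term with `|e - y| ≥ 1` is at most `2 C X ^ (3/4) A ^ (-1/2) |e - y| ^ (-1/4)`, and
`∑_{e ≤ X, |e - y| ≥ 1} |e - y| ^ (-1/4) ≤ 2 ∑_{1 ≤ j ≤ X} j ^ (-1/4) ≤ 4 X ^ (3/4)` (the numbers above, resp. below, `y`; for `X < j` a term `j ^ (-1/4)` can be replaced by smaller `j`);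
the at most two `e` with `|e - y| < 1` contribute at most `C (X / A) ^ (1/3)` each (`JI_one`). -/
theorem sum_e : ∃ C : ℝ, 0 ≤ C ∧ ∀ (n : ℕ) (A : ℝ) (X : ℕ), 1 ≤ n → 1 ≤ X → (X : ℝ) ≤ A →
    ∑ e ∈ Icc 1 X, ‖JI n (A / e)‖ ≤ C * (((X : ℝ) / A) ^ (1 / 3 : ℝ) + (X : ℝ) ^ (3 / 2 : ℝ) * A ^ (-(1 / 2) : ℝ)) := by
  obtain ⟨C1, hC1, h1⟩ := JI_one
  obtain ⟨C2, hC2, h2⟩ := JI_two
  refine ⟨2 * C1 + 16 * C2, by positivity, fun n A X hn hX hXA => ?_⟩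
  have hX0 : (0 : ℝ) < X := by exact_mod_cast hX
  have hA : 0 < A := hX0.trans_le hXA
  have hn0 : (0 : ℝ) < n := by exact_mod_cast hn
  set D : ℝ := ((X : ℝ) / A) ^ (1 / 3 : ℝ) with hD
  set B : ℝ := (X : ℝ) ^ (3 / 2 : ℝ) * A ^ (-(1 / 2) : ℝ) with hB
  have hD0 : 0 ≤ D := by positivity
  have hB0 : 0 ≤ B := by positivity
  have key : ∀ e ∈ Icc 1 X, 0 < (e : ℝ) ∧ (e : ℝ) ≤ X ∧ 1 ≤ A / e := by
    intro e he
    rw [Finset.mem_Icc] at he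
    have a : (0 : ℝ) < e := by exact_mod_cast he.1
    have b : (e : ℝ) ≤ X := by exact_mod_cast he.2
    exact ⟨a, b, (one_le_div a).2 (b.trans hXA)⟩
  rcases le_or_gt (2 * (X : ℝ)) (A / n) with hy | hy
  · -- `y ≥ 2 X`
    have hterm : ∀ e ∈ Icc 1 X, ‖JI n (A / e)‖ ≤
        C2 * (2 * (X : ℝ) ^ (3 / 4 : ℝ) * A ^ (-(1 / 2) : ℝ) * (X : ℝ) ^ (-(1 / 4) : ℝ)) := by
      intro e he
      obtain ⟨he0, heX, hz⟩ := key e he
      have hnA : (n : ℝ) * (2 * X) ≤ A := by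
        have := (le_div_iff₀ hn0).1 hy
        linarith
      have hAe : A / e * e = A := div_mul_cancel₀ A he0.ne'
      have hge : A / e / 2 ≤ A / e - n := by
        have : (n : ℝ) ≤ A / e / 2 := by
          rw [div_div, le_div_iff₀ (by positivity)]
          nlinarith
        linarith
      have hne : (n : ℝ) ≠ A / e := by
        intro h
        rw [← h] at hge
        linarith
      refine (h2 n (A / e) hz hne).trans ?_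
      refine mul_le_mul_of_nonneg_left ?_ hC2
      refine q_bound hA hX0 hX0 ?_
      rw [abs_sub_comm, abs_of_nonneg (by linarith [div_pos hA he0])]
      calc A ^ 2 * X / (2 * (X : ℝ) ^ 3) = (A / X) * (A / X / 2) := by field_simp
        _ ≤ A / e * (A / e / 2) := by gcongr
        _ ≤ A / e * (A / e - n) := by gcongr
    have e1 : (X : ℝ) * ((X : ℝ) ^ (3 / 4 : ℝ) * (X : ℝ) ^ (-(1 / 4) : ℝ)) = (X : ℝ) ^ (3 / 2 : ℝ) := by
      nth_rewrite 1 [← Real.rpow_one (X : ℝ)]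
      rw [← Real.rpow_add hX0, ← Real.rpow_add hX0]
      norm_num
    calc ∑ e ∈ Icc 1 X, ‖JI n (A / e)‖
        ≤ ∑ e ∈ Icc 1 X, C2 * (2 * (X : ℝ) ^ (3 / 4 : ℝ) * A ^ (-(1 / 2) : ℝ) * (X : ℝ) ^ (-(1 / 4) : ℝ)) :=
          Finset.sum_le_sum hterm
      _ = 2 * C2 * ((X : ℝ) * ((X : ℝ) ^ (3 / 4 : ℝ) * (X : ℝ) ^ (-(1 / 4) : ℝ)) * A ^ (-(1 / 2) : ℝ)) := by
          rw [Finset.sum_const, Nat.card_Icc, Nat.add_sub_cancel, nsmul_eq_mul]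
          ring
      _ = 2 * C2 * B := by rw [e1]
      _ ≤ (2 * C1 + 16 * C2) * (D + B) := by
          nlinarith [mul_nonneg hC1 hD0, mul_nonneg hC1 hB0, mul_nonneg hC2 hD0, mul_nonneg hC2 hB0]
  · -- `y < 2 X`
    set y : ℝ := A / n with hyd
    have hy0 : 0 < y := div_pos hA hn0
    have hAn : A = y * n := by rw [hyd, div_mul_cancel₀ A hn0.ne']
    rw [← Finset.sum_filter_add_sum_filter_not (Icc 1 X) (fun e : ℕ => 1 ≤ |(e : ℝ) - y|)]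
    have s1 : ∑ e ∈ (Icc 1 X).filter (fun e : ℕ => 1 ≤ |(e : ℝ) - y|), ‖JI n (A / e)‖ ≤ 16 * C2 * B := by
      have hterm : ∀ e ∈ (Icc 1 X).filter (fun e : ℕ => 1 ≤ |(e : ℝ) - y|), ‖JI n (A / e)‖ ≤
          C2 * (2 * (X : ℝ) ^ (3 / 4 : ℝ) * A ^ (-(1 / 2) : ℝ)) * |(e : ℝ) - y| ^ (-(1 / 4) : ℝ) := by
        intro e he
        rw [Finset.mem_filter] at he
        obtain ⟨he0, heX, hz⟩ := key e he.1
        have hm : 0 < |(e : ℝ) - y| := by linarith [he.2]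
        have habs : |(n : ℝ) - A / e| = n / e * |(e : ℝ) - y| := by
          have e0 : (n : ℝ) - A / e = n / e * ((e : ℝ) - y) := by
            rw [hAn]
            field_simp
          rw [e0, abs_mul, abs_of_pos (div_pos hn0 he0)]
        have hne : (n : ℝ) ≠ A / e := by
          intro h
          rw [← sub_eq_zero] at h
          rw [h, abs_zero] at habs
          have : 0 < n / e * |(e : ℝ) - y| := by positivity
          linarith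
        refine (h2 n (A / e) hz hne).trans ?_
        rw [mul_assoc C2]
        refine mul_le_mul_of_nonneg_left ?_ hC2
        refine q_bound hA hX0 hm ?_
        rw [habs]
        have hAX : A ≤ 2 * X * n := by
          rw [hAn]
          nlinarith
        calc A ^ 2 * |(e : ℝ) - y| / (2 * (X : ℝ) ^ 3) = A * (A / (2 * X)) * |(e : ℝ) - y| / (X : ℝ) ^ 2 := by
              field_simp
          _ ≤ A * n * |(e : ℝ) - y| / (X : ℝ) ^ 2 := by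
              gcongr
              rw [div_le_iff₀ (by positivity)]
              linarith
          _ ≤ A * n * |(e : ℝ) - y| / (e : ℝ) ^ 2 := by gcongr
          _ = A / e * (n / e * |(e : ℝ) - y|) := by field_simp
      have e1 : (X : ℝ) ^ (3 / 4 : ℝ) * (X : ℝ) ^ (3 / 4 : ℝ) = (X : ℝ) ^ (3 / 2 : ℝ) := by
        rw [← Real.rpow_add hX0]
        norm_num
      calc ∑ e ∈ (Icc 1 X).filter (fun e : ℕ => 1 ≤ |(e : ℝ) - y|), ‖JI n (A / e)‖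
          ≤ ∑ e ∈ (Icc 1 X).filter (fun e : ℕ => 1 ≤ |(e : ℝ) - y|),
            C2 * (2 * (X : ℝ) ^ (3 / 4 : ℝ) * A ^ (-(1 / 2) : ℝ)) * |(e : ℝ) - y| ^ (-(1 / 4) : ℝ) := Finset.sum_le_sum hterm
        _ = C2 * (2 * (X : ℝ) ^ (3 / 4 : ℝ) * A ^ (-(1 / 2) : ℝ)) *
            ∑ e ∈ (Icc 1 X).filter (fun e : ℕ => 1 ≤ |(e : ℝ) - y|), |(e : ℝ) - y| ^ (-(1 / 4) : ℝ) := by
            rw [Finset.mul_sum]
        _ ≤ C2 * (2 * (X : ℝ) ^ (3 / 4 : ℝ) * A ^ (-(1 / 2) : ℝ)) * (8 * (X : ℝ) ^ (3 / 4 : ℝ)) := by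
            gcongr
            exact sum_far hy0 hy
        _ = 16 * C2 * (((X : ℝ) ^ (3 / 4 : ℝ) * (X : ℝ) ^ (3 / 4 : ℝ)) * A ^ (-(1 / 2) : ℝ)) := by ring
        _ = 16 * C2 * B := by rw [e1]
    have s2 : ∑ e ∈ (Icc 1 X).filter (fun e : ℕ => ¬ 1 ≤ |(e : ℝ) - y|), ‖JI n (A / e)‖ ≤ 2 * C1 * D := by
      have hterm : ∀ e ∈ (Icc 1 X).filter (fun e : ℕ => ¬ 1 ≤ |(e : ℝ) - y|), ‖JI n (A / e)‖ ≤ C1 * D := by
        intro e he
        rw [Finset.mem_filter] at he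
        obtain ⟨he0, heX, hz⟩ := key e he.1
        refine (h1 n (A / e) (by linarith)).trans ?_
        refine mul_le_mul_of_nonneg_left ?_ hC1
        rw [hD, Real.rpow_neg (by positivity), ← Real.inv_rpow (by positivity), inv_div]
        exact Real.rpow_le_rpow (by positivity) (by gcongr) (by norm_num)
      refine (Finset.sum_le_card_nsmul _ _ _ hterm).trans ?_
      rw [nsmul_eq_mul]
      have : (((Icc 1 X).filter (fun e : ℕ => ¬ 1 ≤ |(e : ℝ) - y|)).card : ℝ) ≤ 2 := by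
        exact_mod_cast card_near X hy0
      nlinarith [mul_nonneg hC1 hD0]
    nlinarith [mul_nonneg hC1 hD0, mul_nonneg hC1 hB0, mul_nonneg hC2 hD0, mul_nonneg hC2 hB0]


end Pool.Agent.JB
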