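import Pool.Agent.Lib_MP_f1937f_jb.Defs

/-!
# Triples with sum divisible by `q`
-/

set_option autoImplicit false

namespace Pool.Agent.JB

open Finset Pool.Agent.TB

/-- number of `u ∈ {1, ..., H}` in the class `j` -/
private noncomputable def tN (H q : ℕ) (j : ZMod q) : ℝ :=
  (((Icc 1 H).filter (fun u : ℕ => (u : ZMod q) = j)).card : ℝ)

private theorem tN_sum (H q : ℕ) [NeZero q] (g : ZMod q → ℝ) :
    ∑ x ∈ Icc 1 H, g (x : ZMod q) = ∑ j : ZMod q, tN H q j * g j := by
  rw [← Finset.sum_fiberwise (Icc 1 H) (fun x : ℕ => (x : ZMod q)) (fun x => g (x : ZMod q))]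
  refine Finset.sum_congr rfl fun j _ => ?_
  rw [Finset.sum_congr rfl (g := fun _ => g j)]
  · rw [Finset.sum_const, nsmul_eq_mul]
    rfl
  · intro x hx
    rw [(mem_filter.1 hx).2]

private theorem tN_near (H q : ℕ) [NeZero q] (j : ZMod q) : |tN H q j - (H : ℝ) / q| ≤ 1 := by
  have hq : 0 < q := NeZero.pos q
  have h1 : ((Icc 1 H).filter (fun u : ℕ => (u : ZMod q) = j)) =
      (Ioc 0 H).filter (fun u : ℕ => u ≡ j.val [MOD q]) := by
    ext u
    rw [mem_filter, mem_filter, mem_Icc, mem_Ioc]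
    refine and_congr (by omega) ?_
    conv_lhs => rw [← ZMod.natCast_zmod_val j]
    exact ZMod.natCast_eq_natCast_iff u j.val q
  have h2 := Nat.Ioc_filter_modEq_card 0 H hq j.val
  rw [← h1] at h2
  set N := ((Icc 1 H).filter (fun u : ℕ => (u : ZMod q) = j)).card with hN
  set a : ℚ := ((H : ℚ) - (j.val : ℚ)) / (q : ℚ) with ha
  set b : ℚ := (((0 : ℕ) : ℚ) - (j.val : ℚ)) / (q : ℚ) with hb
  have hq' : (0 : ℚ) < q := by exact_mod_cast hq
  have hab : a = b + (H : ℚ) / q := by
    rw [ha, hb]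
    field_simp
    push_cast
    ring
  have hle : b ≤ a := by
    rw [hab]
    have : (0 : ℚ) ≤ (H : ℚ) / q := by positivity
    linarith
  have h3 : ((N : ℕ) : ℤ) = ⌊a⌋ - ⌊b⌋ := by
    rw [h2, max_eq_left]
    have := Int.floor_le_floor hle
    omega
  have h4 : ((N : ℕ) : ℚ) = (⌊a⌋ : ℚ) - (⌊b⌋ : ℚ) := by exact_mod_cast h3
  have h5 : |((N : ℕ) : ℚ) - (H : ℚ) / q| ≤ 1 := by
    have a1 := Int.floor_le a
    have a2 := Int.lt_floor_add_one a
    have b1 := Int.floor_le b
    have b2 := Int.lt_floor_add_one b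
    rw [h4, abs_le]
    constructor <;> linarith
  have h6 : ((|((N : ℕ) : ℚ) - (H : ℚ) / q| : ℚ) : ℝ) ≤ ((1 : ℚ) : ℝ) := by exact_mod_cast h5
  push_cast at h6
  exact h6

/-- PIECE [JB-B1] (about 150 lines). PROOF. Let `N j` be the number of `u ∈ {1, ..., H}` with `u ≡ j mod q` and `E j = N j - H / q`; `|E j| ≤ 1`
(`Nat.Ioc_filter_modEq_card` or `Nat.count_modEq_card`), `∑_{j mod q} E j = 0`. The count is
`∑_{i, j mod q} N i N j N (-i-j) = q ^ 2 (H / q) ^ 3 + 0 + 0 + ∑_{i, j} E i E j E (-i-j)` (all mixed terms vanish as `∑ E = 0`), and the last sum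
is at most `q ^ 2`. It is convenient to index by `ZMod q`. -/
theorem triple (H q : ℕ) (hq : 1 ≤ q) :
    |((((Icc 1 H ×ˢ Icc 1 H ×ˢ Icc 1 H).filter (fun x => q ∣ x.1 + x.2.1 + x.2.2)).card : ℕ) : ℝ) - (H : ℝ) ^ 3 / q| ≤
      (q : ℝ) ^ 2 := by
  haveI : NeZero q := ⟨by omega⟩
  have hq0 : (q : ℝ) ≠ 0 := by
    have : (0 : ℝ) < q := by exact_mod_cast hq
    exact this.ne'
  set h : ℝ := (H : ℝ) / q with hh
  set E : ZMod q → ℝ := fun j => tN H q j - h with hE
  have hNE : ∀ j, tN H q j = h + E j := fun j => by rw [hE]; ring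
  have hE1 : ∀ j, |E j| ≤ 1 := fun j => tN_near H q j
  have hcardq : (Fintype.card (ZMod q) : ℝ) = q := by rw [ZMod.card]
  have hE0 : ∑ j, E j = 0 := by
    have h1 := tN_sum H q (fun _ => 1)
    simp only [Finset.sum_const, Nat.card_Icc, nsmul_eq_mul, mul_one, Nat.add_sub_cancel] at h1
    rw [hE, Finset.sum_sub_distrib, ← h1, Finset.sum_const, Finset.card_univ, nsmul_eq_mul, hcardq, hh]
    field_simp
    ring
  have hEs : ∀ a : ZMod q, ∑ j, E (-a - j) = 0 := by
    intro a
    rw [← hE0]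
    exact Fintype.sum_equiv (Equiv.subLeft (-a)) _ _ (fun j => rfl)
  have hEs' : ∀ a : ZMod q, ∑ j, E (-j - a) = 0 := by
    intro a
    rw [← hE0]
    refine Fintype.sum_equiv (Equiv.subLeft (-a)) _ _ (fun j => ?_)
    simp only [Equiv.subLeft_apply]
    congr 1
    ring
  -- the three sums
  have hz : ∀ x y : ℕ, ∑ z ∈ Icc 1 H, (if (x : ZMod q) + y + z = 0 then (1 : ℝ) else 0) =
      h + E (-(x : ZMod q) - y) := by
    intro x y
    rw [← hNE, ← Finset.sum_filter, Finset.sum_const, nsmul_eq_mul, mul_one]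
    unfold tN
    congr 2
    ext z
    simp only [mem_filter]
    refine and_congr Iff.rfl ?_
    constructor
    · intro h1
      linear_combination h1
    · intro h1
      rw [h1]
      ring
  have hy : ∀ x : ℕ, ∑ y ∈ Icc 1 H, (h + E (-(x : ZMod q) - y)) =
      H * h + ∑ j, E j * E (-(x : ZMod q) - j) := by
    intro x
    rw [Finset.sum_add_distrib, Finset.sum_const, Nat.card_Icc, nsmul_eq_mul, Nat.add_sub_cancel,
      tN_sum H q (fun j => E (-(x : ZMod q) - j))]
    congr 1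
    have h1 : ∀ j, tN H q j * E (-(x : ZMod q) - j) = h * E (-(x : ZMod q) - j) + E j * E (-(x : ZMod q) - j) := by
      intro j
      rw [hNE]
      ring
    rw [Finset.sum_congr rfl (fun j _ => h1 j), Finset.sum_add_distrib, ← Finset.mul_sum, hEs, mul_zero, zero_add]
  have hx : ∑ x ∈ Icc 1 H, (H * h + ∑ j, E j * E (-(x : ZMod q) - j)) =
      H * (H * h) + ∑ j, E j * ∑ i, E i * E (-i - j) := by
    rw [Finset.sum_add_distrib, Finset.sum_const, Nat.card_Icc, nsmul_eq_mul, Nat.add_sub_cancel,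
      Finset.sum_comm]
    congr 1
    refine Finset.sum_congr rfl fun j _ => ?_
    rw [← Finset.mul_sum, tN_sum H q (fun i => E (-i - j))]
    congr 1
    have h1 : ∀ i, tN H q i * E (-i - j) = h * E (-i - j) + E i * E (-i - j) := by
      intro i
      rw [hNE]
      ring
    rw [Finset.sum_congr rfl (fun i _ => h1 i), Finset.sum_add_distrib, ← Finset.mul_sum, hEs', mul_zero, zero_add]
  have hcount : ((((Icc 1 H ×ˢ Icc 1 H ×ˢ Icc 1 H).filter (fun x => q ∣ x.1 + x.2.1 + x.2.2)).card : ℕ) : ℝ) =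
      H * (H * h) + ∑ j, E j * ∑ i, E i * E (-i - j) := by
    rw [← hx, ← Finset.sum_congr rfl (fun x _ => hy x)]
    rw [Finset.sum_congr rfl (fun x _ => Finset.sum_congr rfl (fun y _ => (hz x y).symm))]
    rw [Finset.card_eq_sum_ones, Finset.sum_filter]
    push_cast
    rw [Finset.sum_product]
    refine Finset.sum_congr rfl fun x _ => ?_
    rw [Finset.sum_product]
    refine Finset.sum_congr rfl fun y _ => Finset.sum_congr rfl fun z _ => ?_
    have h1 : (q ∣ x + y + z) ↔ ((x : ZMod q) + y + z = 0) := by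
      rw [← ZMod.natCast_eq_zero_iff]
      push_cast
      exact Iff.rfl
    simp only [h1]
  rw [hcount]
  have h2 : (H : ℝ) * (H * h) = (H : ℝ) ^ 3 / q := by
    rw [hh]
    field_simp
  rw [h2, add_sub_cancel_left]
  calc |∑ j, E j * ∑ i, E i * E (-i - j)| ≤ ∑ j, |E j * ∑ i, E i * E (-i - j)| := Finset.abs_sum_le_sum_abs _ _
    _ ≤ ∑ _j : ZMod q, (q : ℝ) := by
        refine Finset.sum_le_sum fun j _ => ?_
        rw [abs_mul]
        have h3 : |∑ i, E i * E (-i - j)| ≤ q := by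
          calc |∑ i, E i * E (-i - j)| ≤ ∑ i, |E i * E (-i - j)| := Finset.abs_sum_le_sum_abs _ _
            _ ≤ ∑ _i : ZMod q, (1 : ℝ) := by
                refine Finset.sum_le_sum fun i _ => ?_
                rw [abs_mul]
                exact mul_le_one₀ (hE1 i) (abs_nonneg _) (hE1 _)
            _ = q := by rw [Finset.sum_const, Finset.card_univ, nsmul_eq_mul, hcardq, mul_one]
        calc |E j| * |∑ i, E i * E (-i - j)| ≤ 1 * (q : ℝ) :=
              mul_le_mul (hE1 j) h3 (abs_nonneg _) zero_le_one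
          _ = q := one_mul _
    _ = (q : ℝ) ^ 2 := by
        rw [Finset.sum_const, Finset.card_univ, nsmul_eq_mul, hcardq]
        ring

end Pool.Agent.JB
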