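import Pool.Agent.Lib_MP_f1937f_jb.Defs

/-!
# Van der Corput's tests for integrals
-/

set_option autoImplicit false

namespace Pool.Agent.JB

open Finset Pool.Agent.TB

private lemma vdc_aux_first (φ φ' φ'' : ℝ → ℝ) (a b lam s : ℝ) (hs : |s| = 1) (hab : a ≤ b)
    (h1 : ∀ x ∈ Set.Icc a b, HasDerivAt φ (φ' x) x)
    (h2 : ∀ x ∈ Set.Icc a b, HasDerivAt φ' (φ'' x) x) (hc : ContinuousOn φ'' (Set.Icc a b))
    (hm : ∀ x ∈ Set.Icc a b, 0 ≤ s * φ'' x) (hlam : 0 < lam)
    (hl : ∀ x ∈ Set.Icc a b, lam ≤ |φ' x|) :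
    ‖∫ x in a..b, Complex.exp ((φ x : ℂ) * Complex.I)‖ ≤ 4 / lam := by
  have hne : ∀ x ∈ Set.Icc a b, φ' x ≠ 0 := by
    intro x hx h0
    have := hl x hx
    rw [h0, abs_zero] at this
    linarith
  have cφ : ContinuousOn φ (Set.Icc a b) := fun x hx => (h1 x hx).continuousAt.continuousWithinAt
  have cφ' : ContinuousOn φ' (Set.Icc a b) := fun x hx => (h2 x hx).continuousAt.continuousWithinAt
  have hE : ∀ x ∈ Set.Icc a b, HasDerivAt (fun y => Complex.exp ((φ y : ℂ) * Complex.I))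
      (Complex.exp ((φ x : ℂ) * Complex.I) * ((φ' x : ℂ) * Complex.I)) x := by
    intro x hx
    exact (((h1 x hx).ofReal_comp).mul_const Complex.I).cexp
  have cE : ContinuousOn (fun y => Complex.exp ((φ y : ℂ) * Complex.I)) (Set.Icc a b) :=
    fun x hx => (hE x hx).continuousAt.continuousWithinAt
  have cq : ContinuousOn (fun x => φ'' x / φ' x ^ 2) (Set.Icc a b) :=
    hc.div (cφ'.pow 2) fun x hx => pow_ne_zero 2 (hne x hx)
  have hF : ∀ x ∈ Set.Icc a b, HasDerivAt (fun y => Complex.exp ((φ y : ℂ) * Complex.I) / ((φ' y : ℂ) * Complex.I))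
      (Complex.exp ((φ x : ℂ) * Complex.I) +
        Complex.exp ((φ x : ℂ) * Complex.I) * ((φ'' x / φ' x ^ 2 : ℝ) : ℂ) * Complex.I) x := by
    intro x hx
    have hne' : (φ' x : ℂ) ≠ 0 := by exact_mod_cast hne x hx
    have k := (hE x hx).div (((h2 x hx).ofReal_comp).mul_const Complex.I)
      (mul_ne_zero hne' Complex.I_ne_zero)
    refine k.congr_deriv ?_
    push_cast
    have hI : Complex.I ^ 2 = -1 := Complex.I_sq
    field_simp
    linear_combination (-(φ'' x : ℂ)) * hI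
  have cEq : ContinuousOn (fun x => Complex.exp ((φ x : ℂ) * Complex.I) * ((φ'' x / φ' x ^ 2 : ℝ) : ℂ) * Complex.I)
      (Set.Icc a b) := by
    refine (cE.mul ?_).mul continuousOn_const
    exact Complex.continuous_ofReal.comp_continuousOn cq
  have i1 : IntervalIntegrable (fun x => Complex.exp ((φ x : ℂ) * Complex.I)) MeasureTheory.volume a b :=
    cE.intervalIntegrable_of_Icc hab
  have i2 : IntervalIntegrable (fun x => Complex.exp ((φ x : ℂ) * Complex.I) * ((φ'' x / φ' x ^ 2 : ℝ) : ℂ) * Complex.I)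
      MeasureTheory.volume a b := cEq.intervalIntegrable_of_Icc hab
  have i3 : IntervalIntegrable (fun x => φ'' x / φ' x ^ 2) MeasureTheory.volume a b :=
    cq.intervalIntegrable_of_Icc hab
  have e1 := intervalIntegral.integral_eq_sub_of_hasDerivAt
    (f := fun y => Complex.exp ((φ y : ℂ) * Complex.I) / ((φ' y : ℂ) * Complex.I))
    (fun x hx => hF x (by rwa [Set.uIcc_of_le hab] at hx)) (i1.add i2)
  rw [intervalIntegral.integral_add i1 i2] at e1
  have hG : ∀ x ∈ Set.Icc a b, HasDerivAt (fun y => -(φ' y)⁻¹) (φ'' x / φ' x ^ 2) x := by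
    intro x hx
    have := ((h2 x hx).inv (hne x hx)).neg
    refine this.congr_deriv ?_
    ring
  have e2 := intervalIntegral.integral_eq_sub_of_hasDerivAt
    (fun x hx => hG x (by rwa [Set.uIcc_of_le hab] at hx)) i3
  have ha : a ∈ Set.Icc a b := Set.left_mem_Icc.2 hab
  have hb : b ∈ Set.Icc a b := Set.right_mem_Icc.2 hab
  have hinv : ∀ x ∈ Set.Icc a b, |(φ' x)⁻¹| ≤ 1 / lam := by
    intro x hx
    rw [abs_inv, ← one_div]
    exact one_div_le_one_div_of_le hlam (hl x hx)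
  have hFn : ∀ x ∈ Set.Icc a b, ‖Complex.exp ((φ x : ℂ) * Complex.I) / ((φ' x : ℂ) * Complex.I)‖ ≤ 1 / lam := by
    intro x hx
    rw [norm_div, Complex.norm_exp_ofReal_mul_I, norm_mul, Complex.norm_I, mul_one, Complex.norm_real,
      Real.norm_eq_abs]
    exact one_div_le_one_div_of_le hlam (hl x hx)
  have hN : ‖∫ x in a..b, Complex.exp ((φ x : ℂ) * Complex.I) * ((φ'' x / φ' x ^ 2 : ℝ) : ℂ) * Complex.I‖ ≤ 2 / lam := by
    have k1 : ‖∫ x in a..b, Complex.exp ((φ x : ℂ) * Complex.I) * ((φ'' x / φ' x ^ 2 : ℝ) : ℂ) * Complex.I‖ ≤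
        ∫ x in a..b, s * (φ'' x / φ' x ^ 2) := by
      refine intervalIntegral.norm_integral_le_of_norm_le hab ?_ (i3.const_mul s)
      refine Filter.Eventually.of_forall fun x hx => ?_
      have hx' : x ∈ Set.Icc a b := ⟨hx.1.le, hx.2⟩
      rw [norm_mul, norm_mul, Complex.norm_exp_ofReal_mul_I, Complex.norm_I, one_mul, mul_one, Complex.norm_real,
        Real.norm_eq_abs]
      have h0 : 0 ≤ s * (φ'' x / φ' x ^ 2) := by
        rw [← mul_div_assoc]
        exact div_nonneg (hm x hx') (sq_nonneg _)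
      calc |φ'' x / φ' x ^ 2| = |s| * |φ'' x / φ' x ^ 2| := by rw [hs, one_mul]
        _ = |s * (φ'' x / φ' x ^ 2)| := (abs_mul _ _).symm
        _ = s * (φ'' x / φ' x ^ 2) := abs_of_nonneg h0
        _ ≤ _ := le_rfl
    rw [intervalIntegral.integral_const_mul, e2] at k1
    refine k1.trans ?_
    have := hinv a ha
    have := hinv b hb
    calc s * (-(φ' b)⁻¹ - -(φ' a)⁻¹) ≤ |s * (-(φ' b)⁻¹ - -(φ' a)⁻¹)| := le_abs_self _
      _ = |(φ' a)⁻¹ - (φ' b)⁻¹| := by
          rw [abs_mul, hs, one_mul]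
          congr 1
          ring
      _ ≤ |(φ' a)⁻¹| + |(φ' b)⁻¹| := abs_sub _ _
      _ ≤ 1 / lam + 1 / lam := by gcongr
      _ = 2 / lam := by ring
  have e3 : ∫ x in a..b, Complex.exp ((φ x : ℂ) * Complex.I) =
      Complex.exp ((φ b : ℂ) * Complex.I) / ((φ' b : ℂ) * Complex.I) -
      Complex.exp ((φ a : ℂ) * Complex.I) / ((φ' a : ℂ) * Complex.I) -
      ∫ x in a..b, Complex.exp ((φ x : ℂ) * Complex.I) * ((φ'' x / φ' x ^ 2 : ℝ) : ℂ) * Complex.I := by
    rw [← e1]
    ring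
  rw [e3]
  calc _ ≤ ‖Complex.exp ((φ b : ℂ) * Complex.I) / ((φ' b : ℂ) * Complex.I) -
        Complex.exp ((φ a : ℂ) * Complex.I) / ((φ' a : ℂ) * Complex.I)‖ + 2 / lam :=
        (norm_sub_le _ _).trans (by gcongr)
    _ ≤ 1 / lam + 1 / lam + 2 / lam := by
        gcongr
        exact (norm_sub_le _ _).trans (add_le_add (hFn b hb) (hFn a ha))
    _ = 4 / lam := by ring

/-- PIECE [JB-C1] (both theorems, about 150 lines). First derivative test. PROOF. `φ'` does not vanish on `[a, b]`, so it has constant sign. Integrate by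
parts: `exp (i φ) = (i φ' exp (i φ)) * (1 / (i φ'))`, the integral is `[exp (i φ) / (i φ')] + ∫ exp (i φ) φ'' / (i φ' ^ 2)`, and
`∫ |φ''| / φ' ^ 2 = |1 / φ' a - 1 / φ' b| ≤ 2 / lam`. -/
theorem vdc_first (φ φ' φ'' : ℝ → ℝ) (a b lam : ℝ) (hab : a ≤ b) (h1 : ∀ x ∈ Set.Icc a b, HasDerivAt φ (φ' x) x)
    (h2 : ∀ x ∈ Set.Icc a b, HasDerivAt φ' (φ'' x) x) (hc : ContinuousOn φ'' (Set.Icc a b))
    (hm : (∀ x ∈ Set.Icc a b, 0 ≤ φ'' x) ∨ ∀ x ∈ Set.Icc a b, φ'' x ≤ 0) (hlam : 0 < lam)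
    (hl : ∀ x ∈ Set.Icc a b, lam ≤ |φ' x|) :
    ‖∫ x in a..b, Complex.exp ((φ x : ℂ) * Complex.I)‖ ≤ 4 / lam := by
  rcases hm with hm | hm
  · exact vdc_aux_first φ φ' φ'' a b lam 1 (by simp) hab h1 h2 hc (fun x hx => by simpa using hm x hx) hlam hl
  · exact vdc_aux_first φ φ' φ'' a b lam (-1) (by simp) hab h1 h2 hc (fun x hx => by simpa using hm x hx) hlam hl

private lemma vdc_aux_second (φ φ' φ'' : ℝ → ℝ) (a b mu : ℝ) (hab : a ≤ b) (h1 : ∀ x ∈ Set.Icc a b, HasDerivAt φ (φ' x) x)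
    (h2 : ∀ x ∈ Set.Icc a b, HasDerivAt φ' (φ'' x) x) (hc : ContinuousOn φ'' (Set.Icc a b)) (hmu : 0 < mu)
    (hm : ∀ x ∈ Set.Icc a b, mu ≤ φ'' x) :
    ‖∫ x in a..b, Complex.exp ((φ x : ℂ) * Complex.I)‖ ≤ 10 / √mu := by
  have cφ' : ContinuousOn φ' (Set.Icc a b) := fun x hx => (h2 x hx).continuousAt.continuousWithinAt
  have cE : ContinuousOn (fun y => Complex.exp ((φ y : ℂ) * Complex.I)) (Set.Icc a b) :=
    fun x hx => ((((h1 x hx).ofReal_comp).mul_const Complex.I).cexp).continuousAt.continuousWithinAt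
  -- growth of `φ'`
  have grow : ∀ x ∈ Set.Icc a b, ∀ y ∈ Set.Icc a b, x ≤ y → mu * (y - x) ≤ φ' y - φ' x := by
    intro x hx y hy hxy
    refine (convex_Icc a b).mul_sub_le_image_sub_of_le_deriv cφ' ?_ ?_ x hx y hy hxy
    · intro t ht
      exact (h2 t (interior_subset ht)).differentiableAt.differentiableWithinAt
    · intro t ht
      rw [(h2 t (interior_subset ht)).deriv]
      exact hm t (interior_subset ht)
  have ha : a ∈ Set.Icc a b := Set.left_mem_Icc.2 hab
  have hb : b ∈ Set.Icc a b := Set.right_mem_Icc.2 hab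
  obtain ⟨x0, hx0, hx0'⟩ : ∃ x0 ∈ Set.Icc a b, ∀ x ∈ Set.Icc a b, mu * |x - x0| ≤ |φ' x| := by
    rcases le_or_gt 0 (φ' a) with h | h
    · refine ⟨a, ha, fun x hx => ?_⟩
      have := grow a ha x hx hx.1
      rw [abs_of_nonneg (sub_nonneg.2 hx.1)]
      exact le_trans (by linarith) (le_abs_self _)
    · rcases le_or_gt (φ' b) 0 with h' | h'
      · refine ⟨b, hb, fun x hx => ?_⟩
        have := grow x hx b hb hx.2
        rw [abs_sub_comm, abs_of_nonneg (sub_nonneg.2 hx.2)]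
        exact le_trans (by linarith) (neg_le_abs _)
      · obtain ⟨x0, hx0, h0⟩ := intermediate_value_Icc hab cφ' ⟨h.le, h'.le⟩
        refine ⟨x0, hx0, fun x hx => ?_⟩
        rcases le_total x0 x with hle | hle
        · have := grow x0 hx0 x hx hle
          rw [abs_of_nonneg (sub_nonneg.2 hle)]
          exact le_trans (by linarith) (le_abs_self _)
        · have := grow x hx x0 hx0 hle
          rw [abs_sub_comm, abs_of_nonneg (sub_nonneg.2 hle)]
          exact le_trans (by linarith) (neg_le_abs _)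
  have hs : 0 < √mu := Real.sqrt_pos.2 hmu
  have hss : √mu * √mu = mu := Real.mul_self_sqrt hmu.le
  set δ : ℝ := 1 / √mu with hδ
  have hδ0 : 0 < δ := by positivity
  have hmd : mu * δ = √mu := by
    rw [hδ]
    field_simp
    linarith [Real.sq_sqrt hmu.le]
  set c1 : ℝ := max a (x0 - δ) with hc1
  set c2 : ℝ := min b (x0 + δ) with hc2
  have a1 : a ≤ c1 := le_max_left _ _
  have a2 : c1 ≤ x0 := max_le hx0.1 (by linarith)
  have a3 : x0 ≤ c2 := le_min hx0.2 (by linarith)
  have a4 : c2 ≤ b := min_le_left _ _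
  have int1 : IntervalIntegrable (fun y => Complex.exp ((φ y : ℂ) * Complex.I)) MeasureTheory.volume a c1 :=
    (cE.mono (Set.Icc_subset_Icc le_rfl (a2.trans (a3.trans a4)))).intervalIntegrable_of_Icc a1
  have int2 : IntervalIntegrable (fun y => Complex.exp ((φ y : ℂ) * Complex.I)) MeasureTheory.volume c1 c2 :=
    (cE.mono (Set.Icc_subset_Icc a1 a4)).intervalIntegrable_of_Icc (a2.trans a3)
  have int3 : IntervalIntegrable (fun y => Complex.exp ((φ y : ℂ) * Complex.I)) MeasureTheory.volume c2 b :=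
    (cE.mono (Set.Icc_subset_Icc (a1.trans (a2.trans a3)) le_rfl)).intervalIntegrable_of_Icc a4
  have b1 : ‖∫ x in a..c1, Complex.exp ((φ x : ℂ) * Complex.I)‖ ≤ 4 / √mu := by
    rcases le_or_gt (x0 - δ) a with h | h
    · have : c1 = a := max_eq_left h
      rw [this, intervalIntegral.integral_same, norm_zero]
      positivity
    · have hcc : c1 = x0 - δ := max_eq_right h.le
      have sub : Set.Icc a c1 ⊆ Set.Icc a b := Set.Icc_subset_Icc le_rfl (a2.trans (a3.trans a4))
      refine vdc_first φ φ' φ'' a c1 (√mu) a1 (fun x hx => h1 x (sub hx)) (fun x hx => h2 x (sub hx)) (hc.mono sub)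
        (Or.inl fun x hx => hmu.le.trans (hm x (sub hx))) hs ?_
      intro x hx
      refine le_trans ?_ (hx0' x (sub hx))
      rw [← hmd]
      refine mul_le_mul_of_nonneg_left ?_ hmu.le
      rw [abs_sub_comm]
      refine le_trans ?_ (le_abs_self _)
      have := hx.2
      rw [hcc] at this
      linarith
  have b3 : ‖∫ x in c2..b, Complex.exp ((φ x : ℂ) * Complex.I)‖ ≤ 4 / √mu := by
    rcases le_or_gt b (x0 + δ) with h | h
    · have : c2 = b := min_eq_left h
      rw [this, intervalIntegral.integral_same, norm_zero]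
      positivity
    · have hcc : c2 = x0 + δ := min_eq_right h.le
      have sub : Set.Icc c2 b ⊆ Set.Icc a b := Set.Icc_subset_Icc (a1.trans (a2.trans a3)) le_rfl
      refine vdc_first φ φ' φ'' c2 b (√mu) a4 (fun x hx => h1 x (sub hx)) (fun x hx => h2 x (sub hx)) (hc.mono sub)
        (Or.inl fun x hx => hmu.le.trans (hm x (sub hx))) hs ?_
      intro x hx
      refine le_trans ?_ (hx0' x (sub hx))
      rw [← hmd]
      refine mul_le_mul_of_nonneg_left ?_ hmu.le
      refine le_trans ?_ (le_abs_self _)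
      have := hx.1
      rw [hcc] at this
      linarith
  have b2 : ‖∫ x in c1..c2, Complex.exp ((φ x : ℂ) * Complex.I)‖ ≤ 2 / √mu := by
    have := intervalIntegral.norm_integral_le_of_norm_le_const (a := c1) (b := c2) (C := 1)
      (f := fun x => Complex.exp ((φ x : ℂ) * Complex.I))
      (fun x _ => (Complex.norm_exp_ofReal_mul_I _).le)
    refine this.trans ?_
    rw [one_mul, abs_of_nonneg (sub_nonneg.2 (a2.trans a3))]
    have k1 : c2 ≤ x0 + δ := min_le_right _ _
    have k2 : x0 - δ ≤ c1 := le_max_right _ _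
    have : 2 / √mu = 2 * δ := by rw [hδ]; ring
    rw [this]
    linarith
  have e : ∫ x in a..b, Complex.exp ((φ x : ℂ) * Complex.I) =
      (∫ x in a..c1, Complex.exp ((φ x : ℂ) * Complex.I)) + (∫ x in c1..c2, Complex.exp ((φ x : ℂ) * Complex.I)) +
      ∫ x in c2..b, Complex.exp ((φ x : ℂ) * Complex.I) := by
    rw [intervalIntegral.integral_add_adjacent_intervals int1 int2,
      intervalIntegral.integral_add_adjacent_intervals (int1.trans int2) int3]
  rw [e]
  calc _ ≤ 4 / √mu + 2 / √mu + 4 / √mu := by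
        refine (norm_add_le _ _).trans (add_le_add ?_ b3)
        exact (norm_add_le _ _).trans (add_le_add b1 b2)
    _ = 10 / √mu := by ring

/-- Second derivative test. PROOF. Say `φ'' ≥ mu`, so `φ' y - φ' x ≥ mu (y - x)`. The set `|φ'| < √mu` lies in an interval of length `2 / √mu` (trivial
bound); on the two remaining intervals use `vdc_first` with `lam = √mu`: in total at most `10 / √mu`. -/
theorem vdc_second (φ φ' φ'' : ℝ → ℝ) (a b mu : ℝ) (hab : a ≤ b) (h1 : ∀ x ∈ Set.Icc a b, HasDerivAt φ (φ' x) x)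
    (h2 : ∀ x ∈ Set.Icc a b, HasDerivAt φ' (φ'' x) x) (hc : ContinuousOn φ'' (Set.Icc a b)) (hmu : 0 < mu)
    (hm : (∀ x ∈ Set.Icc a b, mu ≤ φ'' x) ∨ ∀ x ∈ Set.Icc a b, φ'' x ≤ -mu) :
    ‖∫ x in a..b, Complex.exp ((φ x : ℂ) * Complex.I)‖ ≤ 10 / √mu := by
  rcases hm with hm | hm
  · exact vdc_aux_second φ φ' φ'' a b mu hab h1 h2 hc hmu hm
  · have k := vdc_aux_second (fun x => -φ x) (fun x => -φ' x) (fun x => -φ'' x) a b mu hab
      (fun x hx => (h1 x hx).neg) (fun x hx => (h2 x hx).neg) hc.neg hmu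
      (fun x hx => by have := hm x hx; linarith)
    have e : ∫ x in a..b, Complex.exp (((-φ x : ℝ) : ℂ) * Complex.I) =
        (starRingEnd ℂ) (∫ x in a..b, Complex.exp ((φ x : ℂ) * Complex.I)) := by
      rw [intervalIntegral.integral_of_le hab, intervalIntegral.integral_of_le hab, ← integral_conj]
      refine MeasureTheory.integral_congr_ae (Filter.Eventually.of_forall fun x => ?_)
      simp only
      rw [← Complex.exp_conj]
      congr 1
      simp
    rw [e, RCLike.norm_conj] at k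
    exact k


end Pool.Agent.JB
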