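import Pool.Agent.Lib_MP_f1937f_jb.Defs

/-!
# The equation y z = c
-/

set_option autoImplicit false

namespace Pool.Agent.JB

open Finset Pool.Agent.TB

/-- the kernel of the multiplication by `y` -/
private theorem card_ker (n : ℕ) (hn : 0 < n) (y : ZMod n) :
    Nat.card {z : ZMod n // y * z = 0} = n.gcd y.val := by
  have : NeZero n := ⟨hn.ne'⟩
  have h := IsAddCyclic.card_nsmulAddMonoidHom_ker (G := ZMod n) y.val
  rw [Nat.card_zmod] at h
  rw [← h]
  refine Nat.card_congr (Equiv.subtypeEquivRight fun z => ?_)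
  rw [AddMonoidHom.mem_ker, nsmulAddMonoidHom_apply, nsmul_eq_mul, ZMod.natCast_zmod_val]

/-- the fibre of the multiplication by `y` -/
private theorem card_fibre (n : ℕ) (hn : 0 < n) (c : ℤ) (y : ZMod n) :
    Nat.card {z : ZMod n // y * z = (c : ZMod n)} =
      if ((n.gcd y.val : ℕ) : ℤ) ∣ c then n.gcd y.val else 0 := by
  have : NeZero n := ⟨hn.ne'⟩
  split_ifs with h
  · obtain ⟨q, hq⟩ := h
    have hb := congrArg (Int.cast : ℤ → ZMod n) (Nat.gcd_eq_gcd_ab n y.val)
    push_cast at hb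
    rw [ZMod.natCast_self, zero_mul, zero_add, ZMod.natCast_zmod_val] at hb
    have hz : y * ((Nat.gcdB n y.val : ZMod n) * (q : ZMod n)) = (c : ZMod n) := by
      rw [← mul_assoc, ← hb, hq]; push_cast; rfl
    rw [← card_ker n hn y]
    refine Nat.card_congr (Equiv.subtypeEquiv
      (Equiv.subRight ((Nat.gcdB n y.val : ZMod n) * (q : ZMod n))) fun z => ?_)
    rw [Equiv.subRight_apply, mul_sub, hz, sub_eq_zero]
  · rw [Nat.card_eq_zero]
    left
    constructor
    rintro ⟨z, hz⟩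
    apply h
    have h1 : (((y.val : ℤ) * (z.val : ℤ) : ℤ) : ZMod n) = ((c : ℤ) : ZMod n) := by
      push_cast
      rw [ZMod.natCast_zmod_val, ZMod.natCast_zmod_val]
      exact hz
    have h2 := (ZMod.intCast_eq_intCast_iff_dvd_sub _ _ n).1 h1
    have h3 : ((n.gcd y.val : ℕ) : ℤ) ∣ c - (y.val : ℤ) * (z.val : ℤ) :=
      (Int.natCast_dvd_natCast.2 (Nat.gcd_dvd_left n y.val)).trans h2
    have h4 : ((n.gcd y.val : ℕ) : ℤ) ∣ (y.val : ℤ) * (z.val : ℤ) :=
      (Int.natCast_dvd_natCast.2 (Nat.gcd_dvd_right n y.val)).mul_right _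
    have := dvd_add h3 h4
    rwa [sub_add_cancel] at this

/-- PIECE [JB-G1] (about 120 lines). PROOF. For fixed `y` with `gcd (y, n) = e` the number of `z` with `y z = c` is `e` if `e ∣ c`, else `0`; the number of `y` modulo `n` with
`gcd (y, n) = e` is `φ (n / e)` (`Nat.filter_coprime_Ico_eq_totient`, `Nat.totient_div_of_dvd`, or group theory). -/
theorem card_yz (n : ℕ) (hn : 0 < n) (c : ℤ) : Nat.card {x : ZMod n × ZMod n // x.1 * x.2 = (c : ZMod n)} =
    ∑ e ∈ n.divisors, (if (e : ℤ) ∣ c then e * (n / e).totient else 0) := by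
  have : NeZero n := ⟨hn.ne'⟩
  rw [Nat.card_congr (Equiv.subtypeProdEquivSigmaSubtype (fun y z : ZMod n => y * z = (c : ZMod n))),
    Nat.card_sigma]
  rw [Finset.sum_congr rfl fun y _ => card_fibre n hn c y]
  have h1 : ∑ y : ZMod n, (if ((n.gcd y.val : ℕ) : ℤ) ∣ c then n.gcd y.val else 0) =
      ∑ k ∈ range n, (if ((n.gcd k : ℕ) : ℤ) ∣ c then n.gcd k else 0) := by
    obtain ⟨m, rfl⟩ := Nat.exists_eq_succ_of_ne_zero hn.ne'
    exact Fin.sum_univ_eq_sum_range
      (fun k => if (((m + 1).gcd k : ℕ) : ℤ) ∣ c then (m + 1).gcd k else 0) (m + 1)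
  rw [h1, ← Finset.sum_fiberwise_of_maps_to (s := range n) (t := n.divisors) (g := fun k => n.gcd k)
    (fun k _ => Nat.mem_divisors.2 ⟨Nat.gcd_dvd_left n k, hn.ne'⟩)]
  refine Finset.sum_congr rfl fun e he => ?_
  rw [Finset.sum_congr rfl (g := fun _ => if (e : ℤ) ∣ c then e else 0) fun k hk => by
    rw [(Finset.mem_filter.1 hk).2], Finset.sum_const, smul_eq_mul,
    ← Nat.totient_div_of_dvd (Nat.dvd_of_mem_divisors he)]
  split_ifs
  · ring
  · rfl

end Pool.Agent.JB
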